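import Mathlib

/-!
# BGN BaerD: injective dimension is detected by finitely generated modules

PROOF.  Induction on `n`, for all `Y`.
`n = 0`: `Ext^1(R/J, Y) = 0` for all left ideals `J`: every homomorphism `J → Y` extends to `R`
(sequence `0 → J → R → R/J → 0`, `Ext.contravariant_sequence_exact₁`: the composite of
`Hom(J, Y) → Ext^1(R/J, Y)` is zero so it comes from `Hom(R, Y)`), so `Y` is injective by
Baer's criterion (`Module.Baer.injective`, `Module.injective_object_of_injective_module`) and
`HasInjectiveDimensionLE Y 0` (`injective_iff_hasInjectiveDimensionLT_one`).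
`n + 1`: `0 → Y → I → Y' → 0`, `I` injective (`Injective.under`); for `i > n`,
`Ext^i(M, Y') ≅ Ext^{i+1}(M, Y) = 0` (`Ext^i(M, Y') → Ext^{i+1}(M, Y)` is injective because
`Ext^i(M, I) = 0`, `i ≥ 1`, `Ext.eq_zero_of_injective`, `Ext.covariant_sequence_exact₃`).  So
`HasInjectiveDimensionLE Y' n`, and then `Y` (`ShortExact.hasInjectiveDimensionLT_X₁`...).
-/

namespace BGN

open CategoryTheory Abelian

universe u

theorem injDimLE_of_fg {R : Type u} [Ring R] (Y : ModuleCat.{u} R) (n : ℕ)
    (h : ∀ i, n < i → ∀ M : ModuleCat.{u} R, Module.Finite R M → ∀ x : Ext M Y i, x = 0) :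
    HasInjectiveDimensionLE Y n := by
  induction n generalizing Y with
  | zero =>
    have hinj : Module.Injective R Y := by
      apply Module.Baer.injective
      intro I g
      let S : ShortComplex (ModuleCat.{u} R) :=
        ShortComplex.mk (ModuleCat.ofHom (Submodule.subtype I)) (ModuleCat.ofHom (Submodule.mkQ I))
          (by ext x; simp)
      have hS : S.ShortExact :=
        { exact := by
            rw [ShortComplex.ShortExact.moduleCat_exact_iff_function_exact]
            intro x
            constructor
            · intro hx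
              have hx' : x ∈ I := (Submodule.Quotient.mk_eq_zero I).mp hx
              exact ⟨⟨x, hx'⟩, rfl⟩
            · rintro ⟨y, rfl⟩
              exact (Submodule.Quotient.mk_eq_zero I).mpr y.2
          mono_f := (ModuleCat.mono_iff_injective _).mpr (Submodule.injective_subtype I)
          epi_g := (ModuleCat.epi_iff_surjective _).mpr (Submodule.mkQ_surjective I) }
      have hfin : Module.Finite R (ModuleCat.of R (R ⧸ I)) :=
        inferInstanceAs (Module.Finite R (R ⧸ I))
      obtain ⟨φ, hφ⟩ := Ext.contravariant_sequence_exact₁ hS Y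
        (Ext.mk₀ (ModuleCat.ofHom g)) (show 1 + 0 = 1 from rfl)
        (h 1 Nat.zero_lt_one _ hfin _)
      obtain ⟨φ, rfl⟩ := Ext.homEquiv₀.symm.surjective φ
      have hφ2 : S.f ≫ φ = ModuleCat.ofHom g :=
        Ext.homEquiv₀.symm.injective (by simpa using hφ)
      refine ⟨φ.hom, fun x hx => ?_⟩
      exact ConcreteCategory.congr_hom hφ2 (⟨x, hx⟩ : I)
    have : Injective Y := Module.injective_object_of_injective_module R Y
    exact injective_iff_hasInjectiveDimensionLT_one.mp this
  | succ n ih =>
    have ei : EnoughInjectives (ModuleCat.{u} R) := inferInstance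
    rcases ei.1 Y with ⟨I, inj, f, monof⟩
    let T := ShortComplex.mk f (Limits.cokernel.π f) (Limits.cokernel.condition f)
    have hT : T.ShortExact := { exact := ShortComplex.exact_cokernel f }
    have : Injective T.X₂ := inj
    have h3 : HasInjectiveDimensionLE T.X₃ n := by
      apply ih
      intro i hi M hM x
      have hx : x.comp hT.extClass (rfl : i + 1 = i + 1) = 0 := h (i + 1) (by omega) M hM _
      obtain ⟨y, rfl⟩ := Ext.covariant_sequence_exact₃ M hT x rfl hx
      obtain ⟨j, rfl⟩ : ∃ j, i = j + 1 := ⟨i - 1, by omega⟩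
      rw [Ext.eq_zero_of_injective y, Ext.zero_comp]
    exact (hT.hasInjectiveDimensionLT_X₃_iff n this).mp h3

end BGN
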