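import Pool.Agent.BGN.Tw

/-!
# BGN BiM: bimodules

A bimodule is a left `R`-module `W` with commuting right multiplications `r b : W ⟶ W`,
`r (a b) = r a ≫ r b`, finitely generated on both sides.

PROOFS.  `exists_sub`, `exists_quot`: restrict / pass to the quotient (`LinearMap.restrict`,
`Submodule.mapQ`).  Finite generation on the left: `R` left noetherian.  On the right: make `W` a
`Module Rᵐᵒᵖ` (`op b • w = r b w`, use `r_add r_mul r_one`), it is finitely generated over
`Rᵐᵒᵖ`, noetherian, so the stable submodule is finitely generated.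
`exists_rtwist`: `Q` prime, `Nrm Q z`, `W Q = 0`.  `B = R ⧸ Q` and `exists_aut` for `z̄` give
`τ : B ≃+* B`, `z̄ b = τ(b) z̄`, so `z̄^m b = τ^m(b) z̄^m`.  `W` has right multiplications
`r̄ : B → (W ⟶ W)` (`r` factors through `B`).  Define `C = W` with `C.r c := r̄ (τ^{-m}(c̄))`.  If
`z^m b - c z^m ∈ Q` then `τ^m(b̄) = c̄`, so `C.r c = r̄ b̄ = r b`.  `C.r_alg`: `τ` fixes the image of
`k` (central elements: `z̄ c = c z̄`).
`exists_rtorsion`: `N = {w | ∃ m, (r z)^m w = 0}` is stable under `R` and under all `r b`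
(`w b z^m = w z^m c`); it is finitely generated so `N z^m = 0` for one `m`.
`range_stable`: `W z = range (r z)` is stable under right multiplications: `(w z) b = (w c) z`
with `z b - c z ∈ Q`.
-/

namespace BGN

open CategoryTheory Abelian

universe u

/-- A bimodule, finitely generated on both sides, with `k` acting centrally. -/
structure BiMod (k : Type u) [Field k] (R : Type u) [Ring R] [Algebra k R] where
  W : ModuleCat.{u} R
  r : R → (W ⟶ W)
  r_add : ∀ a b, r (a + b) = r a + r b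
  r_mul : ∀ a b, r (a * b) = r a ≫ r b
  r_one : r 1 = 𝟙 W
  r_alg : ∀ (c : k) (w : W), r (algebraMap k R c) w = algebraMap k R c • w
  finL : Module.Finite R W
  finR : ∃ s : Finset W, ∀ w : W, ∃ c : W → R, w = ∑ x ∈ s, r (c x) x

section aux

variable {R : Type u} [Ring R]

/-- Right multiplications as a module over the opposite ring. -/
@[reducible]
private def opm {W : ModuleCat.{u} R} (r : R → (W ⟶ W)) (ha : ∀ a b, r (a + b) = r a + r b)
    (hm : ∀ a b, r (a * b) = r a ≫ r b) (h1 : r 1 = 𝟙 W) : Module Rᵐᵒᵖ W where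
  smul b w := r b.unop w
  one_smul w := by
    change r (MulOpposite.unop 1) w = w
    rw [MulOpposite.unop_one, h1]
    rfl
  mul_smul x y w := by
    change r (MulOpposite.unop (x * y)) w = r x.unop (r y.unop w)
    rw [MulOpposite.unop_mul, hm]
    rfl
  smul_zero x := map_zero (r x.unop).hom
  smul_add x v w := map_add (r x.unop).hom v w
  add_smul x y w := by
    change r (MulOpposite.unop (x + y)) w = r x.unop w + r y.unop w
    rw [MulOpposite.unop_add, ha]
    rfl
  zero_smul w := by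
    change r (MulOpposite.unop 0) w = 0
    have h0 : r 0 = 0 := by
      have := ha 0 0
      rw [add_zero] at this
      exact left_eq_add.1 this
    rw [MulOpposite.unop_zero, h0]
    rfl

private theorem finite_iff_span {S : Type u} [Ring S] {M : Type u} [AddCommGroup M]
    [Module S M] : Module.Finite S M ↔ ∃ s : Finset M, ∀ w, ∃ c : M → S, w = ∑ x ∈ s, c x • x := by
  constructor
  · intro h
    obtain ⟨s, hs⟩ := h.fg_top
    refine ⟨s, fun w => ?_⟩
    have hw : w ∈ Submodule.span S (s : Set M) := by rw [hs]; trivial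
    obtain ⟨c, _, hc⟩ := Submodule.mem_span_finset.1 hw
    exact ⟨c, hc.symm⟩
  · rintro ⟨s, hs⟩
    refine ⟨⟨s, ?_⟩⟩
    rw [eq_top_iff]
    intro w _
    obtain ⟨c, hc⟩ := hs w
    rw [hc]
    exact Submodule.sum_mem _ (fun x hx => Submodule.smul_mem _ _ (Submodule.subset_span hx))

private theorem finR_iff {W : ModuleCat.{u} R} (r : R → (W ⟶ W))
    (ha : ∀ a b, r (a + b) = r a + r b)
    (hm : ∀ a b, r (a * b) = r a ≫ r b) (h1 : r 1 = 𝟙 W) :
    (∃ s : Finset W, ∀ w : W, ∃ c : W → R, w = ∑ x ∈ s, r (c x) x) ↔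
      @Module.Finite Rᵐᵒᵖ W _ _ (opm r ha hm h1) := by
  let I := opm r ha hm h1
  rw [finite_iff_span]
  constructor
  · rintro ⟨s, hs⟩
    refine ⟨s, fun w => ?_⟩
    obtain ⟨c, hc⟩ := hs w
    exact ⟨fun x => MulOpposite.op (c x), hc⟩
  · rintro ⟨s, hs⟩
    refine ⟨s, fun w => ?_⟩
    obtain ⟨c, hc⟩ := hs w
    exact ⟨fun x => (c x).unop, hc⟩

private theorem finR_inj [IsNoetherianRing Rᵐᵒᵖ] {W W' : ModuleCat.{u} R} (r : R → (W ⟶ W))
    (ha : ∀ a b, r (a + b) = r a + r b) (hm : ∀ a b, r (a * b) = r a ≫ r b) (h1 : r 1 = 𝟙 W)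
    (r' : R → (W' ⟶ W'))
    (ha' : ∀ a b, r' (a + b) = r' a + r' b) (hm' : ∀ a b, r' (a * b) = r' a ≫ r' b)
    (h1' : r' 1 = 𝟙 W') (f : W ⟶ W') (hf : Function.Injective f)
    (hc : ∀ b, r b ≫ f = f ≫ r' b)
    (h : ∃ s : Finset W', ∀ w : W', ∃ c : W' → R, w = ∑ x ∈ s, r' (c x) x) :
    ∃ s : Finset W, ∀ w : W, ∃ c : W → R, w = ∑ x ∈ s, r (c x) x := by
  rw [finR_iff r ha hm h1]
  rw [finR_iff r' ha' hm' h1'] at h
  let I := opm r ha hm h1
  let I' := opm r' ha' hm' h1'
  let φ : W →ₗ[Rᵐᵒᵖ] W' :=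
    { toFun := fun w => f w
      map_add' := fun a b => map_add f.hom a b
      map_smul' := fun b w => by
        change f (r b.unop w) = r' b.unop (f w)
        have := congrArg (fun g : W ⟶ W' => g w) (hc b.unop)
        exact this }
  have : Module.Finite Rᵐᵒᵖ W' := h
  exact Module.Finite.of_injective φ hf

private theorem finR_surj {W W' : ModuleCat.{u} R} (r : R → (W ⟶ W))
    (ha : ∀ a b, r (a + b) = r a + r b) (hm : ∀ a b, r (a * b) = r a ≫ r b) (h1 : r 1 = 𝟙 W)
    (r' : R → (W' ⟶ W'))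
    (ha' : ∀ a b, r' (a + b) = r' a + r' b) (hm' : ∀ a b, r' (a * b) = r' a ≫ r' b)
    (h1' : r' 1 = 𝟙 W') (f : W ⟶ W') (hf : Function.Surjective f)
    (hc : ∀ b, r b ≫ f = f ≫ r' b)
    (h : ∃ s : Finset W, ∀ w : W, ∃ c : W → R, w = ∑ x ∈ s, r (c x) x) :
    ∃ s : Finset W', ∀ w : W', ∃ c : W' → R, w = ∑ x ∈ s, r' (c x) x := by
  rw [finR_iff r ha hm h1] at h
  rw [finR_iff r' ha' hm' h1']
  let I := opm r ha hm h1
  let I' := opm r' ha' hm' h1'
  let φ : W →ₗ[Rᵐᵒᵖ] W' :=
    { toFun := fun w => f w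
      map_add' := fun a b => map_add f.hom a b
      map_smul' := fun b w => by
        change f (r b.unop w) = r' b.unop (f w)
        have := congrArg (fun g : W ⟶ W' => g w) (hc b.unop)
        exact this }
  have : Module.Finite Rᵐᵒᵖ W := h
  exact Module.Finite.of_surjective φ hf

end aux

variable {k : Type u} [Field k] {R : Type u} [Ring R] [Algebra k R]

private theorem r_sub_eq (B : BiMod k R) {Q : Ideal R} (hB : ∀ q ∈ Q, B.r q = 0) {a b : R}
    (h : a - b ∈ Q) : B.r a = B.r b := by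
  have := B.r_add (a - b) b
  rw [sub_add_cancel, hB _ h, zero_add] at this
  exact this

private theorem r_mul_apply (B : BiMod k R) (a b : R) (w : B.W) :
    B.r (a * b) w = B.r b (B.r a w) := by
  rw [B.r_mul]
  rfl

theorem BiMod.exists_sub [IsNoetherianRing R] [IsNoetherianRing Rᵐᵒᵖ] (B : BiMod k R)
    (N : Submodule R B.W) (hN : ∀ (b : R), ∀ w ∈ N, B.r b w ∈ N) :
    ∃ (C : BiMod k R) (f : C.W ⟶ B.W), Function.Injective f ∧
      (∀ w : B.W, w ∈ N ↔ ∃ v, f v = w) ∧ ∀ b, C.r b ≫ f = f ≫ B.r b := by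
  let W' : ModuleCat.{u} R := ModuleCat.of R N
  let r' : R → (W' ⟶ W') := fun b => ModuleCat.ofHom ((B.r b).hom.restrict (hN b))
  let f : W' ⟶ B.W := ModuleCat.ofHom N.subtype
  have hf : Function.Injective f := Subtype.val_injective
  have ha : ∀ a b, r' (a + b) = r' a + r' b := by
    intro a b
    ext w
    change B.r (a + b) w.1 = B.r a w.1 + B.r b w.1
    rw [B.r_add]
    rfl
  have hm : ∀ a b, r' (a * b) = r' a ≫ r' b := by
    intro a b
    ext w
    change B.r (a * b) w.1 = B.r b (B.r a w.1)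
    rw [B.r_mul]
    rfl
  have h1 : r' 1 = 𝟙 W' := by
    ext w
    change B.r 1 w.1 = w.1
    rw [B.r_one]
    rfl
  have hc : ∀ b, r' b ≫ f = f ≫ B.r b := by
    intro b
    ext w
    rfl
  have hfl : Module.Finite R B.W := B.finL
  refine ⟨{ W := W', r := r', r_add := ha, r_mul := hm, r_one := h1, r_alg := ?_, finL := ?_,
            finR := finR_inj r' ha hm h1 B.r B.r_add B.r_mul B.r_one f hf hc B.finR }, f, hf,
            ?_, hc⟩
  · intro c w
    exact Subtype.ext (B.r_alg c w.1)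
  · change Module.Finite R N
    infer_instance
  · intro w
    exact ⟨fun hw => ⟨⟨w, hw⟩, rfl⟩, fun ⟨v, hv⟩ => hv ▸ v.2⟩

theorem BiMod.exists_quot [IsNoetherianRing R] [IsNoetherianRing Rᵐᵒᵖ] (B : BiMod k R)
    (N : Submodule R B.W) (hN : ∀ (b : R), ∀ w ∈ N, B.r b w ∈ N) :
    ∃ (C : BiMod k R) (g : B.W ⟶ C.W), Function.Surjective g ∧
      (∀ w : B.W, w ∈ N ↔ g w = 0) ∧ ∀ b, B.r b ≫ g = g ≫ C.r b := by
  let W' : ModuleCat.{u} R := ModuleCat.of R (B.W ⧸ N)
  let r' : R → (W' ⟶ W') := fun b => ModuleCat.ofHom (N.mapQ N (B.r b).hom (fun w hw => hN b w hw))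
  let f : B.W ⟶ W' := ModuleCat.ofHom N.mkQ
  have hf : Function.Surjective f := N.mkQ_surjective
  have ha : ∀ a b, r' (a + b) = r' a + r' b := by
    intro a b
    apply ModuleCat.hom_ext
    apply Submodule.linearMap_qext
    ext w
    change N.mkQ (B.r (a + b) w) = N.mkQ (B.r a w) + N.mkQ (B.r b w)
    rw [B.r_add, ← map_add]
    rfl
  have hm : ∀ a b, r' (a * b) = r' a ≫ r' b := by
    intro a b
    apply ModuleCat.hom_ext
    apply Submodule.linearMap_qext
    ext w
    change N.mkQ (B.r (a * b) w) = N.mkQ (B.r b (B.r a w))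
    rw [B.r_mul]
    rfl
  have h1 : r' 1 = 𝟙 W' := by
    apply ModuleCat.hom_ext
    apply Submodule.linearMap_qext
    ext w
    change N.mkQ (B.r 1 w) = N.mkQ w
    rw [B.r_one]
    rfl
  have hc : ∀ b, B.r b ≫ f = f ≫ r' b := by
    intro b
    ext w
    rfl
  have hfl : Module.Finite R B.W := B.finL
  refine ⟨{ W := W', r := r', r_add := ha, r_mul := hm, r_one := h1, r_alg := ?_, finL := ?_,
            finR := finR_surj B.r B.r_add B.r_mul B.r_one r' ha hm h1 f hf hc B.finR }, f, hf,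
            ?_, hc⟩
  · intro c w
    obtain ⟨v, rfl⟩ := N.mkQ_surjective w
    change N.mkQ (B.r (algebraMap k R c) v) = algebraMap k R c • N.mkQ v
    rw [B.r_alg, map_smul]
  · change Module.Finite R (B.W ⧸ N)
    infer_instance
  · intro w
    exact (Submodule.Quotient.mk_eq_zero N).symm

theorem BiMod.exists_rtwist (B : BiMod k R) {Q : Ideal R} (hQ : IsPrime2 Q) {z : R}
    (hz : Nrm Q z) (hB : ∀ q ∈ Q, B.r q = 0) (m : ℕ) :
    ∃ (C : BiMod k R) (e : C.W ≅ B.W),
      (∀ b c : R, z ^ m * b - c * z ^ m ∈ Q → C.r c ≫ e.hom = e.hom ≫ B.r b) := by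
  have hzm : Nrm Q (z ^ m) := hz.pow hQ m
  have hts := hQ.twoSided
  obtain ⟨h1, h2⟩ := hzm.2
  choose β hβ using h2
  have hwd : ∀ b c : R, z ^ m * b - c * z ^ m ∈ Q → B.r (β c) = B.r b := by
    intro b c hbc
    refine r_sub_eq B hB (left_reg hQ hzm ?_)
    have e : z ^ m * (β c - b) = -((c * z ^ m - z ^ m * β c) + (z ^ m * b - c * z ^ m)) := by
      noncomm_ring
    rw [e]
    exact Q.neg_mem (Q.add_mem (hβ c) hbc)
  refine ⟨{ W := B.W, r := fun c => B.r (β c), r_add := ?_, r_mul := ?_, r_one := ?_,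
            r_alg := ?_, finL := B.finL, finR := ?_ }, Iso.refl _, ?_⟩
  · intro a b
    rw [← B.r_add]
    apply hwd
    have e : z ^ m * (β a + β b) - (a + b) * z ^ m
        = -((a * z ^ m - z ^ m * β a) + (b * z ^ m - z ^ m * β b)) := by noncomm_ring
    rw [e]
    exact Q.neg_mem (Q.add_mem (hβ a) (hβ b))
  · intro a b
    rw [← B.r_mul]
    apply hwd
    have e : z ^ m * (β a * β b) - a * b * z ^ m
        = -((a * z ^ m - z ^ m * β a) * β b + a * (b * z ^ m - z ^ m * β b)) := by noncomm_ring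
    rw [e]
    exact Q.neg_mem (Q.add_mem (Ideal.mul_mem_right _ _ (hβ a)) (Ideal.mul_mem_left _ _ (hβ b)))
  · rw [← B.r_one]
    apply hwd
    rw [mul_one, one_mul, sub_self]
    exact Q.zero_mem
  · intro c w
    rw [← B.r_alg]
    rw [hwd (algebraMap k R c) (algebraMap k R c)]
    rw [Algebra.commutes, sub_self]
    exact Q.zero_mem
  · obtain ⟨s, hs⟩ := B.finR
    refine ⟨s, fun w => ?_⟩
    obtain ⟨c, hc⟩ := hs w
    choose γ hγ using h1
    refine ⟨fun x => γ (c x), ?_⟩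
    have e : ∀ x, B.r (β (γ (c x))) = B.r (c x) := fun x => hwd _ _ (hγ (c x))
    conv_lhs => rw [hc]
    exact Finset.sum_congr rfl (fun x _ => by rw [e])
  · intro b c hbc
    change B.r (β c) ≫ 𝟙 _ = 𝟙 _ ≫ B.r b
    rw [Category.comp_id, Category.id_comp, hwd b c hbc]

theorem BiMod.exists_rtorsion [IsNoetherianRing R] [IsNoetherianRing Rᵐᵒᵖ] (B : BiMod k R)
    {Q : Ideal R} (hQ : IsPrime2 Q) {z : R} (hz : Nrm Q z) (hB : ∀ q ∈ Q, B.r q = 0) :
    ∃ (N : Submodule R B.W) (m : ℕ), (∀ (b : R), ∀ w ∈ N, B.r b w ∈ N) ∧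
      (∀ w ∈ N, B.r (z ^ m) w = 0) ∧ ∀ w, B.r z w ∈ N → w ∈ N := by
  have hfl : Module.Finite R B.W := B.finL
  let f : ℕ →o Submodule R B.W :=
    { toFun := fun n => LinearMap.ker (B.r (z ^ n)).hom
      monotone' := by
        refine monotone_nat_of_le_succ (fun n => ?_)
        intro w hw
        change B.r (z ^ (n + 1)) w = 0
        have hw' : B.r (z ^ n) w = 0 := hw
        rw [pow_succ, r_mul_apply, hw']
        exact map_zero (B.r z).hom }
  obtain ⟨m, hm⟩ := monotone_stabilizes_iff_noetherian.2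
    (inferInstance : IsNoetherian R B.W) f
  refine ⟨f m, m, ?_, fun w hw => hw, ?_⟩
  · intro b w hw
    have hw' : B.r (z ^ m) w = 0 := hw
    change B.r (z ^ m) (B.r b w) = 0
    obtain ⟨c, hc⟩ := (hz.pow hQ m).2.2 b
    rw [← r_mul_apply, r_sub_eq B hB hc, r_mul_apply, hw']
    exact map_zero (B.r c).hom
  · intro w hw
    have hw' : B.r (z ^ m) (B.r z w) = 0 := hw
    rw [← r_mul_apply, ← pow_succ'] at hw'
    rw [hm (m + 1) (Nat.le_succ m)]
    exact hw'

theorem BiMod.range_stable (B : BiMod k R) {Q : Ideal R} {z : R}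
    (hz : Nrm Q z) (hB : ∀ q ∈ Q, B.r q = 0) (b : R) (w : B.W)
    (hw : ∃ v, B.r z v = w) : ∃ v, B.r z v = B.r b w := by
  obtain ⟨v, rfl⟩ := hw
  obtain ⟨c, hc⟩ := hz.2.1 b
  refine ⟨B.r c v, ?_⟩
  rw [← r_mul_apply, ← r_mul_apply, r_sub_eq B hB hc]

end BGN
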