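import Pool.Agent.BGN.Res

/-!
# BGN Cls: `Ext` is computed by a free resolution

`FRes.exists_cls`: for a resolution `F` of `V` there are class maps
`c W i : (F.n i → W) → Ext V W i`, defined on cocycles `act (F.D i) w = 0`, additive, surjective,
with kernel the coboundaries `act (F.D (i-1)) u`, natural in `W`.

PROOF (either of the two).
(A) Syzygies.  `Ω 0 = V`, `Ω (i+1) = range (v ↦ v ᵥ* D i) ⊆ R^{n i}`, short exact sequences
`S i : 0 → Ω (i+1) → R^{n i} → Ω i → 0` in `ModuleCat R` (for `i = 0` the map is `aug`, for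
`i+1` it is `v ↦ v ᵥ* D i` onto its range).  `R^{n i}` is free, hence projective, so
`Ext (R^{n i}) W (j+1) = 0` (`Ext.eq_zero_of_projective`).  A cocycle `w ∈ W^{n i}` is the same as
a homomorphism `φ_w : Ω i → W` (`w` defines `v ↦ ∑ v l • w l : R^{n i} → W`, and `act (D i) w = 0`
says that it kills the rows of `D i`, i.e. the kernel of `R^{n i} → Ω i`).  Define
`cl i j : Ext (Ω i) W j → Ext (Ω 0) W (i+j)` by iterated composition with `(S _).extClass`:
`Ext (Ω (i+1)) W j → Ext (Ω i) W (j+1)`, `x ↦ extClass.comp x`; it is additive, surjective for all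
`j` and injective for `j ≥ 1`, and for `j = 0` its kernel consists of the restrictions of
homomorphisms `R^{n i} → W` (`Ext.contravariant_sequence_exact₁/₃`).  `c W i w = cl i 0 (mk₀ φ_w)`.
(B) Mathlib: build `ProjectiveResolution (ModuleCat.of R V)` from `F` and use
`ProjectiveResolution.extMk`, `extMk_surjective`, `extMk_eq_zero_iff`, `extMk_comp_mk₀`,
`add_extMk`.
The choice `c W i w = 0` for non cocycles is allowed.
-/

namespace BGN

open CategoryTheory Abelian

universe u

variable {R : Type u} [Ring R]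

/-- row vector times matrix -/
def dl {m n : ℕ} (D : Matrix (Fin m) (Fin n) R) : (Fin m → R) →ₗ[R] (Fin n → R) where
  toFun v := Matrix.vecMul v D
  map_add' v w := Matrix.add_vecMul _ _ _
  map_smul' r v := Matrix.smul_vecMul _ _ _

theorem dl_apply {m n : ℕ} (D : Matrix (Fin m) (Fin n) R) (v : Fin m → R) :
    dl D v = Matrix.vecMul v D := rfl

/-- linear combination -/
def lc {W : Type u} [AddCommGroup W] [Module R W] {n : ℕ} (w : Fin n → W) :
    (Fin n → R) →ₗ[R] W where
  toFun v := ∑ l, v l • w l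
  map_add' v v' := by
    simp only [Pi.add_apply, add_smul, Finset.sum_add_distrib]
  map_smul' r v := by
    simp only [Pi.smul_apply, smul_eq_mul, mul_smul, Finset.smul_sum, RingHom.id_apply]

theorem lc_apply {W : Type u} [AddCommGroup W] [Module R W] {n : ℕ} (w : Fin n → W)
    (v : Fin n → R) : lc w v = ∑ l, v l • w l := rfl

theorem lc_single {W : Type u} [AddCommGroup W] [Module R W] {n : ℕ} (w : Fin n → W)
    (l : Fin n) : lc w (Pi.single l (1 : R)) = w l := by
  classical
  rw [lc_apply, Finset.sum_eq_single l]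
  · simp
  · intro k _ hk
    simp [hk]
  · simp

theorem lc_eq {W : Type u} [AddCommGroup W] [Module R W] {n : ℕ} (f : (Fin n → R) →ₗ[R] W) :
    lc (fun l => f (Pi.single l (1 : R))) = f := by
  classical
  refine LinearMap.pi_ext fun l r => ?_
  have h : (Pi.single l r : Fin n → R) = r • Pi.single l (1 : R) := by
    ext k
    by_cases hk : k = l
    · subst hk
      simp
    · simp [hk]
  rw [h, map_smul, map_smul, lc_single]

theorem lc_dl {W : Type u} [AddCommGroup W] [Module R W] {m n : ℕ}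
    (D : Matrix (Fin m) (Fin n) R) (w : Fin n → W) : (lc w).comp (dl D) = lc (act D w) := by
  refine LinearMap.ext fun v => ?_
  simp only [LinearMap.comp_apply, lc_apply, dl_apply, Matrix.vecMul, dotProduct, act,
    Finset.sum_smul, Finset.smul_sum, mul_smul]
  exact Finset.sum_comm

/-- the complex of a resolution -/
noncomputable def FRes.cx {V : Type u} [AddCommGroup V] [Module R V] (F : FRes R V) :
    ChainComplex (ModuleCat.{u} R) ℕ :=
  ChainComplex.of (fun i => ModuleCat.of R (Fin (F.n i) → R))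
    (fun i => ModuleCat.ofHom (dl (F.D i))) fun i => by
      rw [← ModuleCat.ofHom_comp]
      have h : (dl (F.D i)).comp (dl (F.D (i + 1))) = 0 := by
        refine LinearMap.ext fun v => ?_
        simp only [LinearMap.comp_apply, dl_apply, LinearMap.zero_apply, Matrix.vecMul_vecMul,
          F.mul_eq_zero, Matrix.vecMul_zero]
      rw [h]
      rfl

section

variable {V : ModuleCat.{u} R} (F : FRes R V)

theorem cx_d (i : ℕ) : F.cx.d (i + 1) i = ModuleCat.ofHom (dl (F.D i)) := by
  change ChainComplex.of.d (fun i => ModuleCat.of R (Fin (F.n i) → R))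
    (fun i => ModuleCat.ofHom (dl (F.D i))) (i + 1) i = _
  exact ChainComplex.of_d _ _ _

theorem cx_exact (i : ℕ) : F.cx.ExactAt (i + 1) := by
  rw [HomologicalComplex.exactAt_iff' _ (i + 1 + 1) (i + 1) i (by simp) (by simp)]
  rw [ShortComplex.moduleCat_exact_iff]
  intro x hx
  have h1 : F.cx.d (i + 1) i = ModuleCat.ofHom (dl (F.D i)) := cx_d F i
  have h2 : F.cx.d (i + 1 + 1) (i + 1) = ModuleCat.ofHom (dl (F.D (i + 1))) := cx_d F (i + 1)
  change (F.cx.d (i + 1) i) x = 0 at hx
  change ∃ y, (F.cx.d (i + 1 + 1) (i + 1)) y = x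
  rw [h1] at hx
  rw [h2]
  exact (F.exact i x).1 hx

/-- augmentation -/
noncomputable def aug0 : F.cx.X 0 ⟶ V := ModuleCat.ofHom F.aug

theorem aug0_zero : F.cx.d 1 0 ≫ aug0 F = 0 := by
  rw [cx_d F 0]
  refine ModuleCat.hom_ext (LinearMap.ext fun v => ?_)
  exact (F.exact0 _).2 ⟨v, rfl⟩

theorem aug0_exact : (ShortComplex.mk _ _ (aug0_zero F)).Exact := by
  rw [ShortComplex.moduleCat_exact_iff]
  intro x hx
  change F.aug x = 0 at hx
  change ∃ y, (F.cx.d 1 0) y = x
  rw [cx_d F 0]
  exact (F.exact0 x).1 hx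

theorem aug0_epi : Epi (aug0 F) := (ModuleCat.epi_iff_surjective _).2 F.surj

set_option backward.defeqAttrib.useBackward true in
set_option backward.isDefEq.respectTransparency false in
/-- the projective resolution -/
noncomputable def pres : ProjectiveResolution V where
  complex := F.cx
  projective i := by
    change Projective (ModuleCat.of R (Fin (F.n i) → R))
    exact ModuleCat.projective_of_free (Pi.basisFun R _)
  π := (ChainComplex.toSingle₀Equiv _ _).symm ⟨aug0 F, aug0_zero F⟩
  quasiIso := ⟨fun n => by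
    cases n
    · rw [ChainComplex.quasiIsoAt₀_iff, ShortComplex.quasiIso_iff_of_zeros']
      · dsimp
        refine (ShortComplex.exact_and_epi_g_iff_of_iso ?_).2
          ⟨aug0_exact F, by dsimp; exact aug0_epi F⟩
        exact ShortComplex.isoMk (Iso.refl _) (Iso.refl _) (Iso.refl _)
          (by simp) (by simp)
      all_goals rfl
    · rw [quasiIsoAt_iff_exactAt']
      · exact cx_exact F _
      · apply ChainComplex.exactAt_succ_single_obj⟩

end

section cls

variable {V : ModuleCat.{u} R} (F : FRes R V)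

/-- linear combinations as morphisms -/
noncomputable def hm (W : ModuleCat.{u} R) (i : ℕ) (w : Fin (F.n i) → W) :
    (pres F).complex.X i ⟶ W := ModuleCat.ofHom (lc w)

theorem hm_surj (W : ModuleCat.{u} R) (i : ℕ) (f : (pres F).complex.X i ⟶ W) :
    ∃ w, hm F W i w = f := by
  refine ⟨fun l => f (Pi.single l (1 : R) : Fin (F.n i) → R), ?_⟩
  exact ModuleCat.hom_ext (lc_eq (ModuleCat.Hom.hom f))

theorem hm_inj (W : ModuleCat.{u} R) (i : ℕ) {w w' : Fin (F.n i) → W}
    (h : hm F W i w = hm F W i w') : w = w' := by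
  funext l
  have h1 : lc (R := R) w = lc w' := congrArg ModuleCat.Hom.hom h
  rw [← lc_single (R := R) w l, h1, lc_single]

theorem hm_add (W : ModuleCat.{u} R) (i : ℕ) (w w' : Fin (F.n i) → W) :
    hm F W i (w + w') = hm F W i w + hm F W i w' := by
  refine ModuleCat.hom_ext (LinearMap.ext fun v => ?_)
  change lc (w + w') v = lc w v + lc w' v
  simp only [lc_apply, Pi.add_apply, smul_add, Finset.sum_add_distrib]

theorem hm_zero (W : ModuleCat.{u} R) (i : ℕ) :
    hm F W i (0 : Fin (F.n i) → W) = 0 := by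
  refine ModuleCat.hom_ext (LinearMap.ext fun v => ?_)
  change lc (0 : Fin (F.n i) → W) v = 0
  simp only [lc_apply, Pi.zero_apply, smul_zero, Finset.sum_const_zero]

theorem hm_d (W : ModuleCat.{u} R) (i : ℕ) (w : Fin (F.n i) → W) :
    (pres F).complex.d (i + 1) i ≫ hm F W i w = hm F W (i + 1) (act (F.D i) w) := by
  have h1 : (pres F).complex.d (i + 1) i = ModuleCat.ofHom (dl (F.D i)) := cx_d F i
  rw [h1]
  exact ModuleCat.hom_ext (lc_dl (F.D i) w)

theorem hm_comp (W W' : ModuleCat.{u} R) (f : W ⟶ W') (i : ℕ) (w : Fin (F.n i) → W) :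
    hm F W i w ≫ f = hm F W' i (fun l => f (w l)) := by
  refine ModuleCat.hom_ext (LinearMap.ext fun v => ?_)
  change f (lc w v) = lc (fun l => f (w l)) v
  simp only [lc_apply]
  rw [map_sum]
  exact Finset.sum_congr rfl fun l _ => map_smul (ModuleCat.Hom.hom f) _ _

theorem hm_cocycle (W : ModuleCat.{u} R) (i : ℕ) {w : Fin (F.n i) → W}
    (h : act (F.D i) w = 0) : (pres F).complex.d (i + 1) i ≫ hm F W i w = 0 := by
  rw [hm_d, h, hm_zero]

theorem hm_cocycle_iff (W : ModuleCat.{u} R) (i : ℕ) {w : Fin (F.n i) → W} :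
    (pres F).complex.d (i + 1) i ≫ hm F W i w = 0 ↔ act (F.D i) w = 0 := by
  rw [hm_d, ← hm_zero F W (i + 1)]
  exact ⟨fun h => hm_inj F W _ h, fun h => by rw [h]⟩

/-- the class of a cocycle -/
noncomputable def cl0 (W : ModuleCat.{u} R) (i : ℕ) (w : Fin (F.n i) → W)
    (h : act (F.D i) w = 0) : Ext V W i :=
  (pres F).extMk (hm F W i w) (i + 1) rfl (hm_cocycle F W i h)

open Classical in
/-- the class map -/
noncomputable def cc (W : ModuleCat.{u} R) (i : ℕ) (w : Fin (F.n i) → W) : Ext V W i :=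
  if h : act (F.D i) w = 0 then cl0 F W i w h else 0

theorem cc_pos (W : ModuleCat.{u} R) (i : ℕ) (w : Fin (F.n i) → W) (h : act (F.D i) w = 0) :
    cc F W i w = (pres F).extMk (hm F W i w) (i + 1) rfl (hm_cocycle F W i h) := by
  unfold cc
  rw [dif_pos h]
  rfl

theorem extMk_congr {W : ModuleCat.{u} R} {i : ℕ} {f g : (pres F).complex.X i ⟶ W}
    (h : f = g) (hf : (pres F).complex.d (i + 1) i ≫ f = 0)
    (hg : (pres F).complex.d (i + 1) i ≫ g = 0) :
    (pres F).extMk f (i + 1) rfl hf = (pres F).extMk g (i + 1) rfl hg := by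
  subst h
  rfl

open CochainComplex HomComplex in
theorem extMk_zero_iff (W : ModuleCat.{u} R) (f : (pres F).complex.X 0 ⟶ W)
    (hf : (pres F).complex.d 1 0 ≫ f = 0) :
    (pres F).extMk f 1 rfl hf = 0 ↔ f = 0 := by
  constructor
  · intro h
    rw [← (pres F).extEquivCohomologyClass.apply_eq_iff_eq,
      ProjectiveResolution.extEquivCohomologyClass_extMk,
      ProjectiveResolution.extEquivCohomologyClass_zero, CohomologyClass.mk_eq_zero_iff,
      Cocycle.toSingleMk_mem_coboundaries_iff _ _ _ _ _ 1 (by lia)] at h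
    obtain ⟨g, hg⟩ := h
    have h0 : g = 0 := (CochainComplex.isZero_of_isStrictlyLE (pres F).cochainComplex 0 1
      (by norm_num)).eq_of_src _ _
    rw [h0, Limits.comp_zero] at hg
    rw [← cancel_epi ((pres F).cochainComplexXIso (-((0 : ℕ) : ℤ)) 0 rfl).hom, ← hg,
      Limits.comp_zero]
  · rintro rfl
    exact ProjectiveResolution.extMk_zero _ _ _

end cls

theorem FRes.exists_cls (V : ModuleCat.{u} R) (F : FRes R V) :
    ∃ c : ∀ (W : ModuleCat.{u} R) (i : ℕ), (Fin (F.n i) → W) → Ext V W i,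
      (∀ (W : ModuleCat.{u} R) (i : ℕ) (w w' : Fin (F.n i) → W),
        act (F.D i) w = 0 → act (F.D i) w' = 0 → c W i (w + w') = c W i w + c W i w') ∧
      (∀ (W : ModuleCat.{u} R) (i : ℕ) (x : Ext V W i), ∃ w, act (F.D i) w = 0 ∧ c W i w = x) ∧
      (∀ (W : ModuleCat.{u} R) (w : Fin (F.n 0) → W), act (F.D 0) w = 0 →
        (c W 0 w = 0 ↔ w = 0)) ∧
      (∀ (W : ModuleCat.{u} R) (i : ℕ) (w : Fin (F.n (i + 1)) → W), act (F.D (i + 1)) w = 0 →
        (c W (i + 1) w = 0 ↔ ∃ u, act (F.D i) u = w)) ∧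
      (∀ (W W' : ModuleCat.{u} R) (f : W ⟶ W') (i : ℕ) (w : Fin (F.n i) → W),
        act (F.D i) w = 0 →
        (c W i w).comp (Ext.mk₀ f) (add_zero i) = c W' i (fun l => f (w l))) := by
  refine ⟨cc F, ?_, ?_, ?_, ?_, ?_⟩
  · intro W i w w' h h'
    have h2 : act (F.D i) (w + w') = 0 := by rw [act_add, h, h', add_zero]
    rw [cc_pos F W i w h, cc_pos F W i w' h', cc_pos F W i _ h2, ProjectiveResolution.add_extMk]
    exact extMk_congr F (hm_add F W i w w') _ _
  · intro W i x
    obtain ⟨f, hf, hx⟩ := (pres F).extMk_surjective x (i + 1) rfl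
    obtain ⟨w, rfl⟩ := hm_surj F W i f
    have h := (hm_cocycle_iff F W i).1 hf
    exact ⟨w, h, (cc_pos F W i w h).trans hx⟩
  · intro W w h
    rw [cc_pos F W 0 w h, extMk_zero_iff, ← hm_zero F W 0]
    exact ⟨fun h => hm_inj F W 0 h, fun h => by rw [h]⟩
  · intro W i w h
    rw [cc_pos F W (i + 1) w h, ProjectiveResolution.extMk_eq_zero_iff _ _ _ _ _ i rfl]
    constructor
    · rintro ⟨g, hg⟩
      obtain ⟨u, rfl⟩ := hm_surj F W i g
      rw [hm_d] at hg
      exact ⟨u, hm_inj F W _ hg⟩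
    · rintro ⟨u, hu⟩
      exact ⟨hm F W i u, by rw [hm_d, hu]⟩
  · intro W W' f i w h
    have h2 : act (F.D i) (fun l => f (w l)) = 0 := by
      have h3 := act_map (ModuleCat.Hom.hom f) (F.D i) w
      refine h3.trans ?_
      rw [h]
      funext j
      exact map_zero _
    rw [cc_pos F W i w h, cc_pos F W' i _ h2, ProjectiveResolution.extMk_comp_mk₀]
    exact extMk_congr F (hm_comp F W W' f i w) _ _

/-- The class map of a resolution. -/
noncomputable def FRes.cls {V : ModuleCat.{u} R} (F : FRes R V) (W : ModuleCat.{u} R) (i : ℕ)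
    (w : Fin (F.n i) → W) : Ext V W i :=
  (F.exists_cls V).choose W i w

theorem FRes.cls_add {V : ModuleCat.{u} R} (F : FRes R V) (W : ModuleCat.{u} R) (i : ℕ)
    (w w' : Fin (F.n i) → W) (h : act (F.D i) w = 0) (h' : act (F.D i) w' = 0) :
    F.cls W i (w + w') = F.cls W i w + F.cls W i w' :=
  (F.exists_cls V).choose_spec.1 W i w w' h h'

theorem FRes.cls_surj {V : ModuleCat.{u} R} (F : FRes R V) (W : ModuleCat.{u} R) (i : ℕ)
    (x : Ext V W i) : ∃ w, act (F.D i) w = 0 ∧ F.cls W i w = x :=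
  (F.exists_cls V).choose_spec.2.1 W i x

theorem FRes.cls_zero_iff {V : ModuleCat.{u} R} (F : FRes R V) (W : ModuleCat.{u} R)
    (w : Fin (F.n 0) → W) (h : act (F.D 0) w = 0) : F.cls W 0 w = 0 ↔ w = 0 :=
  (F.exists_cls V).choose_spec.2.2.1 W w h

theorem FRes.cls_succ_iff {V : ModuleCat.{u} R} (F : FRes R V) (W : ModuleCat.{u} R) (i : ℕ)
    (w : Fin (F.n (i + 1)) → W) (h : act (F.D (i + 1)) w = 0) :
    F.cls W (i + 1) w = 0 ↔ ∃ u, act (F.D i) u = w :=
  (F.exists_cls V).choose_spec.2.2.2.1 W i w h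

theorem FRes.cls_comp {V : ModuleCat.{u} R} (F : FRes R V) {W W' : ModuleCat.{u} R} (f : W ⟶ W')
    (i : ℕ) (w : Fin (F.n i) → W) (h : act (F.D i) w = 0) :
    (F.cls W i w).comp (Ext.mk₀ f) (add_zero i) = F.cls W' i (fun l => f (w l)) :=
  (F.exists_cls V).choose_spec.2.2.2.2 W W' f i w h

end BGN
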