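import Pool.Agent.BGN.Lf
import Pool.Agent.BGN.Cls

/-!
# BGN Rem: removable classes

`x ∈ Ext^i(V, W)` is removable if it is killed by the pull back to some finite dimensional
`V' → V` surjective.

PROOFS.
* `Removable.comp`: associativity of `Ext.comp`.
* `Removable.of_cover`: compose the two surjections.
* `Removable.precomp`: fibre product `V₁ ×_V V'` (submodule of `V₁ × V'`), finite dimensional
  (`FinDim.prod`, `FinDim.of_injective`), surjective onto `V₁`.
* `Removable.zero` (take `V' = V`), `Removable.add`: common cover = fibre product.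
* `exists_common_cover`: choose a basis `x_1..x_s` of the finite dimensional space `S`, covers for
  each, iterate fibre products; the pull back is `k`-linear (`Ext.comp_smul`, `smul_comp`).
* `removable_of_finDim` (the only non formal one): `M` finite dimensional, `i ≥ 1`.  Induction on
  `i`, `x ∈ Ext^{i+1}(V, M)`.
  - `i = 0`: `x ∈ Ext^1(V, M)`.  Take a resolution `F` of `V`, `x = cls w`, `w ∈ M^{n 1}`,
    `act D_1 w = 0`.
    In general for all `i`: let `M → I` be an embedding into an injective `R`-module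
    (`Injective.under`, `ModuleCat` has enough injectives).  `x` dies in `Ext^{i+1}(V, I)` so
    `w = act D_i u` with `u ∈ I^{n i}`.  Let `N = M + ∑ R u_l ⊆ I`, finitely generated.
    By `lf_quot` there is `N₀ ⊆ N`, `N₀ ∩ M = 0`, `M₁ := N ⧸ N₀` finite dimensional; `M → M₁` is
    injective and `x` dies in `Ext^{i+1}(V, M₁)` (`w = act D_i ū`).  By the long exact sequence
    `x = y.comp extClass` with `y ∈ Ext^i(V, M₁ ⧸ M)`.  If `i ≥ 1`, `y` is removable by induction
    and so is `x` (`Removable.comp`).  If `i = 0`, `y : V → M₁ ⧸ M` is a homomorphism; the fibre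
    product `V' = V ×_{M₁/M} M₁ → V` is a finite dimensional cover and `y` restricted to `V'` lifts
    to `M₁`, so `(y|V').comp extClass = 0` (`ShortExact.comp_extClass`).
-/

namespace BGN

open CategoryTheory Abelian

universe u

variable {k : Type u} [Field k] {R : Type u} [Ring R] [Algebra k R]

/-- `x` dies in a finite dimensional cover of `V`. -/
def Removable (k : Type u) [Field k] {R : Type u} [Ring R] [Algebra k R] {V W : ModuleCat.{u} R}
    {i : ℕ} (x : Ext V W i) : Prop :=
  ∃ (V' : ModuleCat.{u} R) (π : V' ⟶ V), FinDim k R V' ∧ Function.Surjective π ∧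
    (Ext.mk₀ π).comp x (zero_add i) = 0

variable {V W : ModuleCat.{u} R} {i : ℕ}

private theorem rem_assoc {A B C D : ModuleCat.{u} R} (f : A ⟶ B) {p q r : ℕ} (x : Ext B C p)
    (e : Ext C D q) (h : p + q = r) :
    (Ext.mk₀ f).comp (x.comp e h) (zero_add r) = ((Ext.mk₀ f).comp x (zero_add p)).comp e h :=
  (Ext.comp_assoc (Ext.mk₀ f) x e (zero_add p) h (by omega)).symm

private theorem rem_comp {A B C : ModuleCat.{u} R} (f : A ⟶ B) (g : B ⟶ C) {p : ℕ}
    {D : ModuleCat.{u} R} (x : Ext C D p) :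
    (Ext.mk₀ (f ≫ g)).comp x (zero_add p)
      = (Ext.mk₀ f).comp ((Ext.mk₀ g).comp x (zero_add p)) (zero_add p) := by
  rw [← Ext.mk₀_comp_mk₀, Ext.comp_assoc_of_second_deg_zero]

/-- fibre products -/
private theorem rem_fib {A B C : ModuleCat.{u} R} (hA : FinDim k R A) (hB : FinDim k R B)
    (f : A ⟶ C) (g : B ⟶ C) (hg : ∀ a : A, ∃ b : B, g b = f a) :
    ∃ (P : ModuleCat.{u} R) (p : P ⟶ A) (q : P ⟶ B), FinDim k R P ∧ Function.Surjective p ∧
      p ≫ f = q ≫ g := by
  let P : Submodule R (A × B) :=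
    LinearMap.ker (f.hom.comp (LinearMap.fst R A B) - g.hom.comp (LinearMap.snd R A B))
  have hP : ∀ x : A × B, x ∈ P ↔ f x.1 = g x.2 := by
    intro x
    show (f.hom.comp (LinearMap.fst R A B) - g.hom.comp (LinearMap.snd R A B)) x = 0 ↔ _
    rw [LinearMap.sub_apply, sub_eq_zero]
    rfl
  refine ⟨ModuleCat.of R P, ModuleCat.ofHom ((LinearMap.fst R A B).comp P.subtype),
    ModuleCat.ofHom ((LinearMap.snd R A B).comp P.subtype), ?_, ?_, ?_⟩
  · exact FinDim.of_injective (hA.prod hB) P.subtype P.injective_subtype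
  · intro a
    obtain ⟨b, hb⟩ := hg a
    exact ⟨⟨(a, b), (hP _).2 hb.symm⟩, rfl⟩
  · ext x
    exact (hP _).1 x.2

theorem Removable.zero (hV : FinDim k R V) : Removable k (0 : Ext V W i) :=
  ⟨V, 𝟙 V, hV, fun v => ⟨v, rfl⟩, Ext.comp_zero _ _ _ _ _⟩

theorem Removable.comp {x : Ext V W i} (hx : Removable k x) {W' : ModuleCat.{u} R} {j l : ℕ}
    (e : Ext W W' j) (h : i + j = l) : Removable k (x.comp e h) := by
  obtain ⟨V', π, h1, h2, h3⟩ := hx
  exact ⟨V', π, h1, h2, by rw [rem_assoc, h3, Ext.zero_comp]⟩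

theorem Removable.of_cover {V' : ModuleCat.{u} R} (π : V' ⟶ V) (hπ : Function.Surjective π)
    (x : Ext V W i) (hx : Removable k ((Ext.mk₀ π).comp x (zero_add i))) : Removable k x := by
  obtain ⟨V'', ρ, h1, h2, h3⟩ := hx
  refine ⟨V'', ρ ≫ π, h1, ?_, by rw [rem_comp, h3]⟩
  intro v
  obtain ⟨a, rfl⟩ := hπ v
  obtain ⟨b, rfl⟩ := h2 a
  exact ⟨b, rfl⟩

theorem Removable.precomp {V₁ : ModuleCat.{u} R} (hV₁ : FinDim k R V₁) (f : V₁ ⟶ V)
    {x : Ext V W i} (hx : Removable k x) : Removable k ((Ext.mk₀ f).comp x (zero_add i)) := by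
  obtain ⟨V', π, h1, h2, h3⟩ := hx
  obtain ⟨P, p, q, hP, hp, hpq⟩ := rem_fib hV₁ h1 f π (fun a => h2 (f a))
  refine ⟨P, p, hP, hp, ?_⟩
  rw [← rem_comp, hpq, rem_comp, h3, Ext.comp_zero]

theorem Removable.add {x y : Ext V W i} (hx : Removable k x) (hy : Removable k y) :
    Removable k (x + y) := by
  obtain ⟨V', π, h1, h2, h3⟩ := hx
  refine Removable.of_cover π h2 _ ?_
  rw [Ext.comp_add, h3, zero_add]
  exact Removable.precomp h1 π hy

theorem Removable.smul {x : Ext V W i} (hx : Removable k x) (c : k) : Removable k (c • x) := by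
  obtain ⟨V', π, h1, h2, h3⟩ := hx
  exact ⟨V', π, h1, h2, by rw [Ext.comp_smul, h3, smul_zero]⟩

private theorem rem_finset (hV : FinDim k R V) (s : Finset (Ext V W i))
    (h : ∀ x ∈ s, Removable k x) :
    ∃ (V' : ModuleCat.{u} R) (π : V' ⟶ V), FinDim k R V' ∧ Function.Surjective π ∧
      ∀ x ∈ s, (Ext.mk₀ π).comp x (zero_add i) = 0 := by
  classical
  induction s using Finset.induction_on with
  | empty => exact ⟨V, 𝟙 V, hV, fun v => ⟨v, rfl⟩, fun x hx => absurd hx (Finset.notMem_empty x)⟩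
  | insert a s ha ih =>
    obtain ⟨V', π, h1, h2, h3⟩ := ih fun x hx => h x (Finset.mem_insert_of_mem hx)
    obtain ⟨V'', ρ, g1, g2, g3⟩ :=
      Removable.precomp h1 π (h a (Finset.mem_insert_self a s))
    refine ⟨V'', ρ ≫ π, g1, ?_, ?_⟩
    · intro v
      obtain ⟨a, rfl⟩ := h2 v
      obtain ⟨b, rfl⟩ := g2 a
      exact ⟨b, rfl⟩
    · intro x hx
      rcases Finset.mem_insert.1 hx with rfl | hx
      · rw [rem_comp, g3]
      · rw [rem_comp, h3 x hx, Ext.comp_zero]

theorem exists_common_cover (hV : FinDim k R V) (S : Submodule k (Ext V W i))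
    (hS : Module.Finite k S) (h : ∀ x ∈ S, Removable k x) :
    ∃ (V' : ModuleCat.{u} R) (π : V' ⟶ V), FinDim k R V' ∧ Function.Surjective π ∧
      ∀ x ∈ S, (Ext.mk₀ π).comp x (zero_add i) = 0 := by
  obtain ⟨s, hs⟩ := Module.Finite.iff_fg.1 hS
  obtain ⟨V', π, h1, h2, h3⟩ := rem_finset hV s fun x hx => h x (by
    rw [← hs]; exact Submodule.subset_span hx)
  refine ⟨V', π, h1, h2, fun x hx => ?_⟩
  rw [← hs] at hx
  induction hx using Submodule.span_induction with
  | mem x hx => exact h3 x hx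
  | zero => exact Ext.comp_zero _ _ _ _ _
  | add x y _ _ hx hy => rw [Ext.comp_add, hx, hy, add_zero]
  | smul c x _ hx => rw [Ext.comp_smul, hx, smul_zero]

private theorem rem_short {A B : ModuleCat.{u} R} (j : A ⟶ B) (hj : Function.Injective j)
    {h0 : j ≫ ModuleCat.ofHom (LinearMap.range j.hom).mkQ = 0} :
    (ShortComplex.mk j (ModuleCat.ofHom (LinearMap.range j.hom).mkQ) h0).ShortExact := by
  refine ShortComplex.ShortExact.mk' ?_ ((ModuleCat.mono_iff_injective _).2 hj)
    ((ModuleCat.epi_iff_surjective _).2 (Submodule.mkQ_surjective _))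
  rw [ShortComplex.moduleCat_exact_iff]
  intro b hb
  obtain ⟨a, ha⟩ := (Submodule.Quotient.mk_eq_zero (LinearMap.range j.hom)).1 hb
  exact ⟨a, ha⟩

/-- embedding of a finite dimensional module in a finite dimensional module in which a given class
dies -/
private theorem rem_embed [IsNoetherianRing R] (h : NormalSep k R) (hV : FinDim k R V)
    (hW : FinDim k R W) (i : ℕ) (x : Ext V W (i + 1)) :
    ∃ (W₁ : ModuleCat.{u} R) (j : W ⟶ W₁), FinDim k R W₁ ∧ Function.Injective j ∧
      x.comp (Ext.mk₀ j) (add_zero (i + 1)) = 0 := by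
  have : Module.Finite R V := hV.finite
  have : Module.Finite R W := hW.finite
  obtain ⟨F⟩ : Nonempty (FRes R V) := FRes.exists
  obtain ⟨w, hw, rfl⟩ := F.cls_surj W (i + 1) x
  let ι : W ⟶ Injective.under W := Injective.ι W
  have hι : Function.Injective ι := (ModuleCat.mono_iff_injective ι).1 inferInstance
  have hw' : act (F.D (i + 1)) (fun l => ι (w l)) = 0 := by
    have := act_map ι.hom (F.D (i + 1)) w
    rw [hw] at this
    refine this.trans ?_
    funext j
    exact map_zero ι.hom
  have h0 : F.cls (Injective.under W) (i + 1) (fun l => ι (w l)) = 0 := by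
    rw [← F.cls_comp ι (i + 1) w hw]
    exact Ext.eq_zero_of_injective _
  obtain ⟨u, hu⟩ := (F.cls_succ_iff _ i _ hw').1 h0
  let N : Submodule R (Injective.under W : ModuleCat.{u} R) :=
    LinearMap.range ι.hom ⊔ Submodule.span R (Set.range u)
  have hN : N.FG := by
    refine Submodule.FG.sup ?_ (Submodule.fg_span (Set.finite_range u))
    rw [LinearMap.range_eq_map]
    exact Submodule.FG.map _ (Module.finite_def.1 inferInstance)
  have : Module.Finite R N := Module.Finite.iff_fg.2 hN
  let e : W →ₗ[R] N := ι.hom.codRestrict N fun w =>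
    (le_sup_left : _ ≤ N) (LinearMap.mem_range_self ι.hom w)
  have he : Function.Injective e := by
    intro a b hab
    exact hι (congrArg Subtype.val hab)
  let u' : Fin (F.n i) → N := fun l =>
    ⟨u l, (le_sup_right : _ ≤ N) (Submodule.subset_span (Set.mem_range_self l))⟩
  have hu' : act (F.D i) u' = fun l => e (w l) := by
    funext l
    apply Subtype.ext
    have h1 := congrFun hu l
    have h2 := congrFun (act_map N.subtype (F.D i) u') l
    exact h2.symm.trans h1
  have hU : FinDim k R (LinearMap.range e) :=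
    hW.of_surjective e.rangeRestrict e.surjective_rangeRestrict
  obtain ⟨N₀, hN₀, hfd⟩ := lf_quot h (LinearMap.range e) hU
  let q : N →ₗ[R] (N ⧸ N₀) := N₀.mkQ
  refine ⟨ModuleCat.of R (N ⧸ N₀), ModuleCat.ofHom (q.comp e), hfd, ?_, ?_⟩
  · intro a b hab
    have h1 : q (e (a - b)) = 0 := by
      rw [map_sub, map_sub, sub_eq_zero]
      exact hab
    have h2 : e (a - b) ∈ N₀ := (Submodule.Quotient.mk_eq_zero N₀).1 h1
    have h3 : e (a - b) ∈ N₀ ⊓ LinearMap.range e := ⟨h2, LinearMap.mem_range_self e _⟩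
    rw [hN₀, Submodule.mem_bot] at h3
    exact sub_eq_zero.1 (he (h3.trans (map_zero e).symm))
  · rw [F.cls_comp _ (i + 1) w hw]
    have h1 : act (F.D (i + 1)) (fun l => (ModuleCat.ofHom (q.comp e) : W ⟶ _) (w l)) = 0 := by
      have := act_map (q.comp e) (F.D (i + 1)) w
      rw [hw] at this
      refine this.trans ?_
      funext j
      exact map_zero (q.comp e)
    refine (F.cls_succ_iff _ i _ h1).2 ⟨fun l => q (u' l), ?_⟩
    refine (act_map q (F.D i) u').trans ?_
    rw [hu']
    rfl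

theorem removable_of_finDim [IsNoetherianRing R] (h : NormalSep k R) (hV : FinDim k R V)
    (hW : FinDim k R W) (i : ℕ) (x : Ext V W (i + 1)) : Removable k x := by
  induction i generalizing W with
  | zero =>
    obtain ⟨W₁, j, hW₁, hj, hx⟩ := rem_embed h hV hW 0 x
    let S : ShortComplex (ModuleCat.{u} R) :=
      ShortComplex.mk j (ModuleCat.ofHom (LinearMap.range j.hom).mkQ) (by
        ext a
        exact (Submodule.Quotient.mk_eq_zero _).2 (LinearMap.mem_range_self j.hom a))
    have hS : S.ShortExact := rem_short j hj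
    obtain ⟨y, hy⟩ := Ext.covariant_sequence_exact₁ V hS x hx (zero_add 1)
    obtain ⟨φ, hφ⟩ := (Ext.mk₀_bijective V S.X₃).2 y
    obtain ⟨P, p, q, hP, hp, hpq⟩ := rem_fib hV hW₁ φ S.g (fun a => by
      obtain ⟨b, hb⟩ := Submodule.mkQ_surjective (LinearMap.range j.hom) (φ a)
      exact ⟨b, hb⟩)
    refine ⟨P, p, hP, hp, ?_⟩
    rw [← hy, ← hφ, rem_assoc, Ext.mk₀_comp_mk₀, hpq, ← Ext.mk₀_comp_mk₀, ← rem_assoc,
      hS.comp_extClass, Ext.comp_zero]
  | succ i ih =>
    obtain ⟨W₁, j, hW₁, hj, hx⟩ := rem_embed h hV hW (i + 1) x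
    let S : ShortComplex (ModuleCat.{u} R) :=
      ShortComplex.mk j (ModuleCat.ofHom (LinearMap.range j.hom).mkQ) (by
        ext a
        exact (Submodule.Quotient.mk_eq_zero _).2 (LinearMap.mem_range_self j.hom a))
    have hS : S.ShortExact := rem_short j hj
    obtain ⟨y, hy⟩ := Ext.covariant_sequence_exact₁ V hS x hx rfl
    rw [← hy]
    refine Removable.comp (ih ?_ y) _ _
    exact hW₁.of_surjective (LinearMap.range j.hom).mkQ (Submodule.mkQ_surjective _)

end BGN
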