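import Pool.Agent.BGN.Fde
import Pool.Agent.BGN.Rem
import Pool.Agent.BGN.BiM

/-!
# BGN Bnd: the property `Bd`, extensions

`Bd ε i B`: for every finite dimensional `V` there is `b ∈ R`, `ε b = 1`, such that `x · b` is
removable for all `x ∈ Ext^i(V, B)`.

PROOFS.
* `Bd.of_exact`: `0 → B' → B → B'' → 0` exact.  Given `V`, take `b''` from `Bd B''` (for `V`).  For
  `x ∈ Ext^i(V, B)` the class `(x · b'') ≫ g = (x ≫ g) · b''` is removable.  The set of these
  classes (`x` in the finite dimensional space `Ext^i(V, B)`, `ext_finite`) is a finite dimensional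
  subspace of `Ext^i(V, B'')`, so `exists_common_cover` gives `π : V' → V` with
  `π^*(x · b'') ≫ g = 0` for all `x`; by exactness (`Ext.covariant_sequence_exact₂`)
  `π^*(x · b'') = y ≫ f`, `y ∈ Ext^i(V', B')`.  Take `b'` from `Bd B'` (for `V'`).  Then
  `π^*(x · (b'' b')) = (y ≫ f) · b' = (y · b') ≫ f` is removable (`Removable.comp`), hence
  `x · (b'' b')` is (`Removable.of_cover`), and `ε (b'' b') = 1`.
  (`B.r (b'' * b') = B.r b'' ≫ B.r b'`, `Ext.mk₀_comp_mk₀`, `Ext.comp_assoc`.)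
* `Bd.of_finDim`: `b = 1`, `removable_of_finDim`.
* `Bd.of_eq_one`: if `B.r b = 0` with `ε b = 1` then `x · b = 0`.
* `Bd.of_torsion`: induction on `m`, for all `B`.  `m = 0`: `𝟙 = B.r 1 = 0`.  `m + 1`: the image
  `N` of `B.r z` is a sub-bimodule (`range_stable`; it is a left submodule: range of a linear map);
  `exists_sub`, `exists_quot`.  The sub-bimodule is killed by `z^m` (`w z z^m = w z^{m+1} = 0`) and
  the quotient is killed by `z`, hence by `Q ⊔ Ideal.span {z}` (`r (q + s z) = r q + r s ≫ r z`).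
* `Bd.of_mul`: `N = span of {a-multiples w a, a ∈ I₁}`; it is a sub-bimodule
  (`(w a) b = w (a b)`, `a b ∈ I₁`); `N` is killed by `I₂` on the right (`w a b`, `a b ∈ Q`),
  the quotient is killed by `I₁`.
-/

namespace BGN

open CategoryTheory Abelian

universe u

variable {k : Type u} [Field k] {R : Type u} [Ring R] [Algebra k R]

/-- `Bd ε i B`: multiplication by some `b`, `ε b = 1`, makes all classes of `Ext^i(V, B)`
removable. -/
def Bd (ε : R →ₐ[k] k) (i : ℕ) (B : BiMod k R) : Prop :=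
  ∀ V : ModuleCat.{u} R, FinDim k R V → ∃ b : R, ε b = 1 ∧
    ∀ x : Ext V B.W i, Removable k (x.comp (Ext.mk₀ (B.r b)) (add_zero i))

theorem bnd_comp2 {A B C D : ModuleCat.{u} R} {p : ℕ} (x : Ext A B p) (f : B ⟶ C) (g : C ⟶ D) :
    (x.comp (Ext.mk₀ f) (add_zero p)).comp (Ext.mk₀ g) (add_zero p)
      = x.comp (Ext.mk₀ (f ≫ g)) (add_zero p) := by
  rw [← Ext.mk₀_comp_mk₀]
  exact Ext.comp_assoc x (Ext.mk₀ f) (Ext.mk₀ g) (add_zero p) (add_zero 0) (by omega)

theorem bnd_assoc {A B C D : ModuleCat.{u} R} (f : A ⟶ B) {p : ℕ} (x : Ext B C p) (g : C ⟶ D) :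
    (Ext.mk₀ f).comp (x.comp (Ext.mk₀ g) (add_zero p)) (zero_add p)
      = ((Ext.mk₀ f).comp x (zero_add p)).comp (Ext.mk₀ g) (add_zero p) :=
  (Ext.comp_assoc (Ext.mk₀ f) x (Ext.mk₀ g) (zero_add p) (add_zero p) (by omega)).symm

theorem Bd.of_exact [IsNoetherianRing R] [IsNoetherianRing Rᵐᵒᵖ] (h : NormalSep k R)
    {ε : R →ₐ[k] k} {i : ℕ} {B' B B'' : BiMod k R} (f : B'.W ⟶ B.W) (g : B.W ⟶ B''.W)
    (hf : Function.Injective f) (hg : Function.Surjective g)
    (hfg : ∀ w : B.W, g w = 0 ↔ ∃ v, f v = w)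
    (hf' : ∀ b, B'.r b ≫ f = f ≫ B.r b) (hg' : ∀ b, B.r b ≫ g = g ≫ B''.r b)
    (h' : Bd ε i B') (h'' : Bd ε i B'') : Bd ε i B := by
  intro V hV
  obtain ⟨b'', hb'', H''⟩ := h'' V hV
  have hfB : Module.Finite R B.W := B.finL
  have hfin : Module.Finite k (Ext V B.W i) := ext_finite h V hV B.W i
  let L : Ext V B.W i →ₗ[k] Ext V B''.W i :=
    { toFun := fun x => (x.comp (Ext.mk₀ (B.r b'')) (add_zero i)).comp (Ext.mk₀ g) (add_zero i)
      map_add' := fun x y => by rw [Ext.add_comp, Ext.add_comp]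
      map_smul' := fun c x => by rw [Ext.smul_comp, Ext.smul_comp, RingHom.id_apply] }
  have hL : ∀ x, Removable k (L x) := by
    intro x
    have e : L x = (x.comp (Ext.mk₀ g) (add_zero i)).comp (Ext.mk₀ (B''.r b'')) (add_zero i) := by
      show (x.comp (Ext.mk₀ (B.r b'')) (add_zero i)).comp (Ext.mk₀ g) (add_zero i) = _
      rw [bnd_comp2, bnd_comp2, hg']
    rw [e]
    exact H'' _
  obtain ⟨V', π, hV', hπ, hk⟩ := exists_common_cover hV (LinearMap.range L) inferInstance (by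
    rintro _ ⟨x, rfl⟩
    exact hL x)
  obtain ⟨b', hb', H'⟩ := h' V' hV'
  refine ⟨b'' * b', by rw [map_mul, hb'', hb', one_mul], fun x => ?_⟩
  have h0 : f ≫ g = 0 := by
    ext v
    exact (hfg (f v)).2 ⟨v, rfl⟩
  let S : ShortComplex (ModuleCat.{u} R) := ShortComplex.mk f g h0
  have hS : S.ShortExact := by
    refine ShortComplex.ShortExact.mk' ?_ ((ModuleCat.mono_iff_injective _).2 hf)
      ((ModuleCat.epi_iff_surjective _).2 hg)
    rw [ShortComplex.moduleCat_exact_iff]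
    intro b hb
    exact (hfg b).1 hb
  have h1 : ((Ext.mk₀ π).comp (x.comp (Ext.mk₀ (B.r b'')) (add_zero i)) (zero_add i)).comp
      (Ext.mk₀ S.g) (add_zero i) = 0 := by
    rw [← bnd_assoc]
    exact hk _ ⟨x, rfl⟩
  obtain ⟨y, hy⟩ := Ext.covariant_sequence_exact₂ V' hS _ h1
  refine Removable.of_cover π hπ _ ?_
  have e1 : x.comp (Ext.mk₀ (B.r (b'' * b'))) (add_zero i)
      = (x.comp (Ext.mk₀ (B.r b'')) (add_zero i)).comp (Ext.mk₀ (B.r b')) (add_zero i) := by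
    rw [bnd_comp2, B.r_mul]
  rw [e1, bnd_assoc, ← hy]
  have e2 : (y.comp (Ext.mk₀ S.f) (add_zero i)).comp (Ext.mk₀ (B.r b')) (add_zero i)
      = (y.comp (Ext.mk₀ (B'.r b')) (add_zero i)).comp (Ext.mk₀ f) (add_zero i) := by
    rw [bnd_comp2, bnd_comp2, hf']
  rw [e2]
  exact Removable.comp (H' y) _ _

theorem Bd.of_finDim [IsNoetherianRing R] (h : NormalSep k R) (ε : R →ₐ[k] k) (i : ℕ)
    (B : BiMod k R) (hB : FinDim k R B.W) : Bd ε (i + 1) B := by
  intro V hV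
  exact ⟨1, map_one ε, fun x => removable_of_finDim h hV hB i _⟩

theorem Bd.of_eq_one {ε : R →ₐ[k] k} {i : ℕ} {B : BiMod k R} (b : R) (hb : ε b = 1)
    (hB : B.r b = 0) : Bd ε i B := by
  intro V hV
  refine ⟨b, hb, fun x => ?_⟩
  rw [hB, Ext.mk₀_zero, Ext.comp_zero]
  exact Removable.zero hV

theorem bnd_sub {A B : ModuleCat.{u} R} {f : A ⟶ B} {a : A ⟶ A} {b : B ⟶ B}
    (hf : Function.Injective f) (h : a ≫ f = f ≫ b) (h0 : ∀ v, b (f v) = 0) : a = 0 := by
  ext v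
  apply hf
  have e : f (a v) = (a ≫ f) v := rfl
  have e2 : f ((0 : A ⟶ A) v) = 0 := map_zero f.hom
  rw [e, h]
  exact (h0 v).trans e2.symm

theorem bnd_quot {A B : ModuleCat.{u} R} {g : A ⟶ B} {a : A ⟶ A} {b : B ⟶ B}
    (hg : Function.Surjective g) (h : a ≫ g = g ≫ b) (h0 : ∀ w, g (a w) = 0) : b = 0 := by
  ext v
  obtain ⟨w, rfl⟩ := hg v
  have e : b (g w) = (g ≫ b) w := rfl
  rw [e, ← h]
  exact h0 w

theorem Bd.of_torsion [IsNoetherianRing R] [IsNoetherianRing Rᵐᵒᵖ] (h : NormalSep k R)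
    {ε : R →ₐ[k] k} {i : ℕ} {Q : Ideal R} (hQ : IsPrime2 Q) {z : R} (hz : Nrm Q z)
    (hi : ∀ C : BiMod k R, (∀ q ∈ Q ⊔ Ideal.span {z}, C.r q = 0) → Bd ε i C)
    (m : ℕ) (B : BiMod k R) (hB : ∀ q ∈ Q, B.r q = 0) (hm : B.r (z ^ m) = 0) : Bd ε i B := by
  induction m generalizing B with
  | zero => exact Bd.of_eq_one (z ^ 0) (by rw [pow_zero, map_one]) hm
  | succ m ih =>
    have hN : ∀ (b : R), ∀ w ∈ LinearMap.range (B.r z).hom, B.r b w ∈ LinearMap.range (B.r z).hom := by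
      rintro b w ⟨v, hv⟩
      obtain ⟨v', hv'⟩ := B.range_stable hz hB b w ⟨v, hv⟩
      exact ⟨v', hv'⟩
    obtain ⟨C', f, hf, hf1, hf2⟩ := B.exists_sub (LinearMap.range (B.r z).hom) hN
    obtain ⟨C'', g, hg, hg1, hg2⟩ := B.exists_quot (LinearMap.range (B.r z).hom) hN
    refine Bd.of_exact h f g hf hg (fun w => ?_) hf2 hg2 (ih C' ?_ ?_) (hi C'' ?_)
    · rw [← hg1 w, hf1 w]
    · intro q hq
      exact bnd_sub hf (hf2 q) fun v => by rw [hB q hq]; rfl
    · refine bnd_sub hf (hf2 _) fun v => ?_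
      obtain ⟨w, hw⟩ := (hf1 (f v)).2 ⟨v, rfl⟩
      have hw' : B.r z w = f v := hw
      rw [← hw']
      have e : B.r (z ^ m) (B.r z w) = (B.r z ≫ B.r (z ^ m)) w := rfl
      rw [e, ← B.r_mul, ← pow_succ', hm]
      rfl
    · intro q hq
      obtain ⟨q0, hq0, q1, hq1, rfl⟩ := Submodule.mem_sup.1 hq
      obtain ⟨s, rfl⟩ := Ideal.mem_span_singleton'.1 hq1
      have e0 : C''.r q0 = 0 := bnd_quot hg (hg2 q0) fun w => by
        rw [hB q0 hq0]
        exact map_zero g.hom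
      have e1 : C''.r z = 0 := bnd_quot hg (hg2 z) fun w => (hg1 _).1 ⟨w, rfl⟩
      rw [C''.r_add, C''.r_mul, e0, e1, CategoryTheory.Limits.comp_zero, add_zero]

theorem Bd.of_mul [IsNoetherianRing R] [IsNoetherianRing Rᵐᵒᵖ] (h : NormalSep k R)
    {ε : R →ₐ[k] k} {i : ℕ} {Q I₁ I₂ : Ideal R} (h₁ : I₁.IsTwoSided)
    (h12 : ∀ a ∈ I₁, ∀ b ∈ I₂, a * b ∈ Q)
    (hi₁ : ∀ C : BiMod k R, (∀ q ∈ I₁, C.r q = 0) → Bd ε i C)
    (hi₂ : ∀ C : BiMod k R, (∀ q ∈ I₂, C.r q = 0) → Bd ε i C)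
    (B : BiMod k R) (hB : ∀ q ∈ Q, B.r q = 0) : Bd ε i B := by
  let T : Set B.W := {w | ∃ a ∈ I₁, ∃ v : B.W, B.r a v = w}
  have hN : ∀ (b : R), ∀ w ∈ Submodule.span R T, B.r b w ∈ Submodule.span R T := by
    intro b w hw
    induction hw using Submodule.span_induction with
    | mem w hw =>
      obtain ⟨a, ha, v, rfl⟩ := hw
      have e : B.r b (B.r a v) = B.r (a * b) v := by
        rw [B.r_mul]
        rfl
      rw [e]
      exact Submodule.subset_span ⟨a * b, h₁.mul_mem_of_left b ha, v, rfl⟩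
    | zero =>
      have e : B.r b (0 : B.W) = 0 := map_zero (B.r b).hom
      rw [e]
      exact Submodule.zero_mem _
    | add x y _ _ hx hy =>
      have e : B.r b (x + y) = B.r b x + B.r b y := map_add (B.r b).hom x y
      rw [e]
      exact Submodule.add_mem _ hx hy
    | smul c x _ hx =>
      have e : B.r b (c • x) = c • B.r b x := map_smul (B.r b).hom c x
      rw [e]
      exact Submodule.smul_mem _ _ hx
  have hk : ∀ q ∈ I₂, ∀ w ∈ Submodule.span R T, B.r q w = 0 := by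
    intro q hq w hw
    induction hw using Submodule.span_induction with
    | mem w hw =>
      obtain ⟨a, ha, v, rfl⟩ := hw
      have e : B.r q (B.r a v) = B.r (a * q) v := by
        rw [B.r_mul]
        rfl
      rw [e, hB _ (h12 a ha q hq)]
      rfl
    | zero => exact map_zero (B.r q).hom
    | add x y _ _ hx hy =>
      have e : B.r q (x + y) = B.r q x + B.r q y := map_add (B.r q).hom x y
      rw [e, hx, hy, add_zero]
    | smul c x _ hx =>
      have e : B.r q (c • x) = c • B.r q x := map_smul (B.r q).hom c x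
      rw [e, hx, smul_zero]
  obtain ⟨C', f, hf, hf1, hf2⟩ := B.exists_sub (Submodule.span R T) hN
  obtain ⟨C'', g, hg, hg1, hg2⟩ := B.exists_quot (Submodule.span R T) hN
  refine Bd.of_exact h f g hf hg (fun w => ?_) hf2 hg2 (hi₂ C' ?_) (hi₁ C'' ?_)
  · rw [← hg1 w, hf1 w]
  · intro q hq
    exact bnd_sub hf (hf2 q) fun v => hk q hq _ ((hf1 (f v)).2 ⟨v, rfl⟩)
  · intro q hq
    exact bnd_quot hg (hg2 q) fun w => (hg1 _).1 (Submodule.subset_span ⟨q, hq, w, rfl⟩)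

end BGN
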