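import Pool.Agent.BGN.Bnd

/-!
# BGN BndP: the prime torsion free case of the bound theorem

`Q` is prime, `z` is normal modulo `Q`, `ε z = 0`, the bimodule `B` is killed by `Q` on the right and
`w z = 0` implies `w = 0` (`w z := B.r z w`).

PROOF of `Bd.of_prime`.  Fix `V` finite dimensional, `F = Ext^{i+1}(V, B)` (finite dimensional,
`ext_finite`), `𝒦 = {x ∈ F | Removable x}`, a subspace (`Removable.zero/add/smul`) stable under
`x ↦ x · b := x.comp (mk₀ (B.r b))` (`Removable.comp`).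
Step 1: there are `b ∈ R` and `N` with `ε b = 1` and `(x · b) · z^N ∈ 𝒦` for all `x ∈ F`.
  The operator `Z : x ↦ x · z` of `F` induces an operator on the finite dimensional space `F ⧸ 𝒦`
  (or: work with `F` only), with monic minimal (or characteristic) polynomial
  `p = X^N q`, `q(0) ≠ 0` (`Polynomial.exists_eq_pow_rootMultiplicity_mul_and_not_dvd`).
  `(x · q(z)) · z^N = p(Z) x ∈ 𝒦` (`x · (aeval z p) = aeval Z p x` by linearity,
  `B.r_add, r_mul, r_alg`).  `ε (q(z)) = q(ε z) = q(0) ≠ 0`; `b = q(0)⁻¹ q(z)`.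
  (Even simpler: take the minimal polynomial of `Z` on `F` itself; `0 ∈ 𝒦`.)
Step 2: if `b ∈ R`, `ε b = 1`, `(x · b) · z^{j+1} ∈ 𝒦` for all `x ∈ F` then there is `c ∈ R`, `ε c = 1`,
  with `(x · (b c)) · z^j ∈ 𝒦` for all `x`.  (Then descend from `j = N` to `0` and done.)
  The elements `y_x = (x · b) · z^j`, `x ∈ F`, form a finite dimensional subspace, `y_x · z ∈ 𝒦`, so
  by `exists_common_cover` there is `π : V' → V` with `π^*(y_x) · z = 0` for all `x`.  Let
  `g : B.W → D.W` be the quotient bimodule by the sub-bimodule `W z` (`range_stable`,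
  `exists_quot`), and consider the short exact sequence
  `S : 0 → B.W → B.W → D.W → 0` (maps `B.r z` and `g`) of left modules.  By
  `Ext.covariant_sequence_exact₁`, `π^*(y_x) = u_x.comp S.extClass` with `u_x ∈ Ext^i(V', D.W)`.
  `D` is killed on the right by `Q` and `z` (`w z ∈ W z`).  Let `C`, `e : C.W ≅ D.W` be the twist of
  `D` given by `exists_rtwist` with `m = j + 1`.  `C` is killed by `Q ⊔ span {z}`: for `c ∈ Q`
  take `b = 0` in the property of `C`; for `c = s z` write `s z^{j+1} - z^{j+1} t ∈ Q`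
  (normality of `z^{j+1}`, `Nrm.pow`), then `c z^{j+1} = s z^{j+1} z`,
  `z^{j+1} (t z) - c z^{j+1} ∈ Q` and `D.r (t z) = D.r t ≫ D.r z = 0`.  So `Bd ε i C` by
  hypothesis; take `c`, `ε c = 1`, for `V'`: `u · c` removable for all `u ∈ Ext^i(V', C.W)`.
  Choose `c'`, `c''` with `c z^j - z^j c' ∈ Q` and `c' z - z c'' ∈ Q`; then
  `c z^{j+1} - z^{j+1} c'' ∈ Q`, so `C.r c ≫ e.hom = e.hom ≫ D.r c''`, hence
  `u · c''` is removable for all `u ∈ Ext^i(V', D.W)` (transport by `e`, `Removable.comp`).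
  The triple `(B.r c', B.r c'', D.r c'')` is an endomorphism of `S`:
  `B.r c' ≫ B.r z = B.r (c' z) = B.r (z c'') = B.r z ≫ B.r c''`.  By
  `ShortExact.extClass_naturality`, `S.extClass.comp (mk₀ (B.r c')) = (mk₀ (D.r c'')).comp
  S.extClass`.  So `π^*((x · (b c)) · z^j) = π^*(y_x) · c' = (u_x · c'').comp S.extClass` is
  removable (`(b c) z^j - (b z^j) c' ∈ Q`), and `(x · (b c)) · z^j` is removable by
  `Removable.of_cover`.
-/

namespace BGN

open CategoryTheory Abelian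

universe u

variable {k : Type u} [Field k] {R : Type u} [Ring R] [Algebra k R]

/-! ### the additive map `B.r` -/

private theorem bp_r_zero (B : BiMod k R) : B.r 0 = 0 := by
  have h := B.r_add 0 0
  rw [add_zero] at h
  exact left_eq_add.1 h

private theorem bp_r_sub (B : BiMod k R) (a b : R) : B.r (a - b) = B.r a - B.r b := by
  have h := B.r_add (a - b) b
  rw [sub_add_cancel] at h
  exact eq_sub_of_add_eq h.symm

private theorem bp_r_eq (B : BiMod k R) {Q : Ideal R} (hB : ∀ q ∈ Q, B.r q = 0) {a b : R}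
    (h : a - b ∈ Q) : B.r a = B.r b := by
  have h1 := hB _ h
  rw [bp_r_sub, sub_eq_zero] at h1
  exact h1

private theorem bp_r_alg (B : BiMod k R) (c : k) : B.r (algebraMap k R c) = c • 𝟙 B.W := by
  ext w
  rw [B.r_alg]
  rfl

private theorem bp_mem_right {Q : Ideal R} (hQ : Q.IsTwoSided) {a : R} (b : R) (h : a ∈ Q) :
    a * b ∈ Q := hQ.mul_mem_of_left b h

/-! ### the operators on `Ext` -/

/-- right multiplication by `b` on `Ext` -/
private noncomputable def bpT (B : BiMod k R) (V : ModuleCat.{u} R) (i : ℕ) (b : R) :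
    Ext V B.W i →ₗ[k] Ext V B.W i where
  toFun x := x.comp (Ext.mk₀ (B.r b)) (add_zero i)
  map_add' x y := Ext.add_comp _ _ _ _
  map_smul' c x := Ext.smul_comp _ _ _ _

private theorem bpT_apply (B : BiMod k R) (V : ModuleCat.{u} R) (i : ℕ) (b : R)
    (x : Ext V B.W i) : bpT B V i b x = x.comp (Ext.mk₀ (B.r b)) (add_zero i) := rfl

private theorem bpT_add (B : BiMod k R) (V : ModuleCat.{u} R) (i : ℕ) (a b : R) :
    bpT B V i (a + b) = bpT B V i a + bpT B V i b := by
  refine LinearMap.ext fun x => ?_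
  rw [LinearMap.add_apply, bpT_apply, bpT_apply, bpT_apply, B.r_add, Ext.mk₀_add, Ext.comp_add]

private theorem bpT_mul_apply (B : BiMod k R) (V : ModuleCat.{u} R) (i : ℕ) (a b : R)
    (x : Ext V B.W i) : bpT B V i (a * b) x = bpT B V i b (bpT B V i a x) := by
  rw [bpT_apply, bpT_apply, bpT_apply, B.r_mul, Ext.comp_assoc_of_third_deg_zero,
    Ext.mk₀_comp_mk₀]

private theorem bpT_mul (B : BiMod k R) (V : ModuleCat.{u} R) (i : ℕ) (a b : R) :
    bpT B V i (a * b) = bpT B V i b * bpT B V i a :=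
  LinearMap.ext fun x => bpT_mul_apply B V i a b x

private theorem bpT_alg (B : BiMod k R) (V : ModuleCat.{u} R) (i : ℕ) (c : k) :
    bpT B V i (algebraMap k R c) = algebraMap k (Module.End k (Ext V B.W i)) c := by
  refine LinearMap.ext fun x => ?_
  rw [bpT_apply, bp_r_alg, Ext.mk₀_smul, Ext.comp_smul, Ext.comp_mk₀_id,
    Module.algebraMap_end_apply]

private theorem bpT_one (B : BiMod k R) (V : ModuleCat.{u} R) (i : ℕ) :
    bpT B V i 1 = 1 := by
  have h := bpT_alg B V i 1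
  rw [map_one, map_one] at h
  exact h

private theorem bpT_pow (B : BiMod k R) (V : ModuleCat.{u} R) (i : ℕ) (z : R) (n : ℕ) :
    bpT B V i (z ^ n) = (bpT B V i z) ^ n := by
  induction n with
  | zero => rw [pow_zero, pow_zero, bpT_one]
  | succ n ih => rw [pow_succ, pow_succ', bpT_mul, ih]

private theorem bpT_aeval (B : BiMod k R) (V : ModuleCat.{u} R) (i : ℕ) (z : R)
    (p : Polynomial k) :
    bpT B V i (Polynomial.aeval z p) = Polynomial.aeval (bpT B V i z) p := by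
  induction p using Polynomial.induction_on' with
  | add p q hp hq => rw [map_add, map_add, bpT_add, hp, hq]
  | monomial n c =>
    rw [Polynomial.aeval_monomial, Polynomial.aeval_monomial, bpT_mul, bpT_pow, bpT_alg,
      Algebra.commutes]

theorem bnd_step1 [IsNoetherianRing R] [IsNoetherianRing Rᵐᵒᵖ] (h : NormalSep k R)
    (ε : R →ₐ[k] k) (i : ℕ) {z : R} (hε : ε z = 0) (B : BiMod k R) (V : ModuleCat.{u} R)
    (hV : FinDim k R V) :
    ∃ (b : R) (N : ℕ), ε b = 1 ∧
      ∀ x : Ext V B.W i, Removable k (x.comp (Ext.mk₀ (B.r (b * z ^ N))) (add_zero i)) := by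
  have : Module.Finite R B.W := B.finL
  have hfin : Module.Finite k (Ext V B.W i) := ext_finite h V hV B.W i
  obtain ⟨T, hT⟩ : ∃ T : Module.End k (Ext V B.W i), T = bpT B V i z := ⟨_, rfl⟩
  have hint : IsIntegral k T := Algebra.IsIntegral.isIntegral T
  obtain ⟨p, hpm, hp0⟩ := hint
  have hpa : Polynomial.aeval T p = 0 := hp0
  obtain ⟨q, hpq, hq⟩ := Polynomial.exists_eq_pow_rootMultiplicity_mul_and_not_dvd p hpm.ne_zero 0
  obtain ⟨N, hN⟩ : ∃ N, N = p.rootMultiplicity 0 := ⟨_, rfl⟩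
  rw [← hN, map_zero, sub_zero] at hpq
  rw [map_zero, sub_zero, Polynomial.X_dvd_iff] at hq
  have hεq : ε (Polynomial.aeval z q) = q.coeff 0 := by
    rw [← Polynomial.aeval_algHom_apply, hε, Polynomial.coe_aeval_eq_eval,
      Polynomial.coeff_zero_eq_eval_zero]
  refine ⟨algebraMap k R (q.coeff 0)⁻¹ * Polynomial.aeval z q, N, ?_, ?_⟩
  · rw [map_mul, AlgHom.commutes, hεq]
    exact inv_mul_cancel₀ hq
  · intro x
    have h1 : algebraMap k R (q.coeff 0)⁻¹ * Polynomial.aeval z q * z ^ N =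
        Polynomial.aeval z (p * Polynomial.C (q.coeff 0)⁻¹) := by
      rw [hpq, map_mul, map_mul, map_pow, Polynomial.aeval_X, Polynomial.aeval_C,
        ← Algebra.commutes, mul_assoc]
      congr 1
      have h2 : Polynomial.aeval z q * z ^ N = Polynomial.aeval z (q * Polynomial.X ^ N) := by
        rw [map_mul, map_pow, Polynomial.aeval_X]
      have h3 : z ^ N * Polynomial.aeval z q = Polynomial.aeval z (Polynomial.X ^ N * q) := by
        rw [map_mul, map_pow, Polynomial.aeval_X]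
      rw [h2, h3, mul_comm]
    rw [h1, ← bpT_apply, bpT_aeval, ← hT, map_mul, hpa, zero_mul, LinearMap.zero_apply]
    exact Removable.zero hV

/-! ### step 2 -/

/-- `C` is killed by `Q + R z` -/
private theorem bp_twist_killed {Q : Ideal R} (hQ : IsPrime2 Q) {z : R} (hz : Nrm Q z) {j : ℕ}
    (D C : BiMod k R) (e : C.W ≅ D.W)
    (hC : ∀ b c : R, z ^ (j + 1) * b - c * z ^ (j + 1) ∈ Q → C.r c ≫ e.hom = e.hom ≫ D.r b)
    (hDz : D.r z = 0) : ∀ q ∈ Q ⊔ Ideal.span {z}, C.r q = 0 := by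
  have hcancel : ∀ c : R, C.r c ≫ e.hom = 0 → C.r c = 0 := by
    intro c hc
    rw [← cancel_mono e.hom, hc, Limits.zero_comp]
  intro q hq
  obtain ⟨q0, hq0, q1, hq1, rfl⟩ := Submodule.mem_sup.1 hq
  obtain ⟨s, rfl⟩ := Ideal.mem_span_singleton'.1 hq1
  have h0 : C.r q0 = 0 := by
    apply hcancel
    rw [hC 0 q0, bp_r_zero, Limits.comp_zero]
    rw [mul_zero, zero_sub]
    exact Q.neg_mem (bp_mem_right hQ.twoSided _ hq0)
  have h1 : C.r (s * z) = 0 := by
    apply hcancel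
    obtain ⟨t, ht⟩ := (Nrm.pow hQ hz (j + 1)).2.2 s
    rw [hC (t * z) (s * z), D.r_mul, hDz, Limits.comp_zero, Limits.comp_zero]
    have e1 : z ^ (j + 1) * (t * z) - s * z * z ^ (j + 1) =
        -((s * z ^ (j + 1) - z ^ (j + 1) * t) * z) := by
      have e2 : z * z ^ (j + 1) = z ^ (j + 1) * z := by rw [← pow_succ, ← pow_succ']
      rw [mul_assoc s z, e2]
      noncomm_ring
    rw [e1]
    exact Q.neg_mem (bp_mem_right hQ.twoSided _ ht)
  rw [C.r_add, h0, h1, add_zero]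

theorem bnd_step2 [IsNoetherianRing R] [IsNoetherianRing Rᵐᵒᵖ] (h : NormalSep k R)
    {ε : R →ₐ[k] k} {i : ℕ} {Q : Ideal R} (hQ : IsPrime2 Q) {z : R} (hz : Nrm Q z)
    (hi : ∀ C : BiMod k R, (∀ q ∈ Q ⊔ Ideal.span {z}, C.r q = 0) → Bd ε i C)
    (B : BiMod k R) (hB : ∀ q ∈ Q, B.r q = 0) (htf : ∀ w : B.W, B.r z w = 0 → w = 0)
    (V : ModuleCat.{u} R) (hV : FinDim k R V) (b : R) (hb : ε b = 1) (j : ℕ)
    (hj : ∀ x : Ext V B.W (i + 1),
      Removable k (x.comp (Ext.mk₀ (B.r (b * z ^ (j + 1)))) (add_zero (i + 1)))) :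
    ∃ b' : R, ε b' = 1 ∧ ∀ x : Ext V B.W (i + 1),
      Removable k (x.comp (Ext.mk₀ (B.r (b' * z ^ j))) (add_zero (i + 1))) := by
  have : Module.Finite R B.W := B.finL
  have hfin : Module.Finite k (Ext V B.W (i + 1)) := ext_finite h V hV B.W (i + 1)
  -- the common cover
  obtain ⟨V', π, hV', hπ, hcov⟩ := exists_common_cover hV
    (LinearMap.range (bpT B V (i + 1) (b * z ^ (j + 1)))) inferInstance (by
      rintro _ ⟨x, rfl⟩
      exact hj x)
  -- the quotient bimodule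
  obtain ⟨D, g, hg, hgN, hgr⟩ := B.exists_quot (LinearMap.range (B.r z).hom) (by
    rintro c _ ⟨v, rfl⟩
    obtain ⟨v', hv'⟩ := B.range_stable hz hB c (B.r z v) ⟨v, rfl⟩
    exact ⟨v', hv'⟩)
  have hzg : B.r z ≫ g = 0 := by
    ext w
    exact (hgN _).1 (LinearMap.mem_range_self (B.r z).hom w)
  have hepi : Epi g := (ModuleCat.epi_iff_surjective _).2 hg
  have hDcancel : ∀ c : R, g ≫ D.r c = 0 → D.r c = 0 := by
    intro c hc
    rw [← cancel_epi g, hc, Limits.comp_zero]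
  have hDQ : ∀ q ∈ Q, D.r q = 0 := by
    intro q hq
    apply hDcancel
    rw [← hgr, hB q hq, Limits.zero_comp]
  have hDz : D.r z = 0 := by
    apply hDcancel
    rw [← hgr, hzg]
  have hSE : (ShortComplex.mk (B.r z) g hzg).ShortExact := by
    refine ShortComplex.ShortExact.mk' ?_ ((ModuleCat.mono_iff_injective _).2 ?_)
      ((ModuleCat.epi_iff_surjective _).2 hg)
    · rw [ShortComplex.moduleCat_exact_iff]
      intro w hw
      obtain ⟨v, hv⟩ := (hgN w).2 hw
      exact ⟨v, hv⟩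
    · intro v w hvw
      have h1 : B.r z (v - w) = 0 := by
        have h2 := map_sub (B.r z).hom v w
        have h3 : (B.r z).hom v = (B.r z).hom w := hvw
        rw [h3, sub_self] at h2
        exact h2
      exact sub_eq_zero.1 (htf _ h1)
  -- the twist
  obtain ⟨C, e, hC⟩ := D.exists_rtwist hQ hz hDQ (j + 1)
  obtain ⟨c, hc, hcu⟩ := hi C (bp_twist_killed hQ hz D C e hC hDz) V' hV'
  obtain ⟨c', hc'⟩ := (Nrm.pow hQ hz j).2.2 c
  obtain ⟨c'', hc''⟩ := hz.2.2 c'
  have h1 : z ^ (j + 1) * c'' - c * z ^ (j + 1) ∈ Q := by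
    have e1 : z ^ (j + 1) * c'' - c * z ^ (j + 1) =
        -((c * z ^ j - z ^ j * c') * z + z ^ j * (c' * z - z * c'')) := by
      rw [pow_succ]
      noncomm_ring
    rw [e1]
    exact Q.neg_mem (Q.add_mem (bp_mem_right hQ.twoSided _ hc') (Q.mul_mem_left _ hc''))
  have hrem : ∀ u : Ext V' D.W i,
      Removable k (u.comp (Ext.mk₀ (D.r c'')) (add_zero i)) := by
    intro u
    have h2 : D.r c'' = e.inv ≫ C.r c ≫ e.hom := by
      rw [hC c'' c h1, Iso.inv_hom_id_assoc]
    have h3 : u.comp (Ext.mk₀ (D.r c'')) (add_zero i) =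
        ((u.comp (Ext.mk₀ e.inv) (add_zero i)).comp (Ext.mk₀ (C.r c)) (add_zero i)).comp
          (Ext.mk₀ e.hom) (add_zero i) := by
      rw [h2, Ext.comp_assoc_of_third_deg_zero, Ext.mk₀_comp_mk₀,
        Ext.comp_assoc_of_third_deg_zero, Ext.mk₀_comp_mk₀]
    rw [h3]
    exact (hcu _).comp _ _
  refine ⟨b * c, by rw [map_mul, hb, hc, one_mul], fun x => ?_⟩
  have h4 : B.r (b * c * z ^ j) = B.r (b * z ^ j * c') := by
    apply bp_r_eq B hB
    have e1 : b * c * z ^ j - b * z ^ j * c' = b * (c * z ^ j - z ^ j * c') := by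
      noncomm_ring
    rw [e1]
    exact Q.mul_mem_left _ hc'
  -- the class `π^* y_x`
  obtain ⟨y, hy⟩ : ∃ y : Ext V' B.W (i + 1),
      y = (Ext.mk₀ π).comp (x.comp (Ext.mk₀ (B.r (b * z ^ j))) (add_zero (i + 1)))
        (zero_add (i + 1)) := ⟨_, rfl⟩
  have hyz : y.comp (Ext.mk₀ (B.r z)) (add_zero (i + 1)) = 0 := by
    rw [hy, Ext.comp_assoc_of_third_deg_zero, Ext.comp_assoc_of_third_deg_zero,
      Ext.mk₀_comp_mk₀, ← B.r_mul, mul_assoc, ← pow_succ]
    exact hcov _ ⟨x, rfl⟩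
  obtain ⟨v, hv⟩ := Ext.covariant_sequence_exact₁ V' hSE y hyz rfl
  -- naturality
  let φ : ShortComplex.mk (B.r z) g hzg ⟶ ShortComplex.mk (B.r z) g hzg :=
    { τ₁ := B.r c'
      τ₂ := B.r c''
      τ₃ := D.r c''
      comm₁₂ := by
        change B.r c' ≫ B.r z = B.r z ≫ B.r c''
        rw [← B.r_mul, ← B.r_mul]
        exact bp_r_eq B hB hc''
      comm₂₃ := hgr c'' }
  have hnat := hSE.extClass_naturality hSE φ
  have hnat' : hSE.extClass.comp (Ext.mk₀ (B.r c')) (add_zero 1) =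
      (Ext.mk₀ (D.r c'')).comp hSE.extClass (zero_add 1) := hnat
  refine Removable.of_cover π hπ _ ?_
  have h5 : (Ext.mk₀ π).comp (x.comp (Ext.mk₀ (B.r (b * c * z ^ j))) (add_zero (i + 1)))
      (zero_add (i + 1)) = (v.comp (Ext.mk₀ (D.r c'')) (add_zero i)).comp hSE.extClass rfl := by
    have h6 : (Ext.mk₀ π).comp (x.comp (Ext.mk₀ (B.r (b * c * z ^ j))) (add_zero (i + 1)))
        (zero_add (i + 1)) = y.comp (Ext.mk₀ (B.r c')) (add_zero (i + 1)) := by
      rw [hy, h4, B.r_mul, ← Ext.mk₀_comp_mk₀, Ext.comp_assoc_of_third_deg_zero,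
        Ext.comp_assoc_of_third_deg_zero]
    rw [h6, ← hv, Ext.comp_assoc_of_third_deg_zero, hnat', Ext.comp_assoc_of_second_deg_zero]
  rw [h5]
  exact (hrem v).comp _ _

theorem Bd.of_prime [IsNoetherianRing R] [IsNoetherianRing Rᵐᵒᵖ] (h : NormalSep k R)
    {ε : R →ₐ[k] k} {i : ℕ} {Q : Ideal R} (hQ : IsPrime2 Q) {z : R} (hz : Nrm Q z) (hε : ε z = 0)
    (hi : ∀ C : BiMod k R, (∀ q ∈ Q ⊔ Ideal.span {z}, C.r q = 0) → Bd ε i C)
    (B : BiMod k R) (hB : ∀ q ∈ Q, B.r q = 0) (htf : ∀ w : B.W, B.r z w = 0 → w = 0) :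
    Bd ε (i + 1) B := by
  intro V hV
  obtain ⟨b, N, hb, hN⟩ := bnd_step1 h ε (i + 1) hε B V hV
  induction N generalizing b with
  | zero => exact ⟨b, hb, by simpa using hN⟩
  | succ j ih =>
    obtain ⟨b', hb', hj⟩ := bnd_step2 h hQ hz hi B hB htf V hV b hb j hN
    exact ih b' hb' hj

end BGN
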