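import Pool.Agent.BGN.BndP

/-!
# BGN Bound: the bound theorem

PROOF of `bound`.  Noetherian induction on two-sided ideals `Q` (`WellFoundedGT (Ideal R)`): there is
`n` with `Bd ε i B` for all `i > n` and all `B` killed by `Q` on the right.
* `Q = ⊤`: `B.r 1 = 0`, `Bd.of_eq_one` with `b = 1`.
* `Q ≠ ⊤` not prime: there are `a, b ∉ Q` with `a r b ∈ Q` for all `r`;
  `I₁ = Q + RaR`, `I₂ = Q + RbR` (two-sided, larger), `x y ∈ Q` for `x ∈ I₁, y ∈ I₂`.
  `n = max n₁ n₂`, `Bd.of_mul`.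
* `Q` prime, `Q ⊄ ker ε`: `b ∈ Q` with `ε b = 1`, `Bd.of_eq_one`.
* `Q ⊆ ker ε` prime, `FinCodim k Q`: `B.W` is finite dimensional: it is finitely generated as a
  right module (`B.finR`) and killed by `Q` on the right: it is spanned over `k` by the
  `B.r (a_j) x`, `x` in the finite set of `B.finR`, `a_j` lifts of a `k`-basis of `R ⧸ Q`
  (`B.r_alg`).  `Bd.of_finDim` for `i ≥ 1`.
* `Q ⊆ ker ε` prime, not `FinCodim`: `M = ker ε` is `IsPrime2` and `FinCodim` (codimension one), so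
  `NormalSep` gives `z ∈ ker ε`, `Nrm Q z`.  `Q' = Q ⊔ span {z}` is two-sided and larger
  (`sup_span_twoSided`); let `n'` be the number for `Q'` and `n = n' + 1`.  For `i > n` and `B`
  killed by `Q`: `exists_rtorsion` gives the torsion sub-bimodule `N`, `exists_sub`,
  `exists_quot`; `Bd ε i` of the sub-bimodule by `Bd.of_torsion`, `Bd ε i` of the quotient by
  `Bd.of_prime` (`i - 1 > n'`); conclude by `Bd.of_exact`.
Apply with `Q = ⊥` (`B.r 0 = 0` from `B.r_add`).
-/

namespace BGN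

open CategoryTheory Abelian

universe u

variable {k : Type u} [Field k] {R : Type u} [Ring R] [Algebra k R]

private theorem bound_two {Q : Ideal R} (h2 : Q.IsTwoSided) (a : R) :
    (Q ⊔ Ideal.span {c : R | ∃ y, c = a * y}).IsTwoSided := by
  refine ⟨?_⟩
  intro x b hx
  obtain ⟨q, hq, s, hs, rfl⟩ := Submodule.mem_sup.mp hx
  rw [add_mul]
  refine Submodule.add_mem _ (Submodule.mem_sup_left (h2.mul_mem_of_left _ hq))
    (Submodule.mem_sup_right ?_)
  refine Submodule.span_induction (p := fun s _ => s * b ∈ Ideal.span {c : R | ∃ y, c = a * y})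
    ?_ ?_ ?_ ?_ hs
  · rintro c ⟨y, rfl⟩
    exact Submodule.subset_span ⟨y * b, by rw [mul_assoc]⟩
  · rw [zero_mul]; exact Submodule.zero_mem _
  · intro u v _ _ hu hv
    rw [add_mul]; exact Submodule.add_mem _ hu hv
  · intro r u _ hu
    rw [smul_eq_mul, mul_assoc]; exact Submodule.smul_mem _ r hu

private theorem bound_lt {Q : Ideal R} {a : R} (ha : a ∉ Q) :
    Q < Q ⊔ Ideal.span {c : R | ∃ y, c = a * y} := by
  refine lt_of_le_of_ne le_sup_left ?_
  intro h
  apply ha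
  rw [h]
  exact Submodule.mem_sup_right (Submodule.subset_span ⟨1, (mul_one a).symm⟩)

private theorem bound_nonprime {Q : Ideal R} (h2 : Q.IsTwoSided) (hne : Q ≠ ⊤)
    (hp : ¬ IsPrime2 Q) :
    ∃ I₁ I₂ : Ideal R, I₁.IsTwoSided ∧ I₂.IsTwoSided ∧ Q < I₁ ∧ Q < I₂ ∧
      ∀ a ∈ I₁, ∀ b ∈ I₂, a * b ∈ Q := by
  have : ∃ a b : R, (∀ r : R, a * r * b ∈ Q) ∧ a ∉ Q ∧ b ∉ Q := by
    by_contra hcon
    apply hp
    refine ⟨h2, hne, ?_⟩
    intro a b hab
    by_contra hn
    rw [not_or] at hn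
    exact hcon ⟨a, b, hab, hn.1, hn.2⟩
  obtain ⟨a, b, hab, ha, hb⟩ := this
  refine ⟨_, _, bound_two h2 a, bound_two h2 b, bound_lt ha, bound_lt hb, ?_⟩
  intro c hc d hd
  obtain ⟨q, hq, s, hs, rfl⟩ := Submodule.mem_sup.mp hc
  obtain ⟨q', hq', s', hs', rfl⟩ := Submodule.mem_sup.mp hd
  have key : s * s' ∈ Q := by
    refine Submodule.span_induction (p := fun s _ => s * s' ∈ Q) ?_ ?_ ?_ ?_ hs
    · rintro _ ⟨y, rfl⟩
      refine Submodule.span_induction (p := fun s' _ => ∀ y, a * y * s' ∈ Q) ?_ ?_ ?_ ?_ hs' y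
      · rintro _ ⟨y', rfl⟩ y
        rw [← mul_assoc]
        exact h2.mul_mem_of_left _ (hab y)
      · intro y
        rw [mul_zero]; exact Q.zero_mem
      · intro u v _ _ hu hv y
        rw [mul_add]; exact Q.add_mem (hu y) (hv y)
      · intro r u _ hu y
        rw [smul_eq_mul, ← mul_assoc, mul_assoc a y r]; exact hu (y * r)
    · rw [zero_mul]; exact Q.zero_mem
    · intro u v _ _ hu hv
      rw [add_mul]; exact Q.add_mem hu hv
    · intro r u _ hu
      rw [smul_eq_mul, mul_assoc]; exact Q.mul_mem_left r hu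
  have : (q + s) * (q' + s') = q * (q' + s') + (s * q' + s * s') := by
    rw [add_mul, mul_add s]
  rw [this]
  exact Q.add_mem (h2.mul_mem_of_left _ hq) (Q.add_mem (Q.mul_mem_left _ hq') key)

private theorem bound_finDim (B : BiMod k R) {Q : Ideal R} (hQ : FinCodim k Q)
    (hB : ∀ q ∈ Q, B.r q = 0) : FinDim k R B.W := by
  letI : Module k B.W := Module.compHom B.W (algebraMap k R)
  have hsm : ∀ (c : k) (w : B.W), c • w = algebraMap k R c • w := fun _ _ => rfl
  haveI : IsScalarTower k R B.W := ⟨fun c r w => by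
    rw [hsm, Algebra.smul_def, mul_smul]⟩
  rw [finDim_iff]
  haveI : Module.Finite k (R ⧸ Q) := hQ
  haveI : Module.Finite k (R ⧸ Q.restrictScalars k) :=
    Module.Finite.equiv (Submodule.Quotient.restrictScalarsEquiv k Q).symm
  obtain ⟨s, hs⟩ := B.finR
  let φ : B.W → R →ₗ[k] B.W := fun x =>
    { toFun := fun b => B.r b x
      map_add' := fun a b => by
        rw [B.r_add]; rfl
      map_smul' := fun c b => by
        rw [Algebra.smul_def, B.r_mul, ModuleCat.comp_apply, B.r_alg, map_smul, RingHom.id_apply,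
          hsm] }
  have hφ : ∀ x b, φ x b = B.r b x := fun _ _ => rfl
  have hker : ∀ x, Q.restrictScalars k ≤ LinearMap.ker (φ x) := by
    intro x q hq
    rw [LinearMap.mem_ker, hφ, hB q hq]; rfl
  let Φ : (s → R ⧸ Q.restrictScalars k) →ₗ[k] B.W :=
    ∑ x : s, ((Q.restrictScalars k).liftQ (φ x) (hker x)).comp (LinearMap.proj x)
  have hΦ : ∀ c : s → R, Φ (fun x => (Q.restrictScalars k).mkQ (c x)) = ∑ x : s, B.r (c x) x := by
    intro c
    simp only [Φ, LinearMap.coe_sum, Finset.sum_apply, LinearMap.comp_apply, LinearMap.proj_apply,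
      Submodule.liftQ_mkQ, Submodule.mkQ_apply, Submodule.liftQ_apply, hφ]
  refine Module.Finite.of_surjective Φ ?_
  intro w
  obtain ⟨c, hc⟩ := hs w
  refine ⟨fun x => (Q.restrictScalars k).mkQ (c x), ?_⟩
  rw [hΦ (fun x => c x), hc]
  exact Finset.sum_coe_sort s (fun x => B.r (c x) x)

private theorem bound_ker_prime (ε : R →ₐ[k] k) : IsPrime2 (RingHom.ker ε) := by
  refine ⟨inferInstance, ?_, ?_⟩
  · intro h
    have : (1 : R) ∈ RingHom.ker ε := by rw [h]; exact Submodule.mem_top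
    rw [RingHom.mem_ker, map_one] at this
    exact one_ne_zero this
  · intro a b hab
    have := hab 1
    rw [RingHom.mem_ker, mul_one, map_mul] at this
    rw [RingHom.mem_ker, RingHom.mem_ker]
    exact mul_eq_zero.mp this

private theorem bound_ker_fin (ε : R →ₐ[k] k) : FinCodim k (RingHom.ker ε) := by
  unfold FinCodim
  refine Module.Finite.of_surjective
    (((Submodule.mkQ (RingHom.ker ε)).restrictScalars k).comp (Algebra.linearMap k R)) ?_
  intro x
  obtain ⟨r, rfl⟩ := Submodule.mkQ_surjective _ x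
  refine ⟨ε r, ?_⟩
  rw [LinearMap.comp_apply, Algebra.linearMap_apply, LinearMap.coe_restrictScalars]
  rw [← sub_eq_zero, ← map_sub]
  rw [← LinearMap.mem_ker, Submodule.ker_mkQ, RingHom.mem_ker, map_sub, AlgHom.commutes]
  simp

private theorem bound_aux [IsNoetherianRing R] [IsNoetherianRing Rᵐᵒᵖ] (h : NormalSep k R)
    (ε : R →ₐ[k] k) (Q : Ideal R) : Q.IsTwoSided →
    ∃ n : ℕ, ∀ i, n < i → ∀ B : BiMod k R, (∀ q ∈ Q, B.r q = 0) → Bd ε i B := by
  induction Q using WellFoundedGT.induction with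
  | ind Q ih =>
    intro h2
    by_cases hne : Q = ⊤
    · refine ⟨0, fun i _ B hB => Bd.of_eq_one 1 (map_one ε) (hB 1 ?_)⟩
      rw [hne]; exact Submodule.mem_top
    by_cases hp : IsPrime2 Q
    swap
    · obtain ⟨I₁, I₂, t1, t2, l1, l2, hmul⟩ := bound_nonprime h2 hne hp
      obtain ⟨n1, hn1⟩ := ih I₁ l1 t1
      obtain ⟨n2, hn2⟩ := ih I₂ l2 t2
      refine ⟨max n1 n2, fun i hi B hB => ?_⟩
      exact Bd.of_mul h t1 hmul (hn1 i (lt_of_le_of_lt (le_max_left _ _) hi))
        (hn2 i (lt_of_le_of_lt (le_max_right _ _) hi)) B hB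
    by_cases hle : Q ≤ RingHom.ker ε
    swap
    · obtain ⟨q, hq, hq'⟩ := Set.not_subset.mp hle
      have hεq : ε q ≠ 0 := fun h0 => hq' (RingHom.mem_ker.mpr h0)
      refine ⟨0, fun i _ B hB => Bd.of_eq_one (algebraMap k R (ε q)⁻¹ * q) ?_
        (hB _ (Q.mul_mem_left _ hq))⟩
      rw [map_mul, AlgHom.commutes]
      exact inv_mul_cancel₀ hεq
    by_cases hf : FinCodim k Q
    · refine ⟨0, fun i hi B hB => ?_⟩
      obtain ⟨j, rfl⟩ : ∃ j, i = j + 1 := ⟨i - 1, by omega⟩
      exact Bd.of_finDim h ε j B (bound_finDim B hf hB)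
    obtain ⟨z, hz1, hz2, hz3⟩ := h Q (RingHom.ker ε) hp (bound_ker_prime ε) hle hf
      (bound_ker_fin ε)
    have hz : Nrm Q z := ⟨hz2, hz3⟩
    have hεz : ε z = 0 := RingHom.mem_ker.mp hz1
    obtain ⟨hts, hlt⟩ := sup_span_twoSided hp hz
    obtain ⟨n', hn'⟩ := ih (Q ⊔ Ideal.span {z}) hlt hts
    refine ⟨n' + 1, fun i hi B hB => ?_⟩
    obtain ⟨j, rfl⟩ : ∃ j, i = j + 1 := ⟨i - 1, by omega⟩
    have hj : n' < j := by omega
    obtain ⟨N, m, hNst, hNm, hNtf⟩ := B.exists_rtorsion hp hz hB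
    obtain ⟨C, f, hf1, hfN, hfr⟩ := B.exists_sub N hNst
    obtain ⟨D, g, hg1, hgN, hgr⟩ := B.exists_quot N hNst
    have hCr : ∀ b, (∀ w ∈ N, B.r b w = 0) → C.r b = 0 := by
      intro b hb
      ext v
      apply hf1
      have e1 : f (C.r b v) = B.r b (f v) := by
        rw [← ModuleCat.comp_apply, hfr, ModuleCat.comp_apply]
      rw [e1, hb _ ((hfN _).mpr ⟨v, rfl⟩)]
      exact (map_zero _).symm
    have hDr : ∀ b, (∀ w, B.r b w ∈ N) → D.r b = 0 := by
      intro b hb
      ext v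
      obtain ⟨w, rfl⟩ := hg1 v
      have e1 : D.r b (g w) = g (B.r b w) := by
        rw [← ModuleCat.comp_apply, ← hgr, ModuleCat.comp_apply]
      rw [e1, (hgN _).mp (hb w)]
      rfl
    have hC : Bd ε (j + 1) C := by
      refine Bd.of_torsion h hp hz (hn' (j + 1) (by omega)) m C ?_ ?_
      · intro q hq
        refine hCr q fun w _ => ?_
        rw [hB q hq]; rfl
      · exact hCr _ hNm
    have hD : Bd ε (j + 1) D := by
      refine Bd.of_prime h hp hz hεz (hn' j hj) D ?_ ?_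
      · intro q hq
        refine hDr q fun w => ?_
        rw [hB q hq]; exact N.zero_mem
      · intro v hv
        obtain ⟨w, rfl⟩ := hg1 v
        have e1 : D.r z (g w) = g (B.r z w) := by
          rw [← ModuleCat.comp_apply, ← hgr, ModuleCat.comp_apply]
        rw [e1] at hv
        exact (hgN _).mp (hNtf _ ((hgN _).mpr hv))
    exact Bd.of_exact h f g hf1 hg1 (fun w => ((hgN w).symm.trans (hfN w))) hfr hgr hC hD

theorem bound [IsNoetherianRing R] [IsNoetherianRing Rᵐᵒᵖ] (h : NormalSep k R)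
    (ε : R →ₐ[k] k) : ∃ n : ℕ, ∀ i, n < i → ∀ B : BiMod k R, Bd ε i B := by
  obtain ⟨n, hn⟩ := bound_aux h ε ⊥ inferInstance
  refine ⟨n, fun i hi B => hn i hi B ?_⟩
  intro q hq
  rw [Submodule.mem_bot] at hq
  rw [hq]
  have h0 := B.r_add 0 0
  rw [add_zero] at h0
  simpa using h0

end BGN
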