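import Pool.Agent.BGN.Defs

/-!
# BGN LemA: a twisted contraction (pure matrix algebra)

`A` is a ring, `Z` a multiplicatively closed set of normal regular elements, `D` a complex of
matrices whose row homology is killed by elements of `Z`.  Then for every `i` there is `z ∈ Z` and
an automorphism `τ` with `z a = τ(a) z` and `z = T D_i + τ(D_{i-1}) S`.

PROOF.  `z ∈ Z` normal and regular defines `τ_z : A ≃+* A` by `z a = τ_z(a) z`
(`exists_aut`: existence of `τ(a)` and uniqueness by regularity; it is a ring homomorphism;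
bijective since `a z = z b` is solvable, `a = τ(b)`).
`i = 0`: `z` kills `coker D_0`; the rows of `z • 1` are `z e_l = u_l D_0`; `T` has rows `u_l`.
`i → i+1`: given `z₁ • 1 = T₁ D_i + τ₁(D_{i-1}) S₁` (no second term if `i = 0`), put
`G = z₁ • 1 - τ₁(D_i) T₁` (size `n (i+1)`).  Then `G D_i = z₁ D_i - τ₁(D_i) T₁ D_i
= τ₁(D_i) z₁ - τ₁(D_i) (z₁ - τ₁(D_{i-1}) S₁) = τ₁(D_i D_{i-1}) S₁ = 0`.
So the rows of `G` are cycles; choose `z₂ ∈ Z` killing the homology in degree `i+1`: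
`z₂ G = T₂ D_{i+1}`.  Then `z₂ z₁ • 1 = T₂ D_{i+1} + z₂ τ₁(D_i) T₁ = T₂ D_{i+1} +
(τ₂ τ₁)(D_i) (z₂ T₁)` and `z₂ z₁ a = τ₂(τ₁(a)) z₂ z₁`.  Done with `z = z₂ z₁`, `τ = τ₂ ∘ τ₁`.
(Write the induction hypothesis as: `z₁ • 1 - T₁ D_i` multiplied on the left by `τ₁(D_i)` is `0`;
i.e. carry the statement `Q(i) : ∃ z ∈ Z, ∃ τ T, z a = τ a z ∧ τ(D_i) (z • 1 - T D_i) = 0 ∧ ...`.)
-/

namespace BGN

universe u

variable {A : Type u} [Ring A]

/-- A normal regular element defines an automorphism. -/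
theorem exists_aut (z : A) (h1 : ∀ a, z * a = 0 → a = 0) (h2 : ∀ a, a * z = 0 → a = 0)
    (n1 : ∀ a, ∃ b, z * a = b * z) (n2 : ∀ a, ∃ b, a * z = z * b) :
    ∃ τ : A ≃+* A, ∀ a, z * a = τ a * z := by
  choose f hf using n1
  have hu : ∀ c d, c * z = d * z → c = d := fun c d h =>
    sub_eq_zero.mp (h2 _ (by rw [sub_mul, h, sub_self]))
  have hv : ∀ c d, z * c = z * d → c = d := fun c d h =>
    sub_eq_zero.mp (h1 _ (by rw [mul_sub, h, sub_self]))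
  let F : A →+* A :=
    { toFun := f
      map_one' := hu _ _ (by rw [← hf, mul_one, one_mul])
      map_mul' := fun x y => hu _ _ (by rw [← hf, ← mul_assoc, hf, mul_assoc, hf, mul_assoc])
      map_zero' := hu _ _ (by rw [← hf, mul_zero, zero_mul])
      map_add' := fun x y => hu _ _ (by rw [← hf, mul_add, hf, hf, add_mul]) }
  have hb : Function.Bijective F := by
    constructor
    · intro x y h
      have h' : f x = f y := h
      exact hv _ _ (by rw [hf, hf, h'])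
    · intro x
      obtain ⟨b, hb⟩ := n2 x
      exact ⟨b, hu _ _ (by rw [hb]; exact (hf b).symm)⟩
  exact ⟨RingEquiv.ofBijective F hb, fun a => hf a⟩

/-- `z D = τ(D) z`. -/
theorem diag_mul_eq {p q : ℕ} (z : A) (τ : A ≃+* A) (h : ∀ a, z * a = τ a * z)
    (M : Matrix (Fin p) (Fin q) A) :
    Matrix.diagonal (fun _ : Fin p => z) * M = M.map τ * Matrix.diagonal (fun _ : Fin q => z) := by
  ext i j
  rw [Matrix.diagonal_mul, Matrix.mul_diagonal, Matrix.map_apply, h]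

theorem lemA_step (Z : Set A) (hmul : ∀ x ∈ Z, ∀ y ∈ Z, x * y ∈ Z)
    (h1 : ∀ z ∈ Z, ∀ a, z * a = 0 → a = 0) (h2 : ∀ z ∈ Z, ∀ a, a * z = 0 → a = 0)
    (n1 : ∀ z ∈ Z, ∀ a, ∃ b, z * a = b * z) (n2 : ∀ z ∈ Z, ∀ a, ∃ b, a * z = z * b)
    {p q r : ℕ} (D0 : Matrix (Fin q) (Fin p) A) (D1 : Matrix (Fin r) (Fin q) A)
    (k1 : ∃ z ∈ Z, ∀ v : Fin q → A, Matrix.vecMul v D0 = 0 →
      ∃ u : Fin r → A, (fun l => z * v l) = Matrix.vecMul u D1)
    (z1 : A) (hz1 : z1 ∈ Z) (τ1 : A ≃+* A) (hτ : ∀ a, z1 * a = τ1 a * z1)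
    (T1 : Matrix (Fin p) (Fin q) A)
    (hT : D0.map τ1 * (Matrix.diagonal (fun _ => z1) - T1 * D0) = 0) :
    ∃ z ∈ Z, ∃ (τ : A ≃+* A) (T : Matrix (Fin q) (Fin r) A)
      (S : Matrix (Fin p) (Fin q) A),
      (∀ a, z * a = τ a * z) ∧
      Matrix.diagonal (fun _ => z) = T * D1 + D0.map τ * S := by
  obtain ⟨z2, hz2, hk⟩ := k1
  obtain ⟨τ2, hτ2⟩ := exists_aut z2 (h1 z2 hz2) (h2 z2 hz2) (n1 z2 hz2) (n2 z2 hz2)
  set G : Matrix (Fin q) (Fin q) A := Matrix.diagonal (fun _ => z1) - D0.map τ1 * T1 with hG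
  have hGD : G * D0 = 0 := by
    rw [hG, Matrix.sub_mul, diag_mul_eq z1 τ1 hτ, Matrix.mul_assoc, ← Matrix.mul_sub]
    exact hT
  have hrow : ∀ l : Fin q, Matrix.vecMul (G l) D0 = 0 := by
    intro l
    have := congrFun hGD l
    rw [Matrix.mul_apply_eq_vecMul] at this
    rw [this]
    rfl
  choose u hu using fun l => hk (G l) (hrow l)
  have hT2 : Matrix.diagonal (fun _ => z2) * G = (Matrix.of u) * D1 := by
    ext l j
    rw [Matrix.diagonal_mul, Matrix.mul_apply_eq_vecMul]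
    exact congrFun (hu l) j
  refine ⟨z2 * z1, hmul _ hz2 _ hz1, τ1.trans τ2, Matrix.of u, Matrix.diagonal (fun _ => z2) * T1,
    ?_, ?_⟩
  · intro a
    rw [RingEquiv.trans_apply, mul_assoc, hτ, ← mul_assoc, hτ2, mul_assoc]
  · have e1 : Matrix.diagonal (fun _ : Fin q => z2 * z1)
        = Matrix.diagonal (fun _ => z2) * Matrix.diagonal (fun _ => z1) := by
      rw [Matrix.diagonal_mul_diagonal]
    have e2 : (Matrix.diagonal (fun _ : Fin q => z1)) = G + D0.map τ1 * T1 := by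
      rw [hG]; abel
    rw [e1, e2, Matrix.mul_add, hT2]
    congr 1
    rw [← Matrix.mul_assoc, diag_mul_eq z2 τ2 hτ2, Matrix.mul_assoc]
    rfl

theorem lemA (Z : Set A) (hmul : ∀ x ∈ Z, ∀ y ∈ Z, x * y ∈ Z)
    (h1 : ∀ z ∈ Z, ∀ a, z * a = 0 → a = 0) (h2 : ∀ z ∈ Z, ∀ a, a * z = 0 → a = 0)
    (n1 : ∀ z ∈ Z, ∀ a, ∃ b, z * a = b * z) (n2 : ∀ z ∈ Z, ∀ a, ∃ b, a * z = z * b)
    (n : ℕ → ℕ) (D : ∀ i, Matrix (Fin (n (i + 1))) (Fin (n i)) A)
    (hD : ∀ i, D (i + 1) * D i = 0)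
    (k0 : ∃ z ∈ Z, ∀ v : Fin (n 0) → A, ∃ u : Fin (n 1) → A,
      (fun l => z * v l) = Matrix.vecMul u (D 0))
    (k1 : ∀ i, ∃ z ∈ Z, ∀ v : Fin (n (i + 1)) → A, Matrix.vecMul v (D i) = 0 →
      ∃ u : Fin (n (i + 2)) → A, (fun l => z * v l) = Matrix.vecMul u (D (i + 1))) :
    (∃ z ∈ Z, ∃ (τ : A ≃+* A) (T : Matrix (Fin (n 0)) (Fin (n 1)) A),
      (∀ a, z * a = τ a * z) ∧ Matrix.diagonal (fun _ => z) = T * D 0) ∧
    ∀ i, ∃ z ∈ Z, ∃ (τ : A ≃+* A) (T : Matrix (Fin (n (i + 1))) (Fin (n (i + 2))) A)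
      (S : Matrix (Fin (n i)) (Fin (n (i + 1))) A),
      (∀ a, z * a = τ a * z) ∧
      Matrix.diagonal (fun _ => z) = T * D (i + 1) + (D i).map τ * S := by
  have first : ∃ z ∈ Z, ∃ (τ : A ≃+* A) (T : Matrix (Fin (n 0)) (Fin (n 1)) A),
      (∀ a, z * a = τ a * z) ∧ Matrix.diagonal (fun _ => z) = T * D 0 := by
    obtain ⟨z, hz, hk⟩ := k0
    obtain ⟨τ, hτ⟩ := exists_aut z (h1 z hz) (h2 z hz) (n1 z hz) (n2 z hz)
    choose u hu using fun l : Fin (n 0) => hk (Pi.single l 1)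
    refine ⟨z, hz, τ, Matrix.of u, hτ, ?_⟩
    ext l j
    rw [Matrix.mul_apply_eq_vecMul]
    have := congrFun (hu l) j
    change _ = Matrix.vecMul (u l) (D 0) j
    rw [← this, Matrix.diagonal_apply, Pi.single_apply]
    by_cases h : l = j
    · rw [if_pos h, if_pos h.symm, mul_one]
    · rw [if_neg h, if_neg (Ne.symm h), mul_zero]
  refine ⟨first, ?_⟩
  intro i
  induction i with
  | zero =>
    obtain ⟨z1, hz1, τ1, T1, hτ, hT⟩ := first
    refine lemA_step Z hmul h1 h2 n1 n2 (D 0) (D 1) (k1 0) z1 hz1 τ1 hτ T1 ?_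
    rw [← hT, sub_self, Matrix.mul_zero]
  | succ i ih =>
    obtain ⟨z1, hz1, τ1, T1, S1, hτ, hT⟩ := ih
    refine lemA_step Z hmul h1 h2 n1 n2 (D (i + 1)) (D (i + 2)) (k1 (i + 1)) z1 hz1 τ1 hτ T1 ?_
    rw [hT, add_sub_cancel_left, ← Matrix.mul_assoc]
    have : (D (i + 1)).map τ1 * (D i).map τ1 = 0 := by
      have e := congrArg (fun M => M.map τ1) (hD i)
      have e' : (D (i + 1) * D i).map (τ1 : A →+* A)
          = (D (i + 1)).map (τ1 : A →+* A) * (D i).map (τ1 : A →+* A) := Matrix.map_mul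
      have e'' : (D (i + 1) * D i).map (τ1 : A →+* A) = 0 := by
        rw [hD i]
        ext a b
        simp
      rw [e''] at e'
      exact e'.symm
    rw [this, Matrix.zero_mul]

end BGN
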