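import Pool.Agent.BGN.Nml
import Pool.Agent.BGN.LemA

/-!
# BGN Tw: twisted modules

For `Nrm P z` and an `R`-module `W` killed by the prime ideal `P`, torsion free for the normal
elements, there is an `R`-module `W'` of the same kind and an embedding `ι : W → W'` with
`ι(W) = z W'`.

PROOF.  `A = R ⧸ P`, `z̄ ∈ A` is normal and regular (`left_reg`, `right_reg`), so `exists_aut` gives
`τ : A ≃+* A` with `z̄ a = τ(a) z̄`.  `W` is an `A`-module (`Module.IsTorsionBySet.module`).
`W' := W` as a group with `r * w := τ(r̄) w` (`Module.compHom` along `τ ∘ mk : R → A`), and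
`ι(w) = z w`: `ι(r w) = z r w = τ(r̄) z w = r * ι(w)`.  `z * w = τ(z̄) w = z w`.
If `z' * w = 0`, `Nrm P z'`: `τ(z̄') w = 0` and a lift of `τ(z̄')` to `R` is again a normal element
not in `P`, so `w = 0`.  `W'` is finitely generated if `W` is (`τ ∘ mk` is surjective).
-/

namespace BGN

open CategoryTheory Abelian

universe u

variable {R : Type u} [Ring R]

/-- The same group, used with another action. -/
private def TwT (W : Type u) : Type u := W

private instance tw_inst (W : Type u) [h : AddCommGroup W] : AddCommGroup (TwT W) := h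

private def toW {W : Type u} (w : TwT W) : W := w

private def ofW {W : Type u} (w : W) : TwT W := w

private theorem tw_eq {P : Ideal R} (h2 : P.IsTwoSided) {a b : R} :
    Ideal.Quotient.mk P a = Ideal.Quotient.mk P b ↔ a - b ∈ P :=
  Ideal.Quotient.eq

private theorem tw_data {P : Ideal R} (hP : IsPrime2 P) {z : R} (hz : Nrm P z) :
    ∃ f : R → R, (∀ r, z * r - f r * z ∈ P) ∧ f 1 - 1 ∈ P ∧
      (∀ a b, f (a * b) - f a * f b ∈ P) ∧ (∀ a b, f (a + b) - (f a + f b) ∈ P) ∧
      (∀ a, f a ∈ P ↔ a ∈ P) ∧ (∀ s, ∃ r, f r - s ∈ P) ∧ f z - z ∈ P := by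
  have h2 := hP.twoSided
  have hA1 : ∀ a : R ⧸ P, Ideal.Quotient.mk P z * a = 0 → a = 0 := by
    intro a ha
    obtain ⟨a, rfl⟩ := Ideal.Quotient.mk_surjective a
    rw [← map_mul, Ideal.Quotient.eq_zero_iff_mem] at ha
    exact Ideal.Quotient.eq_zero_iff_mem.mpr (left_reg hP hz ha)
  have hA2 : ∀ a : R ⧸ P, a * Ideal.Quotient.mk P z = 0 → a = 0 := by
    intro a ha
    obtain ⟨a, rfl⟩ := Ideal.Quotient.mk_surjective a
    rw [← map_mul, Ideal.Quotient.eq_zero_iff_mem] at ha
    exact Ideal.Quotient.eq_zero_iff_mem.mpr (right_reg hP hz ha)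
  have hA3 : ∀ a : R ⧸ P, ∃ b, Ideal.Quotient.mk P z * a = b * Ideal.Quotient.mk P z := by
    intro a
    obtain ⟨a, rfl⟩ := Ideal.Quotient.mk_surjective a
    obtain ⟨s, hs⟩ := hz.2.1 a
    refine ⟨Ideal.Quotient.mk P s, ?_⟩
    rw [← map_mul, ← map_mul]
    exact (tw_eq h2).2 hs
  have hA4 : ∀ a : R ⧸ P, ∃ b, a * Ideal.Quotient.mk P z = Ideal.Quotient.mk P z * b := by
    intro a
    obtain ⟨a, rfl⟩ := Ideal.Quotient.mk_surjective a
    obtain ⟨s, hs⟩ := hz.2.2 a
    refine ⟨Ideal.Quotient.mk P s, ?_⟩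
    rw [← map_mul, ← map_mul]
    exact (tw_eq h2).2 hs
  obtain ⟨τ, hτ⟩ := exists_aut (Ideal.Quotient.mk P z) hA1 hA2 hA3 hA4
  have hf : ∀ r : R, ∃ s : R, Ideal.Quotient.mk P s = τ (Ideal.Quotient.mk P r) := fun r =>
    Ideal.Quotient.mk_surjective _
  choose f hf using hf
  refine ⟨f, fun r => ?_, ?_, fun a b => ?_, fun a b => ?_, fun a => ?_, fun s => ?_, ?_⟩
  · rw [← tw_eq h2, map_mul, map_mul, hf, hτ]
  · rw [← tw_eq h2, hf, map_one, map_one]
  · rw [← tw_eq h2, map_mul, hf, hf, hf, map_mul, map_mul]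
  · rw [← tw_eq h2, map_add, hf, hf, hf, map_add, map_add]
  · rw [← Ideal.Quotient.eq_zero_iff_mem, ← Ideal.Quotient.eq_zero_iff_mem, hf]
    exact map_eq_zero_iff τ τ.injective
  · obtain ⟨r, hr⟩ := Ideal.Quotient.mk_surjective (τ.symm (Ideal.Quotient.mk P s))
    refine ⟨r, ?_⟩
    rw [← tw_eq h2, hf, hr, τ.apply_symm_apply]
  · rw [← tw_eq h2, hf]
    have h3 := hτ (Ideal.Quotient.mk P z)
    have h4 : (Ideal.Quotient.mk P z - τ (Ideal.Quotient.mk P z)) * Ideal.Quotient.mk P z = 0 := by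
      rw [sub_mul, h3, sub_self]
    exact (sub_eq_zero.mp (hA2 _ h4)).symm

private theorem tw_nrm {P : Ideal R} (hP : IsPrime2 P) {f : R → R}
    (fm : ∀ a b, f (a * b) - f a * f b ∈ P) (fa : ∀ a b, f (a + b) - (f a + f b) ∈ P)
    (fP : ∀ a, f a ∈ P ↔ a ∈ P) (fs : ∀ s, ∃ r, f r - s ∈ P) {z : R} (hz : Nrm P z) :
    Nrm P (f z) := by
  have h2 := hP.twoSided
  have fc : ∀ a b, a - b ∈ P → f a - f b ∈ P := by
    intro a b h
    have h3 := fa (a - b) b
    rw [sub_add_cancel] at h3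
    have h4 := (fP (a - b)).2 h
    have h5 := P.add_mem h3 h4
    have h6 : f a - (f (a - b) + f b) + f (a - b) = f a - f b := by abel
    rwa [h6] at h5
  refine ⟨fun h => hz.1 ((fP z).1 h), fun r => ?_, fun r => ?_⟩
  · obtain ⟨r0, hr0⟩ := fs r
    obtain ⟨s0, hs0⟩ := hz.2.1 r0
    refine ⟨f s0, ?_⟩
    have h3 := fc _ _ hs0
    have h4 : f z * r - f s0 * f z = -(f z * (f r0 - r)) - (f (z * r0) - f z * f r0)
        + (f (s0 * z) - f s0 * f z) + (f (z * r0) - f (s0 * z)) := by noncomm_ring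
    rw [h4]
    exact P.add_mem (P.add_mem (P.sub_mem (P.neg_mem (P.mul_mem_left _ hr0)) (fm _ _)) (fm _ _)) h3
  · obtain ⟨r0, hr0⟩ := fs r
    obtain ⟨s0, hs0⟩ := hz.2.2 r0
    refine ⟨f s0, ?_⟩
    have h3 := fc _ _ hs0
    have h4 : r * f z - f z * f s0 = -((f r0 - r) * f z) - (f (r0 * z) - f r0 * f z)
        + (f (z * s0) - f z * f s0) + (f (r0 * z) - f (z * s0)) := by noncomm_ring
    rw [h4]
    exact P.add_mem (P.add_mem (P.sub_mem (P.neg_mem (P.mul_mem_right _ hr0)) (fm _ _)) (fm _ _)) h3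

theorem exists_twist {P : Ideal R} (hP : IsPrime2 P) {z : R} (hz : Nrm P z)
    (W : Type u) [AddCommGroup W] [Module R W] (hPW : ∀ p ∈ P, ∀ w : W, p • w = 0)
    (htf : ∀ z', Nrm P z' → ∀ w : W, z' • w = 0 → w = 0) :
    ∃ (W' : Type u) (_ : AddCommGroup W') (_ : Module R W') (ι : W →ₗ[R] W'),
      Function.Injective ι ∧ (∀ w' : W', ∃ w : W, ι w = z • w') ∧
      (∀ w : W, ∃ w' : W', ι w = z • w') ∧ (∀ p ∈ P, ∀ w' : W', p • w' = 0) ∧
      (∀ z', Nrm P z' → ∀ w : W', z' • w = 0 → w = 0) ∧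
      (Module.Finite R W → Module.Finite R W') := by
  obtain ⟨f, hfz, f1, fm, fa, fP, fs, fz⟩ := tw_data hP hz
  have hW : ∀ a b : R, a - b ∈ P → ∀ w : W, a • w = b • w := by
    intro a b h w
    have h3 := hPW _ h w
    rwa [sub_smul, sub_eq_zero] at h3
  let M' : Module R (TwT W) :=
    { smul := fun r w => ofW (f r • toW w)
      one_smul := fun w => by
        show f 1 • toW w = toW w
        rw [hW _ _ f1, one_smul]
      mul_smul := fun a b w => by
        show f (a * b) • toW w = f a • (f b • toW w)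
        rw [hW _ _ (fm a b), mul_smul]
      smul_zero := fun a => by
        show f a • (0 : W) = 0
        rw [smul_zero]
      smul_add := fun a v w => by
        show f a • (toW v + toW w) = f a • toW v + f a • toW w
        rw [smul_add]
      add_smul := fun a b w => by
        show f (a + b) • toW w = f a • toW w + f b • toW w
        rw [hW _ _ (fa a b), add_smul]
      zero_smul := fun w => by
        show f 0 • toW w = 0
        exact hPW _ ((fP 0).2 P.zero_mem) _ }
  have hs : ∀ (r : R) (w : TwT W), r • w = ofW (f r • toW w) := fun r w => rfl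
  let ι : W →ₗ[R] TwT W :=
    { toFun := fun w => ofW (z • w)
      map_add' := fun v w => by
        show z • (v + w) = z • v + z • w
        rw [smul_add]
      map_smul' := fun r w => by
        show z • (r • w) = f r • (z • w)
        rw [← mul_smul, ← mul_smul]
        exact hW _ _ (hfz r) w }
  have hι : ∀ w : W, ι w = ofW (z • w) := fun w => rfl
  have hzz : ∀ w : W, z • ofW w = ofW (z • w) := fun w => by
    rw [hs]
    exact hW _ _ fz w
  refine ⟨TwT W, inferInstance, M', ι, ?_, ?_, ?_, ?_, ?_, ?_⟩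
  · intro v w h
    rw [hι, hι] at h
    have h3 : z • (v - w) = 0 := by
      rw [smul_sub, sub_eq_zero]
      exact h
    exact sub_eq_zero.mp (htf z hz _ h3)
  · intro w'
    exact ⟨toW w', (hι _).trans (hzz (toW w')).symm⟩
  · intro w
    exact ⟨ofW w, (hι _).trans (hzz w).symm⟩
  · intro p hp w'
    rw [hs]
    exact hPW _ ((fP p).2 hp) _
  · intro z' hz' w h
    rw [hs] at h
    exact htf _ (tw_nrm hP fm fa fP fs hz') _ h
  · intro hfin
    obtain ⟨S, hS⟩ := hfin.fg_top
    classical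
    refine ⟨⟨S.image ofW, ?_⟩⟩
    rw [eq_top_iff]
    rintro w -
    have h3 : toW w ∈ Submodule.span R (S : Set W) := by
      rw [hS]
      exact Submodule.mem_top
    have h5 : ∀ v : W, v ∈ Submodule.span R (S : Set W) →
        ofW v ∈ Submodule.span R ((S.image ofW : Finset (TwT W)) : Set (TwT W)) := by
      intro v hv
      refine Submodule.span_induction (p := fun (v : W) _ =>
        ofW v ∈ Submodule.span R ((S.image ofW : Finset (TwT W)) : Set (TwT W))) ?_ ?_ ?_ ?_ hv
      · intro x hx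
        exact Submodule.subset_span (Finset.mem_coe.2 (Finset.mem_image_of_mem _ hx))
      · exact Submodule.zero_mem _
      · intro x y _ _ hx hy
        exact Submodule.add_mem _ hx hy
      · intro a x _ hx
        obtain ⟨r, hr⟩ := fs a
        have h4 : ofW (a • x) = r • ofW x := by
          rw [hs]
          exact (hW _ _ hr x).symm
        rw [h4]
        exact Submodule.smul_mem _ _ hx
    exact h5 _ h3

/-- Torsion part: in a finitely generated (`R` left noetherian) module `W` killed by `P` there is a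
submodule `N` killed by some `z` with `Nrm P z` such that `W ⧸ N` is torsion free.
PROOF.  `N = {w | ∃ z, Nrm P z ∧ z w = 0}` is a submodule: `z (r w) = s z w = 0`; if
`z₁ w₁ = 0`, `z₂ w₂ = 0` then `z₁ z₂` kills both (`z₁ z₂ = s z₁ + p`).  It is finitely generated,
so one `z` (product of finitely many) kills generators, hence `N` (`z r w = s z w`).  If
`z' w ∈ N` then `z z' w = 0`, so `w ∈ N`. -/
theorem exists_torsion [IsNoetherianRing R] {P : Ideal R} (hP : IsPrime2 P)
    (W : Type u) [AddCommGroup W] [Module R W] [Module.Finite R W]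
    (hPW : ∀ p ∈ P, ∀ w : W, p • w = 0) :
    ∃ (N : Submodule R W) (z : R), Nrm P z ∧ (∀ w ∈ N, z • w = 0) ∧
      ∀ z', Nrm P z' → ∀ w : W, z' • w ∈ N → w ∈ N := by
  have h2 := hP.twoSided
  have hsm : ∀ (z : R), Nrm P z → ∀ (r : R) (w : W), z • w = 0 → z • (r • w) = 0 := by
    intro z hz r w h
    obtain ⟨s, hs⟩ := hz.2.1 r
    have h3 := hPW _ hs w
    rw [sub_smul, mul_smul, mul_smul, h, smul_zero, sub_zero] at h3
    exact h3
  let N : Submodule R W :=
    { carrier := {w | ∃ z, Nrm P z ∧ z • w = 0}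
      zero_mem' := ⟨1, Nrm.one hP, smul_zero _⟩
      add_mem' := by
        rintro v w ⟨z₁, h1, h1'⟩ ⟨z₂, h3, h3'⟩
        refine ⟨z₁ * z₂, Nrm.mul hP h1 h3, ?_⟩
        rw [smul_add, mul_smul, hsm z₁ h1 z₂ v h1', mul_smul, h3', smul_zero, add_zero]
      smul_mem' := by
        rintro r w ⟨z, h1, h1'⟩
        exact ⟨z, h1, hsm z h1 r w h1'⟩ }
  have hN : ∀ w, w ∈ N ↔ ∃ z, Nrm P z ∧ z • w = 0 := fun w => Iff.rfl
  obtain ⟨S, hS⟩ : N.FG := IsNoetherian.noetherian N
  have hfin : ∀ T : Finset W, (∀ w ∈ T, w ∈ N) → ∃ z, Nrm P z ∧ ∀ w ∈ T, z • w = 0 := by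
    intro T
    classical
    induction T using Finset.induction_on with
    | empty =>
      intro _
      exact ⟨1, Nrm.one hP, fun w hw => absurd hw (Finset.notMem_empty w)⟩
    | insert a T _ ih =>
      intro hT
      obtain ⟨z₂, h3, h4⟩ := ih fun w hw => hT w (Finset.mem_insert_of_mem hw)
      obtain ⟨z₁, h5, h6⟩ := hT a (Finset.mem_insert_self a T)
      refine ⟨z₁ * z₂, Nrm.mul hP h5 h3, fun w hw => ?_⟩
      rcases Finset.mem_insert.mp hw with h7 | h7
      · rw [h7, mul_smul]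
        exact hsm z₁ h5 z₂ a h6
      · rw [mul_smul, h4 w h7, smul_zero]
  obtain ⟨z, hz, hz'⟩ := hfin S fun w hw => by
    rw [← hS]
    exact Submodule.subset_span hw
  have hzN : ∀ w ∈ N, z • w = 0 := by
    intro w hw
    rw [← hS] at hw
    refine Submodule.span_induction (p := fun v _ => z • v = 0) ?_ ?_ ?_ ?_ hw
    · intro x hx
      exact hz' x hx
    · exact smul_zero _
    · intro x y _ _ hx hy
      rw [smul_add, hx, hy, add_zero]
    · intro a x _ hx
      exact hsm z hz a x hx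
  refine ⟨N, z, hz, hzN, fun z' hz' w hw => ?_⟩
  refine ⟨z * z', Nrm.mul hP hz hz', ?_⟩
  rw [mul_smul]
  exact hzN _ hw

/-- For `Nrm P z` the left ideal `P + R z` is two-sided and strictly larger than `P`. -/
theorem sup_span_twoSided {P : Ideal R} (hP : IsPrime2 P) {z : R} (hz : Nrm P z) :
    (P ⊔ Ideal.span {z}).IsTwoSided ∧ P < P ⊔ Ideal.span {z} := by
  have h2 := hP.twoSided
  refine ⟨⟨fun {a} b ha => ?_⟩, lt_of_le_of_ne le_sup_left fun h => ?_⟩
  · obtain ⟨p, hp, q, hq, rfl⟩ := Submodule.mem_sup.mp ha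
    obtain ⟨r, rfl⟩ := Ideal.mem_span_singleton'.mp hq
    obtain ⟨s, hs⟩ := hz.2.1 b
    have h3 : (p + r * z) * b = (p * b + r * (z * b - s * z)) + (r * s) * z := by noncomm_ring
    rw [h3]
    refine Submodule.add_mem_sup (P.add_mem (P.mul_mem_right b hp) (P.mul_mem_left r hs)) ?_
    exact Ideal.mem_span_singleton'.mpr ⟨r * s, rfl⟩
  · apply hz.1
    rw [h]
    exact (le_sup_right : Ideal.span {z} ≤ P ⊔ Ideal.span {z}) (Ideal.mem_span_singleton_self z)

end BGN
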