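import Pool.Agent.BGN.LemK
import Pool.Agent.BGN.Tw

/-!
# BGN Fde: `Ext^i(V, M)` is finite dimensional, `V` finite dimensional, `M` finitely generated

PROOF.  Noetherian induction on the two-sided ideal `I` (ACC on left ideals) for all `i` and all
finitely generated `M` killed by `I`.  `I = ⊤`: `M = 0`.
* `I` not prime, `I ≠ ⊤`: two-sided `I₁, I₂ > I` with `I₁ I₂ ⊆ I` (see `Lf.lean`);
  `M₁ = I₂ M` (submodule spanned by the `a m`) is killed by `I₁` and `M ⧸ M₁` by `I₂`; use the long
  exact sequence (`Ext.covariant_sequence_exact₂`): `Ext^i(V, M)` has a finite dimensional subspace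
  (image of `Ext^i(V, M₁)`) with finite dimensional quotient.
* `I = P` prime of finite codimension: `M` is finite dimensional (`FinDim.of_finCodim`), and
  `Ext^i(V, M)` is a quotient of the cocycles in `M^{n i}` (`ext_finite_of_finDim`).
* `I = P` prime of infinite codimension: `exists_torsion` gives `N ⊆ M`, killed by `P + R z₀`,
  `M ⧸ N` torsion free.  `Ext^i(V, N)` is finite dimensional by induction (`sup_span_twoSided`).
  For `W = M ⧸ N` take `z` from `lemK V i` and `ι : W → W'` from `exists_twist`;
  `Ext^i(V, W) → Ext^i(V, W')` is zero, so every element of `Ext^i(V, W)` comes from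
  `Ext^{i-1}(V, W' ⧸ ι W)` (`covariant_sequence_exact₁`; if `i = 0`: `Ext^0(V, W) → Ext^0(V, W')` is
  injective, so `Ext^0(V, W) = 0`), finite dimensional by induction: `W' ⧸ ι W` is killed by
  `P + R z`.
-/

namespace BGN

open CategoryTheory Abelian

universe u

variable {k : Type u} [Field k] {R : Type u} [Ring R] [Algebra k R]

/-- Finiteness of the middle term. -/
private theorem fin_mid {A B C : Type u} [AddCommGroup A] [Module k A] [AddCommGroup B]
    [Module k B] [AddCommGroup C] [Module k C] (f : A →ₗ[k] B) (g : B →ₗ[k] C)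
    (h : ∀ b, g b = 0 → ∃ a, f a = b) (hA : Module.Finite k A) (hC : Module.Finite k C) :
    Module.Finite k B := by
  have hr : Module.Finite k (LinearMap.range f) := inferInstance
  have hle : LinearMap.ker g ≤ LinearMap.range f := by
    intro b hb
    obtain ⟨a, ha⟩ := h b (LinearMap.mem_ker.1 hb)
    exact ⟨a, ha⟩
  have hk : Module.Finite k (LinearMap.ker g) := Submodule.finiteDimensional_of_le hle
  have hq : Module.Finite k (B ⧸ LinearMap.ker g) := by
    have e := (LinearMap.quotKerEquivRange g).symm
    exact Module.Finite.equiv e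
  exact Module.Finite.of_submodule_quotient (LinearMap.ker g)

/-- The short exact sequence of a submodule. -/
private theorem sesq {M : Type u} [AddCommGroup M] [Module R M] (N : Submodule R M) :
    ∃ hc : ModuleCat.ofHom N.subtype ≫ ModuleCat.ofHom N.mkQ = 0,
    (ShortComplex.mk (ModuleCat.ofHom N.subtype) (ModuleCat.ofHom N.mkQ) hc).ShortExact := by
  refine ⟨?_, ?_⟩
  · ext x
    simp
  · refine ModuleCat.shortComplex_shortExact _ ?_ ?_ ?_
    · intro x
      constructor
      · intro hx
        have : x ∈ N := by simpa using hx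
        exact ⟨⟨x, this⟩, rfl⟩
      · rintro ⟨y, rfl⟩
        simp
    · exact Subtype.val_injective
    · exact N.mkQ_surjective

/-- The short exact sequence of an injective map. -/
private theorem sesi {M M' : ModuleCat.{u} R} (f : M ⟶ M') (hf : Function.Injective f) :
    ∃ hc : f ≫ ModuleCat.ofHom (LinearMap.range f.hom).mkQ = 0,
    (ShortComplex.mk f (ModuleCat.ofHom (LinearMap.range f.hom).mkQ) hc).ShortExact := by
  refine ⟨?_, ?_⟩
  · ext x
    simp
  · refine ModuleCat.shortComplex_shortExact _ ?_ ?_ ?_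
    · intro x
      constructor
      · intro hx
        have : x ∈ LinearMap.range f.hom := by simpa using hx
        exact this
      · rintro ⟨y, rfl⟩
        simp
    · exact hf
    · exact (LinearMap.range f.hom).mkQ_surjective

private theorem ext_mid (V : ModuleCat.{u} R) {M : Type u} [AddCommGroup M] [Module R M]
    (N : Submodule R M) (i : ℕ) (h1 : Module.Finite k (Ext V (ModuleCat.of R N) i))
    (h2 : Module.Finite k (Ext V (ModuleCat.of R (M ⧸ N)) i)) :
    Module.Finite k (Ext V (ModuleCat.of R M) i) := by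
  obtain ⟨hc, hS⟩ := sesq N
  refine fin_mid (Ext.postcompOfLinear (Ext.mk₀ (ModuleCat.ofHom N.subtype)) k V (add_zero i))
    (Ext.postcompOfLinear (Ext.mk₀ (ModuleCat.ofHom N.mkQ)) k V (add_zero i)) ?_ h1 h2
  intro b hb
  obtain ⟨a, ha⟩ := Ext.covariant_sequence_exact₂ V hS b hb
  exact ⟨a, ha⟩

/-- The class map is `k`-linear: naturality (`cls_comp`) for the endomorphism `c • 𝟙 W`. -/
theorem FRes.cls_smul {V : ModuleCat.{u} R} (F : FRes R V) (W : ModuleCat.{u} R) (i : ℕ)
    (c : k) (w : Fin (F.n i) → W) (h : act (F.D i) w = 0) :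
    F.cls W i (fun l => algebraMap k R c • w l) = c • F.cls W i w := by
  have e := F.cls_comp (c • 𝟙 W) i w h
  rw [← Ext.smul_eq_comp_mk₀] at e
  rw [e]
  rfl

/-- Any finitely generated `V`, finite dimensional coefficients. -/
theorem ext_finite_of_finDim [IsNoetherianRing R] (V : ModuleCat.{u} R) [Module.Finite R V]
    (W : ModuleCat.{u} R) (hW : FinDim k R W) (i : ℕ) : Module.Finite k (Ext V W i) := by
  obtain ⟨F⟩ := FRes.exists (R := R) (V := V)
  let : Module k W := Module.restrictScalars k R W
  have : IsScalarTower k R W := IsScalarTower.restrictScalars k R W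
  have hWf : Module.Finite k W := finDim_iff.1 hW
  let Z : Submodule k (Fin (F.n i) → W) :=
    { carrier := {w | act (F.D i) w = 0}
      add_mem' := by
        intro a b ha hb
        rw [Set.mem_ofPred_eq] at *
        rw [act_add, ha, hb, add_zero]
      zero_mem' := act_zero _
      smul_mem' := by
        intro c w hw
        rw [Set.mem_ofPred_eq] at *
        have hcw : c • w = fun l => (algebraMap k R c) • w l := rfl
        rw [hcw]
        funext j
        have hj := congrFun hw j
        unfold act at hj ⊢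
        have e : (∑ l, F.D i j l • (algebraMap k R c • w l))
            = algebraMap k R c • ∑ l, F.D i j l • w l := by
          rw [Finset.smul_sum]
          refine Finset.sum_congr rfl (fun l _ => ?_)
          rw [smul_smul, smul_smul, Algebra.commutes]
        rw [e, hj]
        exact smul_zero _ }
  have hfin : Module.Finite k (Fin (F.n i) → W) := inferInstance
  have hZ : Module.Finite k Z := inferInstance
  let φ : Z →ₗ[k] Ext V W i :=
    { toFun := fun w => F.cls W i w.1
      map_add' := fun w w' => F.cls_add W i w.1 w'.1 w.2 w'.2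
      map_smul' := fun c w => F.cls_smul W i c w.1 w.2 }
  refine Module.Finite.of_surjective φ ?_
  intro x
  obtain ⟨w, hw, hx⟩ := F.cls_surj W i x
  exact ⟨⟨w, hw⟩, hx⟩

/-- Two ideals around a failure of primeness. -/
private theorem not_prime {I : Ideal R} (hI : I.IsTwoSided) (ht : I ≠ ⊤) (hp : ¬ IsPrime2 I) :
    ∃ I₁ I₂ : Ideal R, I₁.IsTwoSided ∧ I₂.IsTwoSided ∧ I < I₁ ∧ I < I₂ ∧
      ∀ x ∈ I₁, ∀ y ∈ I₂, x * y ∈ I := by
  have : ¬ ∀ a b : R, (∀ r : R, a * r * b ∈ I) → a ∈ I ∨ b ∈ I := fun h => hp ⟨hI, ht, h⟩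
  push Not at this
  obtain ⟨a, b, hab, ha, hb⟩ := this
  have key : ∀ c : R, (I ⊔ Submodule.span R {x | ∃ r, x = c * r} : Ideal R).IsTwoSided := by
    intro c
    refine ⟨fun {x} s hx => ?_⟩
    obtain ⟨p, hp, q, hq, rfl⟩ := Submodule.mem_sup.1 hx
    rw [add_mul]
    refine Ideal.add_mem _ (Submodule.mem_sup_left (Ideal.mul_mem_right _ _ hp))
      (Submodule.mem_sup_right ?_)
    refine Submodule.span_induction (p := fun q _ => q * s ∈
      Submodule.span R {x | ∃ r, x = c * r}) ?_ ?_ ?_ ?_ hq
    · rintro x ⟨r, rfl⟩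
      exact Submodule.subset_span ⟨r * s, by rw [mul_assoc]⟩
    · rw [zero_mul]; exact Submodule.zero_mem _
    · intro x y _ _ hx hy
      rw [add_mul]; exact Submodule.add_mem _ hx hy
    · intro t x _ hx
      rw [smul_eq_mul, mul_assoc]
      exact Submodule.smul_mem _ t hx
  have lt : ∀ c : R, c ∉ I → I < I ⊔ Submodule.span R {x | ∃ r, x = c * r} := by
    intro c hc
    refine lt_of_le_of_ne le_sup_left (fun h => hc ?_)
    rw [h]
    exact Submodule.mem_sup_right (Submodule.subset_span ⟨1, by rw [mul_one]⟩)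
  refine ⟨_, _, key a, key b, lt a ha, lt b hb, ?_⟩
  intro x hx y hy
  obtain ⟨p, hp, q, hq, rfl⟩ := Submodule.mem_sup.1 hx
  obtain ⟨p', hp', q', hq', rfl⟩ := Submodule.mem_sup.1 hy
  rw [add_mul]
  refine Ideal.add_mem _ (Ideal.mul_mem_right _ _ hp) ?_
  rw [mul_add]
  have h1 : q * p' ∈ I := Ideal.mul_mem_left _ _ hp'
  refine Ideal.add_mem _ h1 ?_
  refine Submodule.span_induction (p := fun q _ => q * q' ∈ I) ?_ ?_ ?_ ?_ hq
  · rintro x ⟨r, rfl⟩
    have hall : ∀ r : R, a * r * q' ∈ I := by
      refine Submodule.span_induction (p := fun q' _ => ∀ r : R, a * r * q' ∈ I) ?_ ?_ ?_ ?_ hq'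
      · rintro x ⟨r', rfl⟩ r
        rw [← mul_assoc]
        exact Ideal.mul_mem_right _ _ (hab r)
      · intro r
        rw [mul_zero]; exact Ideal.zero_mem _
      · intro x y _ _ hx hy r
        rw [mul_add]; exact Ideal.add_mem _ (hx r) (hy r)
      · intro t x _ hx r
        have := hx (r * t)
        rw [smul_eq_mul, ← mul_assoc, mul_assoc a r t]
        exact this
    exact hall r
  · rw [zero_mul]; exact Ideal.zero_mem _
  · intro x y _ _ hx hy
    rw [add_mul]; exact Ideal.add_mem _ hx hy
  · intro t x _ hx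
    rw [smul_eq_mul, mul_assoc]
    exact Ideal.mul_mem_left _ _ hx

private theorem ext_fin_aux [IsNoetherianRing R] [IsNoetherianRing Rᵐᵒᵖ] (h : NormalSep k R)
    (V : ModuleCat.{u} R) (hV : FinDim k R V) (I : Ideal R) (hI : I.IsTwoSided) :
    ∀ (i : ℕ) (M : ModuleCat.{u} R) [Module.Finite R M],
      (∀ a ∈ I, ∀ m : M, a • m = 0) → Module.Finite k (Ext V M i) := by
  induction I using WellFoundedGT.induction with
  | ind I ih =>
  have hVf : Module.Finite R V := hV.finite
  by_cases ht : I = ⊤
  · intro i M _ hIM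
    have hM : FinDim k R M := by
      refine ⟨∅, fun v => ⟨fun _ => 0, ?_⟩⟩
      rw [Finset.sum_empty]
      have := hIM 1 (by rw [ht]; trivial) v
      rwa [one_smul] at this
    exact ext_finite_of_finDim V M hM i
  by_cases hp : IsPrime2 I
  · by_cases hf : FinCodim k I
    · intro i M _ hIM
      exact ext_finite_of_finDim V M (FinDim.of_finCodim I hf hIM) i
    · have hbig : ∀ z, Nrm I z → ∀ (i : ℕ) (M : ModuleCat.{u} R) [Module.Finite R M],
          (∀ a ∈ I, ∀ m : M, a • m = 0) → (∀ m : M, z • m = 0) →
          Module.Finite k (Ext V M i) := by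
        intro z hz i M _ hIM hzM
        obtain ⟨h2, hlt⟩ := sup_span_twoSided hp hz
        refine ih _ hlt h2 i M ?_
        intro a ha m
        obtain ⟨p, hp', q, hq, rfl⟩ := Submodule.mem_sup.1 ha
        obtain ⟨r, rfl⟩ := Ideal.mem_span_singleton'.1 hq
        rw [add_smul, hIM p hp' m, zero_add, mul_smul, hzM m, smul_zero]
      have htf : ∀ (i : ℕ) (W : Type u) [AddCommGroup W] [Module R W] [Module.Finite R W],
          (∀ p ∈ I, ∀ w : W, p • w = 0) →
          (∀ z', Nrm I z' → ∀ w : W, z' • w = 0 → w = 0) →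
          Module.Finite k (Ext V (ModuleCat.of R W) i) := by
        intro i W _ _ hWf hIW hWt
        obtain ⟨z, hz, hlem⟩ := lemK h hp hf V hV i
        obtain ⟨W', _, _, ι, hinj, hι1, hι2, hIW', hWt', hfin⟩ := exists_twist hp hz W hIW hWt
        have hW'f : Module.Finite R W' := hfin hWf
        have hz0 := hlem (ModuleCat.of R W) (ModuleCat.of R W') (ModuleCat.ofHom ι) hIW hIW'
          (hWt' z hz) hinj hι2
        obtain ⟨hc, hS⟩ := sesi (ModuleCat.ofHom ι) hinj
        rcases i with _ | j
        · have hsub : Subsingleton (Ext V (ModuleCat.of R W) 0) := by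
            refine ⟨fun a b => ?_⟩
            have hmono : Mono (ModuleCat.ofHom ι) := (ModuleCat.mono_iff_injective _).2 hinj
            refine Ext.postcomp_mk₀_injective_of_mono V (ModuleCat.ofHom ι) ?_
            change a.comp (Ext.mk₀ (ModuleCat.ofHom ι)) (add_zero 0)
              = b.comp (Ext.mk₀ (ModuleCat.ofHom ι)) (add_zero 0)
            rw [hz0, hz0]
          infer_instance
        · have hQ : Module.Finite k (Ext V (ModuleCat.of R
              (W' ⧸ LinearMap.range (ModuleCat.ofHom ι).hom)) j) := by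
            refine hbig z hz j _ ?_ ?_
            · intro a ha m
              obtain ⟨w, rfl⟩ := Submodule.mkQ_surjective _ m
              rw [← map_smul, hIW' a ha w, map_zero]
            · intro m
              obtain ⟨w, rfl⟩ := Submodule.mkQ_surjective _ m
              rw [← map_smul]
              obtain ⟨w0, hw0⟩ := hι1 w
              rw [Submodule.mkQ_apply, Submodule.Quotient.mk_eq_zero]
              exact ⟨w0, hw0⟩
          refine Module.Finite.of_surjective (Ext.postcompOfLinear hS.extClass k V rfl) ?_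
          intro x
          obtain ⟨y, hy⟩ := Ext.covariant_sequence_exact₁ V hS x (hz0 x) rfl
          exact ⟨y, hy⟩
      intro i M _ hIM
      obtain ⟨N, z₀, hz₀, hN, hNt⟩ := exists_torsion hp M hIM
      have hN1 : Module.Finite k (Ext V (ModuleCat.of R N) i) := by
        refine hbig z₀ hz₀ i _ ?_ ?_
        · intro a ha m
          exact Subtype.ext (hIM a ha m.1)
        · intro m
          exact Subtype.ext (hN m.1 m.2)
      have hN2 : Module.Finite k (Ext V (ModuleCat.of R (M ⧸ N)) i) := by
        refine htf i (M ⧸ N) ?_ ?_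
        · intro a ha m
          obtain ⟨w, rfl⟩ := Submodule.mkQ_surjective _ m
          rw [← map_smul, hIM a ha w, map_zero]
        · intro z' hz' m hm
          obtain ⟨w, rfl⟩ := Submodule.mkQ_surjective _ m
          rw [← map_smul, Submodule.mkQ_apply, Submodule.Quotient.mk_eq_zero] at hm
          rw [Submodule.mkQ_apply, Submodule.Quotient.mk_eq_zero]
          exact hNt z' hz' w hm
      exact ext_mid V N i hN1 hN2
  · obtain ⟨I₁, I₂, h1, h2, hl1, hl2, hmul⟩ := not_prime hI ht hp
    intro i M _ hIM
    let N : Submodule R M := Submodule.span R {w | ∃ y ∈ I₂, ∃ m : M, w = y • m}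
    have hN1 : Module.Finite k (Ext V (ModuleCat.of R N) i) := by
      refine ih I₁ hl1 h1 i _ ?_
      have hgen : ∀ w ∈ N, ∀ a ∈ I₁, a • w = 0 := by
        intro w hw
        refine Submodule.span_induction (p := fun w _ => ∀ a ∈ I₁, a • w = 0) ?_ ?_ ?_ ?_ hw
        · rintro w ⟨y, hy, m, rfl⟩ a ha
          rw [smul_smul]
          exact hIM _ (hmul a ha y hy) m
        · intro a _; exact smul_zero a
        · intro x y _ _ hx hy a ha
          rw [smul_add, hx a ha, hy a ha, add_zero]
        · intro t x _ hx a ha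
          rw [smul_smul]
          exact hx _ (Ideal.mul_mem_right _ _ ha)
      intro a ha m
      exact Subtype.ext (hgen m.1 m.2 a ha)
    have hN2 : Module.Finite k (Ext V (ModuleCat.of R (M ⧸ N)) i) := by
      refine ih I₂ hl2 h2 i _ ?_
      intro a ha m
      obtain ⟨w, rfl⟩ := Submodule.mkQ_surjective _ m
      rw [← map_smul, Submodule.mkQ_apply, Submodule.Quotient.mk_eq_zero]
      exact Submodule.subset_span ⟨a, ha, w, rfl⟩
    exact ext_mid V N i hN1 hN2

theorem ext_finite [IsNoetherianRing R] [IsNoetherianRing Rᵐᵒᵖ] (h : NormalSep k R)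
    (V : ModuleCat.{u} R) (hV : FinDim k R V) (M : ModuleCat.{u} R) [Module.Finite R M] (i : ℕ) :
    Module.Finite k (Ext V M i) := by
  exact ext_fin_aux h V hV ⊥ (by infer_instance) i M
    (by intro a ha m; rw [(Submodule.mem_bot R).1 ha, zero_smul])

end BGN
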