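import Pool.Agent.BGN.Cls
import Pool.Agent.BGN.Fde

/-!
# BGN Coh: `Ext^i(V, R)` as cocycles modulo coboundaries, dimension of modules

PROOFS.
* `extEquiv`: the map `cyc → Ext`, `w ↦ F.cls (ModuleCat.of R R) i w`, is additive (`cls_add`),
  `k`-linear (`cls_smul`; `algebraMap k R c • w l = c • w l`), surjective (`cls_surj`), with kernel
  `bdy` (`cls_zero_iff`, `cls_succ_iff`).  `LinearMap.quotKerEquivOfSurjective`.
* `fdim_eq`: the two `k`-module structures agree: `c • v = algebraMap k R c • v`
  (`algebraMap_smul`); `LinearEquiv.finrank_eq` for the identity, or `Module.ext`.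
* `fdim_add`: `Submodule.finrank_quotient_add_finrank` / `LinearMap.finrank_range_add_finrank_ker`.
-/

namespace BGN

open CategoryTheory Abelian

universe u

/-- The dimension over `k` of an `R`-module. -/
noncomputable def fdim (k : Type u) [Field k] (R : Type u) [Ring R] [Algebra k R] (V : Type u)
    [AddCommGroup V] [Module R V] : ℕ :=
  @Module.finrank k V _ _ (Module.compHom V (algebraMap k R))

variable {k : Type u} [Field k] {R : Type u} [Ring R] [Algebra k R]

theorem fdim_eq (V : Type u) [AddCommGroup V] [Module R V] [Module k V] [IsScalarTower k R V] :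
    fdim k R V = Module.finrank k V := by
  unfold fdim
  congr 1
  refine Module.ext (funext fun c => funext fun v => ?_)
  exact algebraMap_smul R c v

theorem fdim_add {V' V V'' : Type u} [AddCommGroup V'] [Module R V'] [AddCommGroup V] [Module R V]
    [AddCommGroup V''] [Module R V''] (hV : FinDim k R V) (f : V' →ₗ[R] V) (g : V →ₗ[R] V'')
    (hf : Function.Injective f) (hg : Function.Surjective g)
    (hfg : ∀ v, g v = 0 ↔ ∃ v', f v' = v) : fdim k R V = fdim k R V' + fdim k R V'' := by
  let _ : Module k V' := Module.compHom V' (algebraMap k R)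
  let _ : Module k V := Module.compHom V (algebraMap k R)
  let _ : Module k V'' := Module.compHom V'' (algebraMap k R)
  have _ : IsScalarTower k R V' := ⟨fun c r v => by
    rw [Algebra.smul_def, mul_smul]
    rfl⟩
  have _ : IsScalarTower k R V := ⟨fun c r v => by
    rw [Algebra.smul_def, mul_smul]
    rfl⟩
  have _ : IsScalarTower k R V'' := ⟨fun c r v => by
    rw [Algebra.smul_def, mul_smul]
    rfl⟩
  have _ : Module.Finite k V := finDim_iff.1 hV
  have h1 := LinearMap.finrank_range_add_finrank_ker (g.restrictScalars k)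
  have h2 : LinearMap.range (g.restrictScalars k) = ⊤ := LinearMap.range_eq_top.2 hg
  have h3 : LinearMap.ker (g.restrictScalars k) = LinearMap.range (f.restrictScalars k) := by
    ext v
    exact hfg v
  rw [h2, finrank_top, h3, LinearMap.finrank_range_of_inj (f := f.restrictScalars k) hf] at h1
  rw [fdim_eq, fdim_eq, fdim_eq, ← h1, add_comm]

theorem fdim_pos_iff {V : Type u} [AddCommGroup V] [Module R V] (hV : FinDim k R V) :
    0 < fdim k R V ↔ Nontrivial V := by
  let _ : Module k V := Module.compHom V (algebraMap k R)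
  have _ : IsScalarTower k R V := ⟨fun c r v => by
    rw [Algebra.smul_def, mul_smul]
    rfl⟩
  have _ : Module.Finite k V := finDim_iff.1 hV
  rw [fdim_eq]
  exact Module.finrank_pos_iff

section

variable (k) {V : Type u} [AddCommGroup V] [Module R V]

/-- Cocycles with values in `R`. -/
def FRes.cyc (F : FRes R V) (i : ℕ) : Submodule k (Fin (F.n i) → R) where
  carrier := {w | act (F.D i) w = 0}
  add_mem' {a b} ha hb := by
    simp only [Set.mem_ofPred_eq] at ha hb ⊢
    rw [act_add, ha, hb, add_zero]
  zero_mem' := act_zero _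
  smul_mem' c w hw := by
    simp only [Set.mem_ofPred_eq] at hw ⊢
    have : act (F.D i) (c • w) = c • act (F.D i) w := by
      funext j
      simp only [act, Pi.smul_apply, Finset.smul_sum, smul_eq_mul, mul_smul_comm]
    rw [this, hw, smul_zero]

/-- Coboundaries with values in `R`. -/
def FRes.bdy (F : FRes R V) : ∀ i, Submodule k (Fin (F.n i) → R)
  | 0 => ⊥
  | i + 1 =>
    { carrier := {w | ∃ u, act (F.D i) u = w}
      add_mem' := by
        rintro _ _ ⟨u, rfl⟩ ⟨v, rfl⟩
        exact ⟨u + v, act_add _ _ _⟩
      zero_mem' := ⟨0, act_zero _⟩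
      smul_mem' := by
        rintro c _ ⟨u, rfl⟩
        refine ⟨c • u, ?_⟩
        funext j
        simp only [act, Pi.smul_apply, Finset.smul_sum, smul_eq_mul, mul_smul_comm] }

end

theorem FRes.extEquiv {V : ModuleCat.{u} R} (F : FRes R V) (i : ℕ) :
    Nonempty ((F.cyc k i ⧸ (F.bdy k i).submoduleOf (F.cyc k i)) ≃ₗ[k]
      Ext V (ModuleCat.of R R) i) := by
  let L : F.cyc k i →ₗ[k] Ext V (ModuleCat.of R R) i :=
    { toFun := fun w => F.cls (ModuleCat.of R R) i w.1
      map_add' := fun a b => F.cls_add (ModuleCat.of R R) i a.1 b.1 a.2 b.2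
      map_smul' := fun c a => by
        rw [RingHom.id_apply, ← F.cls_smul (ModuleCat.of R R) i c a.1 a.2]
        congr 1
        funext l
        exact Algebra.smul_def c (a.1 l) }
  have hs : Function.Surjective L := by
    intro x
    obtain ⟨w, hw, rfl⟩ := F.cls_surj (ModuleCat.of R R) i x
    exact ⟨⟨w, hw⟩, rfl⟩
  have hk : LinearMap.ker L = (F.bdy k i).submoduleOf (F.cyc k i) := by
    ext w
    rw [LinearMap.mem_ker, Submodule.submoduleOf, Submodule.mem_comap]
    cases i with
    | zero => exact F.cls_zero_iff (ModuleCat.of R R) w.1 w.2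
    | succ i => exact F.cls_succ_iff (ModuleCat.of R R) i w.1 w.2
  exact ⟨(Submodule.quotEquivOfEq _ _ hk.symm).trans (L.quotKerEquivOfSurjective hs)⟩

end BGN
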