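import Mathlib

/-!
# BGN CorA: a complex of acyclic modules and `Ext(-, S)`: dimension shifting

`K` is a complex `C 0 → C 1 → ...` of left `S`-modules; `Z j` kernels, `B j` images, `E j = Z j / B j`,
`Q j = C j / B j`, `Bm j = B j` as a module.  There are short exact sequences
`(S1) 0 → E j → Q j → Bm (j+1) → 0` and `(S2) 0 → Bm j → C j → Q j → 0`.
`S` also denotes the module `ModuleCat.of S S`; the `C j` are acyclic: `Ext^{i+1}(C j, S) = 0`.

PROOFS.
* `isoBQ`: (S2) and acyclicity: the connecting map `Ext^{i+1}(Bm j, S) → Ext^{i+2}(Q j, S)`,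
  `x ↦ extClass.comp x`, is `k`-linear and bijective (`Ext.contravariant_sequence_exact₁/₃`).
* `isoEQ`: (S1) and `Ext^i(E j, S) = Ext^{i+1}(E j, S) = 0`: the map
  `Ext^{i+1}(Bm (j+1), S) → Ext^{i+1}(Q j, S)` is bijective.
* `exists_one`, `one_zero_iff`: (S2) in degrees `0, 1`: every class of `Ext^1(Q j, S)` is
  `extClass.comp (mk₀ f)` for `f : Bm j → S`, and it is zero iff `f` extends to `C j`.  The map
  `δ` of the statement is this connecting map.
* `van`: for `j > b`, `E j = 0` and `Ext^{i+1}(Bm j, S) ≅ Ext^{i+2}(Q j, S) ≅ Ext^{i+2}(Bm (j+1), S)`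
  (`isoBQ`, `isoEQ`); iterate beyond `N`.
-/

namespace BGN

open CategoryTheory Abelian

universe u

/-- A complex of left modules. -/
structure CX (S : Type u) [Ring S] where
  C : ℕ → ModuleCat.{u} S
  d : ∀ j, C j ⟶ C (j + 1)
  dd : ∀ j, d j ≫ d (j + 1) = 0

variable {S : Type u} [Ring S]

namespace CX

/-- Cycles. -/
def Z (K : CX S) (j : ℕ) : Submodule S (K.C j) := LinearMap.ker (K.d j).hom

/-- Boundaries. -/
def B (K : CX S) : ∀ j, Submodule S (K.C j)
  | 0 => ⊥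
  | j + 1 => LinearMap.range (K.d j).hom

/-- Homology. -/
noncomputable def E (K : CX S) (j : ℕ) : ModuleCat.{u} S :=
  ModuleCat.of S (K.Z j ⧸ (K.B j).submoduleOf (K.Z j))

/-- `C j` modulo boundaries. -/
noncomputable def Q (K : CX S) (j : ℕ) : ModuleCat.{u} S := ModuleCat.of S (K.C j ⧸ K.B j)

/-- The module of boundaries. -/
noncomputable def Bm (K : CX S) (j : ℕ) : ModuleCat.{u} S := ModuleCat.of S (K.B j)

private theorem B_le_Z (K : CX S) (j : ℕ) : K.B j ≤ K.Z j := by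
  rcases j with _ | j
  · exact bot_le
  · rintro _ ⟨x, rfl⟩
    change (K.d (j + 1)).hom ((K.d j).hom x) = 0
    have := congrArg (fun f : K.C j ⟶ K.C (j + 1 + 1) => f x) (K.dd j)
    exact this

/-- The map `Q j → Bm (j+1)` induced by `d j`, and the other canonical maps exist; these are the two
short exact sequences. -/
theorem exact_EQB (K : CX S) (j : ℕ) :
    ∃ (f : K.E j ⟶ K.Q j) (g : K.Q j ⟶ K.Bm (j + 1)), Function.Injective f ∧
      Function.Surjective g ∧ (∀ x : K.Q j, g x = 0 ↔ ∃ y, f y = x) ∧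
      (∀ x : K.C j, (g (Submodule.Quotient.mk x : K.C j ⧸ K.B j) : K.B (j + 1)).1 = K.d j x) ∧
      (∀ z : K.Z j, f (Submodule.Quotient.mk z : K.Z j ⧸ (K.B j).submoduleOf (K.Z j)) =
        (Submodule.Quotient.mk z.1 : K.C j ⧸ K.B j)) := by
  let f : K.E j ⟶ K.Q j := ModuleCat.ofHom
    (Submodule.mapQ ((K.B j).submoduleOf (K.Z j)) (K.B j) (K.Z j).subtype (fun _ h => h))
  let g0 : K.C j →ₗ[S] K.B (j + 1) := (K.d j).hom.rangeRestrict
  let g : K.Q j ⟶ K.Bm (j + 1) := ModuleCat.ofHom ((K.B j).liftQ g0 (by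
    intro x hx
    have hz : x ∈ K.Z j := K.B_le_Z j hx
    exact Subtype.ext hz))
  have hg : ∀ x : K.C j, (g (Submodule.Quotient.mk x : K.C j ⧸ K.B j) : K.B (j + 1)).1
      = K.d j x := fun x => rfl
  have hf : ∀ z : K.Z j, f (Submodule.Quotient.mk z : K.Z j ⧸ (K.B j).submoduleOf (K.Z j)) =
      (Submodule.Quotient.mk z.1 : K.C j ⧸ K.B j) := fun z => rfl
  refine ⟨f, g, ?_, ?_, ?_, hg, hf⟩
  · intro x y hxy
    obtain ⟨a, rfl⟩ := Submodule.Quotient.mk_surjective _ x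
    obtain ⟨b, rfl⟩ := Submodule.Quotient.mk_surjective _ y
    rw [hf, hf] at hxy
    have h1 := (Submodule.Quotient.eq (K.B j)).1 hxy
    exact (Submodule.Quotient.eq _).2 h1
  · rintro ⟨y, ⟨x, hx⟩⟩
    refine ⟨(Submodule.Quotient.mk x : K.C j ⧸ K.B j), ?_⟩
    apply Subtype.ext
    rw [hg]
    exact hx
  · intro x
    obtain ⟨a, rfl⟩ := Submodule.Quotient.mk_surjective (K.B j) x
    constructor
    · intro hx
      have h1 := congrArg Subtype.val hx
      rw [hg] at h1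
      have ha : a ∈ K.Z j := h1
      exact ⟨(Submodule.Quotient.mk ⟨a, ha⟩ : K.Z j ⧸ (K.B j).submoduleOf (K.Z j)), hf ⟨a, ha⟩⟩
    · rintro ⟨y, hy⟩
      obtain ⟨b, rfl⟩ := Submodule.Quotient.mk_surjective _ y
      rw [hf] at hy
      have h1 : b.1 - a ∈ K.B j := (Submodule.Quotient.eq (K.B j)).1 hy
      have h2 : b.1 - (b.1 - a) ∈ K.Z j := (K.Z j).sub_mem b.2 (K.B_le_Z j h1)
      rw [sub_sub_cancel] at h2
      apply Subtype.ext
      rw [hg]
      exact h2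

private theorem ses1 (K : CX S) (j : ℕ) :
    ∃ (f : K.E j ⟶ K.Q j) (g : K.Q j ⟶ K.Bm (j + 1)) (hc : f ≫ g = 0),
      (ShortComplex.mk f g hc).ShortExact := by
  obtain ⟨f, g, hf, hg, hfg, _, _⟩ := K.exact_EQB j
  have hc : f ≫ g = 0 := by
    ext x
    exact (hfg (f x)).2 ⟨x, rfl⟩
  refine ⟨f, g, hc, ModuleCat.shortComplex_shortExact _ ?_ hf hg⟩
  intro x
  exact hfg x

private theorem ses2 (K : CX S) (j : ℕ) :
    ∃ (f : K.Bm j ⟶ K.C j) (g : K.C j ⟶ K.Q j) (hc : f ≫ g = 0),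
      (ShortComplex.mk f g hc).ShortExact ∧ ∀ b : K.B j, f b = b.1 := by
  let f : K.Bm j ⟶ K.C j := ModuleCat.ofHom (K.B j).subtype
  let g : K.C j ⟶ K.Q j := ModuleCat.ofHom (K.B j).mkQ
  have hc : f ≫ g = 0 := by
    ext x
    change (K.B j).mkQ ((K.B j).subtype x) = 0
    simp
  refine ⟨f, g, hc, ModuleCat.shortComplex_shortExact _ ?_ ?_ ?_, fun b => rfl⟩
  · intro x
    constructor
    · intro hx
      have h1 : (K.B j).mkQ x = 0 := hx
      rw [Submodule.mkQ_apply, Submodule.Quotient.mk_eq_zero] at h1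
      exact ⟨⟨x, h1⟩, rfl⟩
    · rintro ⟨y, rfl⟩
      change (K.B j).mkQ ((K.B j).subtype y) = 0
      simp
  · exact Subtype.val_injective
  · exact (K.B j).mkQ_surjective

variable {k : Type u} [Field k] [Algebra k S]

theorem isoBQ (K : CX S) (hC : ∀ j i, ∀ x : Ext (K.C j) (ModuleCat.of S S) (i + 1), x = 0)
    (j i : ℕ) : Nonempty (Ext (K.Bm j) (ModuleCat.of S S) (i + 1) ≃ₗ[k]
      Ext (K.Q j) (ModuleCat.of S S) (i + 2)) := by
  obtain ⟨f, g, hc, hS, _⟩ := K.ses2 j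
  refine ⟨LinearEquiv.ofBijective (Ext.precompOfLinear hS.extClass k (ModuleCat.of S S)
    (show 1 + (i + 1) = i + 2 by omega)) ⟨?_, ?_⟩⟩
  · rw [← LinearMap.ker_eq_bot, eq_bot_iff]
    intro x hx
    obtain ⟨y, hy⟩ := Ext.contravariant_sequence_exact₁ hS _ x
      (show 1 + (i + 1) = i + 2 by omega) hx
    rw [Submodule.mem_bot, ← hy, hC j i y, Ext.comp_zero]
  · intro x
    obtain ⟨y, hy⟩ := Ext.contravariant_sequence_exact₃ hS _ x (hC j (i + 1) _)
      (show 1 + (i + 1) = i + 2 by omega)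
    exact ⟨y, hy⟩

theorem isoEQ (K : CX S) (j i : ℕ) (h0 : ∀ x : Ext (K.E j) (ModuleCat.of S S) i, x = 0)
    (h1 : ∀ x : Ext (K.E j) (ModuleCat.of S S) (i + 1), x = 0) :
    Nonempty (Ext (K.Bm (j + 1)) (ModuleCat.of S S) (i + 1) ≃ₗ[k]
      Ext (K.Q j) (ModuleCat.of S S) (i + 1)) := by
  obtain ⟨f, g, hc, hS⟩ := K.ses1 j
  refine ⟨LinearEquiv.ofBijective (Ext.precompOfLinear (Ext.mk₀ g) k (ModuleCat.of S S)
    (zero_add (i + 1))) ⟨?_, ?_⟩⟩
  · rw [← LinearMap.ker_eq_bot, eq_bot_iff]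
    intro x hx
    obtain ⟨y, hy⟩ := Ext.contravariant_sequence_exact₃ hS _ x hx (show 1 + i = i + 1 by omega)
    rw [Submodule.mem_bot, ← hy, h0 y, Ext.comp_zero]
  · intro x
    obtain ⟨y, hy⟩ := Ext.contravariant_sequence_exact₂ hS _ x (h1 _)
    exact ⟨y, hy⟩

theorem exists_delta (K : CX S)
    (hC : ∀ j i, ∀ x : Ext (K.C j) (ModuleCat.of S S) (i + 1), x = 0) (j : ℕ) :
    ∃ δ : (K.Bm j ⟶ ModuleCat.of S S) →ₗ[k] Ext (K.Q j) (ModuleCat.of S S) 1,
      Function.Surjective δ ∧ ∀ f, δ f = 0 ↔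
        ∃ g : K.C j ⟶ ModuleCat.of S S, ∀ b : K.B j, g b.1 = f b := by
  obtain ⟨f, g, hc, hS, hfb⟩ := K.ses2 j
  let δ : (K.Bm j ⟶ ModuleCat.of S S) →ₗ[k] Ext (K.Q j) (ModuleCat.of S S) 1 :=
    { toFun := fun φ => hS.extClass.comp (Ext.mk₀ φ) (add_zero 1)
      map_add' := fun φ ψ => by rw [Ext.mk₀_add, Ext.comp_add]
      map_smul' := fun c φ => by
        have e : Ext.mk₀ (c • φ) = c • Ext.mk₀ φ := by
          have e2 := Ext.mk₀_smul c φ
          rw [← e2]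
          congr 1
          ext x
          exact Algebra.smul_def c (φ x)
        rw [e]
        exact Ext.comp_smul _ _ _ c }
  have hδ : ∀ φ, δ φ = hS.extClass.comp (Ext.mk₀ φ) (add_zero 1) := fun φ => rfl
  refine ⟨δ, ?_, ?_⟩
  · intro x
    obtain ⟨y, hy⟩ := Ext.contravariant_sequence_exact₃ hS _ x (hC j 0 _) (add_zero 1)
    obtain ⟨φ, rfl⟩ := Ext.homEquiv₀.symm.surjective y
    exact ⟨φ, hy⟩
  · intro φ
    rw [hδ]
    constructor
    · intro h0
      obtain ⟨y, hy⟩ := Ext.contravariant_sequence_exact₁ hS _ (Ext.mk₀ φ) (add_zero 1) h0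
      obtain ⟨ψ, rfl⟩ := Ext.homEquiv₀.symm.surjective y
      have h1 : Ext.mk₀ (f ≫ ψ) = Ext.mk₀ φ := by
        rw [← Ext.mk₀_comp_mk₀]
        exact hy
      have h2 : f ≫ ψ = φ := Ext.homEquiv₀.symm.injective h1
      refine ⟨ψ, fun b => ?_⟩
      rw [← h2, ← hfb b]
      rfl
    · rintro ⟨ψ, hψ⟩
      have h2 : f ≫ ψ = φ := by
        ext b
        change ψ (f b) = φ b
        rw [hfb]
        exact hψ b
      rw [← h2, ← Ext.mk₀_comp_mk₀]
      exact hS.extClass_comp_assoc (Ext.mk₀ ψ)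

theorem van (K : CX S) (hC : ∀ j i, ∀ x : Ext (K.C j) (ModuleCat.of S S) (i + 1), x = 0)
    (N : ℕ) (hN : ∀ i, N < i → ∀ (M : ModuleCat.{u} S) (x : Ext M (ModuleCat.of S S) i), x = 0)
    (b : ℕ) (hb : ∀ j, b < j → Subsingleton (K.E j)) (j : ℕ) (hj : b < j) (i : ℕ)
    (x : Ext (K.Bm j) (ModuleCat.of S S) (i + 1)) : x = 0 := by
  have key : ∀ m i, N ≤ i + m → ∀ j, b < j →
      ∀ x : Ext (K.Bm j) (ModuleCat.of S S) (i + 1), x = 0 := by
    intro m
    induction m with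
    | zero =>
      intro i hi j _ x
      exact hN (i + 1) (by omega) _ x
    | succ m ih =>
      intro i hi j hj x
      obtain ⟨f, g, hc, hS, _⟩ := K.ses2 j
      obtain ⟨f', g', hc', hS'⟩ := K.ses1 j
      have hsub := hb j hj
      have hE : ∀ n, ∀ y : Ext (K.E j) (ModuleCat.of S S) n, y = 0 := by
        intro n y
        have hz : (𝟙 (K.E j)) = 0 := (ModuleCat.isZero_of_subsingleton (K.E j)).eq_of_src _ _
        rw [← Ext.mk₀_id_comp y, hz, Ext.mk₀_zero, Ext.zero_comp]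
      have hQ : hS.extClass.comp x (show 1 + (i + 1) = i + 2 by omega) = 0 := by
        obtain ⟨z, hz⟩ := Ext.contravariant_sequence_exact₂ hS' _
          (hS.extClass.comp x (show 1 + (i + 1) = i + 1 + 1 by omega)) (hE _ _)
        have hz0 := ih (i + 1) (by omega) (j + 1) (by omega) z
        rw [hz0, Ext.comp_zero] at hz
        exact hz.symm
      obtain ⟨y, hy⟩ := Ext.contravariant_sequence_exact₁ hS _ x
        (show 1 + (i + 1) = i + 2 by omega) hQ
      rw [← hy, hC j i y, Ext.comp_zero]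
  exact key N i (by omega) j hj x

end CX

end BGN
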