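import Pool.Agent.BGN.CorA

/-!
# BGN CorB: the corner of the double `Ext` spectral sequence

Notation as in `CorA`; `G^i = Ext^i(-, S)`.

PROOFS.
`chain`: if `1 ≤ a` and `G^p(E j) = 0` for all `p < a` and all `j`, then
`V ≅ G^a(Q a)`: first `V ≅ G^1(Q 1)`: `G^0(E 0) = 0` and (S1) for `j = 0` give: every
`f : C 0 → S` vanishes on `Z 0` (`B 0 = ⊥`), hence is `f = d 0 ≫ f̄` for a unique
`f̄ : Bm 1 → S` (`exact_EQB`); so `(C 0 ⟶ S) ≃ (Bm 1 ⟶ S)`, and `δ` of `exists_delta` for `j = 1`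
followed by this is surjective with kernel the `f = d 0 ≫ g`, `g : C 1 ⟶ S`; the kernel of `q` is
the same.  Then `G^p(Q p) ≅ G^p(Bm (p+1)) ≅ G^{p+1}(Q (p+1))` for `1 ≤ p < a` (`isoEQ`, `isoBQ`).
* `corner_lt` (`b < a`): `a ≥ 1`, `V ≅ G^a(Q a)`, `a > b`, `E a = 0` so
  `G^a(Q a) ≅ G^a(Bm (a+1))` (`isoEQ` with `E a` zero) `= 0` (`van`).
* `corner_eq` (`a = b`): if `b ≥ 1`: `V ≅ G^b(Q b)`; (S1) for `j = b`:
  `G^b(Bm (b+1)) = 0` (`van`, `b ≥ 1`) `→ G^b(Q b) → G^b(E b) → G^{b+1}(Bm (b+1)) = 0`, so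
  `G^b(Q b) ≅ G^b(E b)`.
  If `b = 0`: `(C 0 ⟶ S) = G^0(Q 0) → G^0(E 0) → G^1(Bm 1) = 0` surjective; `E 0 = Z 0`; the
  kernel consists of the `f` vanishing on `Z 0`, i.e. `f = d 0 ≫ f̄`, `f̄ : Bm 1 → S`, and
  every `f̄` extends to `C 1`: `δ f̄ ∈ G^1(Q 1)`, `G^1(Q 1) ≅ G^1(Bm 2)` (`isoEQ`, `E 1 = 0`) `= 0`
  (`van`).  So the kernel is `{d 0 ≫ g}`, the kernel of `q`, and `V ≅ G^0(E 0)`.
-/

namespace BGN

open CategoryTheory Abelian

universe u

variable {S : Type u} [Ring S] {k : Type u} [Field k] [Algebra k S]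

namespace CX

/-- The map `C j → Bm (j+1)` induced by `d j`. -/
private noncomputable def pr (K : CX S) (j : ℕ) : K.C j ⟶ K.Bm (j + 1) :=
  ModuleCat.ofHom (LinearMap.rangeRestrict (K.d j).hom)

private theorem pr_val (K : CX S) (j : ℕ) (x : K.C j) : (K.pr j x : K.B (j + 1)).1 = K.d j x := rfl

private theorem pr_surj (K : CX S) (j : ℕ) : Function.Surjective (K.pr j) := by
  rintro ⟨y, x, rfl⟩
  exact ⟨x, rfl⟩

private theorem ses0 (K : CX S) : ∃ (ε : K.E 0 ⟶ K.C 0) (w : ε ≫ K.pr 0 = 0),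
    (ShortComplex.mk ε (K.pr 0) w).ShortExact := by
  have hB : (K.B 0).submoduleOf (K.Z 0) ≤ LinearMap.ker (K.Z 0).subtype := by
    intro z hz
    have h1 : z.1 ∈ K.B 0 := hz
    have h2 : z.1 = 0 := by simpa [CX.B] using h1
    rw [LinearMap.mem_ker]
    exact h2
  obtain ⟨e, he⟩ : ∃ e : K.E 0 ⟶ K.C 0, e = ModuleCat.ofHom
      (((K.B 0).submoduleOf (K.Z 0)).liftQ (K.Z 0).subtype hB) := ⟨_, rfl⟩
  have he' : ∀ z : K.Z 0, e (Submodule.Quotient.mk z : K.Z 0 ⧸ (K.B 0).submoduleOf (K.Z 0)) = z.1 := by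
    intro z
    rw [he]
    rfl
  have w : e ≫ K.pr 0 = 0 := by
    ext x
    obtain ⟨z, hz⟩ := Submodule.Quotient.mk_surjective ((K.B 0).submoduleOf (K.Z 0)) x
    rw [← hz]
    have h1 : (e ≫ K.pr 0) (Submodule.Quotient.mk z : K.Z 0 ⧸ (K.B 0).submoduleOf (K.Z 0)) =
        K.pr 0 z.1 := by
      rw [← he' z]
      rfl
    have h2 : K.pr 0 z.1 = 0 := by
      apply Subtype.ext
      exact z.2
    exact h1.trans h2
  refine ⟨e, w, ?_⟩
  refine { exact := ?_, mono_f := ?_, epi_g := ?_ }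
  · rw [ShortComplex.moduleCat_exact_iff]
    intro x hx
    have h1 : x ∈ K.Z 0 := by
      have h2 : (K.pr 0 x : K.B 1).1 = (0 : K.B 1).1 := congrArg Subtype.val hx
      exact h2
    exact ⟨(Submodule.Quotient.mk ⟨x, h1⟩ : K.Z 0 ⧸ (K.B 0).submoduleOf (K.Z 0)), he' ⟨x, h1⟩⟩
  · rw [ModuleCat.mono_iff_injective]
    intro x y hxy
    obtain ⟨z, hz⟩ := Submodule.Quotient.mk_surjective ((K.B 0).submoduleOf (K.Z 0)) x
    obtain ⟨z', hz'⟩ := Submodule.Quotient.mk_surjective ((K.B 0).submoduleOf (K.Z 0)) y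
    rw [← hz, ← hz'] at hxy ⊢
    have h1 : z.1 = z'.1 := by
      rw [← he' z, ← he' z']
      exact hxy
    rw [Subtype.ext h1]
  · rw [ModuleCat.epi_iff_surjective]
    exact K.pr_surj 0

private theorem ses1 (K : CX S) (j : ℕ) : ∃ (f : K.E j ⟶ K.Q j) (g : K.Q j ⟶ K.Bm (j + 1))
    (w : f ≫ g = 0), (ShortComplex.mk f g w).ShortExact := by
  obtain ⟨f, g, hf, hg, hfg, -, -⟩ := K.exact_EQB j
  have w : f ≫ g = 0 := by
    ext x
    have h1 : g (f x) = 0 := (hfg (f x)).2 ⟨x, rfl⟩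
    exact h1
  refine ⟨f, g, w, ?_⟩
  refine { exact := ?_, mono_f := ?_, epi_g := ?_ }
  · rw [ShortComplex.moduleCat_exact_iff]
    intro x hx
    exact (hfg x).1 hx
  · rw [ModuleCat.mono_iff_injective]
    exact hf
  · rw [ModuleCat.epi_iff_surjective]
    exact hg

/-- Precomposition as a linear map. -/
private noncomputable def lc {X Y : ModuleCat.{u} S} (e : X ⟶ Y) :
    (Y ⟶ ModuleCat.of S S) →ₗ[k] (X ⟶ ModuleCat.of S S) where
  toFun f := e ≫ f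
  map_add' f g := Preadditive.comp_add _ _ _ e f g
  map_smul' _ _ := rfl

private theorem lc_apply {X Y : ModuleCat.{u} S} (e : X ⟶ Y) (f : Y ⟶ ModuleCat.of S S) :
    lc (k := k) e f = e ≫ f := rfl

/-- Precomposition with values in `Ext`. -/
private noncomputable def lx {X Y : ModuleCat.{u} S} (e : X ⟶ Y) :
    (Y ⟶ ModuleCat.of S S) →ₗ[k] Ext X (ModuleCat.of S S) 0 where
  toFun f := Ext.mk₀ (e ≫ f)
  map_add' f g := by
    rw [Preadditive.comp_add, Ext.mk₀_add]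
  map_smul' r f := by
    rw [RingHom.id_apply, ← Ext.mk₀_smul]
    congr 1
    ext x
    exact Algebra.smul_def r (f (e x))

private theorem lx_apply {X Y : ModuleCat.{u} S} (e : X ⟶ Y) (f : Y ⟶ ModuleCat.of S S) :
    lx (k := k) e f = Ext.mk₀ (e ≫ f) := rfl

omit [Algebra k S] in
private theorem equiv_of_ker {M V W : Type u} [AddCommGroup M] [Module k M] [AddCommGroup V]
    [Module k V] [AddCommGroup W] [Module k W] (p : M →ₗ[k] V) (r : M →ₗ[k] W)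
    (hp : Function.Surjective p) (hr : Function.Surjective r) (h : ∀ m, p m = 0 ↔ r m = 0) :
    Nonempty (V ≃ₗ[k] W) := by
  have hk : LinearMap.ker p = LinearMap.ker r := by
    ext m
    rw [LinearMap.mem_ker, LinearMap.mem_ker]
    exact h m
  exact ⟨(p.quotKerEquivOfSurjective hp).symm.trans
    ((Submodule.quotEquivOfEq _ _ hk).trans (r.quotKerEquivOfSurjective hr))⟩

private theorem ext_zero_of_sub {X : ModuleCat.{u} S} (hX : Subsingleton X) (Y : ModuleCat.{u} S)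
    (i : ℕ) (x : Ext X Y i) : x = 0 := by
  have h1 : (𝟙 X : X ⟶ X) = 0 := by
    ext y
    exact Subsingleton.elim _ _
  rw [← Ext.mk₀_id_comp x, h1, Ext.mk₀_zero, Ext.zero_comp]

private theorem mk_zero {X Y : ModuleCat.{u} S} (f : X ⟶ Y) (h : Ext.mk₀ f = 0) : f = 0 := by
  have h1 : Ext.addEquiv₀ (Ext.mk₀ f) = Ext.addEquiv₀ (0 : Ext X Y 0) := by rw [h]
  have h2 : Ext.addEquiv₀ (Ext.mk₀ f) = f := Ext.addEquiv₀.apply_symm_apply f
  rw [h2, map_zero] at h1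
  exact h1

private theorem one_step (K : CX S)
    (hC : ∀ j i, ∀ x : Ext (K.C j) (ModuleCat.of S S) (i + 1), x = 0)
    {V : Type u} [AddCommGroup V] [Module k V] (q : (K.C 0 ⟶ ModuleCat.of S S) →ₗ[k] V)
    (hq : Function.Surjective q)
    (hq' : ∀ f, q f = 0 ↔ ∃ g : K.C 1 ⟶ ModuleCat.of S S, K.d 0 ≫ g = f)
    (h0 : ∀ x : Ext (K.E 0) (ModuleCat.of S S) 0, x = 0) :
    Nonempty (V ≃ₗ[k] Ext (K.Q 1) (ModuleCat.of S S) 1) := by
  obtain ⟨δ, hδ, hδ'⟩ := K.exists_delta (k := k) hC 1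
  obtain ⟨ε, w, hS⟩ := K.ses0
  refine equiv_of_ker (q ∘ₗ lc (K.pr 0)) δ ?_ hδ ?_
  · intro v
    obtain ⟨f, hf⟩ := hq v
    have h1 : ε ≫ f = 0 := mk_zero _ (h0 _)
    have : Epi (ShortComplex.mk ε (K.pr 0) w).g := hS.epi_g
    refine ⟨hS.exact.desc f h1, ?_⟩
    have h2 : K.pr 0 ≫ hS.exact.desc f h1 = f := hS.exact.g_desc f h1
    rw [LinearMap.comp_apply, lc_apply, h2]
    exact hf
  · intro f
    rw [hδ', LinearMap.comp_apply, lc_apply, hq']
    constructor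
    · rintro ⟨g, hg⟩
      refine ⟨g, fun b => ?_⟩
      obtain ⟨x, rfl⟩ := K.pr_surj 0 b
      have h1 : (K.d 0 ≫ g) x = (K.pr 0 ≫ f) x := by rw [hg]
      exact h1
    · rintro ⟨g, hg⟩
      refine ⟨g, ?_⟩
      ext x
      exact hg (K.pr 0 x)

private theorem chain (K : CX S)
    (hC : ∀ j i, ∀ x : Ext (K.C j) (ModuleCat.of S S) (i + 1), x = 0)
    {V : Type u} [AddCommGroup V] [Module k V] (q : (K.C 0 ⟶ ModuleCat.of S S) →ₗ[k] V)
    (hq : Function.Surjective q)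
    (hq' : ∀ f, q f = 0 ↔ ∃ g : K.C 1 ⟶ ModuleCat.of S S, K.d 0 ≫ g = f) (n : ℕ)
    (ha : ∀ j p, p < n + 1 → ∀ x : Ext (K.E j) (ModuleCat.of S S) p, x = 0) :
    Nonempty (V ≃ₗ[k] Ext (K.Q (n + 1)) (ModuleCat.of S S) (n + 1)) := by
  induction n with
  | zero => exact K.one_step hC q hq hq' (fun x => ha 0 0 (by omega) x)
  | succ n ih =>
    obtain ⟨e1⟩ := ih (fun j p hp x => ha j p (by omega) x)
    obtain ⟨e2⟩ := K.isoEQ (k := k) (n + 1) n (fun x => ha _ _ (by omega) x)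
      (fun x => ha _ _ (by omega) x)
    obtain ⟨e3⟩ := K.isoBQ (k := k) hC (n + 1 + 1) n
    exact ⟨(e1.trans e2.symm).trans e3⟩

theorem corner_lt (K : CX S) (hC : ∀ j i, ∀ x : Ext (K.C j) (ModuleCat.of S S) (i + 1), x = 0)
    {V : Type u} [AddCommGroup V] [Module k V] (q : (K.C 0 ⟶ ModuleCat.of S S) →ₗ[k] V)
    (hq : Function.Surjective q)
    (hq' : ∀ f, q f = 0 ↔ ∃ g : K.C 1 ⟶ ModuleCat.of S S, K.d 0 ≫ g = f)
    (N : ℕ) (hN : ∀ i, N < i → ∀ (M : ModuleCat.{u} S) (x : Ext M (ModuleCat.of S S) i), x = 0)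
    (a b : ℕ) (hb : ∀ j, b < j → Subsingleton (K.E j))
    (ha : ∀ j p, p < a → ∀ x : Ext (K.E j) (ModuleCat.of S S) p, x = 0) (hba : b < a) :
    Subsingleton V := by
  obtain ⟨n, rfl⟩ : ∃ n, a = n + 1 := ⟨a - 1, by omega⟩
  obtain ⟨e1⟩ := K.chain hC q hq hq' n ha
  have hE : ∀ i, ∀ x : Ext (K.E (n + 1)) (ModuleCat.of S S) i, x = 0 := fun i x =>
    ext_zero_of_sub (hb (n + 1) (by omega)) _ i x
  obtain ⟨e2⟩ := K.isoEQ (k := k) (n + 1) n (hE _) (hE _)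
  have h3 : ∀ x : Ext (K.Bm (n + 1 + 1)) (ModuleCat.of S S) (n + 1), x = 0 := fun x =>
    K.van hC N hN b hb (n + 1 + 1) (by omega) n x
  refine ⟨fun x y => ?_⟩
  have h4 : ∀ v : V, v = 0 := by
    intro v
    apply (e1.trans e2.symm).injective
    have h5 := h3 ((e1.trans e2.symm) v)
    rw [h5, map_zero]
  rw [h4 x, h4 y]

theorem corner_eq (K : CX S) (hC : ∀ j i, ∀ x : Ext (K.C j) (ModuleCat.of S S) (i + 1), x = 0)
    {V : Type u} [AddCommGroup V] [Module k V] (q : (K.C 0 ⟶ ModuleCat.of S S) →ₗ[k] V)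
    (hq : Function.Surjective q)
    (hq' : ∀ f, q f = 0 ↔ ∃ g : K.C 1 ⟶ ModuleCat.of S S, K.d 0 ≫ g = f)
    (N : ℕ) (hN : ∀ i, N < i → ∀ (M : ModuleCat.{u} S) (x : Ext M (ModuleCat.of S S) i), x = 0)
    (b : ℕ) (hb : ∀ j, b < j → Subsingleton (K.E j))
    (ha : ∀ j p, p < b → ∀ x : Ext (K.E j) (ModuleCat.of S S) p, x = 0) :
    Nonempty (Ext (K.E b) (ModuleCat.of S S) b ≃ₗ[k] V) := by
  rcases Nat.eq_zero_or_pos b with hb0 | hb0
  · subst hb0
    obtain ⟨ε, w, hS⟩ := K.ses0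
    have : Epi (ShortComplex.mk ε (K.pr 0) w).g := hS.epi_g
    refine equiv_of_ker (lx ε) q ?_ hq ?_
    · intro x
      have h1 : hS.extClass.comp x (by omega : 1 + 0 = 1) = 0 :=
        K.van hC N hN 0 hb 1 (by omega) 0 _
      obtain ⟨y, hy⟩ := Ext.contravariant_sequence_exact₁ hS (ModuleCat.of S S) x
        (by omega : 1 + 0 = 1) h1
      obtain ⟨f, rfl⟩ := Ext.addEquiv₀.symm.surjective y
      refine ⟨f, ?_⟩
      rw [← hy]
      have h2 : Ext.addEquiv₀.symm f = Ext.mk₀ f := rfl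
      rw [h2]
      exact (Ext.mk₀_comp_mk₀ ε f).symm
    · intro f
      have h0 : lx (k := k) ε f = 0 ↔ ε ≫ f = 0 := by
        rw [lx_apply]
        constructor
        · exact mk_zero _
        · intro h
          rw [h, Ext.mk₀_zero]
      rw [h0, hq']
      constructor
      · intro h1
        have h2 : K.pr 0 ≫ hS.exact.desc f h1 = f := hS.exact.g_desc f h1
        obtain ⟨δ, hδ, hδ'⟩ := K.exists_delta (k := k) hC 1
        have hE : ∀ i, ∀ x : Ext (K.E 1) (ModuleCat.of S S) i, x = 0 := fun i x =>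
          ext_zero_of_sub (hb 1 (by omega)) _ i x
        obtain ⟨e2⟩ := K.isoEQ (k := k) 1 0 (hE _) (hE _)
        have h3 : ∀ x : Ext (K.Bm 2) (ModuleCat.of S S) 1, x = 0 := fun x =>
          K.van hC N hN 0 hb 2 (by omega) 0 x
        have h4 : δ (hS.exact.desc f h1) = 0 := by
          apply e2.symm.injective
          rw [map_zero]
          exact h3 _
        obtain ⟨g, hg⟩ := (hδ' _).1 h4
        refine ⟨g, ?_⟩
        rw [← h2]
        ext x
        exact hg (K.pr 0 x)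
      · rintro ⟨g, rfl⟩
        have h5 : K.d 0 ≫ g = K.pr 0 ≫ (ModuleCat.ofHom (K.B 1).subtype ≫ g) := rfl
        rw [h5, ← Category.assoc, w, Limits.zero_comp]
  · obtain ⟨n, rfl⟩ : ∃ n, b = n + 1 := ⟨b - 1, by omega⟩
    obtain ⟨e1⟩ := K.chain hC q hq hq' n ha
    obtain ⟨f, g, w, hS⟩ := K.ses1 (n + 1)
    have v1 : ∀ x : Ext (K.Bm (n + 1 + 1)) (ModuleCat.of S S) (n + 1), x = 0 := fun x =>
      K.van hC N hN (n + 1) hb (n + 1 + 1) (by omega) n x
    have v2 : ∀ x : Ext (K.Bm (n + 1 + 1)) (ModuleCat.of S S) (n + 1 + 1), x = 0 := fun x =>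
      K.van hC N hN (n + 1) hb (n + 1 + 1) (by omega) (n + 1) x
    have hbij : Function.Bijective (Ext.precompOfLinear (Ext.mk₀ f) k (ModuleCat.of S S)
        (zero_add (n + 1))) := by
      constructor
      · rw [injective_iff_map_eq_zero]
        intro x hx
        have hx' : (Ext.mk₀ f).comp x (zero_add (n + 1)) = 0 := hx
        obtain ⟨y, hy⟩ := Ext.contravariant_sequence_exact₂ hS (ModuleCat.of S S) x hx'
        rw [← hy, v1 y, Ext.comp_zero]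
      · intro x
        have h1 : hS.extClass.comp x (by omega : 1 + (n + 1) = n + 1 + 1) = 0 := v2 _
        obtain ⟨y, hy⟩ := Ext.contravariant_sequence_exact₁ hS (ModuleCat.of S S) x
          (by omega : 1 + (n + 1) = n + 1 + 1) h1
        exact ⟨y, hy⟩
    exact ⟨(LinearEquiv.ofBijective _ hbij).symm.trans e1.symm⟩

end CX

end BGN
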