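import Pool.Agent.BGN.CorA

/-!
# BGN CorC: the corner of the double `Ext` spectral sequence, `a < b`

Notation as in `CorA`; `G^i = Ext^i(-, S)`.  Hypothesis `hex`: the complex
`Hom(C 0, S) ← Hom(C 1, S) ← ...` is exact at `Hom(C (j+1), S)`.

PROOF of `corner_gt` (`a < b`, claim `G^a(E b) = 0`).
`a = 0`: `x = mk₀ g`, `g : E b → S`.  (S1) for `j = b`: `G^0(Q b) → G^0(E b) → G^1(Bm (b+1)) = 0`
(`van`), so `g` is the restriction of some `Q b → S`, i.e. there is `f : C b → S` vanishing on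
`B b` with `f = g` on `Z b`.  `b ≥ 1` and `d (b-1) ≫ f = 0`, so `f = d b ≫ f'` by `hex`, and `f = 0`
on `Z b`.  So `g = 0`.
`a ≥ 1`: by (S1) and `G^{a+1}(Bm (b+1)) = 0` (`van`) it is enough to show `G^a(Q b) = 0`.
`G^a(Q b) ≅ G^{a-1}(Bm b)` (`isoBQ`, if `a ≥ 2`) `≅ G^{a-1}(Q (b-1))` (`isoEQ`, as `a - 1 < a`)
`≅ ... ≅ G^1(Q (b-a+1))`.  Put `j = b - a ≥ 1`.  `G^1(Q (j+1)) = 0`: by `exists_delta` it is enough
that every `f̄ : Bm (j+1) → S` extends to `C (j+1)`.  `f := d j ≫ f̄ : C j → S` satisfies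
`d (j-1) ≫ f = 0`, so by `hex` (`j ≥ 1`) `f = d j ≫ g`, `g : C (j+1) → S`, and `g` restricted to
`B (j+1)` is `f̄`.
-/

namespace BGN

open CategoryTheory Abelian

universe u

variable {S : Type u} [Ring S]

namespace CX

/-- The map `C j → Bm (j+1)` induced by `d j`. -/
private noncomputable def pr (K : CX S) (j : ℕ) : K.C j ⟶ K.Bm (j + 1) :=
  ModuleCat.ofHom (LinearMap.rangeRestrict (K.d j).hom)

private theorem mk_zero {X Y : ModuleCat.{u} S} (f : X ⟶ Y) (h : Ext.mk₀ f = 0) : f = 0 := by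
  have h1 : Ext.addEquiv₀ (Ext.mk₀ f) = Ext.addEquiv₀ (0 : Ext X Y 0) := by rw [h]
  have h2 : Ext.addEquiv₀ (Ext.mk₀ f) = f := Ext.addEquiv₀.apply_symm_apply f
  rw [h2, map_zero] at h1
  exact h1

private theorem dd_apply (K : CX S) (j : ℕ) (x : K.C j) : K.d (j + 1) (K.d j x) = 0 := by
  have := congrArg (fun f : K.C j ⟶ K.C (j + 1 + 1) => f x) (K.dd j)
  exact this

private theorem q_one (k : Type u) [Field k] [Algebra k S] (K : CX S)
    (hC : ∀ j i, ∀ x : Ext (K.C j) (ModuleCat.of S S) (i + 1), x = 0)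
    (hex : ∀ j (f : K.C (j + 1) ⟶ ModuleCat.of S S), K.d j ≫ f = 0 →
      ∃ g : K.C (j + 2) ⟶ ModuleCat.of S S, K.d (j + 1) ≫ g = f) (j : ℕ)
    (y : Ext (K.Q (j + 2)) (ModuleCat.of S S) 1) : y = 0 := by
  obtain ⟨δ, hδ, hδ'⟩ := K.exists_delta (k := k) hC (j + 2)
  obtain ⟨φ, rfl⟩ := hδ y
  rw [hδ']
  have h1 : K.d j ≫ (K.pr (j + 1) ≫ φ) = 0 := by
    ext x
    have h2 : K.pr (j + 1) (K.d j x) = 0 := by
      apply Subtype.ext
      exact K.dd_apply j x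
    change φ (K.pr (j + 1) (K.d j x)) = 0
    rw [h2, map_zero]
  obtain ⟨g, hg⟩ := hex j _ h1
  refine ⟨g, ?_⟩
  rintro ⟨_, x, rfl⟩
  have h3 : (K.d (j + 1) ≫ g) x = (K.pr (j + 1) ≫ φ) x := by rw [hg]
  exact h3

private theorem q_van (k : Type u) [Field k] [Algebra k S] (K : CX S)
    (hC : ∀ j i, ∀ x : Ext (K.C j) (ModuleCat.of S S) (i + 1), x = 0)
    (hex : ∀ j (f : K.C (j + 1) ⟶ ModuleCat.of S S), K.d j ≫ f = 0 →
      ∃ g : K.C (j + 2) ⟶ ModuleCat.of S S, K.d (j + 1) ≫ g = f) (j m : ℕ)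
    (ha : ∀ j p, p < m + 1 → ∀ x : Ext (K.E j) (ModuleCat.of S S) p, x = 0)
    (y : Ext (K.Q (j + m + 2)) (ModuleCat.of S S) (m + 1)) : y = 0 := by
  induction m with
  | zero => exact q_one k K hC hex j y
  | succ m ih =>
    obtain ⟨e1⟩ := K.isoBQ (k := k) hC (j + (m + 1) + 2) m
    obtain ⟨e2⟩ := K.isoEQ (k := k) (j + (m + 1) + 1) m (fun x => ha _ _ (by omega) x)
      (fun x => ha _ _ (by omega) x)
    have h0 : ∀ z : Ext (K.Q (j + (m + 1) + 1)) (ModuleCat.of S S) (m + 1), z = 0 := by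
      have h1 : j + (m + 1) + 1 = j + m + 2 := by omega
      rw [h1]
      exact fun z => ih (fun j p hp x => ha j p (by omega) x) z
    apply (e1.symm.trans e2).injective
    rw [map_zero]
    exact h0 _

theorem corner_gt (k : Type u) [Field k] [Algebra k S] (K : CX S)
    (hC : ∀ j i, ∀ x : Ext (K.C j) (ModuleCat.of S S) (i + 1), x = 0)
    (hex : ∀ j (f : K.C (j + 1) ⟶ ModuleCat.of S S), K.d j ≫ f = 0 →
      ∃ g : K.C (j + 2) ⟶ ModuleCat.of S S, K.d (j + 1) ≫ g = f)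
    (N : ℕ) (hN : ∀ i, N < i → ∀ (M : ModuleCat.{u} S) (x : Ext M (ModuleCat.of S S) i), x = 0)
    (a b : ℕ) (hb : ∀ j, b < j → Subsingleton (K.E j))
    (ha : ∀ j p, p < a → ∀ x : Ext (K.E j) (ModuleCat.of S S) p, x = 0) (hab : a < b)
    (x : Ext (K.E b) (ModuleCat.of S S) a) : x = 0 := by
  obtain ⟨f, g, hf, hg, hfg, _, hfz⟩ := K.exact_EQB b
  have hc : f ≫ g = 0 := by
    ext x
    exact (hfg (f x)).2 ⟨x, rfl⟩
  have hS : (ShortComplex.mk f g hc).ShortExact :=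
    ModuleCat.shortComplex_shortExact _ (fun x => hfg x) hf hg
  have hv : hS.extClass.comp x (show 1 + a = a + 1 by omega) = 0 :=
    K.van hC N hN b hb (b + 1) (by omega) a _
  obtain ⟨y, hy⟩ := Ext.contravariant_sequence_exact₁ hS _ x (show 1 + a = a + 1 by omega) hv
  rcases Nat.eq_zero_or_pos a with h0 | h0
  · subst h0
    obtain ⟨φ, rfl⟩ := Ext.addEquiv₀.symm.surjective y
    have h1 : Ext.mk₀ (f ≫ φ) = x := by
      rw [← Ext.mk₀_comp_mk₀]
      exact hy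
    rw [← h1]
    have h2 : f ≫ φ = 0 := by
      obtain ⟨j, rfl⟩ : ∃ j, b = j + 1 := ⟨b - 1, by omega⟩
      have h3 : K.d j ≫ (ModuleCat.ofHom (K.B (j + 1)).mkQ ≫ φ) = 0 := by
        ext x
        change φ ((K.B (j + 1)).mkQ (K.d j x)) = 0
        have h4 : (K.B (j + 1)).mkQ (K.d j x) = 0 := by
          rw [Submodule.mkQ_apply, Submodule.Quotient.mk_eq_zero]
          exact ⟨x, rfl⟩
        rw [h4]
        exact map_zero φ.hom
      obtain ⟨ψ, hψ⟩ := hex j _ h3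
      ext z
      obtain ⟨z, rfl⟩ := Submodule.Quotient.mk_surjective _ z
      change φ (f _) = 0
      rw [hfz]
      have h5 : (K.d (j + 1) ≫ ψ) z.1 = φ ((K.B (j + 1)).mkQ z.1) := by
        rw [hψ]
        rfl
      have h6 : K.d (j + 1) z.1 = 0 := z.2
      have h7 : (K.d (j + 1) ≫ ψ) z.1 = 0 := by
        change ψ (K.d (j + 1) z.1) = 0
        rw [h6, map_zero]
      rw [h7] at h5
      exact h5.symm
    rw [h2, Ext.mk₀_zero]
  · obtain ⟨m, rfl⟩ : ∃ m, a = m + 1 := ⟨a - 1, by omega⟩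
    have h8 : ∀ y : Ext (K.Q b) (ModuleCat.of S S) (m + 1), y = 0 := by
      obtain ⟨j, rfl⟩ : ∃ j, b = j + m + 2 := ⟨b - (m + 2), by omega⟩
      exact fun y => q_van k K hC hex j m ha y
    rw [← hy, h8 y, Ext.comp_zero]

end CX

end BGN
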