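import Mathlib

/-!
# Project BGN (MP_112773_al, Brown-Goodearl conjecture): basic definitions

`R` is a noncommutative ring, an algebra over the field `k`.  Right `R`-modules are modules over
`Rᵐᵒᵖ`.  Ideals are `Ideal R` (left ideals) with the predicate `I.IsTwoSided`.
-/

namespace BGN

open CategoryTheory Abelian

universe u

/-- Two-sided prime ideals of a noncommutative ring. -/
structure IsPrime2 {R : Type u} [Ring R] (P : Ideal R) : Prop where
  twoSided : P.IsTwoSided
  ne_top : P ≠ ⊤
  mem_or_mem : ∀ a b : R, (∀ r : R, a * r * b ∈ P) → a ∈ P ∨ b ∈ P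

/-- `z` is normal modulo `P`: `zR + P = Rz + P`. -/
def NormalMod {R : Type u} [Ring R] (P : Ideal R) (z : R) : Prop :=
  (∀ r : R, ∃ s : R, z * r - s * z ∈ P) ∧ (∀ r : R, ∃ s : R, r * z - z * s ∈ P)

/-- `z` is a nonzero normal element modulo `P`. -/
def Nrm {R : Type u} [Ring R] (P : Ideal R) (z : R) : Prop :=
  z ∉ P ∧ NormalMod P z

/-- The ideal `I` has finite codimension over `k`. -/
def FinCodim (k : Type u) [Field k] {R : Type u} [Ring R] [Algebra k R] (I : Ideal R) : Prop :=
  Module.Finite k (R ⧸ I)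

/-- Normal separation at the prime ideals of finite codimension: if `P ≤ M` are prime ideals,
`R/P` is infinite dimensional and `R/M` is finite dimensional, then `M/P` contains a nonzero normal
element of `R/P`. -/
def NormalSep (k : Type u) [Field k] (R : Type u) [Ring R] [Algebra k R] : Prop :=
  ∀ P M : Ideal R, IsPrime2 P → IsPrime2 M → P ≤ M → ¬ FinCodim k P → FinCodim k M →
    ∃ z ∈ M, z ∉ P ∧ NormalMod P z

/-- The one dimensional module of a character `ε : A → k`. -/
noncomputable abbrev trivMod {k : Type u} [Field k] {A : Type u} [Ring A] (ε : A →+* k) :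
    ModuleCat.{u} A :=
  (ModuleCat.restrictScalars ε).obj (ModuleCat.of k k)

/-- (AS1) and (AS2) for left modules over an augmented algebra `ε : A → k`, in dimension `d`:
the injective dimension of `A` as a left module is `d`, `Ext^i_A(k, A) = 0` for `i ≠ d` and
`Ext^d_A(k, A)` is one dimensional. -/
def LeftAS (k : Type u) [Field k] (A : Type u) [Ring A] [Algebra k A] (ε : A →+* k) (d : ℕ) :
    Prop :=
  injectiveDimension (ModuleCat.of A A) = (d : WithBot ℕ∞) ∧
  (∀ i : ℕ, i ≠ d → Subsingleton (Ext (trivMod ε) (ModuleCat.of A A) i)) ∧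
  Module.finrank k (Ext (trivMod ε) (ModuleCat.of A A) d) = 1

/-- The character of `Hᵐᵒᵖ` given by the counit of `H`. -/
noncomputable def counitOp (k : Type u) [Field k] (H : Type u) [Ring H] [HopfAlgebra k H] :
    Hᵐᵒᵖ →+* k :=
  ((Bialgebra.counitAlgHom k H : H →ₐ[k] k) : H →+* k).fromOpposite fun x y =>
    mul_comm _ _

/-- Artin-Schelter Gorenstein Hopf algebras: (AS1), (AS2), (AS3) hold for some `d`. -/
def ASGorenstein (k : Type u) [Field k] (H : Type u) [Ring H] [HopfAlgebra k H] : Prop :=
  ∃ d : ℕ, LeftAS k H ((Bialgebra.counitAlgHom k H : H →ₐ[k] k) : H →+* k) d ∧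
    LeftAS k Hᵐᵒᵖ (counitOp k H) d

end BGN
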