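import Pool.Agent.BGN.Lf

/-!
# BGN Dul: duals of right modules, the locally finite part of the dual of `R`

`RD k Y` is the `k`-linear dual of a right module `Y` (a module over `Rᵐᵒᵖ`), as a left module:
`(r • f) y = f (y r)`.  `LD k R = Hom_k(R, k)` is a right module: `(f r) x = f (r x)`.
`LFin k R ⊆ LD k R` is the submodule of the `f` with `f R` finite dimensional.

PROOFS.
* `LD_ext` (`LD k R` is injective): for `ι : N' → N` injective and `g : N' → LD k R` linear over
  `Rᵐᵒᵖ`, let `θ : N → k` be a `k`-linear extension of `n' ↦ (g n') 1`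
  (`k`-structures: `Module.compHom` along `algebraMap k Rᵐᵒᵖ`;
  `LinearMap.exists_leftInverse_of_injective`); `G n := (r ↦ θ (op r • n))`.
* `mem_LFin`: `⇐`: `le_sSup`.  `⇒`: `f` in the supremum of all finite dimensional submodules lies in
  a finite sum of them (`Submodule.mem_sSup_iff_exists_finset` / directedness: the sum of two
  finite dimensional submodules is an image of their product, `FinDim.prod`,
  `FinDim.of_surjective`), and submodules of finite dimensional ones are finite dimensional.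
* `exists_fd_le`: the span of the `t j`, a finite sum.
* `exists_retraction`: `LFin k R` satisfies Baer's criterion (`Module.Baer`): `J ⊆ Rᵐᵒᵖ` an ideal,
  `g : J → LFin k R`.  Extend `g` to `G : Rᵐᵒᵖ → LD k R` (`LD_ext`), `x = G 1`, `N = span {x}`,
  `U = g(J) ⊆ N` is finitely generated (`Rᵐᵒᵖ` noetherian) and contained in `LFin`, so
  finite dimensional (`exists_fd_le`).  `lf_quot` for the ring
  `Rᵐᵒᵖ` (`NormalSep.op`): `N₀ ⊆ N`, `N₀ ∩ U = 0`, `N ⧸ N₀` finite dimensional.  `U → N ⧸ N₀` is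
  injective, so (`LD_ext`) the inclusion `U → LD k R` extends to `φ : N ⧸ N₀ → LD k R`; its image is
  finite dimensional, so contained in `LFin`.  `t = φ(x̄) ∈ LFin` and `j • t = φ(j x̄) = j x = g j`
  for `j ∈ J`.  So `a ↦ a • t` extends `g`.  By `Module.Baer.injective` `LFin k R` is injective
  and the identity of `LFin k R` extends to `LD k R` (`Module.Injective.out`).
* `finDim_RD`: the dual of a finite dimensional space (`finDim_iff` for both).
-/

namespace BGN

open CategoryTheory Abelian MulOpposite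

universe u

section Defs

variable (k : Type u) [Field k]

/-- the `k`-dual of a right module `Y`, as a left module. -/
def RD (Y : Type u) [AddCommGroup Y] [Module k Y] : Type u := Y →ₗ[k] k

noncomputable instance (Y : Type u) [AddCommGroup Y] [Module k Y] : AddCommGroup (RD k Y) :=
  inferInstanceAs (AddCommGroup (Y →ₗ[k] k))

noncomputable instance (Y : Type u) [AddCommGroup Y] [Module k Y] : Module k (RD k Y) :=
  inferInstanceAs (Module k (Y →ₗ[k] k))

/-- The pairing. -/
def RD.ev {k : Type u} [Field k] {Y : Type u} [AddCommGroup Y] [Module k Y] (f : RD k Y) :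
    Y →ₗ[k] k := f

variable {k}

/-- Right multiplication by `r` as a `k`-linear map. -/
def rmulMap {R : Type u} [Ring R] [Algebra k R] {Y : Type u} [AddCommGroup Y] [Module k Y]
    [Module Rᵐᵒᵖ Y] [IsScalarTower k Rᵐᵒᵖ Y] (r : R) : Y →ₗ[k] Y where
  toFun y := op r • y
  map_add' := smul_add _
  map_smul' c y := smul_algebra_smul_comm c (op r) y

noncomputable instance rdModule {R : Type u} [Ring R] [Algebra k R] (Y : Type u)
    [AddCommGroup Y] [Module k Y] [Module Rᵐᵒᵖ Y] [IsScalarTower k Rᵐᵒᵖ Y] :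
    Module R (RD k Y) where
  smul r f := (f.ev ∘ₗ rmulMap r : Y →ₗ[k] k)
  one_smul f := LinearMap.ext fun y => by
    show f.ev (op (1 : R) • y) = f.ev y
    simp
  mul_smul r s f := LinearMap.ext fun y => by
    show f.ev (op (r * s) • y) = f.ev (op s • op r • y)
    rw [op_mul, mul_smul]
  smul_zero r := LinearMap.ext fun y => rfl
  smul_add r f g := LinearMap.ext fun y => rfl
  add_smul r s f := LinearMap.ext fun y => by
    show f.ev (op (r + s) • y) = f.ev (op r • y) + f.ev (op s • y)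
    rw [MulOpposite.op_add, add_smul, map_add]
  zero_smul f := LinearMap.ext fun y => by
    show f.ev (op (0 : R) • y) = 0
    simp

@[simp] theorem RD.smul_ev {R : Type u} [Ring R] [Algebra k R] {Y : Type u}
    [AddCommGroup Y] [Module k Y] [Module Rᵐᵒᵖ Y] [IsScalarTower k Rᵐᵒᵖ Y] (r : R) (f : RD k Y)
    (y : Y) : (r • f).ev y = f.ev (op r • y) := rfl

instance {R : Type u} [Ring R] [Algebra k R] (Y : Type u)
    [AddCommGroup Y] [Module k Y] [Module Rᵐᵒᵖ Y] [IsScalarTower k Rᵐᵒᵖ Y] :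
    IsScalarTower k R (RD k Y) where
  smul_assoc c r f := LinearMap.ext fun y => by
    show f.ev (op (c • r) • y) = c • f.ev (op r • y)
    rw [op_smul, smul_assoc, map_smul]

/-- Functoriality: precomposition. -/
noncomputable def RD.map {R : Type u} [Ring R] [Algebra k R] {Y Y' : Type u}
    [AddCommGroup Y] [Module k Y] [Module Rᵐᵒᵖ Y] [IsScalarTower k Rᵐᵒᵖ Y]
    [AddCommGroup Y'] [Module k Y'] [Module Rᵐᵒᵖ Y'] [IsScalarTower k Rᵐᵒᵖ Y']
    (g : Y' →ₗ[Rᵐᵒᵖ] Y) : RD k Y →ₗ[R] RD k Y' where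
  toFun f := (f.ev ∘ₗ g.restrictScalars k : Y' →ₗ[k] k)
  map_add' f f' := rfl
  map_smul' r f := LinearMap.ext fun y => by
    show f.ev (op r • g y) = f.ev (g (op r • y))
    rw [g.map_smul]

variable (k) (R : Type u) [Ring R] [Algebra k R]

/-- The dual of the algebra `R`, as a right module: `(f r) x = f (r x)`. -/
def LD : Type u := R →ₗ[k] k

noncomputable instance : AddCommGroup (LD k R) := inferInstanceAs (AddCommGroup (R →ₗ[k] k))

noncomputable instance : Module k (LD k R) := inferInstanceAs (Module k (R →ₗ[k] k))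

variable {k R}

/-- Evaluation. -/
def LD.ev (f : LD k R) : R →ₗ[k] k := f

noncomputable instance ldModule : Module Rᵐᵒᵖ (LD k R) where
  smul r f := (f.ev ∘ₗ LinearMap.mulLeft k (unop r) : R →ₗ[k] k)
  one_smul f := LinearMap.ext fun x => by
    show f.ev (unop (1 : Rᵐᵒᵖ) * x) = f.ev x
    simp
  mul_smul r s f := LinearMap.ext fun x => by
    show f.ev (unop (r * s) * x) = f.ev (unop s * (unop r * x))
    rw [unop_mul, mul_assoc]
  smul_zero r := LinearMap.ext fun y => rfl
  smul_add r f g := LinearMap.ext fun y => rfl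
  add_smul r s f := LinearMap.ext fun x => by
    show f.ev (unop (r + s) * x) = f.ev (unop r * x) + f.ev (unop s * x)
    rw [MulOpposite.unop_add, add_mul, map_add]
  zero_smul f := LinearMap.ext fun x => by
    show f.ev (unop (0 : Rᵐᵒᵖ) * x) = 0
    simp

@[simp] theorem LD.smul_ev (r : Rᵐᵒᵖ) (f : LD k R) (x : R) :
    (r • f).ev x = f.ev (unop r * x) := rfl

instance : IsScalarTower k Rᵐᵒᵖ (LD k R) where
  smul_assoc c r f := LinearMap.ext fun x => by
    show f.ev (unop (c • r) * x) = c • f.ev (unop r * x)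
    rw [unop_smul, smul_mul_assoc, map_smul]

variable (k R)

/-- The locally finite part of the dual of `R`: the sum of all finite dimensional submodules. -/
noncomputable def LFin : Submodule Rᵐᵒᵖ (LD k R) :=
  sSup {U : Submodule Rᵐᵒᵖ (LD k R) | FinDim k Rᵐᵒᵖ U}

/-- The canonical map to the double dual. -/
noncomputable def toBidual : R →ₗ[R] RD k (LD k R) where
  toFun r := ({ toFun := fun f => f.ev r, map_add' := fun _ _ => rfl,
                map_smul' := fun _ _ => rfl } : LD k R →ₗ[k] k)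
  map_add' _ _ := LinearMap.ext fun f => f.ev.map_add _ _
  map_smul' _ _ := LinearMap.ext fun _ => rfl

end Defs

variable {k : Type u} [Field k] {R : Type u} [Ring R] [Algebra k R]

@[simp] theorem RD.map_ev {Y Y' : Type u}
    [AddCommGroup Y] [Module k Y] [Module Rᵐᵒᵖ Y] [IsScalarTower k Rᵐᵒᵖ Y]
    [AddCommGroup Y'] [Module k Y'] [Module Rᵐᵒᵖ Y'] [IsScalarTower k Rᵐᵒᵖ Y']
    (g : Y' →ₗ[Rᵐᵒᵖ] Y) (f : RD k Y) (y : Y') : (RD.map g f).ev y = f.ev (g y) := rfl

@[simp] theorem toBidual_ev (r : R) (f : LD k R) : (toBidual k R r).ev f = f.ev r := rfl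

private theorem finDim_sup {S : Type u} [Ring S] [Algebra k S] {M : Type u} [AddCommGroup M]
    [Module S M] {U U' : Submodule S M} (h : FinDim k S U) (h' : FinDim k S U') :
    FinDim k S (U ⊔ U' : Submodule S M) := by
  let f : (U × U') →ₗ[S] (U ⊔ U' : Submodule S M) :=
    LinearMap.coprod (Submodule.inclusion le_sup_left) (Submodule.inclusion le_sup_right)
  refine FinDim.of_surjective (h.prod h') f ?_
  rintro ⟨x, hx⟩
  obtain ⟨a, ha, b, hb, rfl⟩ := Submodule.mem_sup.1 hx
  exact ⟨(⟨a, ha⟩, ⟨b, hb⟩), Subtype.ext rfl⟩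

private theorem finDim_le {S : Type u} [Ring S] [Algebra k S] {M : Type u} [AddCommGroup M]
    [Module S M] {U U' : Submodule S M} (h : FinDim k S U') (hle : U ≤ U') :
    FinDim k S U :=
  FinDim.of_injective h (Submodule.inclusion hle) (Submodule.inclusion_injective hle)

private theorem finDim_bot {S : Type u} [Ring S] [Algebra k S] {M : Type u} [AddCommGroup M]
    [Module S M] : FinDim k S (⊥ : Submodule S M) := by
  refine ⟨∅, fun v => ⟨fun _ => 0, ?_⟩⟩
  rw [Finset.sum_empty]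
  exact Subsingleton.elim _ _

private theorem dir_fd :
    DirectedOn (· ≤ ·) {U : Submodule Rᵐᵒᵖ (LD k R) | FinDim k Rᵐᵒᵖ U} := by
  intro U hU U' hU'
  exact ⟨U ⊔ U', finDim_sup hU hU', le_sup_left, le_sup_right⟩

private theorem fg_le {N : Submodule Rᵐᵒᵖ (LD k R)} (hN : N.FG) (hle : N ≤ LFin k R) :
    ∃ U : Submodule Rᵐᵒᵖ (LD k R), FinDim k Rᵐᵒᵖ U ∧ N ≤ U := by
  have hc := (Submodule.fg_iff_compact N).1 hN
  obtain ⟨U, hU, h⟩ := (CompleteLattice.isCompactElement_iff_le_of_directed_sSup_le _ _).1 hc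
    {U : Submodule Rᵐᵒᵖ (LD k R) | FinDim k Rᵐᵒᵖ U} ⟨⊥, finDim_bot⟩ dir_fd hle
  exact ⟨U, hU, h⟩

theorem LD_ext {N N' : Type u} [AddCommGroup N'] [Module Rᵐᵒᵖ N'] [AddCommGroup N]
    [Module Rᵐᵒᵖ N] (ι : N' →ₗ[Rᵐᵒᵖ] N) (hι : Function.Injective ι) (g : N' →ₗ[Rᵐᵒᵖ] LD k R) :
    ∃ G : N →ₗ[Rᵐᵒᵖ] LD k R, ∀ n', G (ι n') = g n' := by
  let : Module k N := Module.restrictScalars k Rᵐᵒᵖ N
  let : Module k N' := Module.restrictScalars k Rᵐᵒᵖ N'
  have : IsScalarTower k Rᵐᵒᵖ N := IsScalarTower.restrictScalars k Rᵐᵒᵖ N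
  have : IsScalarTower k Rᵐᵒᵖ N' := IsScalarTower.restrictScalars k Rᵐᵒᵖ N'
  obtain ⟨p, hp⟩ := LinearMap.exists_leftInverse_of_injective (ι.restrictScalars k)
    (LinearMap.ker_eq_bot.2 hι)
  let θ' : N' →ₗ[k] k :=
    { toFun := fun n => (g n).ev 1
      map_add' := fun a b => by
        rw [map_add]; rfl
      map_smul' := fun c a => by
        have e : g (c • a) = c • g a := (g.restrictScalars k).map_smul c a
        rw [e]; rfl }
  let θ : N →ₗ[k] k := θ' ∘ₗ p
  have hθ : ∀ n', θ (ι n') = (g n').ev 1 := by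
    intro n'
    have := LinearMap.congr_fun hp n'
    change θ' (p (ι n')) = _
    have e : p (ι n') = n' := this
    rw [e]
    rfl
  let G0 : N → LD k R := fun n =>
    ({ toFun := fun r => θ (op r • n)
       map_add' := fun a b => by rw [MulOpposite.op_add, add_smul, map_add]
       map_smul' := fun c a => by rw [MulOpposite.op_smul, smul_assoc, map_smul]; rfl } :
       R →ₗ[k] k)
  let G : N →ₗ[Rᵐᵒᵖ] LD k R :=
    { toFun := G0
      map_add' := fun a b => LinearMap.ext fun x => by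
        change θ (op x • (a + b)) = θ (op x • a) + θ (op x • b)
        rw [smul_add, map_add]
      map_smul' := fun s a => LinearMap.ext fun x => by
        change θ (op x • s • a) = θ (op (unop s * x) • a)
        rw [smul_smul, MulOpposite.op_mul, MulOpposite.op_unop] }
  refine ⟨G, fun n' => LinearMap.ext fun x => ?_⟩
  change θ (op x • ι n') = (g n').ev x
  rw [← map_smul, hθ, map_smul, LD.smul_ev, MulOpposite.unop_op, mul_one]

theorem mem_LFin {f : LD k R} : f ∈ LFin k R ↔ FinDim k Rᵐᵒᵖ (Submodule.span Rᵐᵒᵖ {f}) := by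
  constructor
  · intro hf
    have hle : Submodule.span Rᵐᵒᵖ {f} ≤ LFin k R :=
      Submodule.span_le.2 (Set.singleton_subset_iff.2 hf)
    obtain ⟨U, hU, h⟩ := fg_le (Submodule.fg_span_singleton f) hle
    exact finDim_le hU h
  · intro hf
    exact (le_sSup (a := Submodule.span Rᵐᵒᵖ {f}) hf : _ ≤ LFin k R)
      (Submodule.mem_span_singleton_self f)

theorem exists_fd_le {m : ℕ} (t : Fin m → LFin k R) :
    ∃ U : Submodule Rᵐᵒᵖ (LD k R), FinDim k Rᵐᵒᵖ U ∧ U ≤ LFin k R ∧
      ∀ j, (t j : LD k R) ∈ U := by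
  have hle : Submodule.span Rᵐᵒᵖ (Set.range (fun j => (t j : LD k R))) ≤ LFin k R := by
    rw [Submodule.span_le]
    rintro _ ⟨j, rfl⟩
    exact (t j).2
  obtain ⟨U, hU, h⟩ := fg_le (Submodule.fg_span (Set.finite_range _)) hle
  exact ⟨U, hU, le_sSup hU, fun j => h (Submodule.subset_span ⟨j, rfl⟩)⟩

theorem exists_retraction [IsNoetherianRing Rᵐᵒᵖ] (h : NormalSep k R) :
    ∃ ρ : LD k R →ₗ[Rᵐᵒᵖ] LFin k R, ∀ t : LFin k R, ρ t = t := by
  have hop : NormalSep k Rᵐᵒᵖ := h.op
  have hB : Module.Baer Rᵐᵒᵖ (LFin k R) := by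
    intro J g
    obtain ⟨G, hG⟩ := LD_ext (k := k) (R := R) J.subtype Subtype.val_injective
      ((LFin k R).subtype ∘ₗ g)
    let x : LD k R := G 1
    have hGx : ∀ a : Rᵐᵒᵖ, G a = a • x := by
      intro a
      change G a = a • G 1
      rw [← map_smul, smul_eq_mul, mul_one]
    let N : Submodule Rᵐᵒᵖ (LD k R) := Submodule.span Rᵐᵒᵖ {x}
    have hNf : Module.Finite Rᵐᵒᵖ N := Module.Finite.iff_fg.2 (Submodule.fg_span_singleton x)
    have hgN : ∀ j : J, ((g j : LFin k R) : LD k R) ∈ N := by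
      intro j
      have := hG j
      change G (j : Rᵐᵒᵖ) = (g j : LD k R) at this
      rw [← this, hGx]
      exact Submodule.smul_mem _ _ (Submodule.mem_span_singleton_self x)
    let gN : J →ₗ[Rᵐᵒᵖ] N := LinearMap.codRestrict N ((LFin k R).subtype ∘ₗ g) hgN
    let U : Submodule Rᵐᵒᵖ N := LinearMap.range gN
    have hUfg : (LinearMap.range ((LFin k R).subtype ∘ₗ g)).FG := by
      rw [LinearMap.range_eq_map]
      exact Submodule.FG.map _ (IsNoetherian.noetherian _)
    have hUle : LinearMap.range ((LFin k R).subtype ∘ₗ g) ≤ LFin k R := by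
      rintro _ ⟨j, rfl⟩
      exact (g j).2
    obtain ⟨U1, hU1, hle1⟩ := fg_le hUfg hUle
    have hU : FinDim k Rᵐᵒᵖ U := by
      let e : U →ₗ[Rᵐᵒᵖ] U1 := LinearMap.codRestrict U1 (N.subtype ∘ₗ U.subtype) (by
        rintro ⟨_, ⟨j, rfl⟩⟩
        exact hle1 ⟨j, rfl⟩)
      refine FinDim.of_injective hU1 e ?_
      intro a b hab
      apply Subtype.ext
      apply Subtype.ext
      exact congrArg (fun z : U1 => (z : LD k R)) hab
    obtain ⟨N₀, hN₀, hfd⟩ := lf_quot hop U hU
    let f0 : U →ₗ[Rᵐᵒᵖ] (N ⧸ N₀) :=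
      { toFun := fun u => N₀.mkQ u.1
        map_add' := fun a b => map_add N₀.mkQ a.1 b.1
        map_smul' := fun c a => map_smul N₀.mkQ c a.1 }
    let f1 : U →ₗ[Rᵐᵒᵖ] LD k R :=
      { toFun := fun u => u.1.1
        map_add' := fun _ _ => rfl
        map_smul' := fun _ _ => rfl }
    have hinj : Function.Injective f0 := by
      intro a b hab
      have hab' : N₀.mkQ a.1 = N₀.mkQ b.1 := hab
      have h1 : a.1 - b.1 ∈ N₀ := by
        have : N₀.mkQ (a.1 - b.1) = 0 := by rw [map_sub, hab', sub_self]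
        rwa [Submodule.mkQ_apply, Submodule.Quotient.mk_eq_zero] at this
      have h2 : a.1 - b.1 ∈ N₀ ⊓ U := ⟨h1, U.sub_mem a.2 b.2⟩
      rw [hN₀] at h2
      exact Subtype.ext (sub_eq_zero.1 ((Submodule.mem_bot _).1 h2))
    obtain ⟨φ, hφ⟩ := LD_ext (k := k) (R := R) (N' := U) (N := N ⧸ N₀) f0 hinj f1
    have himg : FinDim k Rᵐᵒᵖ (LinearMap.range φ) :=
      FinDim.of_surjective hfd φ.rangeRestrict φ.surjective_rangeRestrict
    have hrl : LinearMap.range φ ≤ LFin k R := le_sSup himg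
    let x0 : N := ⟨x, Submodule.mem_span_singleton_self x⟩
    let t : LFin k R := ⟨φ (N₀.mkQ x0), hrl ⟨_, rfl⟩⟩
    refine ⟨LinearMap.toSpanSingleton Rᵐᵒᵖ (LFin k R) t, ?_⟩
    intro a ha
    apply Subtype.ext
    change a • φ (N₀.mkQ x0) = ((g ⟨a, ha⟩ : LFin k R) : LD k R)
    rw [← map_smul, ← map_smul]
    have e1 : a • x0 = (⟨gN ⟨a, ha⟩, ⟨⟨a, ha⟩, rfl⟩⟩ : U).1 := by
      apply Subtype.ext
      change a • x = ((g ⟨a, ha⟩ : LFin k R) : LD k R)
      rw [← hGx]
      exact hG ⟨a, ha⟩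
    rw [e1]
    exact hφ ⟨gN ⟨a, ha⟩, ⟨⟨a, ha⟩, rfl⟩⟩
  have hI : Module.Injective Rᵐᵒᵖ (LFin k R) := hB.injective
  exact hI.out (LFin k R).subtype Subtype.val_injective LinearMap.id

theorem finDim_RD (Y : Type u) [AddCommGroup Y] [Module k Y] [Module Rᵐᵒᵖ Y]
    [IsScalarTower k Rᵐᵒᵖ Y] (hY : FinDim k Rᵐᵒᵖ Y) : FinDim k R (RD k Y) := by
  have : Module.Finite k Y := finDim_iff.1 hY
  have h2 : Module.Finite k (RD k Y) := inferInstanceAs (Module.Finite k (Y →ₗ[k] k))
  exact finDim_iff.2 h2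

end BGN
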