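import Pool.Agent.BGN.Dul
import Pool.Agent.BGN.Cls

/-!
# BGN DulE: duality for `Ext` with coefficients in a dual

Everything is done with cocycles for a resolution `F` of `M` (`FRes.exists`) and the class maps
`F.cls` (`cls_surj`, `cls_succ_iff`, `cls_comp`).  Notation: `w ∈ W^{n i}` is a cocycle if
`act (F.D i) w = 0`.  For `φ ∈ (RD k Y)^{n i}` let `φ(t) = ∑ l, (φ l).ev (t l)`, `t ∈ Y^{n i}`.
Key formula: `(act D ψ)(t) = ψ(ract t D)` (`act_pairing`).
`coboundary_criterion`: a `φ ∈ (RD k Y)^{n (i+1)}` is of the form `act (F.D i) ψ` iff `φ(t) = 0` for all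
`t ∈ Y^{n (i+1)}` with `ract t (F.D i) = 0`.  (`⇐`: the functional `t ↦ φ(t)` factors through
`t ↦ ract t (F.D i)`; extend to a functional `ψ` on `Y^{n i}`: a linear functional vanishing on
the kernel of a linear map `g` is of the form `ψ ∘ g`,
`LinearMap.exists_extend`/`LinearMap.range_dualMap_eq_dualAnnihilator_ker`; split `ψ` into
coordinates.)
`coboundary_criterion'`: for `w ∈ R^{n (i+1)}` the same with functionals `t ∈ (LD k R)^{n (i+1)}`,
`t(w) = ∑ (t l).ev (w l)`: `w = act (F.D i) u` for some `u ∈ R^{n i}` iff `t(w) = 0` for all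
`t` with `ract t (F.D i) = 0` (`(ract t D)(u) = t(act D u)`; a subspace of a vector space is the
intersection of the kernels of the functionals vanishing on it).

PROOFS.
* `ext_RD_zero`: let `x = cls φ`, `act (D (i+1)) φ = 0`, i.e. `φ(ract s (D (i+1))) = 0` for all
  `s ∈ T^{n (i+2)}`, `T = LFin k R`.  By the criterion we have to show `φ(t) = 0` for
  `t ∈ T^{n (i+1)}` with `ract t (D i) = 0`.  As a functional on `R^{n (i+1)}`, `t` vanishes on
  the image of `act (D i)`, which is the kernel of `act (D (i+1))` by hypothesis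
  (`Ext^{i+1}(M, R) = 0`).  So there is `s ∈ (LD k R)^{n (i+2)}` with `t = ract s (D (i+1))`.  With
  the retraction `ρ` (`exists_retraction`): `t = ρ(t) = ract (ρ s) (D (i+1))`, so `φ(t) = 0`.
* `ext_RD_eq_zero_of_fd`: `x = cls φ`; `t ∈ T^{n (i+1)}`, `ract t (D i) = 0`; `exists_fd_le` gives
  `U` with `t ∈ U^{n (i+1)}`.  By hypothesis `φ` restricted to `U` is a coboundary, so
  `φ(t) = 0`.
* `ext_bidual_inj`: `x = cls w`, `w ∈ R^{n (i+1)}`.  `toBidual w = act (D i) ψ` with
  `ψ ∈ (RD k (LD k R))^{n i}`.  For `t ∈ (LD k R)^{n (i+1)}` with `ract t (D i) = 0`: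
  `t(w) = (toBidual w)(t) = ψ(ract t (D i)) = 0`, so `w` is a coboundary (criterion').
-/

namespace BGN

open CategoryTheory Abelian MulOpposite

universe u

variable {k : Type u} [Field k] {R : Type u} [Ring R] [Algebra k R]

/-- `t ↦ ract t D` as a `k`-linear map. -/
def ractMap {Y : Type u} [AddCommGroup Y] [Module k Y] [Module Rᵐᵒᵖ Y]
    [IsScalarTower k Rᵐᵒᵖ Y] {m n : ℕ} (D : Matrix (Fin m) (Fin n) R) :
    (Fin m → Y) →ₗ[k] (Fin n → Y) where
  toFun t := ract t D
  map_add' t t' := ract_add D t t'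
  map_smul' c t := by
    funext l
    simp only [ract, Pi.smul_apply, RingHom.id_apply, Finset.smul_sum]
    exact Finset.sum_congr rfl fun j _ => smul_algebra_smul_comm c (op (D j l)) (t j)

/-- `u ↦ act D u` as a `k`-linear map on row vectors over `R`. -/
def actMap {m n : ℕ} (D : Matrix (Fin m) (Fin n) R) : (Fin n → R) →ₗ[k] (Fin m → R) where
  toFun u := act D u
  map_add' u u' := act_add D u u'
  map_smul' c u := by
    funext j
    simp only [act, Pi.smul_apply, RingHom.id_apply, Finset.smul_sum, smul_eq_mul, mul_smul_comm]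

theorem RD_ext {Y : Type u} [AddCommGroup Y] [Module k Y] {f g : RD k Y}
    (h : ∀ y, f.ev y = g.ev y) : f = g := LinearMap.ext h

theorem LD_ext' {f g : LD k R} (h : ∀ x, f.ev x = g.ev x) : f = g := LinearMap.ext h

theorem RD_sum_ev {Y : Type u} [AddCommGroup Y] [Module k Y] {ι : Type*} (s : Finset ι)
    (f : ι → RD k Y) (y : Y) : (∑ i ∈ s, f i).ev y = ∑ i ∈ s, (f i).ev y :=
  LinearMap.sum_apply (M := Y) (M₂ := k) s f y

theorem LD_sum_ev {ι : Type*} (s : Finset ι)
    (f : ι → LD k R) (y : R) : (∑ i ∈ s, f i).ev y = ∑ i ∈ s, (f i).ev y :=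
  LinearMap.sum_apply (M := R) (M₂ := k) s f y

theorem act_pairing {Y : Type u} [AddCommGroup Y] [Module k Y] [Module Rᵐᵒᵖ Y]
    [IsScalarTower k Rᵐᵒᵖ Y] {m n : ℕ} (D : Matrix (Fin m) (Fin n) R) (ψ : Fin n → RD k Y)
    (t : Fin m → Y) : ∑ j, (act D ψ j).ev (t j) = ∑ l, (ψ l).ev (ract t D l) := by
  simp only [act, ract, RD_sum_ev, map_sum, RD.smul_ev]
  exact Finset.sum_comm

theorem ract_pairing {m n : ℕ} (D : Matrix (Fin m) (Fin n) R) (t : Fin m → LD k R)
    (u : Fin n → R) : ∑ l, (ract t D l).ev (u l) = ∑ j, (t j).ev (act D u j) := by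
  simp only [act, ract, LD_sum_ev, map_sum, LD.smul_ev, unop_op, smul_eq_mul]
  exact Finset.sum_comm

/-- A functional vanishing on the kernel of `g` factors through `g`. -/
theorem factor_ker {A B : Type u} [AddCommGroup A] [Module k A] [AddCommGroup B] [Module k B]
    (g : A →ₗ[k] B) (f : A →ₗ[k] k) (h : ∀ a, g a = 0 → f a = 0) :
    ∃ F : B →ₗ[k] k, ∀ a, F (g a) = f a := by
  have h1 : f ∈ LinearMap.range g.dualMap := by
    rw [LinearMap.range_dualMap_eq_dualAnnihilator_ker, Submodule.mem_dualAnnihilator]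
    intro a ha
    exact h a (LinearMap.mem_ker.1 ha)
  obtain ⟨F, hF⟩ := h1
  exact ⟨F, fun a => by rw [← hF]; rfl⟩

/-- Splitting a functional into coordinates. -/
theorem sum_coord {A : Type u} [AddCommGroup A] [Module k A] {n : ℕ} (F : (Fin n → A) →ₗ[k] k)
    (a : Fin n → A) : F a = ∑ l, F (Pi.single l (a l)) := by
  classical
  have h : a = ∑ l, Pi.single l (a l) := by
    rw [Finset.univ_sum_single]
  conv_lhs => rw [h]
  rw [map_sum]

theorem coboundary_criterion {Y : Type u} [AddCommGroup Y] [Module k Y] [Module Rᵐᵒᵖ Y]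
    [IsScalarTower k Rᵐᵒᵖ Y] {m n : ℕ} (D : Matrix (Fin m) (Fin n) R) (φ : Fin m → RD k Y)
    (h : ∀ t : Fin m → Y, ract t D = 0 → ∑ j, (φ j).ev (t j) = 0) :
    ∃ ψ : Fin n → RD k Y, act D ψ = φ := by
  classical
  obtain ⟨F, hF⟩ := factor_ker (ractMap (k := k) (Y := Y) D)
    (∑ j, (φ j).ev ∘ₗ LinearMap.proj j) (fun t ht => by
      simpa using h t ht)
  refine ⟨fun l => (F ∘ₗ LinearMap.single k (fun _ => Y) l : Y →ₗ[k] k), ?_⟩
  funext j
  refine RD_ext fun y => ?_
  have h1 := act_pairing D (fun l => ((F ∘ₗ LinearMap.single k (fun _ => Y) l : Y →ₗ[k] k) : RD k Y))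
    (Pi.single j y)
  have h2 := hF (Pi.single j y)
  rw [Finset.sum_eq_single j] at h1
  · rw [Pi.single_eq_same] at h1
    rw [h1]
    have h3 : F (ractMap (k := k) D (Pi.single j y)) = ∑ l, F (Pi.single l (ract (Pi.single j y) D l)) :=
      sum_coord F _
    have h4 : (∑ j, (φ j).ev ∘ₗ LinearMap.proj j : (Fin m → Y) →ₗ[k] k) (Pi.single j y)
        = (φ j).ev y := by
      rw [LinearMap.sum_apply, Finset.sum_eq_single j]
      · simp
      · intro b _ hb
        simp [hb]
      · simp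
    rw [← h4, ← h2, h3]
    rfl
  · intro b _ hb
    rw [Pi.single_eq_of_ne hb, map_zero]
  · simp

/-- A functional on `R^m` which vanishes on the kernel of `act D` is of the form `ract s D`. -/
theorem ract_criterion {m n : ℕ} (D : Matrix (Fin m) (Fin n) R) (t : Fin n → LD k R)
    (h : ∀ w : Fin n → R, act D w = 0 → ∑ j, (t j).ev (w j) = 0) :
    ∃ s : Fin m → LD k R, ract s D = t := by
  classical
  obtain ⟨F, hF⟩ := factor_ker (actMap (k := k) D)
    (∑ j, (t j).ev ∘ₗ LinearMap.proj j) (fun w hw => by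
      simpa using h w hw)
  refine ⟨fun l => (F ∘ₗ LinearMap.single k (fun _ => R) l : R →ₗ[k] k), ?_⟩
  funext l
  refine LD_ext' fun x => ?_
  have h1 := ract_pairing D (fun l => ((F ∘ₗ LinearMap.single k (fun _ => R) l : R →ₗ[k] k) : LD k R))
    (Pi.single l x)
  have h2 := hF (Pi.single l x)
  rw [Finset.sum_eq_single l] at h1
  · rw [Pi.single_eq_same] at h1
    rw [h1]
    have h3 : F (actMap (k := k) D (Pi.single l x)) = ∑ j, F (Pi.single j (act D (Pi.single l x) j)) :=
      sum_coord F _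
    have h4 : (∑ j, (t j).ev ∘ₗ LinearMap.proj j : (Fin n → R) →ₗ[k] k) (Pi.single l x)
        = (t l).ev x := by
      rw [LinearMap.sum_apply, Finset.sum_eq_single l]
      · simp
      · intro b _ hb
        simp [hb]
      · simp
    rw [← h4, ← h2, h3]
    rfl
  · intro b _ hb
    rw [Pi.single_eq_of_ne hb, map_zero]
  · simp

theorem coboundary_criterion' {m n : ℕ} (D : Matrix (Fin m) (Fin n) R) (w : Fin m → R)
    (h : ∀ t : Fin m → LD k R, ract t D = 0 → ∑ j, (t j).ev (w j) = 0) :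
    ∃ u : Fin n → R, act D u = w := by
  classical
  by_contra hw
  have hw' : w ∉ LinearMap.range (actMap (k := k) D) := by
    rintro ⟨u, hu⟩
    exact hw ⟨u, hu⟩
  obtain ⟨F, hF, hF'⟩ := Submodule.exists_le_ker_of_notMem hw'
  have h1 := h (fun l => (F ∘ₗ LinearMap.single k (fun _ => R) l : R →ₗ[k] k)) (by
    funext l
    refine LD_ext' fun x => ?_
    have h1 := ract_pairing D (fun l => ((F ∘ₗ LinearMap.single k (fun _ => R) l : R →ₗ[k] k) : LD k R))
      (Pi.single l x)
    rw [Finset.sum_eq_single l] at h1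
    · rw [Pi.single_eq_same] at h1
      rw [h1]
      have h3 : F (actMap (k := k) D (Pi.single l x)) = ∑ j, F (Pi.single j (act D (Pi.single l x) j)) :=
        sum_coord F _
      have h4 : F (actMap (k := k) D (Pi.single l x)) = 0 := hF' ⟨_, rfl⟩
      rw [h3] at h4
      exact h4
    · intro b _ hb
      rw [Pi.single_eq_of_ne hb, map_zero]
    · simp)
  refine hF ?_
  rw [sum_coord F w]
  exact h1

theorem ext_RD_zero [IsNoetherianRing R] [IsNoetherianRing Rᵐᵒᵖ] (h : NormalSep k R)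
    (M : ModuleCat.{u} R) [Module.Finite R M] (i : ℕ)
    (hM : ∀ x : Ext M (ModuleCat.of R R) (i + 1), x = 0) :
    ∀ x : Ext M (ModuleCat.of R (RD k (LFin k R))) (i + 1), x = 0 := by
  intro x
  obtain ⟨F⟩ := FRes.exists (R := R) (V := M)
  obtain ⟨φ, hφ, rfl⟩ := F.cls_surj _ _ x
  rw [F.cls_succ_iff _ _ _ hφ]
  refine coboundary_criterion (k := k) (Y := LFin k R) (F.D i) φ fun t ht => ?_
  have ht' : ract (fun j => (t j : LD k R)) (F.D i) = 0 := by
    have h1 := ract_map (LFin k R).subtype (F.D i) t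
    rw [ht] at h1
    exact h1
  obtain ⟨s, hs⟩ := ract_criterion (k := k) (F.D (i + 1)) (fun j => (t j : LD k R)) (fun w hw => by
    obtain ⟨u, rfl⟩ := (F.cls_succ_iff (ModuleCat.of R R) i w hw).1 (hM _)
    rw [← ract_pairing, ht']
    exact Finset.sum_eq_zero fun l _ => rfl)
  obtain ⟨ρ, hρ⟩ := exists_retraction (k := k) (R := R) h
  have h2 : ract (fun j => ρ (s j)) (F.D (i + 1)) = t := by
    rw [ract_map, hs]
    funext l
    exact hρ (t l)
  rw [← h2, ← act_pairing, hφ]
  exact Finset.sum_eq_zero fun l _ => rfl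

theorem ext_RD_eq_zero_of_fd [IsNoetherianRing R] (M : ModuleCat.{u} R) [Module.Finite R M]
    (i : ℕ) (x : Ext M (ModuleCat.of R (RD k (LFin k R))) (i + 1))
    (hx : ∀ (U : Submodule Rᵐᵒᵖ (LD k R)) (hU : U ≤ LFin k R), FinDim k Rᵐᵒᵖ U →
      x.comp (Ext.mk₀ (ModuleCat.ofHom (RD.map (k := k) (R := R) (Submodule.inclusion hU))))
        (add_zero (i + 1)) = 0) : x = 0 := by
  obtain ⟨F⟩ := FRes.exists (R := R) (V := M)
  obtain ⟨φ, hφ, rfl⟩ := F.cls_surj _ _ x
  rw [F.cls_succ_iff _ _ _ hφ]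
  refine coboundary_criterion (k := k) (Y := LFin k R) (F.D i) φ fun t ht => ?_
  obtain ⟨U, hU, hUL, htU⟩ := exists_fd_le t
  have h1 := hx U hUL hU
  rw [F.cls_comp _ _ _ hφ, F.cls_succ_iff] at h1
  · obtain ⟨ψ, hψ⟩ := h1
    have h3 : ract (fun j => (⟨(t j : LD k R), htU j⟩ : U)) (F.D i) = 0 := by
      funext l
      refine Submodule.inclusion_injective hUL ?_
      have h4 := congrFun (ract_map (Submodule.inclusion hUL) (F.D i)
        (fun j => (⟨(t j : LD k R), htU j⟩ : U))) l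
      rw [← h4]
      have h5 := congrFun ht l
      refine Eq.trans ?_ (h5.trans (map_zero _).symm)
      rfl
    have h4 := act_pairing (k := k) (F.D i) ψ (fun j => (⟨(t j : LD k R), htU j⟩ : U))
    rw [h3] at h4
    have h5 : ∑ l, (ψ l).ev ((0 : Fin (F.n i) → U) l) = 0 :=
      Finset.sum_eq_zero fun l _ => map_zero _
    rw [h5] at h4
    rw [← h4, hψ]
    rfl
  · have h2 := act_map (RD.map (k := k) (R := R) (Submodule.inclusion hUL)) (F.D (i + 1)) φ
    rw [hφ] at h2
    refine h2.trans ?_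
    funext j
    exact map_zero _

theorem ext_bidual_inj [IsNoetherianRing R] (M : ModuleCat.{u} R) [Module.Finite R M]
    (i : ℕ) (x : Ext M (ModuleCat.of R R) (i + 1))
    (hx : x.comp (Ext.mk₀ (ModuleCat.ofHom (toBidual k R))) (add_zero (i + 1)) = 0) : x = 0 := by
  obtain ⟨F⟩ := FRes.exists (R := R) (V := M)
  obtain ⟨w, hw, rfl⟩ := F.cls_surj _ _ x
  rw [F.cls_succ_iff _ _ _ hw]
  rw [F.cls_comp _ _ _ hw, F.cls_succ_iff] at hx
  · obtain ⟨ψ, hψ⟩ := hx
    refine coboundary_criterion' (k := k) (F.D i) w fun t ht => ?_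
    have h4 := act_pairing (k := k) (F.D i) ψ t
    rw [ht] at h4
    have h5 : ∑ l, (ψ l).ev ((0 : Fin (F.n i) → LD k R) l) = 0 :=
      Finset.sum_eq_zero fun l _ => map_zero _
    rw [h5, hψ] at h4
    exact h4
  · have h2 := act_map (toBidual k R) (F.D (i + 1)) w
    rw [hw] at h2
    refine h2.trans ?_
    funext j
    exact map_zero _

end BGN
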