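import Pool.Agent.BGN.Defs

/-!
# BGN Fd: finite dimensional modules over a `k`-algebra `R`

`FinDim k R V` says that the `R`-module `V` is spanned over `k` (acting through
`algebraMap k R`) by a finite set.  The definition does not mention a `k`-module structure on `V`;
`finDim_iff` compares it with `Module.Finite k V`.

PROOFS.
* `finDim_iff`: `Module.Finite k V` iff there is a finite spanning set; `algebraMap k R c • v = c • v`
  by `algebraMap_smul`.
* `FinDim.of_injective`, `of_surjective`: give both modules the `k`-structure
  `Module.restrictScalars k R _` (a def, use `letI`), `IsScalarTower.restrictScalars`, then `f` is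
  `k`-linear (`f.restrictScalars k`), use `finDim_iff`.
* `FinDim.of_ext`: `Module.Finite.of_submodule_quotient` (or `Module.Finite.of_exact`...).
* `FinDim.finite`: a finite `k`-spanning set is an `R`-spanning set.
* `FinDim.of_finCodim`: `M` is generated by `m_1..m_s` over `R`, killed by the two-sided ideal `I`;
  the map `(R ⧸ I)^s → M` is `k`-linear and surjective.
* `FinDim.annihilator`: with `V` finite dimensional, `R ⧸ ann V` embeds `k`-linearly in
  `End_k V`.
* `FinDim.isNoetherian`-type facts are not needed.
-/

namespace BGN

open CategoryTheory Abelian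

universe u

/-- `V` is finite dimensional over `k`. -/
def FinDim (k : Type u) [Field k] (R : Type u) [Ring R] [Algebra k R] (V : Type u)
    [AddCommGroup V] [Module R V] : Prop :=
  ∃ s : Finset V, ∀ v : V, ∃ c : V → k, v = ∑ x ∈ s, algebraMap k R (c x) • x

variable {k : Type u} [Field k] {R : Type u} [Ring R] [Algebra k R]

theorem finDim_iff {V : Type u} [AddCommGroup V] [Module R V] [Module k V] [IsScalarTower k R V] :
    FinDim k R V ↔ Module.Finite k V := by
  classical
  constructor
  · rintro ⟨s, hs⟩
    refine ⟨⟨s, ?_⟩⟩
    rw [eq_top_iff]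
    intro v _
    obtain ⟨c, hc⟩ := hs v
    rw [hc]
    refine Submodule.sum_mem _ fun x hx => ?_
    rw [algebraMap_smul]
    exact Submodule.smul_mem _ _ (Submodule.subset_span hx)
  · rintro ⟨⟨s, hs⟩⟩
    refine ⟨s, fun v => ?_⟩
    have hv : v ∈ Submodule.span k (s : Set V) := by rw [hs]; trivial
    rw [Submodule.mem_span_finset] at hv
    obtain ⟨c, -, hc⟩ := hv
    refine ⟨c, ?_⟩
    rw [← hc]
    exact Finset.sum_congr rfl fun x _ => (algebraMap_smul R (c x) x).symm

/-- the `k`-structure of an `R`-module -/
private abbrev kMod (k : Type u) [Field k] (R : Type u) [Ring R] [Algebra k R] (V : Type u)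
    [AddCommGroup V] [Module R V] : Module k V :=
  Module.compHom V (algebraMap k R)

private theorem kTower (k : Type u) [Field k] (R : Type u) [Ring R] [Algebra k R] (V : Type u)
    [AddCommGroup V] [Module R V] : letI := kMod k R V; IsScalarTower k R V := by
  letI := kMod k R V
  refine ⟨fun a b x => ?_⟩
  have h1 : a • (b • x) = algebraMap k R a • (b • x) := rfl
  rw [h1, Algebra.smul_def, mul_smul]

theorem FinDim.of_injective {V W : Type u} [AddCommGroup V] [Module R V] [AddCommGroup W]
    [Module R W] (hW : FinDim k R W) (f : V →ₗ[R] W) (hf : Function.Injective f) :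
    FinDim k R V := by
  letI := kMod k R V
  letI := kMod k R W
  haveI := kTower k R V
  haveI := kTower k R W
  rw [finDim_iff] at hW ⊢
  exact Module.Finite.of_injective (f.restrictScalars k) hf

theorem FinDim.of_surjective {V W : Type u} [AddCommGroup V] [Module R V] [AddCommGroup W]
    [Module R W] (hV : FinDim k R V) (f : V →ₗ[R] W) (hf : Function.Surjective f) :
    FinDim k R W := by
  letI := kMod k R V
  letI := kMod k R W
  haveI := kTower k R V
  haveI := kTower k R W
  rw [finDim_iff] at hV ⊢
  exact Module.Finite.of_surjective (f.restrictScalars k) hf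

theorem FinDim.of_ext {V : Type u} [AddCommGroup V] [Module R V] (N : Submodule R V)
    (hN : FinDim k R N) (hQ : FinDim k R (V ⧸ N)) : FinDim k R V := by
  letI := kMod k R V
  haveI := kTower k R V
  rw [finDim_iff] at hN hQ ⊢
  haveI : Module.Finite k (N.restrictScalars k) := hN
  haveI : Module.Finite k (V ⧸ N.restrictScalars k) :=
    Module.Finite.of_surjective
      ({ toFun := fun x => Submodule.Quotient.mk (p := N.restrictScalars k) x.out
         map_add' := fun x y => by
          rw [← Submodule.Quotient.mk_add, Submodule.Quotient.eq]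
          have h1 : (Submodule.Quotient.mk (x + y).out : V ⧸ N) =
              Submodule.Quotient.mk (x.out + y.out) := by
            rw [Submodule.Quotient.mk_add]
            exact (Quotient.out_eq' _).trans
              (congrArg₂ _ (Quotient.out_eq' x).symm (Quotient.out_eq' y).symm)
          exact (Submodule.Quotient.eq N).1 h1
         map_smul' := fun c x => by
          rw [RingHom.id_apply, ← Submodule.Quotient.mk_smul, Submodule.Quotient.eq]
          have h1 : (Submodule.Quotient.mk (c • x).out : V ⧸ N) =
              Submodule.Quotient.mk (c • x.out) := by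
            rw [Submodule.Quotient.mk_smul]
            exact (Quotient.out_eq' _).trans (congrArg _ (Quotient.out_eq' x).symm)
          exact (Submodule.Quotient.eq N).1 h1 } : (V ⧸ N) →ₗ[k] (V ⧸ N.restrictScalars k))
      (fun y => by
        obtain ⟨v, rfl⟩ := Submodule.Quotient.mk_surjective _ y
        refine ⟨Submodule.Quotient.mk v, ?_⟩
        change Submodule.Quotient.mk _ = _
        rw [Submodule.Quotient.eq]
        have h1 : (Submodule.Quotient.mk (Submodule.Quotient.mk v : V ⧸ N).out : V ⧸ N) =
            Submodule.Quotient.mk v := Quotient.out_eq' _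
        exact (Submodule.Quotient.eq N).1 h1)
  exact Module.Finite.of_submodule_quotient (N.restrictScalars k)

theorem FinDim.finite {V : Type u} [AddCommGroup V] [Module R V] (hV : FinDim k R V) :
    Module.Finite R V := by
  obtain ⟨s, hs⟩ := hV
  refine ⟨⟨s, ?_⟩⟩
  rw [eq_top_iff]
  intro v _
  obtain ⟨c, hc⟩ := hs v
  rw [hc]
  exact Submodule.sum_mem _ fun x hx => Submodule.smul_mem _ _ (Submodule.subset_span hx)

theorem finDim_quot_iff (I : Ideal R) : FinDim k R (R ⧸ I) ↔ FinCodim k I := by
  unfold FinCodim
  exact finDim_iff

/-- The product of two finite dimensional modules is finite dimensional. -/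
theorem FinDim.prod {V W : Type u} [AddCommGroup V] [Module R V] [AddCommGroup W]
    [Module R W] (hV : FinDim k R V) (hW : FinDim k R W) : FinDim k R (V × W) := by
  letI := kMod k R V
  letI := kMod k R W
  haveI := kTower k R V
  haveI := kTower k R W
  rw [finDim_iff] at hV hW ⊢
  infer_instance

private theorem FinDim.pi {ι : Type u} [Finite ι] {V : Type u} [AddCommGroup V] [Module R V]
    (hV : FinDim k R V) : FinDim k R (ι → V) := by
  letI := kMod k R V
  haveI := kTower k R V
  rw [finDim_iff] at hV ⊢
  infer_instance

theorem FinDim.of_finCodim {M : Type u} [AddCommGroup M] [Module R M] [Module.Finite R M]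
    (I : Ideal R) [I.IsTwoSided] (hI : FinCodim k I) (hIM : ∀ a ∈ I, ∀ m : M, a • m = 0) :
    FinDim k R M := by
  obtain ⟨n, s, hs⟩ := Module.Finite.exists_fin (R := R) (M := M)
  let g : Fin n → (R ⧸ I) →ₗ[R] M := fun i =>
    Submodule.liftQ I (LinearMap.toSpanSingleton R M (s i)) (fun a ha => by
      rw [LinearMap.mem_ker, LinearMap.toSpanSingleton_apply]
      exact hIM a ha _)
  let f : (ULift.{u} (Fin n) → (R ⧸ I)) →ₗ[R] M :=
    ∑ i : Fin n, (g i).comp (LinearMap.proj (ULift.up i))
  refine FinDim.of_surjective (FinDim.pi ((finDim_quot_iff I).2 hI)) f ?_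
  intro m
  have hm : m ∈ Submodule.span R (Set.range s) := by rw [hs]; trivial
  obtain ⟨c, hc⟩ := (Submodule.mem_span_range_iff_exists_fun R).1 hm
  refine ⟨fun i => Submodule.Quotient.mk (c i.down), ?_⟩
  rw [← hc]
  simp only [f, g, LinearMap.sum_apply, LinearMap.comp_apply, LinearMap.proj_apply,
    Submodule.liftQ_apply, LinearMap.toSpanSingleton_apply]

theorem FinDim.annihilator {V : Type u} [AddCommGroup V] [Module R V] (hV : FinDim k R V) :
    FinCodim k (Module.annihilator R V) := by
  letI := kMod k R V
  haveI := kTower k R V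
  obtain ⟨s, hs⟩ := hV
  have hV : FinDim k R V := ⟨s, hs⟩
  rw [← finDim_quot_iff]
  let f : R →ₗ[R] (s → V) := LinearMap.pi fun x => LinearMap.toSpanSingleton R V x.1
  have hk : Module.annihilator R V = LinearMap.ker f := by
    ext a
    rw [LinearMap.mem_ker, Module.mem_annihilator]
    constructor
    · intro h
      funext x
      exact h x.1
    · intro h v
      obtain ⟨c, hc⟩ := hs v
      rw [hc, Finset.smul_sum]
      refine Finset.sum_eq_zero fun x hx => ?_
      have h1 : a • x = 0 := congrFun h ⟨x, hx⟩
      rw [← mul_smul, ← Algebra.commutes, mul_smul, h1, smul_zero]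
  have hf : FinDim k R (s → V) := FinDim.pi (ι := s) hV
  refine FinDim.of_injective hf (Submodule.liftQ (Module.annihilator R V) f hk.le) ?_
  rw [← LinearMap.ker_eq_bot]
  exact Submodule.ker_liftQ_eq_bot _ _ _ hk.ge

/-- The character module is finite dimensional. -/
theorem finDim_trivMod (ε : R →ₐ[k] k) : FinDim k R (trivMod (ε : R →+* k)) := by
  let o : (trivMod (ε : R →+* k) : ModuleCat.{u} R) := (1 : k)
  refine ⟨{o}, fun v => ⟨fun _ => (v : k), ?_⟩⟩
  rw [Finset.sum_singleton]
  change (v : k) = (ε (algebraMap k R (v : k)) : k) • (1 : k)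
  rw [AlgHom.commutes, smul_eq_mul, mul_one]
  rfl

end BGN
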