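import Pool.Agent.BGN.Defs

/-!
# BGN HopA: twisting by a finite dimensional representation

`H` is a Hopf algebra, `σ : H → M_m(k)` an algebra homomorphism.  `tw σ : H → M_m(H)`,
`a ↦ ∑ a₁ σ(a₂)`, is an algebra homomorphism.

PROOFS.  Sweedler notation.  For a linear functional `f` on `H` put `slc f a = ∑ f(a₂) a₁`; then
`slc f (slc g a) = slc (f * g) a`, `(f * g)(a) = ∑ f(a₁) g(a₂)` (coassociativity), and
`slc ε a = a`.  `(tw σ a)_{bc} = slc (σ_{bc}) a`.
(Mathlib: `Coalgebra.Repr`, `ℛ k a`, `Coalgebra.sum_tmul_coassoc`, the convolution algebra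
`WithConv (H →ₗ[k] k)`, `matrixEquivTensor_apply_symm`.)
* `tw_apply`: unfold.
* `exists_colU`: `(U g)_b = ∑_c slc(σ_{bc}) (g_c)`, i.e. `U g = ∑_c tw σ (g_c) e_c`, so
  `U(a g) = tw σ a *ᵥ U g` because `tw σ` is multiplicative.  Inverse:
  `(U' u)_c = ∑_b slc(σ'_{cb}) (u_b)`, `σ'_{cb}(a) = σ(S a)_{cb}`.
  `(U' U g)_d = ∑_{b,c} slc(σ'_{db} * σ_{bc}) (g_c)` and `∑_b (σ'_{db} * σ_{bc})(a) =
  ∑ σ(S(a₁) a₂)_{dc} = ε(a) δ_{dc}`; `U U'` similarly with `a₁ S(a₂)`.
* `exists_rowPhi`: `σ(a) = ρ(S a)ᵀ` (an algebra homomorphism: `antipode_mul_antidistrib`,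
  transpose of matrices over the commutative ring `k`),
  `(Φ y)_c = ∑_b slc(ρ_{cb}) (y_b)`, inverse `(Φ' f)_c = ∑_b slc(ρ_{cb} ∘ S) (f_b)`
  (`ρ(S(a₁) a₂)` and `ρ(a₁ S(a₂))` as before).
  `(Φ (y tw σ(a)))_c = ∑ ρ_{cb}(y_{b',2} a₂) ρ_{bb'}(S(a₃)) y_{b',1} a₁ =
  ∑ ρ_{cb'}(y_{b',2} a₂ S(a₃)) y_{b',1} a₁ = (Φ y)_c a`.
  An easier way: `Φ' (f a) = vecMul (Φ' f) (tw σ a)` since `(Φ' f) = ∑_b (row b of tw σ (f_b))` and
  `tw σ` is multiplicative; then apply `Φ = Φ'⁻¹`.
  `ε((Φ y)_c) = ∑_b ρ_{cb}(y_b)` (`slc` followed by the counit is the functional).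
-/

namespace BGN

open CategoryTheory Abelian Coalgebra HopfAlgebra TensorProduct

universe u

variable {k : Type u} [Field k] {H : Type u} [Ring H] [HopfAlgebra k H] {m : ℕ}

/-- `slc f a = ∑ f(a₂) a₁`. -/
private noncomputable def slc (f : H →ₗ[k] k) : H →ₗ[k] H :=
  (TensorProduct.rid k H).toLinearMap ∘ₗ (LinearMap.lTensor H f) ∘ₗ Coalgebra.comul

private theorem slc_repr (f : H →ₗ[k] k) (a : H) {ι : Type*} (r : Coalgebra.Repr k a ι) :
    slc f a = ∑ i ∈ r.index, f (r.right i) • r.left i := by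
  unfold slc
  simp only [LinearMap.comp_apply]
  rw [← r.eq, map_sum, map_sum]
  refine Finset.sum_congr rfl (fun i _ => ?_)
  simp

/-- Convolution of functionals. -/
private noncomputable def cv (f g : H →ₗ[k] k) : H →ₗ[k] k :=
  LinearMap.mul' k k ∘ₗ TensorProduct.map f g ∘ₗ Coalgebra.comul

private theorem cv_repr (f g : H →ₗ[k] k) (a : H) {ι : Type*} (r : Coalgebra.Repr k a ι) :
    cv f g a = ∑ i ∈ r.index, f (r.left i) * g (r.right i) := by
  unfold cv
  simp only [LinearMap.comp_apply]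
  rw [← r.eq, map_sum, map_sum]
  refine Finset.sum_congr rfl (fun i _ => ?_)
  simp

private theorem slc_slc (f g : H →ₗ[k] k) (a : H) : slc f (slc g a) = slc (cv f g) a := by
  have key : (TensorProduct.rid k H).toLinearMap ∘ₗ
      TensorProduct.map ((TensorProduct.rid k H).toLinearMap ∘ₗ LinearMap.lTensor H f) g
      = (TensorProduct.rid k H).toLinearMap ∘ₗ
        LinearMap.lTensor H (LinearMap.mul' k k ∘ₗ TensorProduct.map f g) ∘ₗ
        (TensorProduct.assoc k H H H).toLinearMap := by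
    apply TensorProduct.ext_threefold
    intro x y z
    simp [smul_smul, mul_comm]
  have h1 : slc f ∘ₗ (TensorProduct.rid k H).toLinearMap ∘ₗ LinearMap.lTensor H g
      = (TensorProduct.rid k H).toLinearMap ∘ₗ
        TensorProduct.map ((TensorProduct.rid k H).toLinearMap ∘ₗ LinearMap.lTensor H f) g ∘ₗ
        LinearMap.rTensor H Coalgebra.comul := by
    apply TensorProduct.ext'
    intro x y
    simp [slc]
  have h2 := LinearMap.congr_fun h1 (Coalgebra.comul a)
  have h3 := LinearMap.congr_fun key (LinearMap.rTensor H Coalgebra.comul (Coalgebra.comul a))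
  have h4 := Coalgebra.coassoc_apply (R := k) a
  simp only [LinearMap.comp_apply, LinearEquiv.coe_coe] at h2 h3
  change slc f ((TensorProduct.rid k H) (LinearMap.lTensor H g (Coalgebra.comul a))) = _
  rw [h2, h3, h4]
  change _ = (TensorProduct.rid k H) (LinearMap.lTensor H (cv f g) (Coalgebra.comul a))
  congr 1
  rw [← LinearMap.comp_apply, ← LinearMap.lTensor_comp]
  rfl

private theorem slc_counit (a : H) : slc (counit (R := k)) a = a := by
  unfold slc
  simp

private theorem counit_slc (f : H →ₗ[k] k) (a : H) : counit (R := k) (slc f a) = f a := by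
  have r := Coalgebra.Repr.arbitrary k a
  rw [slc_repr f a r, map_sum]
  have h := Coalgebra.sum_counit_smul r
  conv_rhs => rw [← h, map_sum]
  refine Finset.sum_congr rfl (fun i _ => ?_)
  rw [map_smul, map_smul, smul_eq_mul, smul_eq_mul, mul_comm]

private theorem slc_sum {ι : Type*} (s : Finset ι) (F : ι → (H →ₗ[k] k)) (a : H) :
    slc (∑ d ∈ s, F d) a = ∑ d ∈ s, slc (F d) a := by
  have r := Coalgebra.Repr.arbitrary k a
  rw [slc_repr _ a r]
  simp_rw [slc_repr _ a r, LinearMap.sum_apply, Finset.sum_smul]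
  exact Finset.sum_comm

private theorem slc_zero (a : H) : slc (0 : H →ₗ[k] k) a = 0 := by
  simp [slc]

/-- The operator defined by a matrix of functionals. -/
private noncomputable def T (f : Fin m → Fin m → (H →ₗ[k] k)) : (Fin m → H) →ₗ[k] (Fin m → H) where
  toFun g := fun b => ∑ c, slc (f b c) (g c)
  map_add' g g' := by
    funext b
    simp only [Pi.add_apply, map_add, Finset.sum_add_distrib]
  map_smul' r g := by
    funext b
    simp only [Pi.smul_apply, map_smul, RingHom.id_apply, Finset.smul_sum]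

private theorem T_T (f h : Fin m → Fin m → (H →ₗ[k] k))
    (e : ∀ b c, ∑ d, cv (f b d) (h d c) = if b = c then counit (R := k) else 0)
    (g : Fin m → H) : T f (T h g) = g := by
  funext b
  change ∑ d, slc (f b d) (∑ c, slc (h d c) (g c)) = g b
  simp_rw [map_sum, slc_slc]
  rw [Finset.sum_comm]
  simp_rw [← slc_sum, e]
  rw [Finset.sum_eq_single b]
  · rw [if_pos rfl, slc_counit]
  · intro c _ hc
    rw [if_neg (Ne.symm hc), slc_zero]
  · intro h
    exact absurd (Finset.mem_univ b) h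

/-- Entries. -/
private noncomputable def ent (σ : H →ₗ[k] Matrix (Fin m) (Fin m) k) (b c : Fin m) :
    H →ₗ[k] k where
  toFun a := σ a b c
  map_add' x y := by rw [map_add]; rfl
  map_smul' x y := by rw [map_smul]; rfl

private theorem ent_left (ρ : H →ₐ[k] Matrix (Fin m) (Fin m) k) (b c : Fin m) :
    ∑ d, cv (ent (ρ.toLinearMap ∘ₗ antipode k) b d) (ent ρ.toLinearMap d c)
      = if b = c then counit (R := k) else 0 := by
  ext a
  have r := Coalgebra.Repr.arbitrary k a
  rw [LinearMap.sum_apply]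
  simp_rw [cv_repr _ _ a r]
  rw [Finset.sum_comm]
  have h1 : ∀ i, ∑ d, ent (ρ.toLinearMap ∘ₗ antipode k) b d (r.left i) *
      ent ρ.toLinearMap d c (r.right i) = ρ (antipode k (r.left i) * r.right i) b c := by
    intro i
    rw [map_mul, Matrix.mul_apply]
    rfl
  simp_rw [h1]
  have h2 : ∑ i ∈ r.index, ρ (antipode k (r.left i) * r.right i) b c
      = ρ (∑ i ∈ r.index, antipode k (r.left i) * r.right i) b c := by
    rw [map_sum, Matrix.sum_apply]
  rw [h2, sum_antipode_mul_eq_smul, map_smul, map_one, Matrix.smul_apply, Matrix.one_apply]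
  split_ifs
  · rw [smul_eq_mul, mul_one]
  · rw [smul_zero, LinearMap.zero_apply]

private theorem ent_right (ρ : H →ₐ[k] Matrix (Fin m) (Fin m) k) (b c : Fin m) :
    ∑ d, cv (ent ρ.toLinearMap b d) (ent (ρ.toLinearMap ∘ₗ antipode k) d c)
      = if b = c then counit (R := k) else 0 := by
  ext a
  have r := Coalgebra.Repr.arbitrary k a
  rw [LinearMap.sum_apply]
  simp_rw [cv_repr _ _ a r]
  rw [Finset.sum_comm]
  have h1 : ∀ i, ∑ d, ent ρ.toLinearMap b d (r.left i) *
      ent (ρ.toLinearMap ∘ₗ antipode k) d c (r.right i)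
        = ρ (r.left i * antipode k (r.right i)) b c := by
    intro i
    rw [map_mul, Matrix.mul_apply]
    rfl
  simp_rw [h1]
  have h2 : ∑ i ∈ r.index, ρ (r.left i * antipode k (r.right i)) b c
      = ρ (∑ i ∈ r.index, r.left i * antipode k (r.right i)) b c := by
    rw [map_sum, Matrix.sum_apply]
  rw [h2, sum_mul_antipode_eq_smul, map_smul, map_one, Matrix.smul_apply, Matrix.one_apply]
  split_ifs
  · rw [smul_eq_mul, mul_one]
  · rw [smul_zero, LinearMap.zero_apply]

/-- The invertible operator of a representation. -/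
private noncomputable def TE (ρ : H →ₐ[k] Matrix (Fin m) (Fin m) k) :
    (Fin m → H) ≃ₗ[k] (Fin m → H) :=
  LinearEquiv.ofLinearMap (T (fun b c => ent ρ.toLinearMap b c))
    (T (fun b c => ent (ρ.toLinearMap ∘ₗ antipode k) b c))
    (LinearMap.ext fun g => T_T _ _ (ent_right ρ) g)
    (LinearMap.ext fun g => T_T _ _ (ent_left ρ) g)

private theorem TE_apply (ρ : H →ₐ[k] Matrix (Fin m) (Fin m) k) (g : Fin m → H) (b : Fin m) :
    TE ρ g b = ∑ c, slc (ent ρ.toLinearMap b c) (g c) := rfl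

private theorem TE_symm_apply (ρ : H →ₐ[k] Matrix (Fin m) (Fin m) k) (g : Fin m → H)
    (b : Fin m) : (TE ρ).symm g b =
      ∑ c, slc (ent (ρ.toLinearMap ∘ₗ antipode k) b c) (g c) := rfl

/-- `a ↦ ∑ a₁ σ(a₂)`. -/
noncomputable def tw (σ : H →ₐ[k] Matrix (Fin m) (Fin m) k) :
    H →ₐ[k] Matrix (Fin m) (Fin m) H :=
  ((matrixEquivTensor (Fin m) k H).symm : H ⊗[k] Matrix (Fin m) (Fin m) k →ₐ[k] _).comp
    ((Algebra.TensorProduct.map (AlgHom.id k H) σ).comp (Bialgebra.comulAlgHom k H))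

theorem tw_apply (σ : H →ₐ[k] Matrix (Fin m) (Fin m) k) (a : H) {ι : Type*}
    (r : Coalgebra.Repr k a ι) (b c : Fin m) :
    tw σ a b c = ∑ i ∈ r.index, σ (r.right i) b c • r.left i := by
  unfold tw
  have h : Bialgebra.comulAlgHom k H a = ∑ i ∈ r.index, r.left i ⊗ₜ[k] r.right i := r.eq.symm
  rw [AlgHom.comp_apply, AlgHom.comp_apply, h, map_sum, map_sum, Matrix.sum_apply]
  refine Finset.sum_congr rfl (fun i _ => ?_)
  rw [Algebra.TensorProduct.map_tmul]
  change ((matrixEquivTensor (Fin m) k H).symm (r.left i ⊗ₜ σ (r.right i))) b c = _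
  rw [matrixEquivTensor_apply_symm, Matrix.smul_apply, Matrix.map_apply, smul_eq_mul,
    ← Algebra.commutes, ← Algebra.smul_def]

private theorem tw_slc (σ : H →ₐ[k] Matrix (Fin m) (Fin m) k) (a : H) (b c : Fin m) :
    tw σ a b c = slc (ent σ.toLinearMap b c) a := by
  have r := Coalgebra.Repr.arbitrary k a
  rw [tw_apply σ a r, slc_repr _ a r]
  rfl

theorem exists_colU (σ : H →ₐ[k] Matrix (Fin m) (Fin m) k) :
    ∃ U : (Fin m → H) ≃ₗ[k] (Fin m → H), ∀ (a : H) (g : Fin m → H),
      U (fun c => a * g c) = Matrix.mulVec (tw σ a) (U g) := by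
  refine ⟨TE σ, fun a g => ?_⟩
  funext b
  rw [TE_apply]
  simp_rw [← tw_slc, map_mul, Matrix.mul_apply]
  rw [Finset.sum_comm]
  change _ = ∑ d, tw σ a b d * TE σ g d
  refine Finset.sum_congr rfl (fun d _ => ?_)
  rw [TE_apply, Finset.mul_sum]
  simp_rw [← tw_slc]

theorem exists_rowPhi (ρ : H →ₐ[k] Matrix (Fin m) (Fin m) k) :
    ∃ (σ : H →ₐ[k] Matrix (Fin m) (Fin m) k) (Φ : (Fin m → H) ≃ₗ[k] (Fin m → H)),
      (∀ (a : H) (y : Fin m → H), Φ (Matrix.vecMul y (tw σ a)) = fun c => Φ y c * a) ∧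
      (∀ (y : Fin m → H) (c : Fin m), counit (R := k) (Φ y c) = ∑ b, ρ (y b) c b) := by
  let σ : H →ₐ[k] Matrix (Fin m) (Fin m) k :=
    AlgHom.ofLinearMap
      { toFun := fun a => (ρ (antipode k a)).transpose
        map_add' := fun x y => by rw [map_add, map_add, Matrix.transpose_add]
        map_smul' := fun c x => by
          rw [map_smul, map_smul, Matrix.transpose_smul]; rfl }
      (by
        change (ρ (antipode k 1)).transpose = 1
        rw [antipode_one, map_one, Matrix.transpose_one])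
      (by
        intro x y
        change (ρ (antipode k (x * y))).transpose
          = (ρ (antipode k x)).transpose * (ρ (antipode k y)).transpose
        rw [antipode_mul_antidistrib, map_mul, Matrix.transpose_mul])
  have hσ : ∀ (f : Fin m → H) (c : Fin m), (TE ρ).symm f c = ∑ b, tw σ (f b) b c := by
    intro f c
    rw [TE_symm_apply]
    refine Finset.sum_congr rfl (fun b _ => ?_)
    rw [tw_slc]
    rfl
  refine ⟨σ, TE ρ, ?_, ?_⟩
  · intro a y
    have h : (TE ρ).symm (fun c => TE ρ y c * a) = Matrix.vecMul y (tw σ a) := by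
      funext c
      rw [hσ]
      simp_rw [map_mul, Matrix.mul_apply]
      rw [Finset.sum_comm]
      change _ = ∑ d, y d * tw σ a d c
      refine Finset.sum_congr rfl (fun d _ => ?_)
      rw [← Finset.sum_mul, ← hσ, LinearEquiv.symm_apply_apply]
    rw [← h, LinearEquiv.apply_symm_apply]
  · intro y c
    rw [TE_apply, map_sum]
    refine Finset.sum_congr rfl (fun b _ => ?_)
    rw [counit_slc]
    rfl

end BGN
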