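import Pool.Agent.BGN.HopA
import Pool.Agent.BGN.Coh

/-!
# BGN HopB: `Ext^i(V, H) ≅ Ext^i(k, H)^{dim V}`

PROOF of `ext_tensor_equiv`.  Let `m = fdim k H V`, choose a `k`-basis `e_1..e_m` of `V` and let
`ρ : H →ₐ[k] M_m(k)` be the matrix representation, `a e_b = ∑_c ρ(a)_{cb} e_c`.  Take `σ, Φ` from
`exists_rowPhi ρ` and `U` from `exists_colU σ`.  Let `F` be a resolution of the trivial module
(`FRes.exists`).  Define the resolution `F'` of `V`: `n' i = n i * m` (indices `(l, b)`, via
`finProdFinEquiv`), `D'_i` = the block matrix `((l,b),(l',c)) ↦ (tw σ (D_i l l'))_{bc}`,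
`aug' y = ∑_{l,b} algebraMap (aug e_l) • (y_{lb} • e_b)` (`e_l` = `Pi.single l 1`, `aug e_l ∈ k`).
* rows: for `y = (y_l)`, `y_l ∈ H^m`: `(y D')_{l'} = ∑_l vecMul y_l (tw σ D_{ll'})`, so
  `Φ((y D')_{l'})_c = ∑_l Φ(y_l)_c D_{ll'}`, i.e. `Φ` applied to all blocks transforms
  `y ↦ y D'` into `m` copies of `g ↦ g D`.  Exactness in positive degrees follows from `F.exact`.
* `aug'`: `aug' y = ∑_c (aug (Φ(y_·)_c)) e_c`, since `aug g = ∑_l ε(g_l) aug(e_l)` for `g ∈ H^{n 0}`
  and `ε(Φ(y_l)_c) = ∑_b ρ(y_{lb})_{cb}`.  So `aug' y = 0` iff `aug(Φ(y_·)_c) = 0` for all `c`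
  (`F.exact0`), and `aug'` is surjective because `aug` is and `Φ` is bijective.
* columns: `act D'_i (U g) = U (act D_i g)` blockwise (`U` applied to the blocks of
  `g ∈ (H^m)^{n i}`): `(act D' (U g))_l = ∑_{l'} tw σ(D_{ll'}) *ᵥ U(g_{l'}) =
  U(∑_{l'} D_{ll'} g_{l'})`.  So `U` identifies `(F.cyc k i)^m` with `F'.cyc k i` and `(F.bdy k i)^m`
  with `F'.bdy k i`.
Conclude with `FRes.extEquiv` for `F` and `F'`
(quotient of a finite product of copies: `Submodule.quotientPi` or a surjective linear map
`F'.cyc → (Ext)^m` with kernel `F'.bdy`).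
-/

namespace BGN

open CategoryTheory Abelian Coalgebra HopfAlgebra

universe u

/-- The trivial module of a Hopf algebra. -/
noncomputable abbrev trv (k : Type u) [Field k] (H : Type u) [Ring H] [HopfAlgebra k H] :
    ModuleCat.{u} H :=
  trivMod ((Bialgebra.counitAlgHom k H : H →ₐ[k] k) : H →+* k)

variable {k : Type u} [Field k] {H : Type u} [Ring H] [HopfAlgebra k H]

/-- An element of the trivial module is a scalar. -/
private def tov (x : k) : (trv k H : Type u) := x

/-- The scalar of an element of the trivial module. -/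
private def tok (x : (trv k H : Type u)) : k := x

private theorem tok_add (x y : (trv k H : Type u)) : tok (x + y) = tok x + tok y := rfl

private theorem tok_smul (a : H) (x : (trv k H : Type u)) :
    tok (a • x) = counit (R := k) a * tok x := rfl

private theorem tok_zero : tok (0 : (trv k H : Type u)) = 0 := rfl

private theorem tok_sum {ι : Type*} (s : Finset ι) (f : ι → (trv k H : Type u)) :
    tok (∑ i ∈ s, f i) = ∑ i ∈ s, tok (f i) := by
  classical
  induction s using Finset.induction_on with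
  | empty => simp [tok_zero]
  | insert a s ha ih => rw [Finset.sum_insert ha, Finset.sum_insert ha, tok_add, ih]

private theorem tok_eq_zero (x : (trv k H : Type u)) : tok x = 0 ↔ x = 0 := Iff.rfl

private theorem trv_finite : Module.Finite H (trv k H : Type u) := by
  refine ⟨⟨{tov 1}, ?_⟩⟩
  rw [eq_top_iff]
  intro x _
  have h : x = algebraMap k H (tok x) • (tov 1 : (trv k H : Type u)) := by
    have h1 : tok (algebraMap k H (tok x) • (tov 1 : (trv k H : Type u))) = tok x := by
      rw [tok_smul]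
      change counit (algebraMap k H (tok x)) * (1 : k) = tok x
      rw [Bialgebra.counit_algebraMap, mul_one]
    exact h1.symm
  rw [h]
  exact Submodule.smul_mem _ _ (Submodule.subset_span (by simp))

section

variable {m : ℕ}

/-- Blocks: rows. -/
private def blk {n : ℕ} (y : Fin (n * m) → H) (l : Fin n) : Fin m → H :=
  fun b => y (finProdFinEquiv (l, b))

/-- Block matrix. -/
private def bD (t : H → Matrix (Fin m) (Fin m) H) {n n' : ℕ} (D : Matrix (Fin n) (Fin n') H) :
    Matrix (Fin (n * m)) (Fin (n' * m)) H :=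
  fun p q => t (D (finProdFinEquiv.symm p).1 (finProdFinEquiv.symm q).1)
    (finProdFinEquiv.symm p).2 (finProdFinEquiv.symm q).2

private theorem sum_blk {A : Type*} [AddCommMonoid A] {n : ℕ} (f : Fin (n * m) → A) :
    ∑ p, f p = ∑ l : Fin n, ∑ b : Fin m, f (finProdFinEquiv (l, b)) := by
  rw [← Fintype.sum_prod_type' (f := fun l b => f (finProdFinEquiv (l, b)))]
  exact (Equiv.sum_comp finProdFinEquiv f).symm

private theorem blk_vecMul (t : H → Matrix (Fin m) (Fin m) H) {n n' : ℕ}
    (D : Matrix (Fin n) (Fin n') H) (y : Fin (n * m) → H) (l' : Fin n') :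
    blk (Matrix.vecMul y (bD t D)) l' = ∑ l, Matrix.vecMul (blk y l) (t (D l l')) := by
  funext c
  rw [Finset.sum_apply]
  change ∑ p, y p * bD t D p (finProdFinEquiv (l', c)) = _
  rw [sum_blk]
  refine Finset.sum_congr rfl fun l _ => ?_
  change _ = ∑ b, blk y l b * t (D l l') b c
  refine Finset.sum_congr rfl fun b _ => ?_
  simp only [bD, blk, Equiv.symm_apply_apply]

/-- The change of variables of rows. -/
private def psi (Φ : (Fin m → H) ≃ₗ[k] (Fin m → H)) {n : ℕ} (y : Fin (n * m) → H) :
    Fin m → Fin n → H :=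
  fun c l => Φ (blk y l) c

private def psiInv (Φ : (Fin m → H) ≃ₗ[k] (Fin m → H)) {n : ℕ} (g : Fin m → Fin n → H) :
    Fin (n * m) → H :=
  fun p => Φ.symm (fun c => g c (finProdFinEquiv.symm p).1) (finProdFinEquiv.symm p).2

private theorem psi_psiInv (Φ : (Fin m → H) ≃ₗ[k] (Fin m → H)) {n : ℕ} (g : Fin m → Fin n → H) :
    psi Φ (psiInv Φ g) = g := by
  funext c l
  have h : blk (psiInv Φ g) l = Φ.symm (fun c => g c l) := by
    funext b
    simp only [blk, psiInv, Equiv.symm_apply_apply]
  simp only [psi, h, LinearEquiv.apply_symm_apply]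

private theorem psi_inj (Φ : (Fin m → H) ≃ₗ[k] (Fin m → H)) {n : ℕ} {y y' : Fin (n * m) → H}
    (h : psi Φ y = psi Φ y') : y = y' := by
  funext p
  have h1 : blk y (finProdFinEquiv.symm p).1 = blk y' (finProdFinEquiv.symm p).1 := by
    apply Φ.injective
    funext c
    exact congrFun (congrFun h c) (finProdFinEquiv.symm p).1
  have h2 := congrFun h1 (finProdFinEquiv.symm p).2
  simpa only [blk, Prod.mk.eta, Equiv.apply_symm_apply] using h2

private theorem psi_zero (Φ : (Fin m → H) ≃ₗ[k] (Fin m → H)) {n : ℕ} :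
    psi Φ (0 : Fin (n * m) → H) = 0 := by
  funext c l
  have h : blk (0 : Fin (n * m) → H) l = 0 := rfl
  simp only [psi, h, map_zero, Pi.zero_apply]

private theorem psi_vecMul (t : H → Matrix (Fin m) (Fin m) H)
    (Φ : (Fin m → H) ≃ₗ[k] (Fin m → H))
    (hΦ : ∀ (a : H) (y : Fin m → H), Φ (Matrix.vecMul y (t a)) = fun c => Φ y c * a)
    {n n' : ℕ} (D : Matrix (Fin n) (Fin n') H) (y : Fin (n * m) → H) (c : Fin m) :
    psi Φ (Matrix.vecMul y (bD t D)) c = Matrix.vecMul (psi Φ y c) D := by
  funext l'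
  change Φ (blk (Matrix.vecMul y (bD t D)) l') c = ∑ l, psi Φ y c l * D l l'
  rw [blk_vecMul, map_sum, Finset.sum_apply]
  refine Finset.sum_congr rfl fun l _ => ?_
  rw [hΦ]
  rfl

/-- The change of variables of columns. -/
private def theta (U : (Fin m → H) ≃ₗ[k] (Fin m → H)) (n : ℕ) :
    (Fin m → Fin n → H) ≃ₗ[k] (Fin (n * m) → H) where
  toFun g := fun p => U (fun c => g c (finProdFinEquiv.symm p).1) (finProdFinEquiv.symm p).2
  invFun w := fun c l => U.symm (blk w l) c
  map_add' g g' := by
    funext p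
    have h : (fun c => (g + g') c (finProdFinEquiv.symm p).1) =
        (fun c => g c (finProdFinEquiv.symm p).1) +
          (fun c => g' c (finProdFinEquiv.symm p).1) := rfl
    rw [h, map_add]
    rfl
  map_smul' r g := by
    funext p
    have h : (fun c => (r • g) c (finProdFinEquiv.symm p).1) =
        r • (fun c => g c (finProdFinEquiv.symm p).1) := rfl
    rw [h, map_smul]
    rfl
  left_inv g := by
    funext c l
    have h : blk (fun p : Fin (n * m) =>
        U (fun c => g c (finProdFinEquiv.symm p).1) (finProdFinEquiv.symm p).2) l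
          = U (fun c => g c l) := by
      funext b
      simp only [blk, Equiv.symm_apply_apply]
    simp only [h, LinearEquiv.symm_apply_apply]
  right_inv w := by
    funext p
    have h : (fun c => U.symm (blk w (finProdFinEquiv.symm p).1) c)
        = U.symm (blk w (finProdFinEquiv.symm p).1) := rfl
    simp only [h, LinearEquiv.apply_symm_apply]
    simp only [blk, Prod.mk.eta, Equiv.apply_symm_apply]

private theorem act_theta (t : H → Matrix (Fin m) (Fin m) H)
    (U : (Fin m → H) ≃ₗ[k] (Fin m → H))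
    (hU : ∀ (a : H) (g : Fin m → H), U (fun c => a * g c) = Matrix.mulVec (t a) (U g))
    {n n' : ℕ} (D : Matrix (Fin n) (Fin n') H) (g : Fin m → Fin n' → H) :
    act (bD t D) (theta U n' g) = theta U n (fun c => act D (g c)) := by
  funext p
  obtain ⟨⟨l, b⟩, rfl⟩ := finProdFinEquiv.surjective p
  have h1 : (theta U n (fun c => act D (g c))) (finProdFinEquiv (l, b))
      = U (fun c => act D (g c) l) b := by
    simp only [theta, LinearEquiv.coe_mk, LinearMap.coe_mk, AddHom.coe_mk,
      Equiv.symm_apply_apply]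
  have h2 : (fun c => act D (g c) l) = ∑ l', fun c => D l l' * g c l' := by
    funext c
    rw [Finset.sum_apply]
    rfl
  rw [h1, h2, map_sum, Finset.sum_apply]
  change ∑ q, bD t D (finProdFinEquiv (l, b)) q • theta U n' g q = _
  rw [sum_blk]
  refine Finset.sum_congr rfl fun l' _ => ?_
  rw [hU]
  change _ = ∑ b', t (D l l') b b' * U (fun c => g c l') b'
  refine Finset.sum_congr rfl fun b' _ => ?_
  simp only [bD, theta, LinearEquiv.coe_mk, LinearMap.coe_mk, AddHom.coe_mk,
    Equiv.symm_apply_apply, smul_eq_mul]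

end

/-- The vectors defining the augmentation of the block resolution. -/
private noncomputable def alph (F : FRes H (trv k H : Type u)) (l : Fin (F.n 0)) : k :=
  tok (F.aug (Pi.single l 1))

private theorem tok_aug (F : FRes H (trv k H : Type u)) (g : Fin (F.n 0) → H) :
    tok (F.aug g) = ∑ l, counit (R := k) (g l) * alph F l := by
  have h : g = ∑ l, g l • (Pi.single l (1 : H) : Fin (F.n 0) → H) := by
    funext b
    simp [Finset.sum_apply, Pi.single_apply]
  conv_lhs => rw [h]
  rw [map_sum, tok_sum]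
  refine Finset.sum_congr rfl fun l _ => ?_
  rw [map_smul, tok_smul]
  rfl

section

variable {m : ℕ} {V : Type u} [AddCommGroup V] [Module H V] [Module k V]
  [IsScalarTower k H V]

/-- The augmentation of the block resolution. -/
private noncomputable def augB (e : Module.Basis (Fin m) k V) (F : FRes H (trv k H : Type u)) :
    (Fin (F.n 0 * m) → H) →ₗ[H] V where
  toFun y := ∑ p, y p • (alph F (finProdFinEquiv.symm p).1 • e (finProdFinEquiv.symm p).2)
  map_add' y y' := by
    simp only [Pi.add_apply, add_smul, Finset.sum_add_distrib]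
  map_smul' a y := by
    simp only [Pi.smul_apply, smul_eq_mul, mul_smul, Finset.smul_sum, RingHom.id_apply]

private theorem augB_apply (e : Module.Basis (Fin m) k V) (F : FRes H (trv k H : Type u))
    (ρ : H →ₐ[k] Matrix (Fin m) (Fin m) k)
    (hρ : ∀ (a : H) (b : Fin m), a • e b = ∑ c, ρ a c b • e c)
    (Φ : (Fin m → H) ≃ₗ[k] (Fin m → H))
    (hε : ∀ (y : Fin m → H) (c : Fin m), counit (R := k) (Φ y c) = ∑ b, ρ (y b) c b)
    (y : Fin (F.n 0 * m) → H) :
    augB e F y = ∑ c, tok (F.aug (psi Φ y c)) • e c := by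
  change ∑ p, y p • (alph F (finProdFinEquiv.symm p).1 • e (finProdFinEquiv.symm p).2) = _
  rw [sum_blk]
  simp only [Equiv.symm_apply_apply]
  have h1 : ∀ (l : Fin (F.n 0)) (b : Fin m), y (finProdFinEquiv (l, b)) • (alph F l • e b)
      = ∑ c, (alph F l * ρ (y (finProdFinEquiv (l, b))) c b) • e c := by
    intro l b
    have h2 : y (finProdFinEquiv (l, b)) • (alph F l • e b)
        = alph F l • (y (finProdFinEquiv (l, b)) • e b) := by
      rw [← algebraMap_smul H (alph F l) (e b), ← algebraMap_smul H (alph F l)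
        (y (finProdFinEquiv (l, b)) • e b), smul_smul, smul_smul, Algebra.commutes]
    rw [h2, hρ, Finset.smul_sum]
    refine Finset.sum_congr rfl fun c _ => ?_
    rw [smul_smul]
  simp only [h1]
  have h3 : ∀ c, tok (F.aug (psi Φ y c))
      = ∑ l, ∑ b, alph F l * ρ (y (finProdFinEquiv (l, b))) c b := by
    intro c
    rw [tok_aug]
    refine Finset.sum_congr rfl fun l _ => ?_
    change counit (R := k) (Φ (blk y l) c) * alph F l = _
    rw [hε, mul_comm, Finset.mul_sum]
    rfl
  simp only [h3, Finset.sum_smul]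
  have h4 : ∀ l : Fin (F.n 0), ∑ b, ∑ c, (alph F l * ρ (y (finProdFinEquiv (l, b))) c b) • e c
      = ∑ c, ∑ b, (alph F l * ρ (y (finProdFinEquiv (l, b))) c b) • e c := fun l =>
    Finset.sum_comm
  rw [Finset.sum_congr rfl fun l _ => h4 l]
  exact Finset.sum_comm

/-- The block resolution. -/
private noncomputable def blockRes (e : Module.Basis (Fin m) k V)
    (F : FRes H (trv k H : Type u)) (ρ : H →ₐ[k] Matrix (Fin m) (Fin m) k)
    (hρ : ∀ (a : H) (b : Fin m), a • e b = ∑ c, ρ a c b • e c)
    (t : H → Matrix (Fin m) (Fin m) H) (Φ : (Fin m → H) ≃ₗ[k] (Fin m → H))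
    (hΦ : ∀ (a : H) (y : Fin m → H), Φ (Matrix.vecMul y (t a)) = fun c => Φ y c * a)
    (hε : ∀ (y : Fin m → H) (c : Fin m), counit (R := k) (Φ y c) = ∑ b, ρ (y b) c b) :
    FRes H V where
  n := fun i => F.n i * m
  D := fun i => bD t (F.D i)
  aug := augB e F
  surj := by
    intro v
    have h : ∀ c, ∃ g : Fin (F.n 0) → H, tok (F.aug g) = e.repr v c := fun c =>
      F.surj (tov (e.repr v c))
    choose g hg using h
    refine ⟨psiInv Φ g, ?_⟩
    rw [augB_apply e F ρ hρ Φ hε, psi_psiInv]
    simp only [hg]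
    exact e.sum_repr v
  exact0 := by
    intro v
    have h0 : augB e F v = 0 ↔ ∀ c, F.aug (psi Φ v c) = 0 := by
      rw [augB_apply e F ρ hρ Φ hε]
      constructor
      · intro h c
        have h1 := Fintype.linearIndependent_iff.1 e.linearIndependent _ h c
        exact (tok_eq_zero _).1 h1
      · intro h
        refine Finset.sum_eq_zero fun c _ => ?_
        rw [h c, tok_zero, zero_smul]
    rw [h0]
    constructor
    · intro h
      have h1 : ∀ c, ∃ u : Fin (F.n 1) → H, Matrix.vecMul u (F.D 0) = psi Φ v c := fun c =>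
        (F.exact0 _).1 (h c)
      choose u hu using h1
      refine ⟨psiInv Φ u, psi_inj Φ ?_⟩
      funext c
      rw [psi_vecMul t Φ hΦ, psi_psiInv, hu]
    · rintro ⟨u, rfl⟩ c
      rw [psi_vecMul t Φ hΦ]
      exact (F.exact0 _).2 ⟨_, rfl⟩
  exact := by
    intro i v
    constructor
    · intro h
      have h1 : ∀ c, ∃ u : Fin (F.n (i + 2)) → H,
          Matrix.vecMul u (F.D (i + 1)) = psi Φ v c := fun c => by
        refine (F.exact i _).1 ?_
        rw [← psi_vecMul t Φ hΦ, h, psi_zero]
        rfl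
      choose u hu using h1
      refine ⟨psiInv Φ u, psi_inj Φ ?_⟩
      funext c
      rw [psi_vecMul t Φ hΦ, psi_psiInv, hu]
    · rintro ⟨u, rfl⟩
      apply psi_inj Φ
      rw [psi_zero]
      funext c
      rw [psi_vecMul t Φ hΦ, psi_vecMul t Φ hΦ]
      exact (F.exact i _).2 ⟨_, rfl⟩

end

theorem ext_tensor_equiv [IsNoetherianRing H] (V : ModuleCat.{u} H) (hV : FinDim k H V) (i : ℕ) :
    Nonempty (Ext V (ModuleCat.of H H) i ≃ₗ[k]
      (Fin (fdim k H V) → Ext (trv k H) (ModuleCat.of H H) i)) := by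
  let _ : Module k V := Module.compHom V (algebraMap k H)
  have _ : IsScalarTower k H V := ⟨fun c r v => by
    rw [Algebra.smul_def, mul_smul]
    rfl⟩
  have _ : Module.Finite k V := finDim_iff.1 hV
  have _ : Module.Finite H (trv k H : Type u) := trv_finite
  rw [fdim_eq V]
  let m := Module.finrank k V
  change Nonempty (Ext V (ModuleCat.of H H) i ≃ₗ[k]
      (Fin m → Ext (trv k H) (ModuleCat.of H H) i))
  let e : Module.Basis (Fin m) k V := Module.finBasis k V
  let ρ : H →ₐ[k] Matrix (Fin m) (Fin m) k :=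
    (LinearMap.toMatrixAlgEquiv e).toAlgHom.comp (Algebra.lsmul k k V)
  have hρ : ∀ (a : H) (b : Fin m), a • e b = ∑ c, ρ a c b • e c := by
    intro a b
    have h : ∀ c, ρ a c b = e.repr (a • e b) c := fun c =>
      LinearMap.toMatrixAlgEquiv_apply e _ c b
    simp only [h]
    exact (e.sum_repr _).symm
  obtain ⟨σ, Φ, hΦ, hε⟩ := exists_rowPhi ρ
  obtain ⟨U, hU⟩ := exists_colU σ
  obtain ⟨F⟩ := FRes.exists (R := H) (V := (trv k H : Type u))
  let F' : FRes H V := blockRes e F ρ hρ (fun a => tw σ a) Φ hΦ hε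
  obtain ⟨E⟩ := F.extEquiv (k := k) i
  obtain ⟨E'⟩ := F'.extEquiv (k := k) i
  let Θ := theta U (F.n i)
  have hcyc : ∀ g : Fin m → Fin (F.n i) → H, (Θ g ∈ F'.cyc k i ↔ ∀ c, g c ∈ F.cyc k i) := by
    intro g
    have h : act (F'.D i) (Θ g) = theta U (F.n (i + 1)) (fun c => act (F.D i) (g c)) :=
      act_theta (fun a => tw σ a) U hU (F.D i) g
    change act (F'.D i) (Θ g) = 0 ↔ ∀ c, act (F.D i) (g c) = 0
    rw [h]
    exact ((theta U (F.n (i + 1))).map_eq_zero_iff).trans funext_iff
  have hbdy : ∀ g : Fin m → Fin (F.n i) → H, (Θ g ∈ F'.bdy k i ↔ ∀ c, g c ∈ F.bdy k i) := by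
    intro g
    cases i with
    | zero =>
      change Θ g = 0 ↔ ∀ c, g c = 0
      exact (Θ.map_eq_zero_iff).trans funext_iff
    | succ i =>
      change (∃ u, act (F'.D i) u = Θ g) ↔ ∀ c, ∃ u, act (F.D i) u = g c
      constructor
      · rintro ⟨u, hu⟩ c
        obtain ⟨h, rfl⟩ := (theta U (F.n i)).surjective u
        have h1 : act (F'.D i) (theta U (F.n i) h)
            = theta U (F.n (i + 1)) (fun c => act (F.D i) (h c)) :=
          act_theta (fun a => tw σ a) U hU (F.D i) h
        rw [h1] at hu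
        exact ⟨h c, congrFun ((theta U (F.n (i + 1))).injective hu) c⟩
      · intro h
        choose u hu using h
        refine ⟨theta U (F.n i) u, ?_⟩
        have h1 : act (F'.D i) (theta U (F.n i) u)
            = theta U (F.n (i + 1)) (fun c => act (F.D i) (u c)) :=
          act_theta (fun a => tw σ a) U hU (F.D i) u
        rw [h1]
        change _ = theta U (F.n (i + 1)) g
        congr 1
        funext c
        exact hu c
  let L : F'.cyc k i →ₗ[k] (Fin m → Ext (trv k H) (ModuleCat.of H H) i) :=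
    LinearMap.pi fun c => E.toLinearMap ∘ₗ
      ((F.bdy k i).submoduleOf (F.cyc k i)).mkQ ∘ₗ
      LinearMap.codRestrict (F.cyc k i)
        (LinearMap.proj c ∘ₗ Θ.symm.toLinearMap ∘ₗ (F'.cyc k i).subtype)
        (fun w => (hcyc (Θ.symm w.1)).1 (by
          rw [LinearEquiv.apply_symm_apply]
          exact w.2) c)
  have hs : Function.Surjective L := by
    intro x
    have h : ∀ c, ∃ g : F.cyc k i,
        E (((F.bdy k i).submoduleOf (F.cyc k i)).mkQ g) = x c := by
      intro c
      obtain ⟨g, hg⟩ := Submodule.mkQ_surjective _ (E.symm (x c))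
      exact ⟨g, by rw [hg, LinearEquiv.apply_symm_apply]⟩
    choose g hg using h
    refine ⟨⟨Θ fun c => (g c).1, (hcyc _).2 fun c => (g c).2⟩, ?_⟩
    funext c
    rw [← hg c]
    change E (((F.bdy k i).submoduleOf (F.cyc k i)).mkQ
      ⟨Θ.symm (Θ fun c => (g c).1) c, _⟩) = _
    congr 2
    apply Subtype.ext
    change Θ.symm (Θ fun c => (g c).1) c = (g c).1
    rw [LinearEquiv.symm_apply_apply]
  have hk : LinearMap.ker L = (F'.bdy k i).submoduleOf (F'.cyc k i) := by
    ext w
    rw [LinearMap.mem_ker]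
    have h1 : L w = 0 ↔ ∀ c, Θ.symm w.1 c ∈ F.bdy k i := by
      rw [funext_iff]
      refine forall_congr' fun c => ?_
      change E (((F.bdy k i).submoduleOf (F.cyc k i)).mkQ ⟨Θ.symm w.1 c, _⟩) = 0 ↔ _
      rw [LinearEquiv.map_eq_zero_iff, Submodule.mkQ_apply, Submodule.Quotient.mk_eq_zero]
      exact Iff.rfl
    rw [h1, ← hbdy, LinearEquiv.apply_symm_apply]
    exact Iff.rfl
  exact ⟨E'.symm.trans ((Submodule.quotEquivOfEq _ _ hk.symm).trans
    (L.quotKerEquivOfSurjective hs))⟩

end BGN
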