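import Pool.Agent.BGN.Dul

/-!
# BGN HopC: the functor `Z(Y) = Hom_k(X, Y)`, `X = LD k H`

`H` a Hopf algebra, `X = LD k H` (a right `H`-module), `Y` a left `H`-module.  `ZZ k H Y` is
`Hom_k(X, Y)` with the `H`-action `(h φ)(x) = ∑ h₂ φ(x h₁)`.

PROOFS.
* `ZZ.smul_apply`: unfold `zAct`.
* `ZZ.map`: postcomposition with `g` (`g.restrictScalars k`).
* `ZZ_injective`: let `Y` be an injective `H`-module.  For a left `H`-module `N` (with compatible
  `k`-structure) let `TT N = X ⊗[k] N` with `h (x ⊗ n) = ∑ x S(h₁) ⊗ h₂ n`.  This is a module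
  structure: `a ↦ (x ↦ x S(a))` is an algebra homomorphism `H → End_k X`; compose
  `Δ : H → H ⊗ H` with `H ⊗ H → End (X ⊗ N)`.  `H`-linear maps `G : TT N → Y` correspond to
  `H`-linear maps `g : N → ZZ Y` by `g(n)(x) = G(x ⊗ n)`:
  if `g` is linear, `G(h (x ⊗ n)) = ∑ g(h₂ n)(x S(h₁)) = ∑ h₃ g(n)(x S(h₁) h₂) = h G(x ⊗ n)`;
  if `G` is linear, `(h g(n))(x) = ∑ h₂ G(x h₁ ⊗ n) = ∑ G(x h₁ S(h₂) ⊗ h₃ n) = g(h n)(x)`.
  For a monomorphism `ι : N' → N` the map `TT N' → TT N` is injective (`k` is a field,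
  `Module.Flat.lTensor_preserves_injective_linearMap`), so `G'` extends to `G` and `g'` to `g`.
* `injDimLE_ZZ`: induction on `n`, for all `Y`.  `n = 0`: `ZZ_injective`
  (`injective_iff_hasInjectiveDimensionLT_one`).  `n + 1`: `0 → Y → I → Y' → 0` with `I` injective
  (`Injective.under`, give `I` and `Y'` the `k`-structure `Module.compHom _ (algebraMap k H)`;
  `H`-linear maps are `k`-linear), `Y'` has injective dimension `≤ n`, and
  `0 → Z(Y) → Z(I) → Z(Y') → 0` is exact (`k` is a field: linear maps lift through surjections).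
-/

namespace BGN

open CategoryTheory Abelian Coalgebra HopfAlgebra MulOpposite TensorProduct

universe u

section Defs

variable (k : Type u) [Field k] (H : Type u) [Ring H] [HopfAlgebra k H]
  (Y : Type u) [AddCommGroup Y] [Module k Y]

/-- `Hom_k(X, Y)`, `X = LD k H`. -/
def ZZ : Type u := LD k H →ₗ[k] Y

noncomputable instance : AddCommGroup (ZZ k H Y) := inferInstanceAs (AddCommGroup (LD k H →ₗ[k] Y))

noncomputable instance zzModuleK : Module k (ZZ k H Y) :=
  inferInstanceAs (Module k (LD k H →ₗ[k] Y))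

variable {k H Y}

/-- The underlying linear map. -/
def ZZ.ev (φ : ZZ k H Y) : LD k H →ₗ[k] Y := φ

/-- The element of `ZZ` given by a linear map. -/
def ZZ.mk (φ : LD k H →ₗ[k] Y) : ZZ k H Y := φ

@[simp] theorem ZZ.mk_ev (φ : LD k H →ₗ[k] Y) : (ZZ.mk φ : ZZ k H Y).ev = φ := rfl

variable (k H Y)

/-- `φ ↦ (x ↦ φ (x a))`. -/
noncomputable def zK : H →ₐ[k] Module.End k (ZZ k H Y) :=
  AlgHom.ofLinearMap
    { toFun := fun a =>
        { toFun := fun φ => (φ.ev ∘ₗ rmulMap (Y := LD k H) a : LD k H →ₗ[k] Y)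
          map_add' := fun _ _ => rfl
          map_smul' := fun _ _ => rfl }
      map_add' := fun a b => LinearMap.ext fun φ => LinearMap.ext fun x => by
        show φ.ev (op (a + b) • x) = φ.ev (op a • x) + φ.ev (op b • x)
        rw [MulOpposite.op_add, add_smul, map_add]
      map_smul' := fun c a => LinearMap.ext fun φ => LinearMap.ext fun x => by
        show φ.ev (op (c • a) • x) = c • φ.ev (op a • x)
        rw [MulOpposite.op_smul, smul_assoc, map_smul] }
    (LinearMap.ext fun φ => LinearMap.ext fun x => by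
        show φ.ev (op (1 : H) • x) = φ.ev x
        simp)
    (fun a b => LinearMap.ext fun φ => LinearMap.ext fun x => by
        show φ.ev (op (a * b) • x) = φ.ev (op b • op a • x)
        rw [op_mul, mul_smul])

/-- `φ ↦ (x ↦ b φ(x))`. -/
noncomputable def zL [Module H Y] [IsScalarTower k H Y] : H →ₐ[k] Module.End k (ZZ k H Y) :=
  AlgHom.ofLinearMap
    { toFun := fun b =>
        { toFun := fun φ => (Algebra.lsmul k k Y b ∘ₗ φ.ev : LD k H →ₗ[k] Y)
          map_add' := fun _ _ => LinearMap.ext fun _ => smul_add b _ _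
          map_smul' := fun c _ => LinearMap.ext fun _ => (smul_algebra_smul_comm c b _) }
      map_add' := fun a b => LinearMap.ext fun φ => LinearMap.ext fun x => add_smul a b (φ.ev x)
      map_smul' := fun c a => LinearMap.ext fun φ => LinearMap.ext fun x => smul_assoc c a (φ.ev x) }
    (LinearMap.ext fun φ => LinearMap.ext fun x => one_smul H (φ.ev x))
    (fun a b => LinearMap.ext fun φ => LinearMap.ext fun x => mul_smul a b (φ.ev x))

/-- The action of `H` on `ZZ`. -/
noncomputable def zAct [Module H Y] [IsScalarTower k H Y] : H →ₐ[k] Module.End k (ZZ k H Y) :=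
  (Algebra.TensorProduct.lift (zK k H Y) (zL k H Y) (fun _ _ =>
    LinearMap.ext fun _ => LinearMap.ext fun _ => rfl)).comp (Bialgebra.comulAlgHom k H)

noncomputable instance zzModule [Module H Y] [IsScalarTower k H Y] : Module H (ZZ k H Y) :=
  Module.compHom (ZZ k H Y) (zAct k H Y).toRingHom

end Defs

variable {k : Type u} [Field k] {H : Type u} [Ring H] [HopfAlgebra k H]
  {Y : Type u} [AddCommGroup Y] [Module k Y] [Module H Y] [IsScalarTower k H Y]

/-- Evaluation at `x` as an additive map. -/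
private noncomputable def zzEv (x : LD k H) : ZZ k H Y →+ Y where
  toFun φ := φ.ev x
  map_zero' := rfl
  map_add' _ _ := rfl

theorem ZZ.smul_apply (a : H) {ι : Type*} (r : Coalgebra.Repr k a ι) (φ : ZZ k H Y)
    (x : LD k H) :
    (a • φ).ev x = ∑ i ∈ r.index, r.right i • φ.ev (op (r.left i) • x) := by
  have h1 : a • φ = (Algebra.TensorProduct.lift (zK k H Y) (zL k H Y) (fun _ _ =>
    LinearMap.ext fun _ => LinearMap.ext fun _ => rfl)) (comul (R := k) a) φ := rfl
  have h2 : (a • φ).ev x = zzEv x (a • φ) := rfl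
  rw [h2, h1, ← r.eq, map_sum, LinearMap.sum_apply, map_sum]
  refine Finset.sum_congr rfl fun i _ => ?_
  rw [Algebra.TensorProduct.lift_tmul]
  rfl

/-- Functoriality of `ZZ`. -/
noncomputable def ZZ.map {Y' : Type u} [AddCommGroup Y'] [Module k Y'] [Module H Y']
    [IsScalarTower k H Y'] (g : Y →ₗ[H] Y') : ZZ k H Y →ₗ[H] ZZ k H Y' where
  toFun φ := ZZ.mk (g.restrictScalars k ∘ₗ φ.ev)
  map_add' _ _ := LinearMap.ext fun _ => map_add g _ _
  map_smul' a φ := LinearMap.ext fun x => by
    show g ((a • φ).ev x) = (a • (ZZ.mk (g.restrictScalars k ∘ₗ φ.ev) : ZZ k H Y')).ev x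
    rw [ZZ.smul_apply a (ℛ k a), ZZ.smul_apply a (ℛ k a), map_sum]
    exact Finset.sum_congr rfl fun i _ => g.map_smul _ _

private instance : IsScalarTower k H (ZZ k H Y) where
  smul_assoc c a φ := by
    show zAct k H Y (c • a) φ = c • (zAct k H Y a φ)
    rw [map_smul]
    rfl

/-! ### two identities in `H ⊗ H` -/

/-- `∑ S(h₁) h₂ ⊗ h₃ = 1 ⊗ h` -/
private theorem hc_id1 (a : H) {ι : Type*} {κ : ι → Type*} (r : Repr k a ι)
    (r2 : ∀ i, Repr k (r.right i) (κ i)) :
    ∑ i ∈ r.index, ∑ j ∈ (r2 i).index,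
      (antipode k (r.left i) * (r2 i).left j) ⊗ₜ[k] (r2 i).right j = (1 : H) ⊗ₜ[k] a := by
  have h := sum_tmul_tmul_eq r (fun i => ℛ k (r.left i)) r2
  let Φ : H ⊗[k] (H ⊗[k] H) →ₗ[k] H ⊗[k] H :=
    (LinearMap.rTensor H (LinearMap.mul' k H ∘ₗ LinearMap.rTensor H (antipode k))) ∘ₗ
      (TensorProduct.assoc k H H H).symm.toLinearMap
  have hΦ : ∀ a b c : H, Φ (a ⊗ₜ (b ⊗ₜ c)) = (antipode k a * b) ⊗ₜ c := fun _ _ _ => rfl
  have h' := congrArg Φ h
  simp only [map_sum, hΦ] at h'
  rw [← h']
  have h3 : ∀ i, ∑ j ∈ (ℛ k (r.left i)).index,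
      (antipode k ((ℛ k (r.left i)).left j) * (ℛ k (r.left i)).right j) ⊗ₜ[k] r.right i =
      (1 : H) ⊗ₜ[k] (counit (R := k) (r.left i) • r.right i) := by
    intro i
    rw [← TensorProduct.sum_tmul, sum_antipode_mul_eq_smul, TensorProduct.smul_tmul]
  rw [Finset.sum_congr rfl fun i _ => h3 i, ← TensorProduct.tmul_sum, sum_counit_smul]

/-- `∑ h₁ S(h₂) ⊗ h₃ = 1 ⊗ h` -/
private theorem hc_id2 (a : H) {ι : Type*} {κ : ι → Type*} (r : Repr k a ι)
    (r2 : ∀ i, Repr k (r.right i) (κ i)) :
    ∑ i ∈ r.index, ∑ j ∈ (r2 i).index,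
      (r.left i * antipode k ((r2 i).left j)) ⊗ₜ[k] (r2 i).right j = (1 : H) ⊗ₜ[k] a := by
  have h := sum_tmul_tmul_eq r (fun i => ℛ k (r.left i)) r2
  let Φ : H ⊗[k] (H ⊗[k] H) →ₗ[k] H ⊗[k] H :=
    (LinearMap.rTensor H (LinearMap.mul' k H ∘ₗ LinearMap.lTensor H (antipode k))) ∘ₗ
      (TensorProduct.assoc k H H H).symm.toLinearMap
  have hΦ : ∀ a b c : H, Φ (a ⊗ₜ (b ⊗ₜ c)) = (a * antipode k b) ⊗ₜ c := fun _ _ _ => rfl
  have h' := congrArg Φ h
  simp only [map_sum, hΦ] at h'
  rw [← h']
  have h3 : ∀ i, ∑ j ∈ (ℛ k (r.left i)).index,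
      ((ℛ k (r.left i)).left j * antipode k ((ℛ k (r.left i)).right j)) ⊗ₜ[k] r.right i =
      (1 : H) ⊗ₜ[k] (counit (R := k) (r.left i) • r.right i) := by
    intro i
    rw [← TensorProduct.sum_tmul, sum_mul_antipode_eq_smul, TensorProduct.smul_tmul]
  rw [Finset.sum_congr rfl fun i _ => h3 i, ← TensorProduct.tmul_sum, sum_counit_smul]

/-! ### the left adjoint of `ZZ` -/

section TTdef

variable (k : Type u) [Field k] (H : Type u) [Ring H] [HopfAlgebra k H]
  (N : Type u) [AddCommGroup N] [Module k N]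

/-- `X ⊗ N`. -/
private def TT : Type u := LD k H ⊗[k] N

private noncomputable instance : AddCommGroup (TT k H N) :=
  inferInstanceAs (AddCommGroup (LD k H ⊗[k] N))

private noncomputable instance : Module k (TT k H N) :=
  inferInstanceAs (Module k (LD k H ⊗[k] N))

/-- pure tensors -/
private noncomputable def TT.mk {k : Type u} [Field k] {H : Type u} [Ring H] [HopfAlgebra k H]
    {N : Type u} [AddCommGroup N] [Module k N] (x : LD k H) (n : N) : TT k H N :=
  (x ⊗ₜ[k] n : LD k H ⊗[k] N)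

private theorem TT.ext {k : Type u} [Field k] {H : Type u} [Ring H] [HopfAlgebra k H]
    {N : Type u} [AddCommGroup N] [Module k N] {W : Type u} [AddCommGroup W] [Module k W]
    {f g : TT k H N →ₗ[k] W} (h : ∀ x n, f (TT.mk x n) = g (TT.mk x n)) : f = g :=
  TensorProduct.ext' h

/-- `x ⊗ n ↦ x S(a) ⊗ n`. -/
private noncomputable def tK : H →ₐ[k] Module.End k (TT k H N) :=
  AlgHom.ofLinearMap
    { toFun := fun a => (LinearMap.rTensor N (rmulMap (Y := LD k H) (antipode k a)) :
        LD k H ⊗[k] N →ₗ[k] LD k H ⊗[k] N)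
      map_add' := fun a b => TT.ext fun x n => by
        show (op (antipode k (a + b)) • x) ⊗ₜ[k] n =
          (op (antipode k a) • x) ⊗ₜ[k] n + (op (antipode k b) • x) ⊗ₜ[k] n
        rw [map_add, MulOpposite.op_add, add_smul, TensorProduct.add_tmul]
      map_smul' := fun c a => TT.ext fun x n => by
        show (op (antipode k (c • a)) • x) ⊗ₜ[k] n = c • ((op (antipode k a) • x) ⊗ₜ[k] n)
        rw [map_smul, MulOpposite.op_smul, smul_assoc, TensorProduct.smul_tmul'] }
    (TT.ext fun x n => by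
        show (op (antipode k (1 : H)) • x) ⊗ₜ[k] n = x ⊗ₜ[k] n
        rw [antipode_one, MulOpposite.op_one, one_smul])
    (fun a b => TT.ext fun x n => by
        show (op (antipode k (a * b)) • x) ⊗ₜ[k] n =
          (op (antipode k a) • op (antipode k b) • x) ⊗ₜ[k] n
        rw [antipode_mul_antidistrib, op_mul, mul_smul])

/-- `x ⊗ n ↦ x ⊗ a n`. -/
private noncomputable def tL [Module H N] [IsScalarTower k H N] : H →ₐ[k] Module.End k (TT k H N) :=
  AlgHom.ofLinearMap
    { toFun := fun a => (LinearMap.lTensor (LD k H) (Algebra.lsmul k k N a) :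
        LD k H ⊗[k] N →ₗ[k] LD k H ⊗[k] N)
      map_add' := fun a b => TT.ext fun x n => by
        show x ⊗ₜ[k] ((a + b) • n) = x ⊗ₜ[k] (a • n) + x ⊗ₜ[k] (b • n)
        rw [add_smul, TensorProduct.tmul_add]
      map_smul' := fun c a => TT.ext fun x n => by
        show x ⊗ₜ[k] ((c • a) • n) = c • (x ⊗ₜ[k] (a • n))
        rw [smul_assoc, TensorProduct.tmul_smul] }
    (TT.ext fun x n => by
        show x ⊗ₜ[k] ((1 : H) • n) = x ⊗ₜ[k] n
        rw [one_smul])
    (fun a b => TT.ext fun x n => by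
        show x ⊗ₜ[k] ((a * b) • n) = x ⊗ₜ[k] (a • b • n)
        rw [mul_smul])

/-- The action of `H`. -/
private noncomputable def tAct [Module H N] [IsScalarTower k H N] :
    H →ₐ[k] Module.End k (TT k H N) :=
  (Algebra.TensorProduct.lift (tK k H N) (tL k H N) (fun _ _ =>
    TT.ext fun _ _ => rfl)).comp (Bialgebra.comulAlgHom k H)

private noncomputable instance ttModule [Module H N] [IsScalarTower k H N] :
    Module H (TT k H N) :=
  Module.compHom (TT k H N) (tAct k H N).toRingHom

private instance [Module H N] [IsScalarTower k H N] : IsScalarTower k H (TT k H N) where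
  smul_assoc c a t := by
    show tAct k H N (c • a) t = c • (tAct k H N a t)
    rw [map_smul]
    rfl

end TTdef

section TTthm

variable {N : Type u} [AddCommGroup N] [Module k N] [Module H N] [IsScalarTower k H N]

private theorem TT.smul_mk (a : H) {ι : Type*} (r : Coalgebra.Repr k a ι) (x : LD k H) (n : N) :
    a • (TT.mk x n : TT k H N) =
      ∑ i ∈ r.index, TT.mk (op (antipode k (r.left i)) • x) (r.right i • n) := by
  have h1 : a • (TT.mk x n : TT k H N) = (Algebra.TensorProduct.lift (tK k H N) (tL k H N)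
    (fun _ _ => TT.ext fun _ _ => rfl)) (comul (R := k) a) (TT.mk x n) := rfl
  rw [h1, ← r.eq, map_sum, LinearMap.sum_apply]
  refine Finset.sum_congr rfl fun i _ => ?_
  rw [Algebra.TensorProduct.lift_tmul]
  rfl

omit [Module H N] [IsScalarTower k H N] in
private theorem TT.ind {p : TT k H N → Prop} (h0 : p 0) (h1 : ∀ x n, p (TT.mk x n))
    (h2 : ∀ s t, p s → p t → p (s + t)) (t : TT k H N) : p t :=
  TensorProduct.induction_on (motive := p) t h0 h1 h2

/-- the `k`-linear map `v ↦ v • y` -/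
private noncomputable def smulR (y : Y) : H →ₗ[k] Y where
  toFun v := v • y
  map_add' a b := add_smul a b y
  map_smul' c a := smul_assoc c a y

/-- From `g` to `G`. -/
private theorem exists_toTT (g : N →ₗ[H] ZZ k H Y) :
    ∃ G : TT k H N →ₗ[H] Y, ∀ x n, G (TT.mk x n) = (g n).ev x := by
  let gk : N →ₗ[k] (LD k H →ₗ[k] Y) :=
    { toFun := fun n => (g n).ev
      map_add' := fun a b => by
        rw [map_add]
        rfl
      map_smul' := fun c n => by
        have e : g (c • n) = c • g n := (g.restrictScalars k).map_smul c n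
        rw [e]
        rfl }
  let G0 : LD k H ⊗[k] N →ₗ[k] Y := TensorProduct.lift gk.flip
  let G1 : TT k H N →ₗ[k] Y := G0
  have hG : ∀ x n, G1 (TT.mk x n) = (g n).ev x := fun x n => TensorProduct.lift.tmul x n
  have hlin : ∀ (a : H) (t : TT k H N), G1 (a • t) = a • G1 t := by
    intro a t
    induction t using TT.ind with
    | h0 => rw [smul_zero, map_zero, smul_zero]
    | h2 s t hs ht => rw [smul_add, map_add, hs, ht, map_add, smul_add]
    | h1 x n =>
      rw [TT.smul_mk a (ℛ k a), map_sum, hG]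
      have e1 : ∀ i ∈ (ℛ k a).index,
          G1 (TT.mk (op (antipode k ((ℛ k a).left i)) • x) ((ℛ k a).right i • n)) =
          ∑ j ∈ (ℛ k ((ℛ k a).right i)).index, (ℛ k ((ℛ k a).right i)).right j •
            (g n).ev (op (antipode k ((ℛ k a).left i) * (ℛ k ((ℛ k a).right i)).left j) • x) := by
        intro i _
        rw [hG, g.map_smul, ZZ.smul_apply _ (ℛ k ((ℛ k a).right i))]
        refine Finset.sum_congr rfl fun j _ => ?_
        rw [← mul_smul, ← op_mul]
      rw [Finset.sum_congr rfl e1]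
      let Ψ : H ⊗[k] H →ₗ[k] Y := TensorProduct.lift
        (LinearMap.mk₂ k (fun u v : H => v • (g n).ev (op u • x))
          (fun u u' v => by rw [MulOpposite.op_add, add_smul, map_add, smul_add])
          (fun c u v => by
            rw [MulOpposite.op_smul, smul_assoc, map_smul]
            exact smul_algebra_smul_comm c v _)
          (fun u v v' => add_smul _ _ _)
          (fun c u v => smul_assoc _ _ _))
      have hΨ : ∀ u v : H, Ψ (u ⊗ₜ v) = v • (g n).ev (op u • x) := fun u v => rfl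
      have h := congrArg Ψ (hc_id1 a (ℛ k a) (fun i => ℛ k ((ℛ k a).right i)))
      simp only [map_sum, hΨ] at h
      rw [h, MulOpposite.op_one, one_smul]
  exact ⟨{ toFun := G1, map_add' := map_add G1, map_smul' := hlin }, hG⟩

/-- From `G` to `g`. -/
private theorem exists_ofTT (G : TT k H N →ₗ[H] Y) :
    ∃ g : N →ₗ[H] ZZ k H Y, ∀ x n, (g n).ev x = G (TT.mk x n) := by
  let Gk : LD k H ⊗[k] N →ₗ[k] Y := G.restrictScalars k
  let g0 : N → ZZ k H Y := fun n => ZZ.mk ((TensorProduct.mk k (LD k H) N).flip n |> Gk.comp)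
  have hg : ∀ x n, (g0 n).ev x = G (TT.mk x n) := fun x n => rfl
  refine ⟨{ toFun := g0
            map_add' := fun a b => LinearMap.ext fun x => ?_
            map_smul' := fun a n => LinearMap.ext fun x => ?_ }, hg⟩
  · show Gk (x ⊗ₜ (a + b)) = Gk (x ⊗ₜ a) + Gk (x ⊗ₜ b)
    rw [TensorProduct.tmul_add, map_add]
  · show (g0 (a • n)).ev x = (a • g0 n).ev x
    rw [hg, ZZ.smul_apply a (ℛ k a)]
    have e1 : ∀ i ∈ (ℛ k a).index,
        (ℛ k a).right i • (g0 n).ev (op ((ℛ k a).left i) • x) =
        ∑ j ∈ (ℛ k ((ℛ k a).right i)).index,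
          G (TT.mk (op ((ℛ k a).left i * antipode k ((ℛ k ((ℛ k a).right i)).left j)) • x)
            ((ℛ k ((ℛ k a).right i)).right j • n)) := by
      intro i _
      rw [hg, ← map_smul, TT.smul_mk _ (ℛ k ((ℛ k a).right i)), map_sum]
      refine Finset.sum_congr rfl fun j _ => ?_
      rw [← mul_smul, ← op_mul]
    rw [Finset.sum_congr rfl e1]
    let Ψ : H ⊗[k] H →ₗ[k] Y := Gk ∘ₗ TensorProduct.lift
      (LinearMap.mk₂ k (fun u v : H => (op u • x) ⊗ₜ[k] (v • n))
        (fun u u' v => by rw [MulOpposite.op_add, add_smul, TensorProduct.add_tmul])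
        (fun c u v => by
          rw [MulOpposite.op_smul, smul_assoc, TensorProduct.smul_tmul'])
        (fun u v v' => by rw [add_smul, TensorProduct.tmul_add])
        (fun c u v => by rw [smul_assoc, TensorProduct.tmul_smul]))
    have hΨ : ∀ u v : H, Ψ (u ⊗ₜ v) = G (TT.mk (op u • x) (v • n)) := fun u v => rfl
    have h := congrArg Ψ (hc_id2 a (ℛ k a) (fun i => ℛ k ((ℛ k a).right i)))
    simp only [map_sum, hΨ] at h
    rw [h, MulOpposite.op_one, one_smul]

/-- Functoriality of `TT`. -/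
private theorem exists_TTmap {N' : Type u} [AddCommGroup N'] [Module k N'] [Module H N']
    [IsScalarTower k H N'] (f : N' →ₗ[H] N) (hf : Function.Injective f) :
    ∃ F : TT k H N' →ₗ[H] TT k H N, Function.Injective F ∧
      ∀ x n, F (TT.mk x n) = TT.mk x (f n) := by
  let F0 : LD k H ⊗[k] N' →ₗ[k] LD k H ⊗[k] N := LinearMap.lTensor (LD k H) (f.restrictScalars k)
  let F1 : TT k H N' →ₗ[k] TT k H N := F0
  have hF : ∀ x n, F1 (TT.mk x n) = TT.mk x (f n) := fun x n => rfl
  have hlin : ∀ (a : H) (t : TT k H N'), F1 (a • t) = a • F1 t := by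
    intro a t
    induction t using TT.ind with
    | h0 => rw [smul_zero, map_zero, smul_zero]
    | h2 s t hs ht => rw [smul_add, map_add, hs, ht, map_add, smul_add]
    | h1 x n =>
      rw [TT.smul_mk a (ℛ k a), map_sum, hF, TT.smul_mk a (ℛ k a)]
      refine Finset.sum_congr rfl fun i _ => ?_
      rw [hF, map_smul]
  refine ⟨{ toFun := F1, map_add' := map_add F1, map_smul' := hlin }, ?_, hF⟩
  exact Module.Flat.lTensor_preserves_injective_linearMap (M := LD k H) (f.restrictScalars k) hf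

end TTthm

theorem ZZ_injective (hY : Injective (ModuleCat.of H Y)) :
    Injective (ModuleCat.of H (ZZ k H Y)) := by
  rw [← Module.injective_iff_injective_object] at hY ⊢
  refine ⟨fun N' N _ _ _ _ f hf g => ?_⟩
  let : Module k N := Module.restrictScalars k H N
  let : Module k N' := Module.restrictScalars k H N'
  have : IsScalarTower k H N := IsScalarTower.restrictScalars k H N
  have : IsScalarTower k H N' := IsScalarTower.restrictScalars k H N'
  obtain ⟨G', hG'⟩ := exists_toTT (k := k) (H := H) (Y := Y) g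
  obtain ⟨F, hFi, hF⟩ := exists_TTmap (k := k) (H := H) f hf
  obtain ⟨G, hG⟩ := hY.out F hFi G'
  obtain ⟨g1, hg1⟩ := exists_ofTT (k := k) (H := H) (Y := Y) (N := N) G
  refine ⟨g1, fun n => ?_⟩
  refine LinearMap.ext fun x => ?_
  show (g1 (f n)).ev x = (g n).ev x
  rw [hg1, ← hF, hG, hG']

/-- `ZZ` is exact. -/
private theorem zz_step {I Y' : Type u} [AddCommGroup I] [Module k I] [Module H I]
    [IsScalarTower k H I] [AddCommGroup Y'] [Module k Y'] [Module H Y'] [IsScalarTower k H Y']
    (f : Y →ₗ[H] I) (g : I →ₗ[H] Y') (hf : Function.Injective f) (hg : Function.Surjective g)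
    (hfg : ∀ y, g y = 0 ↔ ∃ x, f x = y) (hI : Injective (ModuleCat.of H I)) (n : ℕ) :
    (HasInjectiveDimensionLT (ModuleCat.of H Y') (n + 1) ↔
      HasInjectiveDimensionLT (ModuleCat.of H Y) (n + 2)) ∧
    (HasInjectiveDimensionLT (ModuleCat.of H (ZZ k H Y')) (n + 1) ↔
      HasInjectiveDimensionLT (ModuleCat.of H (ZZ k H Y)) (n + 2)) := by
  constructor
  · have h0 : ModuleCat.ofHom f ≫ ModuleCat.ofHom g = 0 := by
      ext y
      exact (hfg _).2 ⟨y, rfl⟩
    have hS : (ShortComplex.mk (ModuleCat.ofHom f) (ModuleCat.ofHom g) h0).ShortExact := by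
      refine ShortComplex.ShortExact.mk' ?_ ((ModuleCat.mono_iff_injective _).2 hf)
        ((ModuleCat.epi_iff_surjective _).2 hg)
      rw [ShortComplex.moduleCat_exact_iff]
      intro y hy
      exact (hfg y).1 hy
    exact hS.hasInjectiveDimensionLT_X₃_iff n hI
  · obtain ⟨p, hp⟩ := LinearMap.exists_leftInverse_of_injective (f.restrictScalars k)
      (LinearMap.ker_eq_bot.2 hf)
    obtain ⟨s, hs⟩ := LinearMap.exists_rightInverse_of_surjective (g.restrictScalars k)
      (LinearMap.range_eq_top.2 hg)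
    have h0 : ModuleCat.ofHom (ZZ.map (k := k) f) ≫ ModuleCat.ofHom (ZZ.map (k := k) g) = 0 := by
      ext φ
      refine LinearMap.ext fun x => ?_
      exact (hfg _).2 ⟨φ.ev x, rfl⟩
    have hS : (ShortComplex.mk (ModuleCat.ofHom (ZZ.map (k := k) f))
        (ModuleCat.ofHom (ZZ.map (k := k) g)) h0).ShortExact := by
      refine ShortComplex.ShortExact.mk' ?_ ((ModuleCat.mono_iff_injective _).2 ?_)
        ((ModuleCat.epi_iff_surjective _).2 ?_)
      · rw [ShortComplex.moduleCat_exact_iff]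
        intro φ hφ
        have h1 : ∀ x, g ((φ : ZZ k H I).ev x) = 0 := fun x =>
          LinearMap.congr_fun (show (ZZ.map (k := k) g φ).ev = 0 from congrArg ZZ.ev hφ) x
        refine ⟨(ZZ.mk (p ∘ₗ (φ : ZZ k H I).ev) : ZZ k H Y), LinearMap.ext fun x => ?_⟩
        show f (p ((φ : ZZ k H I).ev x)) = (φ : ZZ k H I).ev x
        obtain ⟨y, hy⟩ := (hfg _).1 (h1 x)
        rw [← hy]
        have h2 : p (f y) = y := LinearMap.congr_fun hp y
        rw [h2]
      · intro φ ψ h
        refine LinearMap.ext fun x => hf ?_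
        exact LinearMap.congr_fun (congrArg ZZ.ev h) x
      · intro φ
        refine ⟨(ZZ.mk (s ∘ₗ (φ : ZZ k H Y').ev) : ZZ k H I), LinearMap.ext fun x => ?_⟩
        exact LinearMap.congr_fun hs ((φ : ZZ k H Y').ev x)
    exact hS.hasInjectiveDimensionLT_X₃_iff n (ZZ_injective hI)

theorem injDimLE_ZZ (n : ℕ) (hY : HasInjectiveDimensionLE (ModuleCat.of H Y) n) :
    HasInjectiveDimensionLE (ModuleCat.of H (ZZ k H Y)) n := by
  induction n generalizing Y with
  | zero =>
    have h1 : Injective (ModuleCat.of H Y) := injective_iff_hasInjectiveDimensionLT_one.2 hY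
    exact injective_iff_hasInjectiveDimensionLT_one.1 (ZZ_injective h1)
  | succ n ih =>
    obtain ⟨I, hI⟩ : ∃ I : ModuleCat.{u} H, I = Injective.under (ModuleCat.of H Y) := ⟨_, rfl⟩
    obtain ⟨f, hf⟩ : ∃ f : ModuleCat.of H Y ⟶ I, Mono f := by
      subst hI
      exact ⟨Injective.ι _, inferInstance⟩
    have hII : Injective I := by
      rw [hI]
      infer_instance
    have hfi : Function.Injective f.hom := (ModuleCat.mono_iff_injective f).1 hf
    let : Module k I := Module.restrictScalars k H I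
    have : IsScalarTower k H I := IsScalarTower.restrictScalars k H I
    obtain ⟨e1, e2⟩ := zz_step (k := k) (Y := Y) (I := I) (Y' := I ⧸ LinearMap.range f.hom) f.hom
      (LinearMap.range f.hom).mkQ hfi (Submodule.mkQ_surjective _) (fun y => by
        rw [Submodule.mkQ_apply, Submodule.Quotient.mk_eq_zero]
        exact Iff.rfl) hII n
    exact e2.1 (ih (e1.2 hY))

end BGN
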