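import Pool.Agent.BGN.HopI
import Pool.Agent.BGN.Bnd

/-!
# BGN HopD: `Ext^i(k, H) = 0` if `Bd ε i B` holds for all bimodules `B`

PROOF of `exists_twBiMod`.  `W = Fin m → H` with the left multiplication,
`(w b)_c = ∑_l w_l Θ(b)_{lc}`, `Θ(b)_{lc} = ∑ θ(b₁)_{lc} b₂`.  `Θ(ab) = Θ(a) Θ(b)`, `Θ(1) = 1`,
`Θ(c) = c` for `c ∈ k` (`θ` and `Δ` are algebra homomorphisms).  `finL`: clear.  `finR`: the unit
vectors `ε_l` generate: `a ε_l = ∑_c (ε_c · a₂) θ(S a₁)_{lc}`, i.e. `ε_c` multiplied by
`∑ θ(S a₁)_{lc} a₂` on the right and summed over `c`: this is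
`∑_{c,d} θ(S a₁)_{lc} θ(a₂)_{cd} a₃ ε_d = ∑_d θ(S(a₁) a₂)_{ld} a₃ ε_d = a ε_l`.

PROOF of `ext_triv_zero`.  `E = Ext^i(k, H)`, finite dimensional (`ext_finite`), basis `e_1..e_m`.
For `b ∈ H` let `ρ_b : H → H` be right multiplication (left linear), `e · b = e.comp (mk₀ ρ_b)`;
`(e · a) · b = e · (a b)`, `e · 1 = e`, `k`-linear in `b`.  Write `e_p · b = ∑_l A(b)_{lp} e_l`; then
`A(a b) = A(b) A(a)`, and `θ(b) = A(S b)` is an algebra homomorphism (`antipode_mul_antidistrib`,
`antipode_one`).  Take `B, e` from `exists_twBiMod θ`.  Let `q_l : H → H^m`, `p_l : H^m → H` be the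
coordinate maps, `c = ∑_l e_l.comp (mk₀ q_l) ∈ Ext^i(k, H^m)`.  Multiplication by `b` on `H^m`
composed with `q_l` is `∑_c (∑ θ(b₁)_{lc} ρ_{b₂}) ≫ q_c`, so
`c · b = ∑_c (∑ (∑_l θ(b₁)_{lc} e_l) · b₂) q_c = ∑_c (∑ (e_c · S(b₁)) · b₂) q_c = ∑_c ε(b) e_c q_c
= ε(b) c`.  By hypothesis (`V = k`, `finDim_trivMod`) there is `b`, `ε(b) = 1`, with `c = c · b`
removable; so `e_l = c.comp (mk₀ p_l)` is removable (`Removable.comp`) and hence zero
(`eq_zero_of_removable`).  So `E = 0`.
-/

namespace BGN

open CategoryTheory Abelian Coalgebra HopfAlgebra TensorProduct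

universe u

variable {k : Type u} [Field k] {H : Type u} [Ring H] [HopfAlgebra k H]

section slice

/-- `slr f a = ∑ f(a₁) a₂`. -/
private noncomputable def slr (f : H →ₗ[k] k) : H →ₗ[k] H :=
  (TensorProduct.lid k H).toLinearMap ∘ₗ (LinearMap.rTensor H f) ∘ₗ Coalgebra.comul

private theorem slr_repr (f : H →ₗ[k] k) (a : H) {ι : Type*} (r : Coalgebra.Repr k a ι) :
    slr f a = ∑ i ∈ r.index, f (r.left i) • r.right i := by
  unfold slr
  simp only [LinearMap.comp_apply]
  rw [← r.eq, map_sum, map_sum]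
  refine Finset.sum_congr rfl (fun i _ => ?_)
  simp

/-- Convolution of functionals. -/
private noncomputable def cvl (f g : H →ₗ[k] k) : H →ₗ[k] k :=
  LinearMap.mul' k k ∘ₗ TensorProduct.map f g ∘ₗ Coalgebra.comul

private theorem cvl_repr (f g : H →ₗ[k] k) (a : H) {ι : Type*} (r : Coalgebra.Repr k a ι) :
    cvl f g a = ∑ i ∈ r.index, f (r.left i) * g (r.right i) := by
  unfold cvl
  simp only [LinearMap.comp_apply]
  rw [← r.eq, map_sum, map_sum]
  refine Finset.sum_congr rfl (fun i _ => ?_)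
  simp

private theorem slr_slr (f g : H →ₗ[k] k) (a : H) : slr g (slr f a) = slr (cvl f g) a := by
  have key : (TensorProduct.lid k H).toLinearMap ∘ₗ
      LinearMap.rTensor H (LinearMap.mul' k k ∘ₗ TensorProduct.map f g)
      = (TensorProduct.lid k H).toLinearMap ∘ₗ
        TensorProduct.map f ((TensorProduct.lid k H).toLinearMap ∘ₗ LinearMap.rTensor H g) ∘ₗ
        (TensorProduct.assoc k H H H).toLinearMap := by
    apply TensorProduct.ext_threefold
    intro x y z
    simp [smul_smul, mul_comm]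
  have h1 : slr g ∘ₗ (TensorProduct.lid k H).toLinearMap ∘ₗ LinearMap.rTensor H f
      = (TensorProduct.lid k H).toLinearMap ∘ₗ
        TensorProduct.map f ((TensorProduct.lid k H).toLinearMap ∘ₗ LinearMap.rTensor H g) ∘ₗ
        LinearMap.lTensor H Coalgebra.comul := by
    apply TensorProduct.ext'
    intro x y
    simp [slr]
  have h2 := LinearMap.congr_fun h1 (Coalgebra.comul a)
  have h3 := LinearMap.congr_fun key (LinearMap.rTensor H Coalgebra.comul (Coalgebra.comul a))
  have h4 := Coalgebra.coassoc_apply (R := k) a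
  simp only [LinearMap.comp_apply, LinearEquiv.coe_coe] at h2 h3
  rw [h4] at h3
  change slr g ((TensorProduct.lid k H) (LinearMap.rTensor H f (Coalgebra.comul a))) = _
  rw [h2, ← h3]
  change _ = (TensorProduct.lid k H) (LinearMap.rTensor H (cvl f g) (Coalgebra.comul a))
  congr 1
  rw [← LinearMap.comp_apply, ← LinearMap.rTensor_comp]
  rfl

private theorem slr_counit (a : H) : slr (counit (R := k)) a = a := by
  unfold slr
  simp

private theorem slr_sum {ι : Type*} (s : Finset ι) (F : ι → (H →ₗ[k] k)) (a : H) :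
    slr (∑ d ∈ s, F d) a = ∑ d ∈ s, slr (F d) a := by
  have r := Coalgebra.Repr.arbitrary k a
  rw [slr_repr _ a r]
  simp_rw [slr_repr _ a r, LinearMap.sum_apply, Finset.sum_smul]
  exact Finset.sum_comm

private theorem slr_zero (a : H) : slr (0 : H →ₗ[k] k) a = 0 := by
  simp [slr]

variable {m : ℕ}

/-- Entries. -/
private noncomputable def entl (σ : H →ₗ[k] Matrix (Fin m) (Fin m) k) (b c : Fin m) :
    H →ₗ[k] k where
  toFun a := σ a b c
  map_add' x y := by rw [map_add]; rfl
  map_smul' x y := by rw [map_smul]; rfl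

private theorem entl_left (ρ : H →ₐ[k] Matrix (Fin m) (Fin m) k) (b c : Fin m) :
    ∑ d, cvl (entl (ρ.toLinearMap ∘ₗ antipode k) b d) (entl ρ.toLinearMap d c)
      = if b = c then counit (R := k) else 0 := by
  ext a
  have r := Coalgebra.Repr.arbitrary k a
  rw [LinearMap.sum_apply]
  simp_rw [cvl_repr _ _ a r]
  rw [Finset.sum_comm]
  have h1 : ∀ i, ∑ d, entl (ρ.toLinearMap ∘ₗ antipode k) b d (r.left i) *
      entl ρ.toLinearMap d c (r.right i) = ρ (antipode k (r.left i) * r.right i) b c := by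
    intro i
    rw [map_mul, Matrix.mul_apply]
    rfl
  simp_rw [h1]
  have h2 : ∑ i ∈ r.index, ρ (antipode k (r.left i) * r.right i) b c
      = ρ (∑ i ∈ r.index, antipode k (r.left i) * r.right i) b c := by
    rw [map_sum, Matrix.sum_apply]
  rw [h2, sum_antipode_mul_eq_smul, map_smul, map_one, Matrix.smul_apply, Matrix.one_apply]
  split_ifs
  · rw [smul_eq_mul, mul_one]
  · rw [smul_zero, LinearMap.zero_apply]

/-- `a ↦ ∑ θ(a₁) a₂`. -/
private noncomputable def twl (θ : H →ₐ[k] Matrix (Fin m) (Fin m) k) :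
    H →ₐ[k] Matrix (Fin m) (Fin m) H :=
  ((matrixEquivTensor (Fin m) k H).symm : H ⊗[k] Matrix (Fin m) (Fin m) k →ₐ[k] _).comp
    (((Algebra.TensorProduct.comm k (Matrix (Fin m) (Fin m) k) H :
      Matrix (Fin m) (Fin m) k ⊗[k] H ≃ₐ[k] _) : _ →ₐ[k] _).comp
    ((Algebra.TensorProduct.map θ (AlgHom.id k H)).comp (Bialgebra.comulAlgHom k H)))

private theorem twl_apply (θ : H →ₐ[k] Matrix (Fin m) (Fin m) k) (a : H) {ι : Type*}
    (r : Coalgebra.Repr k a ι) (b c : Fin m) :
    twl θ a b c = ∑ i ∈ r.index, θ (r.left i) b c • r.right i := by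
  unfold twl
  have h : Bialgebra.comulAlgHom k H a = ∑ i ∈ r.index, r.left i ⊗ₜ[k] r.right i := r.eq.symm
  rw [AlgHom.comp_apply, AlgHom.comp_apply, AlgHom.comp_apply, h, map_sum, map_sum, map_sum,
    Matrix.sum_apply]
  refine Finset.sum_congr rfl (fun i _ => ?_)
  rw [Algebra.TensorProduct.map_tmul]
  change ((matrixEquivTensor (Fin m) k H).symm (r.right i ⊗ₜ θ (r.left i))) b c = _
  rw [matrixEquivTensor_apply_symm, Matrix.smul_apply, Matrix.map_apply, smul_eq_mul,
    ← Algebra.commutes, ← Algebra.smul_def]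

private theorem twl_slr (θ : H →ₐ[k] Matrix (Fin m) (Fin m) k) (a : H) (b c : Fin m) :
    twl θ a b c = slr (entl θ.toLinearMap b c) a := by
  have r := Coalgebra.Repr.arbitrary k a
  rw [twl_apply θ a r, slr_repr _ a r]
  rfl

/-- `a ε_l = ∑_c ε_c b_c`, `b_c = ∑ θ(S a₁)_{lc} a₂`. -/
private theorem twl_gen (θ : H →ₐ[k] Matrix (Fin m) (Fin m) k) (a : H) (l d : Fin m) :
    ∑ c, twl θ (slr (entl (θ.toLinearMap ∘ₗ antipode k) l c) a) c d = if l = d then a else 0 := by
  simp_rw [twl_slr, slr_slr]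
  rw [← slr_sum, entl_left]
  split_ifs
  · exact slr_counit a
  · exact slr_zero a

end slice

private theorem hopD_one_ne_zero (k : Type u) [Field k] (H : Type u) [Ring H]
    [HopfAlgebra k H] : (1 : H) ≠ 0 := by
  intro h
  have h1 := congrArg (counit (R := k)) h
  rw [map_zero] at h1
  have h2 : counit (R := k) (1 : H) = 1 := Bialgebra.counit_one
  rw [h2] at h1
  exact one_ne_zero h1

theorem exists_twBiMod [IsNoetherianRing H] {m : ℕ} (θ : H →ₐ[k] Matrix (Fin m) (Fin m) k) :
    ∃ (B : BiMod k H) (e : B.W ≅ ModuleCat.of H (Fin m → H)),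
      ∀ (b : H) (ι : Type u) (r : Coalgebra.Repr k b ι) (v : B.W) (c : Fin m),
        (e.hom (B.r b v) : Fin m → H) c =
          ∑ l, ∑ i ∈ r.index, θ (r.left i) l c • ((e.hom v : Fin m → H) l * r.right i) := by
  classical
  refine ⟨{ W := ModuleCat.of H (Fin m → H)
            r := fun b => ModuleCat.ofHom (dl (twl θ b))
            r_add := ?_, r_mul := ?_, r_one := ?_, r_alg := ?_, finL := ?_, finR := ?_ },
    Iso.refl _, ?_⟩
  · intro a b
    rw [map_add]
    refine ModuleCat.hom_ext (LinearMap.ext fun v => ?_)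
    change Matrix.vecMul v (twl θ a + twl θ b) = Matrix.vecMul v (twl θ a) + Matrix.vecMul v (twl θ b)
    exact Matrix.vecMul_add _ _ _
  · intro a b
    rw [map_mul]
    refine ModuleCat.hom_ext (LinearMap.ext fun v => ?_)
    change Matrix.vecMul v (twl θ a * twl θ b) = Matrix.vecMul (Matrix.vecMul v (twl θ a)) (twl θ b)
    exact (Matrix.vecMul_vecMul _ _ _).symm
  · rw [map_one]
    refine ModuleCat.hom_ext (LinearMap.ext fun v => ?_)
    change Matrix.vecMul v 1 = v
    exact Matrix.vecMul_one v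
  · intro c w
    change Matrix.vecMul w (twl θ (algebraMap k H c)) = algebraMap k H c • w
    rw [AlgHom.commutes]
    funext l
    change ∑ j, w j * (algebraMap k (Matrix (Fin m) (Fin m) H) c) j l = algebraMap k H c * w l
    rw [Finset.sum_eq_single l]
    · rw [Matrix.algebraMap_matrix_apply, if_pos rfl, Algebra.commutes]
    · intro j _ hj
      rw [Matrix.algebraMap_matrix_apply, if_neg hj, mul_zero]
    · intro h
      exact absurd (Finset.mem_univ l) h
  · change Module.Finite H (Fin m → H)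
    infer_instance
  · let ε : Fin m → (Fin m → H) := fun l => Pi.single l 1
    have hε : Function.Injective ε := by
      intro l l' h
      by_contra hne
      have h1 := congrFun h l
      have h2 : ε l l = 1 := Pi.single_eq_same l 1
      have h3 : ε l' l = 0 := Pi.single_eq_of_ne hne 1
      rw [h2, h3] at h1
      exact hopD_one_ne_zero k H h1
    refine ⟨Finset.univ.image ε, fun w => ?_⟩
    let β : Fin m → H := fun c => ∑ l, slr (entl (θ.toLinearMap ∘ₗ antipode k) l c) ((w : Fin m → H) l)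
    refine ⟨Function.extend ε β 0, ?_⟩
    rw [Finset.sum_image (fun a _ b _ h => hε h)]
    have h1 : ∀ c, Function.extend ε β 0 (ε c) = β c := fun c => hε.extend_apply β 0 c
    simp only [h1]
    change (w : Fin m → H) = ∑ c, Matrix.vecMul (ε c) (twl θ (β c))
    funext d
    rw [Finset.sum_apply]
    have h2 : ∀ c, Matrix.vecMul (ε c) (twl θ (β c)) d
        = ∑ l, twl θ (slr (entl (θ.toLinearMap ∘ₗ antipode k) l c) ((w : Fin m → H) l)) c d := by
      intro c
      have h3 : Matrix.vecMul (ε c) (twl θ (β c)) = (twl θ (β c)) c := by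
        exact Matrix.single_one_vecMul c _
      rw [h3]
      change twl θ (∑ l, _) c d = _
      rw [map_sum, Matrix.sum_apply]
    simp only [h2]
    rw [Finset.sum_comm]
    simp only [twl_gen]
    rw [Finset.sum_ite_eq' Finset.univ d]
    rw [if_pos (Finset.mem_univ d)]
  · intro b ι r v c
    change Matrix.vecMul (v : Fin m → H) (twl θ b) c = _
    change ∑ l, (v : Fin m → H) l * twl θ b l c = ∑ l, ∑ i ∈ r.index, θ (r.left i) l c •
      ((v : Fin m → H) l * r.right i)
    refine Finset.sum_congr rfl fun l _ => ?_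
    rw [twl_apply θ b r, Finset.mul_sum]
    refine Finset.sum_congr rfl fun i _ => ?_
    rw [mul_smul_comm]

/-- Right multiplication. -/
private noncomputable def rho (b : H) : ModuleCat.of H H ⟶ ModuleCat.of H H :=
  ModuleCat.ofHom (LinearMap.toSpanSingleton H H b)

private theorem rho_apply (b x : H) : rho b x = x * b := rfl

private theorem rho_add (a b : H) : rho (a + b) = rho a + rho b :=
  ModuleCat.hom_ext (LinearMap.ext fun x => mul_add (x : H) a b)

private theorem rho_mul (a b : H) : rho (a * b) = rho a ≫ rho b :=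
  ModuleCat.hom_ext (LinearMap.ext fun x => (mul_assoc (x : H) a b).symm)

private theorem rho_one : rho (1 : H) = 𝟙 _ :=
  ModuleCat.hom_ext (LinearMap.ext fun x => mul_one (x : H))

private theorem mk_rho_smul (c : k) (b : H) :
    Ext.mk₀ (rho (c • b)) = c • Ext.mk₀ (rho b) := by
  rw [← Ext.mk₀_smul]
  congr 1
  refine ModuleCat.hom_ext (LinearMap.ext fun x => ?_)
  change (x : H) * (c • b) = algebraMap k H c * ((x : H) * b)
  rw [mul_smul_comm, Algebra.smul_def]

/-- Right multiplication on `Ext`. -/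
private noncomputable def RR (V : ModuleCat.{u} H) (i : ℕ) :
    H →ₗ[k] Module.End k (Ext V (ModuleCat.of H H) i) where
  toFun b :=
    { toFun := fun x => x.comp (Ext.mk₀ (rho b)) (add_zero i)
      map_add' := fun x y => Ext.add_comp _ _ _ _
      map_smul' := fun c x => Ext.smul_comp _ _ _ _ }
  map_add' a b := by
    refine LinearMap.ext fun x => ?_
    change x.comp (Ext.mk₀ (rho (a + b))) (add_zero i) = x.comp (Ext.mk₀ (rho a)) (add_zero i)
      + x.comp (Ext.mk₀ (rho b)) (add_zero i)
    rw [rho_add, Ext.mk₀_add, Ext.comp_add]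
  map_smul' c b := by
    refine LinearMap.ext fun x => ?_
    change x.comp (Ext.mk₀ (rho (c • b))) (add_zero i)
      = c • x.comp (Ext.mk₀ (rho b)) (add_zero i)
    rw [mk_rho_smul, Ext.comp_smul]

private theorem RR_apply (V : ModuleCat.{u} H) (i : ℕ) (b : H)
    (x : Ext V (ModuleCat.of H H) i) :
    RR (k := k) V i b x = x.comp (Ext.mk₀ (rho b)) (add_zero i) := rfl

private theorem RR_mul (V : ModuleCat.{u} H) (i : ℕ) (a b : H) :
    RR (k := k) V i (a * b) = RR V i b * RR V i a := by
  refine LinearMap.ext fun x => ?_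
  change x.comp (Ext.mk₀ (rho (a * b))) (add_zero i)
    = (x.comp (Ext.mk₀ (rho a)) (add_zero i)).comp (Ext.mk₀ (rho b)) (add_zero i)
  rw [bnd_comp2, rho_mul]

private theorem RR_one (V : ModuleCat.{u} H) (i : ℕ) : RR (k := k) V i 1 = 1 := by
  refine LinearMap.ext fun x => ?_
  change x.comp (Ext.mk₀ (rho 1)) (add_zero i) = x
  rw [rho_one, Ext.comp_mk₀_id]

/-- The matrix representation. -/
private theorem exists_theta {m : ℕ} (V : ModuleCat.{u} H) (i : ℕ)
    (e : Module.Basis (Fin m) k (Ext V (ModuleCat.of H H) i)) :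
    ∃ θ : H →ₐ[k] Matrix (Fin m) (Fin m) k, ∀ (b : H) (c : Fin m),
      RR (k := k) V i (antipode k b) (e c) = ∑ l, θ b l c • e l := by
  classical
  refine ⟨AlgHom.ofLinearMap
    ((LinearMap.toMatrixAlgEquiv e).toLinearMap ∘ₗ RR (k := k) V i ∘ₗ antipode k) ?_ ?_, ?_⟩
  · change LinearMap.toMatrixAlgEquiv e (RR (k := k) V i (antipode k 1)) = 1
    rw [antipode_one, RR_one, map_one]
  · intro x y
    change LinearMap.toMatrixAlgEquiv e (RR (k := k) V i (antipode k (x * y)))
      = LinearMap.toMatrixAlgEquiv e (RR (k := k) V i (antipode k x)) *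
        LinearMap.toMatrixAlgEquiv e (RR (k := k) V i (antipode k y))
    rw [antipode_mul_antidistrib, RR_mul, map_mul]
  · intro b c
    change _ = ∑ l, LinearMap.toMatrixAlgEquiv e (RR (k := k) V i (antipode k b)) l c • e l
    simp only [LinearMap.toMatrixAlgEquiv_apply]
    rw [Module.Basis.sum_repr]

private theorem key_sum {m : ℕ} (V : ModuleCat.{u} H) (i : ℕ)
    (e : Module.Basis (Fin m) k (Ext V (ModuleCat.of H H) i))
    (θ : H →ₐ[k] Matrix (Fin m) (Fin m) k)
    (hθ : ∀ (b : H) (c : Fin m), RR (k := k) V i (antipode k b) (e c) = ∑ l, θ b l c • e l)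
    (b : H) (c : Fin m) :
    ∑ l, RR (k := k) V i (twl θ b l c) (e l) = counit (R := k) b • e c := by
  have r := Coalgebra.Repr.arbitrary k b
  have h1 : ∀ l, RR (k := k) V i (twl θ b l c) (e l)
      = ∑ j ∈ r.index, θ (r.left j) l c • RR (k := k) V i (r.right j) (e l) := by
    intro l
    rw [twl_apply θ b r, map_sum, LinearMap.sum_apply]
    refine Finset.sum_congr rfl fun j _ => ?_
    rw [map_smul]
    rfl
  simp only [h1]
  rw [Finset.sum_comm]
  have h2 : ∀ j, ∑ l, θ (r.left j) l c • RR (k := k) V i (r.right j) (e l)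
      = RR (k := k) V i (antipode k (r.left j) * r.right j) (e c) := by
    intro j
    rw [RR_mul, Module.End.mul_apply, hθ, map_sum]
    refine Finset.sum_congr rfl fun l _ => ?_
    rw [map_smul]
  simp only [h2]
  have h3 : ∑ j ∈ r.index, RR (k := k) V i (antipode k (r.left j) * r.right j) (e c)
      = RR (k := k) V i (∑ j ∈ r.index, antipode k (r.left j) * r.right j) (e c) := by
    rw [map_sum, LinearMap.sum_apply]
  rw [h3, sum_antipode_mul_eq_smul, map_smul, RR_one]
  rfl

theorem ext_triv_zero [IsNoetherianRing H] [IsNoetherianRing Hᵐᵒᵖ] (h : NormalSep k H) (i : ℕ)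
    (hi : ∀ B : BiMod k H, Bd (Bialgebra.counitAlgHom k H) i B)
    (x : Ext (trv k H) (ModuleCat.of H H) i) : x = 0 := by
  classical
  have hV : FinDim k H (trv k H) := finDim_trivMod (Bialgebra.counitAlgHom k H)
  have hfin : Module.Finite k (Ext (trv k H) (ModuleCat.of H H) i) :=
    ext_finite h (trv k H) hV (ModuleCat.of H H) i
  obtain ⟨m, ⟨e⟩⟩ : ∃ m : ℕ, Nonempty (Module.Basis (Fin m) k
      (Ext (trv k H) (ModuleCat.of H H) i)) := ⟨_, ⟨Module.finBasis k _⟩⟩
  obtain ⟨θ, hθ⟩ := exists_theta (trv k H) i e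
  obtain ⟨B, eW, hB⟩ := exists_twBiMod θ
  obtain ⟨b, hb, hrem⟩ := hi B (trv k H) hV
  let q : ∀ _ : Fin m, ModuleCat.of H H ⟶ ModuleCat.of H (Fin m → H) :=
    fun l => ModuleCat.ofHom (LinearMap.single H (fun _ => H) l)
  let s : ∀ _ : Fin m, ModuleCat.of H H ⟶ B.W := fun l => q l ≫ eW.inv
  have hs : ∀ l, s l ≫ B.r b = ∑ c, rho (twl θ b l c) ≫ s c := by
    intro l
    rw [← cancel_mono eW.hom]
    have e1 : (∑ c, rho (twl θ b l c) ≫ s c) ≫ eW.hom = ∑ c, rho (twl θ b l c) ≫ q c := by
      rw [Preadditive.sum_comp]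
      refine Finset.sum_congr rfl fun c _ => ?_
      simp only [s, Category.assoc, Iso.inv_hom_id, Category.comp_id]
    rw [e1]
    refine ModuleCat.hom_ext (LinearMap.ext fun x => ?_)
    funext c
    have e2 : ((s l ≫ B.r b) ≫ eW.hom).hom x = eW.hom (B.r b (eW.inv (q l x))) := rfl
    have r := Coalgebra.Repr.arbitrary k b
    rw [e2, hB b _ r]
    have e3 : eW.hom (eW.inv (q l x)) = q l x := by
      rw [← ModuleCat.comp_apply, Iso.inv_hom_id]
      rfl
    rw [e3]
    have e4 : ∀ l', (q l x : Fin m → H) l' = if l' = l then (x : H) else 0 := by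
      intro l'
      change (Pi.single l (x : H) : Fin m → H) l' = _
      rw [Pi.single_apply]
    simp only [e4]
    rw [Finset.sum_eq_single l]
    · simp only [if_true]
      have e5 : ((∑ c, rho (twl θ b l c) ≫ q c).hom x : Fin m → H) c = (x : H) * twl θ b l c := by
        rw [ModuleCat.hom_sum, LinearMap.sum_apply, Finset.sum_apply, Finset.sum_eq_single c]
        · change (Pi.single c ((x : H) * twl θ b l c) : Fin m → H) c = _
          rw [Pi.single_eq_same]
        · intro c' _ hc'
          change (Pi.single c' ((x : H) * twl θ b l c') : Fin m → H) c = _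
          rw [Pi.single_eq_of_ne (Ne.symm hc')]
        · intro h
          exact absurd (Finset.mem_univ c) h
      rw [e5, twl_apply θ b r, Finset.mul_sum]
      refine Finset.sum_congr rfl fun j _ => ?_
      rw [mul_smul_comm]
    · intro l' _ hl'
      refine Finset.sum_eq_zero fun j _ => ?_
      rw [if_neg hl', zero_mul, smul_zero]
    · intro h
      exact absurd (Finset.mem_univ l) h
  let C : Ext (trv k H) B.W i := ∑ l, (e l).comp (Ext.mk₀ (s l)) (add_zero i)
  have hC : C.comp (Ext.mk₀ (B.r b)) (add_zero i) = C := by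
    have h1 : C.comp (Ext.mk₀ (B.r b)) (add_zero i)
        = ∑ l, ∑ c, (RR (k := k) (trv k H) i (twl θ b l c) (e l)).comp (Ext.mk₀ (s c)) (add_zero i) := by
      change (∑ l, (e l).comp (Ext.mk₀ (s l)) (add_zero i)).comp _ _ = _
      rw [Ext.sum_comp]
      refine Finset.sum_congr rfl fun l _ => ?_
      rw [bnd_comp2, hs, Ext.mk₀_sum, Ext.comp_sum]
      refine Finset.sum_congr rfl fun c _ => ?_
      rw [RR_apply, bnd_comp2]
    rw [h1, Finset.sum_comm]
    refine Finset.sum_congr rfl fun c _ => ?_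
    rw [← Ext.sum_comp, key_sum (trv k H) i e θ hθ b c]
    have h2 : counit (R := k) b = 1 := hb
    rw [h2, one_smul]
  have hCr : Removable k C := by
    rw [← hC]
    exact hrem C
  have he : ∀ l, e l = 0 := by
    intro l
    have h1 : C.comp (Ext.mk₀ (eW.hom ≫ ModuleCat.ofHom (LinearMap.proj l))) (add_zero i) = e l := by
      change (∑ l, (e l).comp (Ext.mk₀ (s l)) (add_zero i)).comp _ _ = _
      rw [Ext.sum_comp, Finset.sum_eq_single l]
      · rw [bnd_comp2]
        have h2 : s l ≫ eW.hom ≫ ModuleCat.ofHom (LinearMap.proj l) = 𝟙 _ := by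
          simp only [s, Category.assoc, Iso.inv_hom_id_assoc]
          refine ModuleCat.hom_ext (LinearMap.ext fun x => ?_)
          change (Pi.single l (x : H) : Fin m → H) l = x
          rw [Pi.single_eq_same]
        rw [h2, Ext.comp_mk₀_id]
      · intro l' _ hl'
        rw [bnd_comp2]
        have h2 : s l' ≫ eW.hom ≫ ModuleCat.ofHom (LinearMap.proj l) = 0 := by
          simp only [s, Category.assoc, Iso.inv_hom_id_assoc]
          refine ModuleCat.hom_ext (LinearMap.ext fun x => ?_)
          change (Pi.single l' (x : H) : Fin m → H) l = 0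
          rw [Pi.single_eq_of_ne (Ne.symm hl')]
        rw [h2, Ext.mk₀_zero, Ext.comp_zero]
      · intro h
        exact absurd (Finset.mem_univ l) h
    refine eq_zero_of_removable h (e l) ?_
    rw [← h1]
    exact Removable.comp hCr _ _
  rw [← Module.Basis.sum_repr e x]
  exact Finset.sum_eq_zero fun l _ => by rw [he l, smul_zero]

end BGN
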