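import Pool.Agent.BGN.HopB
import Pool.Agent.BGN.Rem

/-!
# BGN HopI: `Ext^i(-, H)` is exact on finite dimensional modules

PROOFS.
* `finrank_ext`: `LinearEquiv.finrank_eq`, `Module.finrank_pi` type lemma
  (`Module.finrank_fintype_fun_eq_card`, `Module.finrank_pi_fintype`); `Ext^i(k, H)` is finite
  dimensional by `ext_finite` (`finDim_trivMod`, `H` is finitely generated over itself).
* `ext_inj_of_surj`: `K = ker π`, `0 → K → V' → V → 0`.  By induction on `i`:
  `Ext^i(V, H) → Ext^i(V', H)` is injective and `Ext^i(V', H) → Ext^i(K, H)` is surjective.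
  Injectivity: for `i = 0` since `π` is epi; for `i + 1`: the kernel is the image of
  `Ext^i(K, H)` (`Ext.contravariant_sequence_exact₁/₃`), and the connecting map is zero as
  `Ext^i(V', H) → Ext^i(K, H)` is surjective.  Surjectivity in degree `i` from injectivity in
  degree `i`: exactness in the middle and
  `dim Ext^i(V', H) = dim Ext^i(V, H) + dim Ext^i(K, H)` (`finrank_ext`, `fdim_add`): the image has
  dimension `dim Ext^i(V') - dim Ext^i(V) = dim Ext^i(K)`.
* `eq_zero_of_removable`: definition of `Removable` and `ext_inj_of_surj`.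
* `ext_fd_zero`: `ext_tensor_equiv`.
-/

namespace BGN

open CategoryTheory Abelian Coalgebra HopfAlgebra

universe u

variable {k : Type u} [Field k] {H : Type u} [Ring H] [HopfAlgebra k H]

theorem finrank_ext [IsNoetherianRing H] [IsNoetherianRing Hᵐᵒᵖ] (h : NormalSep k H)
    (V : ModuleCat.{u} H) (hV : FinDim k H V) (i : ℕ) :
    Module.finrank k (Ext V (ModuleCat.of H H) i) =
      fdim k H V * Module.finrank k (Ext (trv k H) (ModuleCat.of H H) i) := by
  obtain ⟨e⟩ := ext_tensor_equiv V hV i
  have hfin : Module.Finite k (Ext (trv k H) (ModuleCat.of H H) i) :=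
    ext_finite h (trv k H) (finDim_trivMod (Bialgebra.counitAlgHom k H)) (ModuleCat.of H H) i
  rw [e.finrank_eq, Module.finrank_pi_fintype, Finset.sum_const, Finset.card_univ,
    Fintype.card_fin, smul_eq_mul]

/-- The short exact sequence of a surjective map. -/
private theorem hopI_ses {V V' : ModuleCat.{u} H} (π : V' ⟶ V) (hπ : Function.Surjective π) :
    ∃ hc : ModuleCat.ofHom (LinearMap.ker π.hom).subtype ≫ π = 0,
    (ShortComplex.mk (ModuleCat.ofHom (LinearMap.ker π.hom).subtype) π hc).ShortExact := by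
  refine ⟨?_, ?_⟩
  · ext x
    exact x.2
  · refine ModuleCat.shortComplex_shortExact _ ?_ ?_ ?_
    · intro x
      constructor
      · intro hx
        exact ⟨⟨x, hx⟩, rfl⟩
      · rintro ⟨y, rfl⟩
        exact y.2
    · exact Subtype.val_injective
    · exact hπ

/-- Surjectivity by counting dimensions. -/
private theorem hopI_count {A B C : Type u} [AddCommGroup A] [Module k A] [AddCommGroup B]
    [Module k B] [AddCommGroup C] [Module k C] (p : A →ₗ[k] B) (q : B →ₗ[k] C)
    (hp : Function.Injective p) (hq : ∀ b, q b = 0 ↔ ∃ a, p a = b) (hB : Module.Finite k B)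
    (hC : Module.Finite k C)
    (hd : Module.finrank k B = Module.finrank k A + Module.finrank k C) :
    Function.Surjective q := by
  have h1 : LinearMap.ker q = LinearMap.range p := by
    ext b
    exact hq b
  have h2 := LinearMap.finrank_range_add_finrank_ker q
  rw [h1, LinearMap.finrank_range_of_inj hp] at h2
  have h3 : Module.finrank k (LinearMap.range q) = Module.finrank k C := by omega
  exact LinearMap.range_eq_top.1 (Submodule.eq_top_of_finrank_eq h3)

theorem ext_inj_of_surj [IsNoetherianRing H] [IsNoetherianRing Hᵐᵒᵖ] (h : NormalSep k H)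
    {V V' : ModuleCat.{u} H} (hV' : FinDim k H V') (π : V' ⟶ V) (hπ : Function.Surjective π)
    (i : ℕ) (x : Ext V (ModuleCat.of H H) i) (hx : (Ext.mk₀ π).comp x (zero_add i) = 0) :
    x = 0 := by
  obtain ⟨hc, hS⟩ := hopI_ses π hπ
  have hK : FinDim k H (LinearMap.ker π.hom) :=
    hV'.of_injective (LinearMap.ker π.hom).subtype (LinearMap.ker π.hom).injective_subtype
  have hV : FinDim k H V := hV'.of_surjective π.hom hπ
  have hsur : ∀ i : ℕ, (∀ x : Ext V (ModuleCat.of H H) i,
      (Ext.mk₀ π).comp x (zero_add i) = 0 → x = 0) →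
      ∀ x₁ : Ext (ModuleCat.of H (LinearMap.ker π.hom)) (ModuleCat.of H H) i,
      ∃ x₂ : Ext V' (ModuleCat.of H H) i,
        (Ext.mk₀ (ModuleCat.ofHom (LinearMap.ker π.hom).subtype)).comp x₂ (zero_add i) = x₁ := by
    intro i hinj
    have hd : fdim k H V' = fdim k H (LinearMap.ker π.hom) + fdim k H V := by
      refine fdim_add hV' (LinearMap.ker π.hom).subtype π.hom
        (LinearMap.ker π.hom).injective_subtype hπ ?_
      intro v
      constructor
      · intro hv
        exact ⟨⟨v, hv⟩, rfl⟩
      · rintro ⟨y, rfl⟩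
        exact y.2
    refine hopI_count
      (Ext.precompOfLinear (Ext.mk₀ π) k (ModuleCat.of H H) (zero_add i))
      (Ext.precompOfLinear (Ext.mk₀ (ModuleCat.ofHom (LinearMap.ker π.hom).subtype)) k
        (ModuleCat.of H H) (zero_add i)) ?_ ?_ ?_ ?_ ?_
    · rw [injective_iff_map_eq_zero]
      exact fun x hx => hinj x hx
    · intro b
      constructor
      · intro hb
        obtain ⟨a, ha⟩ := Ext.contravariant_sequence_exact₂ hS (ModuleCat.of H H) b hb
        exact ⟨a, ha⟩
      · rintro ⟨a, rfl⟩
        change (Ext.mk₀ (ModuleCat.ofHom (LinearMap.ker π.hom).subtype)).comp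
          ((Ext.mk₀ π).comp a (zero_add i)) (zero_add i) = 0
        rw [Ext.mk₀_comp_mk₀_assoc, hc, Ext.mk₀_zero, Ext.zero_comp]
    · exact ext_finite h V' hV' (ModuleCat.of H H) i
    · exact ext_finite h (ModuleCat.of H (LinearMap.ker π.hom)) hK (ModuleCat.of H H) i
    · rw [finrank_ext h V' hV', finrank_ext h V hV,
        finrank_ext h (ModuleCat.of H (LinearMap.ker π.hom)) hK, hd]
      ring
  induction i with
  | zero =>
    have hepi : Epi π := (ModuleCat.epi_iff_surjective π).2 hπ
    refine Ext.precomp_mk₀_injective_of_epi (ModuleCat.of H H) π ?_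
    change (Ext.mk₀ π).comp x (zero_add 0) = (Ext.mk₀ π).comp 0 (zero_add 0)
    rw [hx, Ext.comp_zero]
  | succ i ih =>
    obtain ⟨x₁, hx₁⟩ := Ext.contravariant_sequence_exact₃ hS (ModuleCat.of H H) x hx
      (add_comm 1 i)
    obtain ⟨x₂, rfl⟩ := hsur i (fun x hx => ih x hx) x₁
    rw [← hx₁]
    exact hS.extClass_comp_assoc x₂

theorem eq_zero_of_removable [IsNoetherianRing H] [IsNoetherianRing Hᵐᵒᵖ] (h : NormalSep k H)
    {V : ModuleCat.{u} H} {i : ℕ} (x : Ext V (ModuleCat.of H H) i) (hx : Removable k x) :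
    x = 0 := by
  obtain ⟨V', π, hV', hπ, h0⟩ := hx
  exact ext_inj_of_surj h hV' π hπ i x h0

theorem ext_fd_zero [IsNoetherianRing H] (i : ℕ)
    (h0 : ∀ x : Ext (trv k H) (ModuleCat.of H H) i, x = 0) (V : ModuleCat.{u} H)
    (hV : FinDim k H V) (x : Ext V (ModuleCat.of H H) i) : x = 0 := by
  obtain ⟨e⟩ := ext_tensor_equiv V hV i
  apply e.injective
  funext j
  rw [h0 (e x j), map_zero]
  rfl

end BGN
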