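import Pool.Agent.BGN.Fde

/-!
# BGN LemKp: `Ext^i(M, V) → Ext^i(z M, V)` is zero, `V` finite dimensional

`P` prime of infinite codimension, `V` finite dimensional.  There is a normal element `z` modulo `P`
(depending on `V` and `i` only) such that for all finitely generated torsion free `M` killed by `P`
and all injective `j : N → M` with image `z M` the map `Ext^i(M, V) → Ext^i(N, V)` is zero.

PROOF of `kp_free`.  `A = R ⧸ P` as a left `R`-module; for `r ∈ R` right multiplication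
`ρ_r : A → A` is left `R`-linear (`P` two-sided), `ρ_{r s} = ρ_s ∘ ρ_r`.  `E = Ext^i(A, V)` is finite
dimensional over `k` (`ext_finite_of_finDim`), a left `R`-module by `r • x = (mk₀ ρ_r).comp x`
(`(r s) • x = r • (s • x)`), killed by `P`, `FinDim k R E` (`ρ_c = c • 𝟙` for `c ∈ k`,
`Ext.smul_comp`, `mk₀_smul`...).  So some `z`, `Nrm P z`, kills it (`exists_kill`), i.e.
`(mk₀ ρ_z).comp x = 0` for all `x`.  For `F = Fin n → A` (functions, the coordinate projections
`p_l` and inclusions `q_l`, `∑ p_l ≫ q_l = 𝟙`): coordinatewise right multiplication `ρ` by `z`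
satisfies `(mk₀ ρ).comp x = ∑ (mk₀ p_l).comp ((mk₀ ρ_z).comp ((mk₀ q_l).comp x)) = 0`.  If
`j : N → F` is injective with image `z F` (which is the image of `ρ` : `z A = A z` mod `P`,
normality, coordinatewise), then `ρ = φ ≫ j` with an isomorphism `φ : F ≅ N`
(`ρ` is injective by `right_reg`), so `(mk₀ j).comp x = 0`.

PROOF of `lemKp`.  Induction on `i`.
`i = 0`: `z` kills the submodule `{v ∈ V | P v = 0}` (`exists_kill`).  `x = mk₀ f`, `f : M → V` has
image in this submodule; `f (j n) = f (z m) = z f m = 0` (`Ext.mk₀_comp_mk₀`, `Ext.addEquiv₀`).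
`i + 1`: `z₁` from `kp_free` for degree `i + 1`, `z₂` from the induction hypothesis (degree `i`),
`z = z₂ z₁`.  Given `M`, generated by `m_1..m_n`: `π : F = Aⁿ → M`, kernel `M₁` (submodule of `F`):
finitely generated, killed by `P`, torsion free (`left_reg`).  For `z' = z₁` or `z = z₂ z₁` and any
torsion free `X` killed by `P` write `z' X` for the submodule `{z' x}` (normality).  There are
short exact sequences `S₁ : 0 → z₁ M₁ → z₁ F → z₁ M → 0` and `S : 0 → z M₁ → z F → z M → 0`
(`z' F ∩ M₁ = z' M₁` since `M` is torsion free: `z' f ∈ M₁` gives `z' π f = 0`, `π f = 0`) and a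
morphism `S → S₁` given by the inclusions.  Let `x ∈ Ext^{i+1}(M, V)`.  Its restriction to `z₁ M`
becomes zero on `z₁ F`, since `z₁ F → z₁ M → M` equals `z₁ F → F → M` and `kp_free`.  By
`Ext.contravariant_sequence_exact₃` (for `S₁`) the restriction of `x` to `z₁ M` is
`S₁.extClass.comp y`, `y ∈ Ext^i(z₁ M₁, V)`.  By `ShortExact.extClass_naturality` the restriction of
`x` to `z M` is `S.extClass.comp (y restricted to z M₁)`, and `z M₁ = z₂ (z₁ M₁)`, so
`y` restricted to `z M₁` is zero by the choice of `z₂` (`z₁ M₁` is finitely generated, torsion free,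
killed by `P`).  Finally `j : N → M` with image `z M` is the inclusion `z M → M` composed with an
isomorphism.
-/

namespace BGN

open CategoryTheory Abelian

universe u

variable {k : Type u} [Field k] {R : Type u} [Ring R] [Algebra k R]

/-- right multiplication by `r` on `R ⧸ P` -/
private def kpRho (P : Ideal R) [P.IsTwoSided] (r : R) : (R ⧸ P) →ₗ[R] (R ⧸ P) where
  toFun a := a * Ideal.Quotient.mk P r
  map_add' a b := add_mul a b _
  map_smul' s a := by
    obtain ⟨x, rfl⟩ := Ideal.Quotient.mk_surjective a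
    have e : ∀ (y : R), s • (Ideal.Quotient.mk P y) = Ideal.Quotient.mk P (s * y) := fun _ => rfl
    rw [RingHom.id_apply, e, ← map_mul, ← map_mul, e, mul_assoc]

private theorem kpRho_apply (P : Ideal R) [P.IsTwoSided] (r : R) (a : R ⧸ P) :
    kpRho P r a = a * Ideal.Quotient.mk P r := rfl

private theorem kp_mk_c (X : ModuleCat.{u} R) (V : ModuleCat.{u} R) (i : ℕ) (c : k)
    (g : X ⟶ X) (hg : ∀ a : X, g.hom a = algebraMap k R c • a)
    (x : Ext X V i) : (Ext.mk₀ g).comp x (zero_add i) = c • x := by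
  have e : g = c • 𝟙 X := by
    refine ModuleCat.hom_ext (LinearMap.ext fun a => ?_)
    rw [hg]
    rfl
  have e1 : Ext.mk₀ (c • 𝟙 X) = c • Ext.mk₀ (𝟙 X) := by
    exact Ext.mk₀_smul c _
  rw [e, e1, Ext.smul_comp, Ext.mk₀_id_comp]

private theorem kp_hk (P : Ideal R) [P.IsTwoSided] (V : ModuleCat.{u} R) (i : ℕ) (c : k)
    (x : Ext (ModuleCat.of R (R ⧸ P)) V i) :
    (Ext.mk₀ (ModuleCat.ofHom (kpRho P (algebraMap k R c)))).comp x (zero_add i) = c • x := by
  refine kp_mk_c (ModuleCat.of R (R ⧸ P)) V i c _ (fun a => ?_) x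
  obtain ⟨y, rfl⟩ := Ideal.Quotient.mk_surjective a
  show Ideal.Quotient.mk P y * Ideal.Quotient.mk P (algebraMap k R c) =
    Ideal.Quotient.mk P (algebraMap k R c * y)
  rw [← map_mul, Algebra.commutes]

private theorem kp_lift {X Y Z : Type u} [AddCommGroup X] [Module R X] [AddCommGroup Y]
    [Module R Y] [AddCommGroup Z] [Module R Z] (f : X →ₗ[R] Z) (g : Y →ₗ[R] Z)
    (hg : Function.Injective g) (h : ∀ x, ∃ y, g y = f x) : ∃ ψ : X →ₗ[R] Y, g ∘ₗ ψ = f := by
  choose ψ hψ using h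
  refine ⟨{ toFun := ψ
            map_add' := fun a b => hg (by rw [hψ, map_add, map_add, hψ, hψ])
            map_smul' := fun r a => hg (by
              rw [hψ, map_smul, RingHom.id_apply, map_smul, hψ]) }, ?_⟩
  ext x
  exact hψ x

private theorem kp_core [IsNoetherianRing R] (h : NormalSep k R) {P : Ideal R}
    [P.IsTwoSided] (hP : IsPrime2 P) (hinf : ¬ FinCodim k P) (V : ModuleCat.{u} R)
    (hV : FinDim k R V) (i : ℕ) :
    ∃ z, Nrm P z ∧ ∀ x : Ext (ModuleCat.of R (R ⧸ P)) V i,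
      (Ext.mk₀ (ModuleCat.ofHom (kpRho P z))).comp x (zero_add i) = 0 := by
  have hA : Module.Finite R (ModuleCat.of R (R ⧸ P)) := by
    show Module.Finite R (R ⧸ P)
    infer_instance
  have hfin : Module.Finite k (Ext (ModuleCat.of R (R ⧸ P)) V i) :=
    ext_finite_of_finDim (ModuleCat.of R (R ⧸ P)) V hV i
  let inst : Module R (Ext (ModuleCat.of R (R ⧸ P)) V i) :=
    { smul := fun r x => (Ext.mk₀ (ModuleCat.ofHom (kpRho P r))).comp x (zero_add i)
      one_smul := fun x => by
        show (Ext.mk₀ (ModuleCat.ofHom (kpRho P 1))).comp x (zero_add i) = x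
        have e : ModuleCat.ofHom (kpRho P 1) = 𝟙 (ModuleCat.of R (R ⧸ P)) := by
          refine ModuleCat.hom_ext (LinearMap.ext fun a => ?_)
          show kpRho P 1 a = a
          rw [kpRho_apply, map_one, mul_one]
        rw [e, Ext.mk₀_id_comp]
      mul_smul := fun r s x => by
        show (Ext.mk₀ (ModuleCat.ofHom (kpRho P (r * s)))).comp x (zero_add i) =
          (Ext.mk₀ (ModuleCat.ofHom (kpRho P r))).comp
            ((Ext.mk₀ (ModuleCat.ofHom (kpRho P s))).comp x (zero_add i)) (zero_add i)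
        rw [Ext.mk₀_comp_mk₀_assoc]
        congr 2
        refine ModuleCat.hom_ext (LinearMap.ext fun a => ?_)
        show kpRho P (r * s) a = kpRho P s (kpRho P r a)
        rw [kpRho_apply, kpRho_apply, kpRho_apply, map_mul, mul_assoc]
      smul_zero := fun r => Ext.comp_zero _ _ _ _ _
      smul_add := fun r x y => Ext.comp_add _ _ _ _
      add_smul := fun r s x => by
        show (Ext.mk₀ (ModuleCat.ofHom (kpRho P (r + s)))).comp x (zero_add i) =
          (Ext.mk₀ (ModuleCat.ofHom (kpRho P r))).comp x (zero_add i) +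
            (Ext.mk₀ (ModuleCat.ofHom (kpRho P s))).comp x (zero_add i)
        rw [← Ext.add_comp, ← Ext.mk₀_add]
        congr 2
        refine ModuleCat.hom_ext (LinearMap.ext fun a => ?_)
        show kpRho P (r + s) a = kpRho P r a + kpRho P s a
        rw [kpRho_apply, kpRho_apply, kpRho_apply, map_add, mul_add]
      zero_smul := fun x => by
        show (Ext.mk₀ (ModuleCat.ofHom (kpRho P 0))).comp x (zero_add i) = 0
        have e : ModuleCat.ofHom (kpRho P 0) = 0 := by
          refine ModuleCat.hom_ext (LinearMap.ext fun a => ?_)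
          show kpRho P 0 a = 0
          rw [kpRho_apply, map_zero, mul_zero]
        rw [e, Ext.mk₀_zero, Ext.zero_comp] }
  have hsm : ∀ (r : R) (x : Ext (ModuleCat.of R (R ⧸ P)) V i), r • x =
      (Ext.mk₀ (ModuleCat.ofHom (kpRho P r))).comp x (zero_add i) := fun _ _ => rfl
  have hk : ∀ (c : k) (x : Ext (ModuleCat.of R (R ⧸ P)) V i),
      algebraMap k R c • x = c • x := by
    intro c x
    exact kp_hk P V i c x
  have htow : IsScalarTower k R (Ext (ModuleCat.of R (R ⧸ P)) V i) := by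
    refine ⟨fun c r x => ?_⟩
    rw [Algebra.smul_def, mul_smul, hk]
  obtain ⟨z, hz, hz2⟩ := exists_kill h hP hinf (V := Ext (ModuleCat.of R (R ⧸ P)) V i)
    (finDim_iff.2 hfin) (by
      intro p hp x
      rw [hsm]
      have e : ModuleCat.ofHom (kpRho P p) = 0 := by
        refine ModuleCat.hom_ext (LinearMap.ext fun a => ?_)
        show kpRho P p a = 0
        rw [kpRho_apply, Ideal.Quotient.eq_zero_iff_mem.2 hp, mul_zero]
      rw [e, Ext.mk₀_zero, Ext.zero_comp])
  exact ⟨z, hz, hz2⟩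

theorem kp_free [IsNoetherianRing R] (h : NormalSep k R) {P : Ideal R}
    (hP : IsPrime2 P) (hinf : ¬ FinCodim k P) (V : ModuleCat.{u} R) (hV : FinDim k R V) (i : ℕ) :
    ∃ z, Nrm P z ∧ ∀ (n : ℕ) (N : ModuleCat.{u} R)
      (j : N ⟶ ModuleCat.of R (Fin n → R ⧸ P)), Function.Injective j →
      (∀ w : N, ∃ m, j w = z • m) → (∀ m, ∃ w : N, j w = z • m) →
      ∀ x : Ext (ModuleCat.of R (Fin n → R ⧸ P)) V i, (Ext.mk₀ j).comp x (zero_add i) = 0 := by
  have htw : P.IsTwoSided := hP.twoSided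
  obtain ⟨z, hz, hz2⟩ := kp_core h hP hinf V hV i
  refine ⟨z, hz, fun n N j _ hj _ x => ?_⟩
  obtain ⟨ρ, hρ⟩ : ∃ ρ : (Fin n → R ⧸ P) →ₗ[R] (Fin n → R ⧸ P),
      ρ = LinearMap.compLeft (kpRho P z) (Fin n) := ⟨_, rfl⟩
  have hρa : ∀ f l, ρ f l = f l * Ideal.Quotient.mk P z := by
    intro f l
    rw [hρ]
    rfl
  have hρi : Function.Injective ρ := by
    rw [injective_iff_map_eq_zero]
    intro f hf
    funext l
    have h1 := congrFun hf l
    rw [hρa] at h1
    obtain ⟨y, hy⟩ := Ideal.Quotient.mk_surjective (f l)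
    rw [← hy, ← map_mul] at h1
    rw [← hy]
    exact Ideal.Quotient.eq_zero_iff_mem.2 (right_reg hP hz (Ideal.Quotient.eq_zero_iff_mem.1 h1))
  have hρ0 : (Ext.mk₀ (ModuleCat.ofHom ρ)).comp x (zero_add i) = 0 := by
    have e : ModuleCat.ofHom ρ = ∑ l : Fin n,
        ModuleCat.ofHom (LinearMap.proj (R := R) (φ := fun _ : Fin n => R ⧸ P) l) ≫
          ModuleCat.ofHom (kpRho P z) ≫
            ModuleCat.ofHom (LinearMap.single R (fun _ : Fin n => R ⧸ P) l) := by
      have e1 : ρ = ∑ l : Fin n, LinearMap.single R (fun _ : Fin n => R ⧸ P) l ∘ₗ kpRho P z ∘ₗ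
          LinearMap.proj (R := R) (φ := fun _ : Fin n => R ⧸ P) l := by
        refine LinearMap.ext fun f => ?_
        funext m
        rw [hρa, LinearMap.sum_apply, Finset.sum_apply, Finset.sum_eq_single m]
        · simp [kpRho_apply]
        · intro b _ hb
          simp [Pi.single_eq_of_ne (Ne.symm hb)]
        · intro hm
          exact absurd (Finset.mem_univ m) hm
      rw [e1]
      ext f
      simp [ModuleCat.hom_sum]
    rw [e, Ext.mk₀_sum, Ext.sum_comp]
    refine Finset.sum_eq_zero fun l _ => ?_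
    rw [← Ext.mk₀_comp_mk₀_assoc, ← Ext.mk₀_comp_mk₀_assoc, hz2, Ext.comp_zero]
  obtain ⟨ψ, hψ⟩ := kp_lift j.hom ρ hρi (by
    intro w
    obtain ⟨m, hm⟩ := hj w
    choose y hy using fun l => Ideal.Quotient.mk_surjective (m l)
    choose s hs using fun l => hz.2.1 (y l)
    refine ⟨fun l => Ideal.Quotient.mk P (s l), ?_⟩
    have hm' : j.hom w = z • m := hm
    rw [hm']
    funext l
    rw [hρa]
    have e2 : (z • m) l = Ideal.Quotient.mk P (z * y l) := by
      rw [Pi.smul_apply, ← hy]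
      rfl
    rw [e2, ← map_mul]
    exact (Ideal.Quotient.eq.2 (hs l)).symm)
  have e3 : j = ModuleCat.ofHom ψ ≫ ModuleCat.ofHom ρ :=
    ModuleCat.hom_ext (LinearMap.ext fun w => (LinearMap.congr_fun hψ w).symm)
  rw [e3, ← Ext.mk₀_comp_mk₀_assoc, hρ0, Ext.comp_zero]

/-- `z M`, a submodule if `P` kills `M` -/
private def kpS {P : Ideal R} {z : R} (hz : Nrm P z) {M : Type u} [AddCommGroup M] [Module R M]
    (hM : ∀ p ∈ P, ∀ m : M, p • m = 0) : Submodule R M where
  carrier := {w | ∃ m : M, w = z • m}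
  add_mem' := by
    rintro _ _ ⟨a, rfl⟩ ⟨b, rfl⟩
    exact ⟨a + b, (smul_add _ _ _).symm⟩
  zero_mem' := ⟨0, (smul_zero _).symm⟩
  smul_mem' := by
    rintro r _ ⟨a, rfl⟩
    obtain ⟨s, hs⟩ := hz.2.2 r
    refine ⟨s • a, ?_⟩
    have h1 := hM _ hs a
    rw [sub_smul, sub_eq_zero, mul_smul, mul_smul] at h1
    exact h1

private theorem kp_mem {P : Ideal R} {z : R} (hz : Nrm P z) {M : Type u} [AddCommGroup M]
    [Module R M] (hM : ∀ p ∈ P, ∀ m : M, p • m = 0) {w : M} :
    w ∈ kpS hz hM ↔ ∃ m : M, w = z • m := Iff.rfl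

/-- the restriction of `π` to `z F → z M` -/
private def kpM {P : Ideal R} {z : R} (hz : Nrm P z) {F M : Type u} [AddCommGroup F] [Module R F]
    [AddCommGroup M] [Module R M] (hF : ∀ p ∈ P, ∀ m : F, p • m = 0)
    (hM : ∀ p ∈ P, ∀ m : M, p • m = 0) (π : F →ₗ[R] M) : kpS hz hF →ₗ[R] kpS hz hM :=
  π.restrict (by
    rintro _ ⟨f, rfl⟩
    exact ⟨π f, map_smul π z f⟩)

private theorem kpM_apply {P : Ideal R} {z : R} (hz : Nrm P z) {F M : Type u} [AddCommGroup F]
    [Module R F] [AddCommGroup M] [Module R M] (hF : ∀ p ∈ P, ∀ m : F, p • m = 0)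
    (hM : ∀ p ∈ P, ∀ m : M, p • m = 0) (π : F →ₗ[R] M) (w : kpS hz hF) :
    ((kpM hz hF hM π w : kpS hz hM) : M) = π w := rfl

/-- the complex `z F ∩ ker π → z F → z M` -/
private noncomputable def kpSC {P : Ideal R} {z : R} (hz : Nrm P z) {F M : Type u}
    [AddCommGroup F] [Module R F] [AddCommGroup M] [Module R M]
    (hF : ∀ p ∈ P, ∀ m : F, p • m = 0) (hM : ∀ p ∈ P, ∀ m : M, p • m = 0) (π : F →ₗ[R] M) :
    ShortComplex (ModuleCat.{u} R) :=
  ShortComplex.mk (X₁ := ModuleCat.of R (LinearMap.ker (kpM hz hF hM π)))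
    (X₂ := ModuleCat.of R (kpS hz hF)) (X₃ := ModuleCat.of R (kpS hz hM))
    (ModuleCat.ofHom (LinearMap.ker (kpM hz hF hM π)).subtype)
    (ModuleCat.ofHom (kpM hz hF hM π))
    (ModuleCat.hom_ext (LinearMap.ext fun x => x.2))

private theorem kp_ses {P : Ideal R} {z : R} (hz : Nrm P z) {F M : Type u} [AddCommGroup F]
    [Module R F] [AddCommGroup M] [Module R M] (hF : ∀ p ∈ P, ∀ m : F, p • m = 0)
    (hM : ∀ p ∈ P, ∀ m : M, p • m = 0) (π : F →ₗ[R] M) (hπ : Function.Surjective π) :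
    (kpSC hz hF hM π).ShortExact := by
  refine ModuleCat.shortComplex_shortExact _ ?_ ?_ ?_
  · intro x
    constructor
    · intro hx
      exact ⟨⟨x, hx⟩, rfl⟩
    · rintro ⟨y, rfl⟩
      exact y.2
  · exact Subtype.val_injective
  · rintro ⟨_, m, rfl⟩
    obtain ⟨f, rfl⟩ := hπ m
    refine ⟨⟨z • f, f, rfl⟩, ?_⟩
    apply Subtype.ext
    exact map_smul π z f

private theorem kp_zero {P : Ideal R} (h : NormalSep k R) (hP : IsPrime2 P)
    (hinf : ¬ FinCodim k P) (V : ModuleCat.{u} R) (hV : FinDim k R V) :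
    ∃ z, Nrm P z ∧ ∀ (N M : ModuleCat.{u} R) (j : N ⟶ M),
      (∀ p ∈ P, ∀ m : M, p • m = 0) → (∀ w : N, ∃ m : M, j w = z • m) →
      ∀ x : Ext M V 0, (Ext.mk₀ j).comp x (zero_add 0) = 0 := by
  have htw : P.IsTwoSided := hP.twoSided
  let W : Submodule R V :=
    { carrier := {v | ∀ p ∈ P, p • v = 0}
      add_mem' := fun {a b} ha hb p hp => by rw [smul_add, ha p hp, hb p hp, add_zero]
      zero_mem' := fun p _ => smul_zero p
      smul_mem' := fun r a ha p hp => by
        rw [smul_smul]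
        exact ha _ (P.mul_mem_right r hp) }
  obtain ⟨z, hz, hz2⟩ := exists_kill h hP hinf (V := W)
    (hV.of_injective W.subtype W.injective_subtype) (fun p hp v => Subtype.ext (v.2 p hp))
  refine ⟨z, hz, fun N M j hM hj x => ?_⟩
  obtain ⟨f, rfl⟩ := (Ext.mk₀_bijective M V).2 x
  rw [Ext.mk₀_comp_mk₀]
  have e : j ≫ f = 0 := by
    ext w
    obtain ⟨m, hm⟩ := hj w
    show f.hom (j.hom w) = 0
    have hm' : j.hom w = z • m := hm
    rw [hm', map_smul]
    have h1 : f.hom m ∈ W := fun p hp => by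
      rw [← map_smul, hM p hp m, map_zero]
    exact congrArg Subtype.val (hz2 ⟨f.hom m, h1⟩)
  rw [e, Ext.mk₀_zero]

theorem lemKp [IsNoetherianRing R] (h : NormalSep k R) {P : Ideal R}
    (hP : IsPrime2 P) (hinf : ¬ FinCodim k P) (V : ModuleCat.{u} R) (hV : FinDim k R V) (i : ℕ) :
    ∃ z, Nrm P z ∧ ∀ (N M : ModuleCat.{u} R) (j : N ⟶ M), Module.Finite R M →
      (∀ p ∈ P, ∀ m : M, p • m = 0) → (∀ z', Nrm P z' → ∀ m : M, z' • m = 0 → m = 0) →
      Function.Injective j → (∀ w : N, ∃ m : M, j w = z • m) → (∀ m : M, ∃ w : N, j w = z • m) →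
      ∀ x : Ext M V i, (Ext.mk₀ j).comp x (zero_add i) = 0 := by
  have htw : P.IsTwoSided := hP.twoSided
  induction i with
  | zero =>
    obtain ⟨z, hz, h1⟩ := kp_zero h hP hinf V hV
    exact ⟨z, hz, fun N M j _ hM _ _ hj _ x => h1 N M j hM hj x⟩
  | succ i ih =>
    obtain ⟨z₁, hz₁, h1⟩ := kp_free h hP hinf V hV (i + 1)
    obtain ⟨z₂, hz₂, h2⟩ := ih
    refine ⟨z₂ * z₁, Nrm.mul hP hz₂ hz₁, ?_⟩
    intro N M j hMf hM hMt _ hj _ x
    have hz : Nrm P (z₂ * z₁) := Nrm.mul hP hz₂ hz₁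
    -- the free module
    obtain ⟨n, s, hs⟩ := Module.Finite.exists_fin (R := R) (M := M)
    let g : Fin n → (R ⧸ P) →ₗ[R] M := fun l =>
      Submodule.liftQ P (LinearMap.toSpanSingleton R M (s l)) (fun a ha => by
        rw [LinearMap.mem_ker, LinearMap.toSpanSingleton_apply]
        exact hM a ha _)
    let π : (Fin n → R ⧸ P) →ₗ[R] M := ∑ l : Fin n, (g l).comp (LinearMap.proj l)
    have hπa : ∀ c : Fin n → R, π (fun l => Ideal.Quotient.mk P (c l)) = ∑ l, c l • s l := by
      intro c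
      show (∑ l : Fin n, (g l).comp (LinearMap.proj l)) _ = _
      rw [LinearMap.sum_apply]
      exact Finset.sum_congr rfl fun l _ => rfl
    have hπ : Function.Surjective π := by
      intro m
      have hm : m ∈ Submodule.span R (Set.range s) := by rw [hs]; trivial
      obtain ⟨c, hc⟩ := (Submodule.mem_span_range_iff_exists_fun R).1 hm
      exact ⟨_, (hπa c).trans hc⟩
    have hF : ∀ p ∈ P, ∀ f : Fin n → R ⧸ P, p • f = 0 := by
      intro p hp f
      funext l
      obtain ⟨y, hy⟩ := Ideal.Quotient.mk_surjective (f l)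
      rw [Pi.smul_apply, ← hy]
      exact Ideal.Quotient.eq_zero_iff_mem.2 (P.mul_mem_right y hp)
    have hFt : ∀ z', Nrm P z' → ∀ f : Fin n → R ⧸ P, z' • f = 0 → f = 0 := by
      intro z' hz' f hf
      funext l
      have h3 := congrFun hf l
      obtain ⟨y, hy⟩ := Ideal.Quotient.mk_surjective (f l)
      rw [Pi.smul_apply, ← hy] at h3
      rw [← hy]
      exact Ideal.Quotient.eq_zero_iff_mem.2 (left_reg hP hz' (Ideal.Quotient.eq_zero_iff_mem.1 h3))
    have hS := kp_ses hz hF hM π hπ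
    have hS₁ := kp_ses hz₁ hF hM π hπ
    have hleF : kpS hz hF ≤ kpS hz₁ hF := by
      rintro _ ⟨f, rfl⟩
      rw [mul_smul]
      exact Submodule.smul_mem _ _ ⟨f, rfl⟩
    have hleM : kpS hz hM ≤ kpS hz₁ hM := by
      rintro _ ⟨f, rfl⟩
      rw [mul_smul]
      exact Submodule.smul_mem _ _ ⟨f, rfl⟩
    let τ₁ : LinearMap.ker (kpM hz hF hM π) →ₗ[R] LinearMap.ker (kpM hz₁ hF hM π) :=
      (Submodule.inclusion hleF).restrict (by
        intro w hw
        rw [LinearMap.mem_ker] at hw ⊢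
        apply Subtype.ext
        have h3 : π (w : Fin n → R ⧸ P) = 0 := congrArg Subtype.val hw
        exact h3)
    let φ : kpSC hz hF hM π ⟶ kpSC hz₁ hF hM π :=
      { τ₁ := ModuleCat.ofHom τ₁
        τ₂ := ModuleCat.ofHom (Submodule.inclusion hleF)
        τ₃ := ModuleCat.ofHom (Submodule.inclusion hleM)
        comm₁₂ := ModuleCat.hom_ext (LinearMap.ext fun _ => rfl)
        comm₂₃ := ModuleCat.hom_ext (LinearMap.ext fun _ => rfl) }
    -- the class on `z₁ M`
    obtain ⟨y, hy⟩ := Ext.contravariant_sequence_exact₃ hS₁ (Y := V)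
      ((Ext.mk₀ (ModuleCat.ofHom (kpS hz₁ hM).subtype)).comp x (zero_add (i + 1))) (by
        have h3 := h1 n (ModuleCat.of R (kpS hz₁ hF))
          (ModuleCat.ofHom (kpS hz₁ hF).subtype) Subtype.val_injective
          (fun w => w.2) (fun m => ⟨⟨z₁ • m, m, rfl⟩, rfl⟩)
          ((Ext.mk₀ (ModuleCat.ofHom π)).comp x (zero_add (i + 1)))
        refine (Ext.mk₀_comp_mk₀_assoc (kpSC hz₁ hF hM π).g
          (ModuleCat.ofHom (kpS hz₁ hM).subtype) x).trans ?_
        rw [Ext.mk₀_comp_mk₀_assoc] at h3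
        exact h3) (add_comm 1 i)
    have h4 : (Ext.mk₀ φ.τ₁).comp y (zero_add i) = 0 := by
      refine h2 (kpSC hz hF hM π).X₁ (kpSC hz₁ hF hM π).X₁ φ.τ₁ ?_ ?_ ?_ ?_ ?_ ?_ y
      · show Module.Finite R (LinearMap.ker (kpM hz₁ hF hM π))
        infer_instance
      · intro p hp m
        apply Subtype.ext
        apply Subtype.ext
        exact hF p hp m.1.1
      · intro z' hz' m hm
        apply Subtype.ext
        apply Subtype.ext
        exact hFt z' hz' m.1.1 (congrArg (fun w => (w.1.1 : Fin n → R ⧸ P)) hm)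
      · intro a b hab
        apply Subtype.ext
        apply Subtype.ext
        exact congrArg (fun w => (w.1.1 : Fin n → R ⧸ P)) hab
      · rintro ⟨⟨_, f, rfl⟩, hw⟩
        have h5 : π f = 0 := by
          rw [LinearMap.mem_ker] at hw
          have h6 : π ((z₂ * z₁) • f) = 0 := congrArg Subtype.val hw
          rw [map_smul] at h6
          exact hMt _ hz _ h6
        refine ⟨⟨⟨z₁ • f, f, rfl⟩, ?_⟩, ?_⟩
        · rw [LinearMap.mem_ker]
          apply Subtype.ext
          show π (z₁ • f) = 0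
          rw [map_smul, h5, smul_zero]
        · apply Subtype.ext
          apply Subtype.ext
          exact mul_smul z₂ z₁ f
      · rintro ⟨⟨_, f, rfl⟩, hw⟩
        have h5 : π f = 0 := by
          rw [LinearMap.mem_ker] at hw
          have h6 : π (z₁ • f) = 0 := congrArg Subtype.val hw
          rw [map_smul] at h6
          exact hMt _ hz₁ _ h6
        refine ⟨⟨⟨(z₂ * z₁) • f, f, rfl⟩, ?_⟩, ?_⟩
        · rw [LinearMap.mem_ker]
          apply Subtype.ext
          show π ((z₂ * z₁) • f) = 0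
          rw [map_smul, h5, smul_zero]
        · apply Subtype.ext
          apply Subtype.ext
          exact mul_smul z₂ z₁ f
    have h7 : (Ext.mk₀ (ModuleCat.ofHom (kpS hz hM).subtype)).comp x (zero_add (i + 1)) = 0 := by
      have e1 : ModuleCat.ofHom (kpS hz hM).subtype =
          ModuleCat.ofHom (Submodule.inclusion hleM) ≫
            ModuleCat.ofHom (kpS hz₁ hM).subtype := rfl
      rw [e1, ← Ext.mk₀_comp_mk₀_assoc, ← hy]
      have e2 := ShortComplex.ShortExact.extClass_naturality hS hS₁ φ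
      have e3 : (Ext.mk₀ (ModuleCat.ofHom (Submodule.inclusion hleM))).comp
          (hS₁.extClass.comp y (add_comm 1 i)) (zero_add (i + 1)) =
          ((Ext.mk₀ φ.τ₃).comp hS₁.extClass (zero_add 1)).comp y (add_comm 1 i) := by
        rw [Ext.comp_assoc _ _ _ (zero_add 1) (add_comm 1 i) (by omega)]
        rfl
      rw [e3, ← e2, Ext.comp_assoc_of_second_deg_zero]
      rw [h4, Ext.comp_zero]
      rfl
    obtain ⟨ψ, hψ⟩ := kp_lift j.hom (kpS hz hM).subtype Subtype.val_injective (by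
      intro w
      obtain ⟨m, hm⟩ := hj w
      exact ⟨⟨(z₂ * z₁) • m, m, rfl⟩, hm.symm⟩)
    have e5 : j = ModuleCat.ofHom ψ ≫ ModuleCat.ofHom (kpS hz hM).subtype :=
      ModuleCat.hom_ext (LinearMap.ext fun w => (LinearMap.congr_fun hψ w).symm)
    rw [e5, ← Ext.mk₀_comp_mk₀_assoc, h7, Ext.comp_zero]

end BGN
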