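import Pool.Agent.BGN.DulE
import Pool.Agent.BGN.LemKp
import Pool.Agent.BGN.Tw
import Pool.Agent.BGN.BaerD

/-!
# BGN Stp: `RD k (LFin k R)` has injective dimension at most `n`

PROOF of `stp`.  `Y = RD k (LFin k R)`.  Noetherian induction on two-sided ideals `I`: for all
`i > n` and all finitely generated `M` killed by `I`, `Ext^i(M, Y) = 0`.
* `I = ⊤`: `M = 0`.
* `I ≠ ⊤` not prime: `I₁, I₂ > I` two-sided with `I₁ I₂ ⊆ I`; `M₁ = I₂ M` is killed by `I₁`,
  `M ⧸ M₁` by `I₂`; `Ext.contravariant_sequence_exact₂`.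
* `I = P` prime, `FinCodim k P`: `M` is finite dimensional (`FinDim.of_finCodim`), `ext_RD_zero` with
  the hypothesis (`i ≥ 1`).
* `I = P` prime of infinite codimension.  `exists_torsion`: `N ⊆ M` killed by `P + R z₀`
  (`sup_span_twoSided`), `M ⧸ N` torsion free; by the long exact sequence it is enough to treat `N`
  (induction) and `M ⧸ N`.  So let `M` be torsion free, `x ∈ Ext^i(M, Y)`, `i > n`.  By
  `ext_RD_eq_zero_of_fd` we have to show that the image of `x` in `Ext^i(M, RD k U)` is zero for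
  `U ≤ LFin` finite dimensional.  `V = RD k U` is finite dimensional (`finDim_RD`).  `lemKp V i`
  gives `z`.  `exists_twist` gives `ι : M → M'`, injective with image `z M'`, `M'` of the same
  kind, finitely generated.  `M' ⧸ ι M` is killed by `P + R z`, so
  `Ext^{i+1}(M' ⧸ ι M, Y) = 0` by induction, so `x = (mk₀ ι).comp x'` with `x' ∈ Ext^i(M', Y)`
  (`Ext.contravariant_sequence_exact₁`).  The image of `x` in `Ext^i(M, V)` is
  `(mk₀ ι).comp (x'.comp res) = 0` by `lemKp`.
Then `injDimLE_of_fg`.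
-/

namespace BGN

open CategoryTheory Abelian

universe u

variable {k : Type u} [Field k] {R : Type u} [Ring R] [Algebra k R]

/-- The short exact sequence of a submodule. -/
private theorem stp_sesq {M : Type u} [AddCommGroup M] [Module R M] (N : Submodule R M) :
    ∃ hc : ModuleCat.ofHom N.subtype ≫ ModuleCat.ofHom N.mkQ = 0,
    (ShortComplex.mk (ModuleCat.ofHom N.subtype) (ModuleCat.ofHom N.mkQ) hc).ShortExact := by
  refine ⟨?_, ?_⟩
  · ext x
    simp
  · refine ModuleCat.shortComplex_shortExact _ ?_ ?_ ?_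
    · intro x
      constructor
      · intro hx
        have : x ∈ N := by simpa using hx
        exact ⟨⟨x, this⟩, rfl⟩
      · rintro ⟨y, rfl⟩
        simp
    · exact Subtype.val_injective
    · exact N.mkQ_surjective

/-- The short exact sequence of an injective map. -/
private theorem stp_sesi {M M' : ModuleCat.{u} R} (f : M ⟶ M') (hf : Function.Injective f) :
    ∃ hc : f ≫ ModuleCat.ofHom (LinearMap.range f.hom).mkQ = 0,
    (ShortComplex.mk f (ModuleCat.ofHom (LinearMap.range f.hom).mkQ) hc).ShortExact := by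
  refine ⟨?_, ?_⟩
  · ext x
    simp
  · refine ModuleCat.shortComplex_shortExact _ ?_ ?_ ?_
    · intro x
      constructor
      · intro hx
        have : x ∈ LinearMap.range f.hom := by simpa using hx
        exact this
      · rintro ⟨y, rfl⟩
        simp
    · exact hf
    · exact (LinearMap.range f.hom).mkQ_surjective

private theorem stp_mid (Y : ModuleCat.{u} R) {M : Type u} [AddCommGroup M] [Module R M]
    (N : Submodule R M) (i : ℕ) (h1 : ∀ x : Ext (ModuleCat.of R N) Y i, x = 0)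
    (h2 : ∀ x : Ext (ModuleCat.of R (M ⧸ N)) Y i, x = 0) (x : Ext (ModuleCat.of R M) Y i) :
    x = 0 := by
  obtain ⟨hc, hS⟩ := stp_sesq N
  obtain ⟨y, hy⟩ := Ext.contravariant_sequence_exact₂ hS Y x (h1 _)
  rw [← hy, h2 y, Ext.comp_zero]

private theorem stp_assoc {A B C D : ModuleCat.{u} R} (f : A ⟶ B) {p : ℕ} (x : Ext B C p)
    (g : C ⟶ D) :
    (Ext.mk₀ f).comp (x.comp (Ext.mk₀ g) (add_zero p)) (zero_add p)
      = ((Ext.mk₀ f).comp x (zero_add p)).comp (Ext.mk₀ g) (add_zero p) :=
  (Ext.comp_assoc (Ext.mk₀ f) x (Ext.mk₀ g) (zero_add p) (add_zero p) (by omega)).symm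

/-- Two ideals around a failure of primeness. -/
private theorem stp_not_prime {I : Ideal R} (hI : I.IsTwoSided) (ht : I ≠ ⊤)
    (hp : ¬ IsPrime2 I) :
    ∃ I₁ I₂ : Ideal R, I₁.IsTwoSided ∧ I₂.IsTwoSided ∧ I < I₁ ∧ I < I₂ ∧
      ∀ x ∈ I₁, ∀ y ∈ I₂, x * y ∈ I := by
  have : ¬ ∀ a b : R, (∀ r : R, a * r * b ∈ I) → a ∈ I ∨ b ∈ I := fun h => hp ⟨hI, ht, h⟩
  push Not at this
  obtain ⟨a, b, hab, ha, hb⟩ := this
  have key : ∀ c : R, (I ⊔ Submodule.span R {x | ∃ r, x = c * r} : Ideal R).IsTwoSided := by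
    intro c
    refine ⟨fun {x} s hx => ?_⟩
    obtain ⟨p, hp, q, hq, rfl⟩ := Submodule.mem_sup.1 hx
    rw [add_mul]
    refine Ideal.add_mem _ (Submodule.mem_sup_left (Ideal.mul_mem_right _ _ hp))
      (Submodule.mem_sup_right ?_)
    refine Submodule.span_induction (p := fun q _ => q * s ∈
      Submodule.span R {x | ∃ r, x = c * r}) ?_ ?_ ?_ ?_ hq
    · rintro x ⟨r, rfl⟩
      exact Submodule.subset_span ⟨r * s, by rw [mul_assoc]⟩
    · rw [zero_mul]; exact Submodule.zero_mem _
    · intro x y _ _ hx hy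
      rw [add_mul]; exact Submodule.add_mem _ hx hy
    · intro t x _ hx
      rw [smul_eq_mul, mul_assoc]
      exact Submodule.smul_mem _ t hx
  have lt : ∀ c : R, c ∉ I → I < I ⊔ Submodule.span R {x | ∃ r, x = c * r} := by
    intro c hc
    refine lt_of_le_of_ne le_sup_left (fun h => hc ?_)
    rw [h]
    exact Submodule.mem_sup_right (Submodule.subset_span ⟨1, by rw [mul_one]⟩)
  refine ⟨_, _, key a, key b, lt a ha, lt b hb, ?_⟩
  intro x hx y hy
  obtain ⟨p, hp, q, hq, rfl⟩ := Submodule.mem_sup.1 hx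
  obtain ⟨p', hp', q', hq', rfl⟩ := Submodule.mem_sup.1 hy
  rw [add_mul]
  refine Ideal.add_mem _ (Ideal.mul_mem_right _ _ hp) ?_
  rw [mul_add]
  have h1 : q * p' ∈ I := Ideal.mul_mem_left _ _ hp'
  refine Ideal.add_mem _ h1 ?_
  refine Submodule.span_induction (p := fun q _ => q * q' ∈ I) ?_ ?_ ?_ ?_ hq
  · rintro x ⟨r, rfl⟩
    have hall : ∀ r : R, a * r * q' ∈ I := by
      refine Submodule.span_induction (p := fun q' _ => ∀ r : R, a * r * q' ∈ I) ?_ ?_ ?_ ?_ hq'
      · rintro x ⟨r', rfl⟩ r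
        rw [← mul_assoc]
        exact Ideal.mul_mem_right _ _ (hab r)
      · intro r
        rw [mul_zero]; exact Ideal.zero_mem _
      · intro x y _ _ hx hy r
        rw [mul_add]; exact Ideal.add_mem _ (hx r) (hy r)
      · intro t x _ hx r
        have := hx (r * t)
        rw [smul_eq_mul, ← mul_assoc, mul_assoc a r t]
        exact this
    exact hall r
  · rw [zero_mul]; exact Ideal.zero_mem _
  · intro x y _ _ hx hy
    rw [add_mul]; exact Ideal.add_mem _ hx hy
  · intro t x _ hx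
    rw [smul_eq_mul, mul_assoc]
    exact Ideal.mul_mem_left _ _ hx

private theorem stp_aux [IsNoetherianRing R] [IsNoetherianRing Rᵐᵒᵖ] (h : NormalSep k R) (n : ℕ)
    (hn : ∀ i, n < i → ∀ V : ModuleCat.{u} R, FinDim k R V →
      ∀ x : Ext V (ModuleCat.of R R) i, x = 0) (I : Ideal R) (hI : I.IsTwoSided) :
    ∀ i, n < i → ∀ (M : ModuleCat.{u} R) [Module.Finite R M],
      (∀ a ∈ I, ∀ m : M, a • m = 0) →
      ∀ x : Ext M (ModuleCat.of R (RD k (LFin k R))) i, x = 0 := by
  induction I using WellFoundedGT.induction with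
  | ind I ih =>
  have hfd : ∀ i, n < i → ∀ (M : ModuleCat.{u} R) [Module.Finite R M], FinDim k R M →
      ∀ x : Ext M (ModuleCat.of R (RD k (LFin k R))) i, x = 0 := by
    intro i hi M _ hM
    obtain ⟨j, rfl⟩ : ∃ j, i = j + 1 := ⟨i - 1, by omega⟩
    exact ext_RD_zero h M j (hn (j + 1) hi M hM)
  by_cases ht : I = ⊤
  · intro i hi M _ hIM
    have hM : FinDim k R M := by
      refine ⟨∅, fun v => ⟨fun _ => 0, ?_⟩⟩
      rw [Finset.sum_empty]
      have := hIM 1 (by rw [ht]; trivial) v
      rwa [one_smul] at this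
    exact hfd i hi M hM
  by_cases hp : IsPrime2 I
  · by_cases hf : FinCodim k I
    · intro i hi M _ hIM
      exact hfd i hi M (FinDim.of_finCodim I hf hIM)
    · have hbig : ∀ z, Nrm I z → ∀ i, n < i → ∀ (M : ModuleCat.{u} R) [Module.Finite R M],
          (∀ a ∈ I, ∀ m : M, a • m = 0) → (∀ m : M, z • m = 0) →
          ∀ x : Ext M (ModuleCat.of R (RD k (LFin k R))) i, x = 0 := by
        intro z hz i hi M _ hIM hzM
        obtain ⟨h2, hlt⟩ := sup_span_twoSided hp hz
        refine ih _ hlt h2 i hi M ?_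
        intro a ha m
        obtain ⟨p, hp', q, hq, rfl⟩ := Submodule.mem_sup.1 ha
        obtain ⟨r, rfl⟩ := Ideal.mem_span_singleton'.1 hq
        rw [add_smul, hIM p hp' m, zero_add, mul_smul, hzM m, smul_zero]
      have htf : ∀ i, n < i → ∀ (W : Type u) [AddCommGroup W] [Module R W] [Module.Finite R W],
          (∀ p ∈ I, ∀ w : W, p • w = 0) →
          (∀ z', Nrm I z' → ∀ w : W, z' • w = 0 → w = 0) →
          ∀ x : Ext (ModuleCat.of R W) (ModuleCat.of R (RD k (LFin k R))) i, x = 0 := by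
        intro i hi W _ _ hWf hIW hWt
        obtain ⟨j, rfl⟩ : ∃ j, i = j + 1 := ⟨i - 1, by omega⟩
        intro x
        refine ext_RD_eq_zero_of_fd (ModuleCat.of R W) j x fun U hU hUf => ?_
        have hV : FinDim k R (ModuleCat.of R (RD k U)) := finDim_RD U hUf
        obtain ⟨z, hz, hlem⟩ := lemKp h hp hf (ModuleCat.of R (RD k U)) hV (j + 1)
        obtain ⟨W', _, _, ι, hinj, hι1, hι2, hIW', hWt', hfin⟩ := exists_twist hp hz W hIW hWt
        have hW'f : Module.Finite R W' := hfin hWf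
        have hz0 := hlem (ModuleCat.of R W) (ModuleCat.of R W') (ModuleCat.ofHom ι) hW'f hIW'
          hWt' hinj hι2 hι1
        obtain ⟨hc, hS⟩ := stp_sesi (ModuleCat.ofHom ι) hinj
        have hQ : ∀ y : Ext (ModuleCat.of R (W' ⧸ LinearMap.range (ModuleCat.ofHom ι).hom))
            (ModuleCat.of R (RD k (LFin k R))) (1 + (j + 1)), y = 0 := by
          refine hbig z hz (1 + (j + 1)) (by omega) _ ?_ ?_
          · intro a ha m
            obtain ⟨w, rfl⟩ := Submodule.mkQ_surjective _ m
            rw [← map_smul, hIW' a ha w, map_zero]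
          · intro m
            obtain ⟨w, rfl⟩ := Submodule.mkQ_surjective _ m
            rw [← map_smul]
            obtain ⟨w0, hw0⟩ := hι1 w
            rw [Submodule.mkQ_apply, Submodule.Quotient.mk_eq_zero]
            exact ⟨w0, hw0⟩
        obtain ⟨x', hx'⟩ := Ext.contravariant_sequence_exact₁ hS _ x rfl (hQ _)
        rw [← hx']
        refine (stp_assoc (ModuleCat.ofHom ι) x' _).symm.trans ?_
        exact hz0 _
      intro i hi M _ hIM
      obtain ⟨N, z₀, hz₀, hN, hNt⟩ := exists_torsion hp M hIM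
      refine stp_mid _ N i ?_ ?_
      · refine hbig z₀ hz₀ i hi _ ?_ ?_
        · intro a ha m
          exact Subtype.ext (hIM a ha m.1)
        · intro m
          exact Subtype.ext (hN m.1 m.2)
      · refine htf i hi (M ⧸ N) ?_ ?_
        · intro a ha m
          obtain ⟨w, rfl⟩ := Submodule.mkQ_surjective _ m
          rw [← map_smul, hIM a ha w, map_zero]
        · intro z' hz' m hm
          obtain ⟨w, rfl⟩ := Submodule.mkQ_surjective _ m
          rw [← map_smul, Submodule.mkQ_apply, Submodule.Quotient.mk_eq_zero] at hm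
          rw [Submodule.mkQ_apply, Submodule.Quotient.mk_eq_zero]
          exact hNt z' hz' w hm
  · obtain ⟨I₁, I₂, h1, h2, hl1, hl2, hmul⟩ := stp_not_prime hI ht hp
    intro i hi M _ hIM
    let N : Submodule R M := Submodule.span R {w | ∃ y ∈ I₂, ∃ m : M, w = y • m}
    refine stp_mid _ N i ?_ ?_
    · refine ih I₁ hl1 h1 i hi _ ?_
      have hgen : ∀ w ∈ N, ∀ a ∈ I₁, a • w = 0 := by
        intro w hw
        refine Submodule.span_induction (p := fun w _ => ∀ a ∈ I₁, a • w = 0) ?_ ?_ ?_ ?_ hw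
        · rintro w ⟨y, hy, m, rfl⟩ a ha
          rw [smul_smul]
          exact hIM _ (hmul a ha y hy) m
        · intro a _; exact smul_zero a
        · intro x y _ _ hx hy a ha
          rw [smul_add, hx a ha, hy a ha, add_zero]
        · intro t x _ hx a ha
          rw [smul_smul]
          exact hx _ (Ideal.mul_mem_right _ _ ha)
      intro a ha m
      exact Subtype.ext (hgen m.1 m.2 a ha)
    · refine ih I₂ hl2 h2 i hi _ ?_
      intro a ha m
      obtain ⟨w, rfl⟩ := Submodule.mkQ_surjective _ m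
      rw [← map_smul, Submodule.mkQ_apply, Submodule.Quotient.mk_eq_zero]
      exact Submodule.subset_span ⟨a, ha, w, rfl⟩

theorem stp [IsNoetherianRing R] [IsNoetherianRing Rᵐᵒᵖ] (h : NormalSep k R) (n : ℕ)
    (hn : ∀ i, n < i → ∀ V : ModuleCat.{u} R, FinDim k R V →
      ∀ x : Ext V (ModuleCat.of R R) i, x = 0) :
    ∀ i, n < i → ∀ M : ModuleCat.{u} R, Module.Finite R M →
      ∀ x : Ext M (ModuleCat.of R (RD k (LFin k R))) i, x = 0 :=
  fun i hi M _ => stp_aux h n hn ⊥ (by infer_instance) i hi M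
    (by intro a ha m; rw [(Submodule.mem_bot R).1 ha, zero_smul])

theorem stp_injDim [IsNoetherianRing R] [IsNoetherianRing Rᵐᵒᵖ] (h : NormalSep k R) (n : ℕ)
    (hn : ∀ i, n < i → ∀ V : ModuleCat.{u} R, FinDim k R V →
      ∀ x : Ext V (ModuleCat.of R R) i, x = 0) :
    HasInjectiveDimensionLE (ModuleCat.of R (RD k (LFin k R))) n :=
  injDimLE_of_fg _ n (stp h n hn)

end BGN
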