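import Pool.Agent.BGN.HopC
import Pool.Agent.BGN.HopI
import Pool.Agent.BGN.Stp

/-!
# BGN HopE: the injective dimension of `H`

PROOF of `exists_sp`.  `T = LFin k H`.  `s(a)(x)(t) = ∑ x(a₁) t(a₂)` for `a ∈ H`, `x ∈ LD k H`, `t ∈ T`
(a `k`-linear functional of `t`, `k`-linear in `x` and in `a`), and `p(φ)(x) = φ(x)(ε)`, where
`ε ∈ T` is the counit: `ε · b = ε(b) ε`, so the span of `ε` is one dimensional
(`mem_LFin`).
`s` is `H`-linear: `s(g a)(x)(t) = ∑ x(g₁ a₁) t(g₂ a₂)` (`Δ` is multiplicative) and by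
`ZZ.smul_apply` `(g s(a))(x)(t) = ∑ (g₂ • s(a)(x g₁))(t) = ∑ s(a)(x g₁)(t g₂) =
∑ (x g₁)(a₁) (t g₂)(a₂) = ∑ x(g₁ a₁) t(g₂ a₂)`.
`p` is `H`-linear: `p(g φ)(x) = ∑ (g₂ • φ(x g₁))(ε) = ∑ φ(x g₁)(ε g₂) = ∑ ε(g₂) φ(x g₁)(ε)
= φ(x g)(ε) = (g p(φ))(x)`.
`p(s(a))(x) = ∑ x(a₁) ε(a₂) = x(a)`.

PROOF of `injDim_of_fd`.  `Y = RD k (LFin k H)` has injective dimension `≤ n` (`stp_injDim`), so
`ZZ k H Y` has (`injDimLE_ZZ`).  Let `M` be finitely generated, `i > n`, `x ∈ Ext^i(M, H)`.
`x.comp (mk₀ s) = 0` in `Ext^i(M, ZZ k H Y)` (`Ext.eq_zero_of_hasInjectiveDimensionLT`), so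
`x.comp (mk₀ (toBidual)) = (x.comp (mk₀ s)).comp (mk₀ p) = 0` and `x = 0` by `ext_bidual_inj`
(`i ≥ 1`).  Conclude by `injDimLE_of_fg`.
-/

namespace BGN

open CategoryTheory Abelian Coalgebra HopfAlgebra MulOpposite TensorProduct

universe u

variable {k : Type u} [Field k] {H : Type u} [Ring H] [HopfAlgebra k H]

/-- Convolution of functionals. -/
private noncomputable def cve (x t : LD k H) : H →ₗ[k] k :=
  LinearMap.mul' k k ∘ₗ TensorProduct.map x.ev t.ev ∘ₗ Coalgebra.comul

private theorem cve_tens (x t : LD k H) (a : H) {ι : Type*} (s : Finset ι) (l r : ι → H)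
    (h : comul (R := k) a = ∑ i ∈ s, l i ⊗ₜ[k] r i) :
    cve x t a = ∑ i ∈ s, x.ev (l i) * t.ev (r i) := by
  unfold cve
  simp only [LinearMap.comp_apply]
  rw [h, map_sum, map_sum]
  refine Finset.sum_congr rfl (fun i _ => ?_)
  rw [TensorProduct.map_tmul, LinearMap.mul'_apply]

private theorem cve_repr (x t : LD k H) (a : H) {ι : Type*} (r : Coalgebra.Repr k a ι) :
    cve x t a = ∑ i ∈ r.index, x.ev (r.left i) * t.ev (r.right i) :=
  cve_tens x t a r.index r.left r.right r.eq.symm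

private theorem cve_mul (x t : LD k H) (g a : H) {ι κ : Type*} (r : Coalgebra.Repr k g ι)
    (r' : Coalgebra.Repr k a κ) :
    cve x t (g * a) = ∑ i ∈ r.index, cve (op (r.left i) • x) (op (r.right i) • t) a := by
  have h : comul (R := k) (g * a) = ∑ p ∈ r.index ×ˢ r'.index,
      (r.left p.1 * r'.left p.2) ⊗ₜ[k] (r.right p.1 * r'.right p.2) := by
    rw [Bialgebra.comul_mul, ← r.eq, ← r'.eq, Finset.sum_mul_sum, Finset.sum_product]
    refine Finset.sum_congr rfl fun i _ => Finset.sum_congr rfl fun j _ => ?_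
    rw [Algebra.TensorProduct.tmul_mul_tmul]
  rw [cve_tens x t (g * a) _ _ _ h, Finset.sum_product]
  refine Finset.sum_congr rfl fun i _ => ?_
  rw [cve_repr _ _ a r']
  rfl

private theorem cve_add_left (x x' t : LD k H) (a : H) :
    cve (x + x') t a = cve x t a + cve x' t a := by
  rw [cve_repr _ _ a (ℛ k a), cve_repr _ _ a (ℛ k a), cve_repr _ _ a (ℛ k a),
    ← Finset.sum_add_distrib]
  refine Finset.sum_congr rfl fun i _ => ?_
  have e : (x + x').ev ((ℛ k a).left i) = x.ev ((ℛ k a).left i) + x'.ev ((ℛ k a).left i) := rfl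
  rw [e, add_mul]

private theorem cve_smul_left (c : k) (x t : LD k H) (a : H) :
    cve (c • x) t a = c * cve x t a := by
  rw [cve_repr _ _ a (ℛ k a), cve_repr _ _ a (ℛ k a), Finset.mul_sum]
  refine Finset.sum_congr rfl fun i _ => ?_
  have e : (c • x).ev ((ℛ k a).left i) = c * x.ev ((ℛ k a).left i) := rfl
  rw [e, mul_assoc]

private theorem cve_add_right (x t t' : LD k H) (a : H) :
    cve x (t + t') a = cve x t a + cve x t' a := by
  rw [cve_repr _ _ a (ℛ k a), cve_repr _ _ a (ℛ k a), cve_repr _ _ a (ℛ k a),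
    ← Finset.sum_add_distrib]
  refine Finset.sum_congr rfl fun i _ => ?_
  have e : (t + t').ev ((ℛ k a).right i) = t.ev ((ℛ k a).right i) + t'.ev ((ℛ k a).right i) := rfl
  rw [e, mul_add]

private theorem cve_smul_right (c : k) (x t : LD k H) (a : H) :
    cve x (c • t) a = c * cve x t a := by
  rw [cve_repr _ _ a (ℛ k a), cve_repr _ _ a (ℛ k a), Finset.mul_sum]
  refine Finset.sum_congr rfl fun i _ => ?_
  have e : (c • t).ev ((ℛ k a).right i) = c * t.ev ((ℛ k a).right i) := rfl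
  rw [e, mul_left_comm]

/-- `s(a)(x)`. -/
private noncomputable def sE2 (a : H) (x : LD k H) : RD k (LFin k H) :=
  ({ toFun := fun t => cve x t.1 a
     map_add' := fun t t' => cve_add_right x t.1 t'.1 a
     map_smul' := fun c t => cve_smul_right c x t.1 a } : LFin k H →ₗ[k] k)

/-- `s(a)`. -/
private noncomputable def sE1 (a : H) : ZZ k H (RD k (LFin k H)) :=
  ZZ.mk { toFun := sE2 a
          map_add' := fun x x' => LinearMap.ext fun t => cve_add_left x x' t.1 a
          map_smul' := fun c x => LinearMap.ext fun t => cve_smul_left c x t.1 a }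

private theorem sE1_ev (a : H) (x : LD k H) (t : LFin k H) :
    ((sE1 a).ev x).ev t = cve x t.1 a := rfl

/-- The counit as an element of the dual. -/
private noncomputable def epsL : LD k H := (counit (R := k) : H →ₗ[k] k)

private theorem epsL_ev (a : H) : (epsL : LD k H).ev a = counit (R := k) a := rfl

private theorem smul_epsL (g : Hᵐᵒᵖ) :
    g • (epsL : LD k H) = counit (R := k) (unop g) • (epsL : LD k H) := by
  refine LinearMap.ext fun x => ?_
  show counit (R := k) (unop g * x) = counit (R := k) (unop g) • counit (R := k) x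
  rw [Bialgebra.counit_mul, smul_eq_mul]

private theorem epsL_mem : (epsL : LD k H) ∈ LFin k H := by
  rw [mem_LFin]
  rw [finDim_iff]
  refine Module.Finite.of_surjective
    (LinearMap.toSpanSingleton k (Submodule.span Hᵐᵒᵖ {(epsL : LD k H)})
      ⟨epsL, Submodule.mem_span_singleton_self _⟩) ?_
  rintro ⟨y, hy⟩
  obtain ⟨g, rfl⟩ := Submodule.mem_span_singleton.1 hy
  refine ⟨counit (R := k) (unop g), Subtype.ext ?_⟩
  show counit (R := k) (unop g) • (epsL : LD k H) = g • epsL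
  rw [smul_epsL]

/-- `p`. -/
private noncomputable def pE0 (φ : ZZ k H (RD k (LFin k H))) : RD k (LD k H) :=
  ({ toFun := fun x => (φ.ev x).ev ⟨epsL, epsL_mem⟩
     map_add' := fun x x' => by
      rw [map_add]
      rfl
     map_smul' := fun c x => by
      rw [map_smul]
      rfl } : LD k H →ₗ[k] k)

private theorem RD_sum_ev' {Y : Type u} [AddCommGroup Y] [Module k Y] {ι : Type*} (s : Finset ι)
    (f : ι → RD k Y) (y : Y) : (∑ i ∈ s, f i).ev y = ∑ i ∈ s, (f i).ev y :=
  LinearMap.sum_apply s f y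

private theorem csum {a : H} {ι : Type*} (r : Coalgebra.Repr k a ι) :
    ∑ i ∈ r.index, counit (R := k) (r.right i) • r.left i = a := by
  have h := congrArg (TensorProduct.rid k H) (sum_tmul_counit_eq (R := k) r)
  simpa only [map_sum, TensorProduct.rid_tmul, one_smul] using h

theorem exists_sp : ∃ (s : H →ₗ[H] ZZ k H (RD k (LFin k H)))
    (p : ZZ k H (RD k (LFin k H)) →ₗ[H] RD k (LD k H)), ∀ a, p (s a) = toBidual k H a := by
  refine ⟨{ toFun := sE1
            map_add' := fun a b => LinearMap.ext fun x => LinearMap.ext fun t =>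
              map_add (cve x t.1) a b
            map_smul' := fun g a => LinearMap.ext fun x => LinearMap.ext fun t => ?_ },
          { toFun := pE0
            map_add' := fun φ ψ => LinearMap.ext fun x => rfl
            map_smul' := fun g φ => LinearMap.ext fun x => ?_ }, fun a => ?_⟩
  · show cve x t.1 (g * a) = ((g • sE1 a).ev x).ev t
    rw [ZZ.smul_apply g (ℛ k g), RD_sum_ev', cve_mul x t.1 g a (ℛ k g) (ℛ k a)]
    rfl
  · show ((g • φ).ev x).ev ⟨epsL, epsL_mem⟩ = (φ.ev (op g • x)).ev ⟨epsL, epsL_mem⟩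
    rw [ZZ.smul_apply g (ℛ k g), RD_sum_ev']
    have e1 : ∀ i ∈ (ℛ k g).index,
        ((ℛ k g).right i • φ.ev (op ((ℛ k g).left i) • x)).ev
          (⟨epsL, epsL_mem⟩ : LFin k H) =
        (φ.ev (op (counit (R := k) ((ℛ k g).right i) • (ℛ k g).left i) • x)).ev
          (⟨epsL, epsL_mem⟩ : LFin k H) := by
      intro i _
      rw [RD.smul_ev]
      have e2 : op ((ℛ k g).right i) • (⟨epsL, epsL_mem⟩ : LFin k H) =
          counit (R := k) ((ℛ k g).right i) • (⟨epsL, epsL_mem⟩ : LFin k H) :=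
        Subtype.ext (smul_epsL _)
      have e3 : φ.ev (counit (R := k) ((ℛ k g).right i) • op ((ℛ k g).left i) • x) =
          counit (R := k) ((ℛ k g).right i) • φ.ev (op ((ℛ k g).left i) • x) :=
        map_smul φ.ev _ _
      rw [e2, map_smul, MulOpposite.op_smul, smul_assoc, e3]
      rfl
    rw [Finset.sum_congr rfl e1, ← RD_sum_ev', ← map_sum, ← Finset.sum_smul,
      ← Finset.op_sum, csum (ℛ k g)]
  · refine LinearMap.ext fun x => ?_
    show cve x epsL a = x.ev a
    rw [cve_repr _ _ a (ℛ k a)]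
    conv_rhs => rw [← csum (ℛ k a), map_sum]
    refine Finset.sum_congr rfl fun i _ => ?_
    rw [map_smul, smul_eq_mul, mul_comm]
    rfl

theorem injDim_of_fd [IsNoetherianRing H] [IsNoetherianRing Hᵐᵒᵖ] (h : NormalSep k H) (n : ℕ)
    (hn : ∀ i, n < i → ∀ V : ModuleCat.{u} H, FinDim k H V →
      ∀ x : Ext V (ModuleCat.of H H) i, x = 0) :
    HasInjectiveDimensionLE (ModuleCat.of H H) n := by
  obtain ⟨s, p, hsp⟩ := exists_sp (k := k) (H := H)
  have hZ : HasInjectiveDimensionLE (ModuleCat.of H (ZZ k H (RD k (LFin k H)))) n :=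
    injDimLE_ZZ n (stp_injDim h n hn)
  refine injDimLE_of_fg _ n fun i hi M hM x => ?_
  obtain ⟨j, rfl⟩ : ∃ j, i = j + 1 := ⟨i - 1, by omega⟩
  refine ext_bidual_inj (k := k) M j x ?_
  have e1 : ModuleCat.ofHom (toBidual k H) = ModuleCat.ofHom s ≫ ModuleCat.ofHom p := by
    refine ModuleCat.hom_ext (LinearMap.ext fun a => ?_)
    exact (hsp _).symm
  have e2 : x.comp (Ext.mk₀ (ModuleCat.ofHom s)) (add_zero (j + 1)) = 0 :=
    Ext.eq_zero_of_hasInjectiveDimensionLT _ (n + 1) (by omega)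
  rw [e1, ← Ext.mk₀_comp_mk₀]
  rw [← Ext.comp_assoc x (Ext.mk₀ (ModuleCat.ofHom s)) (Ext.mk₀ (ModuleCat.ofHom p))
    (add_zero (j + 1)) (add_zero 0) (by omega), e2, Ext.zero_comp]

/-- Version with the trivial module. -/
theorem injDim_of_triv [IsNoetherianRing H] [IsNoetherianRing Hᵐᵒᵖ] (h : NormalSep k H) (n : ℕ)
    (hn : ∀ i, n < i → ∀ x : Ext (trv k H) (ModuleCat.of H H) i, x = 0) :
    HasInjectiveDimensionLE (ModuleCat.of H H) n :=
  injDim_of_fd h n fun i hi V hV => ext_fd_zero i (hn i hi) V hV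

end BGN
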