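import Pool.Agent.BGN.Res

/-!
# BGN TorF: the homology of `Y^{n i}` is finite dimensional

`V` is a finite dimensional left module with resolution `F`, `Y` a finitely generated right module
over the right noetherian ring `R`.  The homology of the complex `Y^{n (i+1)} → Y^{n i}`,
`y ↦ y D_i` (this is `Tor_i(Y, V)`) is finite dimensional over `k`.

PROOF.  Induction on `i`, for all `Y`.  Choose a surjection `π : R^m → Y` of right modules (`R` as
right module: `R` is a `Module Rᵐᵒᵖ R`; or take `(Fin m → Rᵐᵒᵖ)`) with kernel `Y'`, finitely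
generated because `R` is right noetherian.
For `Y = R^m` the homology vanishes in positive degrees by `F.exact` (row vectors over `R`, `m`
copies) and in degree `0` it is `V^m` (`F.exact0`), finite dimensional.
* `i = 0`: `Y^{n 0} / Y^{n 1} D_0` is a quotient of `(R^m)^{n 0} / (R^m)^{n 1} D_0 ≅ V^m`.
* `i + 1`: `y ∈ Y^{n (i+1)}` with `y D_i = 0`; lift `y = π(r)`, `r D_i ∈ Y'^{n i}` is a cycle
  (for `i = 0` no condition); this gives a `k`-linear map from cycles of `Y` in degree `i+1` to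
  `H_i(Y')` (finite dimensional by induction).  If `r D_i = y' D_i` with
  `y' ∈ Y'^{n (i+1)}`, then `(r - y') D_i = 0`, so `r - y' = u D_{i+1}` by exactness and
  `y = π(u) D_{i+1}` is a boundary.  So `H_{i+1}(Y)` embeds in `H_i(Y')`.
A convenient way: for a `k`-linear map `g` from the space `Z` of cycles to a finite dimensional
space with `ker g ⊆ B` the quotient `Z/B` is finite dimensional.
-/

namespace BGN

universe u

variable {k : Type u} [Field k] {R : Type u} [Ring R] [Algebra k R]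

section aux

theorem fg_rel {A E : Type u} [AddCommGroup A] [Module k A] [AddCommGroup E] [Module k E]
    (Z B : Submodule k A) (f : A →ₗ[k] E) {q : ℕ} (s : Fin q → E)
    (h : ∀ r ∈ Z, ∃ c : Fin q → k, ∃ b ∈ B, f r = (∑ j, c j • s j) + f b) :
    ∃ (p : ℕ) (t : Fin p → A), (∀ j, t j ∈ Z) ∧
      ∀ r ∈ Z, ∃ a : Fin p → k, ∃ b ∈ B, f (r - (∑ j, a j • t j) - b) = 0 := by
  classical
  obtain ⟨g, hg⟩ : ∃ g : A →ₗ[k] (E ⧸ Submodule.map f B), g = (Submodule.mkQ _) ∘ₗ f :=
    ⟨_, rfl⟩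
  have hle : Submodule.map g Z ≤
      Submodule.span k (Set.range fun j => (Submodule.map f B).mkQ (s j)) := by
    rintro _ ⟨r, hr, rfl⟩
    obtain ⟨c, b, hb, hcb⟩ := h r hr
    rw [hg, LinearMap.comp_apply, hcb, map_add, map_sum]
    have h0 : (Submodule.map f B).mkQ (f b) = 0 := by
      rw [Submodule.mkQ_apply, Submodule.Quotient.mk_eq_zero]
      exact ⟨b, hb, rfl⟩
    rw [h0, add_zero]
    refine Submodule.sum_mem _ fun j _ => ?_
    rw [map_smul]
    exact Submodule.smul_mem _ _ (Submodule.subset_span ⟨j, rfl⟩)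
  have hfg : (Submodule.map g Z).FG := by
    have : Module.Finite k
        (Submodule.span k (Set.range fun j => (Submodule.map f B).mkQ (s j))) :=
      Module.Finite.span_of_finite k (Set.finite_range _)
    have : IsNoetherian k
        (Submodule.span k (Set.range fun j => (Submodule.map f B).mkQ (s j))) := inferInstance
    have : IsNoetherian k (Submodule.map g Z) := isNoetherian_of_le hle
    exact (Submodule.fg_top _).mp (IsNoetherian.noetherian ⊤)
  obtain ⟨p, v, hv⟩ := Submodule.fg_iff_exists_fin_generating_family.mp hfg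
  have hvm : ∀ j, ∃ t ∈ Z, g t = v j := by
    intro j
    have : v j ∈ Submodule.map g Z := by
      rw [← hv]
      exact Submodule.subset_span ⟨j, rfl⟩
    exact this
  choose t ht htv using hvm
  refine ⟨p, t, ht, fun r hr => ?_⟩
  have hgr : g r ∈ Submodule.span k (Set.range v) := by
    rw [hv]
    exact ⟨r, hr, rfl⟩
  obtain ⟨a, ha⟩ := (Submodule.mem_span_range_iff_exists_fun k).mp hgr
  have h1 : g (r - ∑ j, a j • t j) = 0 := by
    rw [map_sub, map_sum, ← ha, sub_eq_zero]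
    refine Finset.sum_congr rfl fun j _ => ?_
    rw [map_smul, htv]
  rw [hg, LinearMap.comp_apply, Submodule.mkQ_apply, Submodule.Quotient.mk_eq_zero] at h1
  obtain ⟨b, hb, hb'⟩ := h1
  refine ⟨a, b, hb, ?_⟩
  rw [map_sub, hb', sub_self]

theorem exists_fin_gen {A : Type u} [AddCommGroup A] [Module k A] {ι : Type u} [Fintype ι]
    (s : ι → A) : ∃ (p : ℕ) (t : Fin p → A), ∀ c : ι → k, ∃ a : Fin p → k,
      ∑ x, c x • s x = ∑ j, a j • t j := by
  classical
  refine ⟨Fintype.card ι, fun j => s ((Fintype.equivFin ι).symm j), fun c =>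
    ⟨fun j => c ((Fintype.equivFin ι).symm j), ?_⟩⟩
  exact ((Fintype.equivFin ι).symm.sum_comp fun x => c x • s x).symm

/-- right action of a matrix as a `k`-linear map -/
def ractL (Y : Type u) [AddCommGroup Y] [Module Rᵐᵒᵖ Y] [Module k Y] [IsScalarTower k Rᵐᵒᵖ Y]
    {m n : ℕ} (D : Matrix (Fin m) (Fin n) R) : (Fin m → Y) →ₗ[k] (Fin n → Y) where
  toFun y := ract y D
  map_add' y y' := ract_add D y y'
  map_smul' c y := by
    funext l
    simp only [ract, Pi.smul_apply, RingHom.id_apply, Finset.smul_sum]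
    refine Finset.sum_congr rfl fun j _ => ?_
    rw [smul_comm]

theorem ractL_apply (Y : Type u) [AddCommGroup Y] [Module Rᵐᵒᵖ Y] [Module k Y]
    [IsScalarTower k Rᵐᵒᵖ Y] {m n : ℕ} (D : Matrix (Fin m) (Fin n) R) (y : Fin m → Y) :
    ractL (k := k) Y D y = ract y D := rfl

theorem ract_free {M m n : ℕ} (D : Matrix (Fin m) (Fin n) R) (r : Fin m → (Fin M → Rᵐᵒᵖ))
    (l : Fin n) (a : Fin M) :
    ract r D l a = MulOpposite.op (Matrix.vecMul (fun j => (r j a).unop) D l) := by
  simp only [ract, Finset.sum_apply, Pi.smul_apply, smul_eq_mul, Matrix.vecMul, dotProduct]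
  rw [Finset.op_sum]
  refine Finset.sum_congr rfl fun j _ => ?_
  rw [MulOpposite.op_mul, MulOpposite.op_unop]

theorem free_exact {V : Type u} [AddCommGroup V] [Module R V] (F : FRes R V) (i M : ℕ)
    (r : Fin (F.n (i + 1)) → (Fin M → Rᵐᵒᵖ)) (h : ract r (F.D i) = 0) :
    ∃ u : Fin (F.n (i + 2)) → (Fin M → Rᵐᵒᵖ), r = ract u (F.D (i + 1)) := by
  have h1 : ∀ a : Fin M, ∃ u : Fin (F.n (i + 2)) → R,
      Matrix.vecMul u (F.D (i + 1)) = fun j => (r j a).unop := by
    intro a
    rw [← F.exact]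
    funext l
    have := congrFun (congrFun h l) a
    rw [ract_free] at this
    exact MulOpposite.op_injective this
  choose u hu using h1
  refine ⟨fun j a => MulOpposite.op (u a j), ?_⟩
  funext l a
  rw [ract_free]
  have := congrFun (hu a) l
  simp only [MulOpposite.unop_op]
  rw [this, MulOpposite.op_unop]

theorem free_zero {V : Type u} [AddCommGroup V] [Module R V] (hV : FinDim k R V) (F : FRes R V)
    (M : ℕ) : ∃ (p : ℕ) (t : Fin p → (Fin (F.n 0) → (Fin M → Rᵐᵒᵖ))),
      ∀ r : Fin (F.n 0) → (Fin M → Rᵐᵒᵖ), ∃ (c : Fin p → k)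
        (u : Fin (F.n 1) → (Fin M → Rᵐᵒᵖ)), r = (∑ j, c j • t j) + ract u (F.D 0) := by
  classical
  obtain ⟨s, hs⟩ := hV
  choose w hw using F.surj
  obtain ⟨p, t, ht⟩ := exists_fin_gen (k := k) (ι := ULift.{u} (Fin M) × s)
    (fun x => ((fun j => Pi.single x.1.down (MulOpposite.op (w x.2.1 j))) :
      Fin (F.n 0) → (Fin M → Rᵐᵒᵖ)))
  refine ⟨p, t, fun r => ?_⟩
  choose c hc using hs
  have h1 : ∀ a : Fin M, ∃ u : Fin (F.n 1) → R, Matrix.vecMul u (F.D 0) =
      (fun j => (r j a).unop) -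
        ∑ x ∈ s, algebraMap k R (c (F.aug fun j => (r j a).unop) x) • w x := by
    intro a
    rw [← F.exact0, map_sub, map_sum, sub_eq_zero]
    conv_lhs => rw [hc (F.aug fun j => (r j a).unop)]
    refine Finset.sum_congr rfl fun x _ => ?_
    rw [map_smul, hw]
  choose u hu using h1
  obtain ⟨b, hb⟩ := ht fun x => c (F.aug fun j => (r j x.1.down).unop) x.2.1
  refine ⟨b, fun j a => MulOpposite.op (u a j), ?_⟩
  rw [← hb]
  funext l a
  rw [Pi.add_apply, Pi.add_apply, ract_free]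
  simp only [MulOpposite.unop_op]
  have h2 := congrFun (hu a) l
  rw [h2, Fintype.sum_prod_type]
  have h3 : (∑ x : ULift.{u} (Fin M), ∑ y : s,
      c (F.aug fun j => (r j x.down).unop) y.1 •
        ((fun j => Pi.single x.down (MulOpposite.op (w y.1 j))) :
          Fin (F.n 0) → (Fin M → Rᵐᵒᵖ))) l a =
      ∑ y : s, c (F.aug fun j => (r j a).unop) y.1 • MulOpposite.op (w y.1 l) := by
    rw [Finset.sum_apply, Finset.sum_apply]
    rw [Finset.sum_eq_single (ULift.up a)]
    · rw [Finset.sum_apply, Finset.sum_apply]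
      refine Finset.sum_congr rfl fun y _ => ?_
      simp only [Pi.smul_apply, Pi.single_eq_same]
    · intro x _ hx
      rw [Finset.sum_apply, Finset.sum_apply]
      refine Finset.sum_eq_zero fun y _ => ?_
      have hxa : a ≠ x.down := fun h => hx (by rw [h])
      simp only [Pi.smul_apply, Pi.single_eq_of_ne hxa, smul_zero]
    · intro hx
      exact absurd (Finset.mem_univ _) hx
  rw [h3, Pi.sub_apply, MulOpposite.op_sub, MulOpposite.op_unop, Finset.sum_apply,
    Finset.op_sum, ← Finset.sum_coe_sort s]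
  have h4 : ∀ y : s, MulOpposite.op
      ((algebraMap k R (c (F.aug fun j => (r j a).unop) y.1) • w y.1) l) =
      c (F.aug fun j => (r j a).unop) y.1 • MulOpposite.op (w y.1 l) := by
    intro y
    rw [Pi.smul_apply, smul_eq_mul, ← Algebra.smul_def, MulOpposite.op_smul]
  rw [Finset.sum_congr rfl fun y _ => h4 y]
  abel

end aux

theorem tor_fd_zero [IsNoetherianRing Rᵐᵒᵖ] {V : Type u} [AddCommGroup V] [Module R V]
    (hV : FinDim k R V) (F : FRes R V) (Y : Type u) [AddCommGroup Y] [Module Rᵐᵒᵖ Y]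
    [Module.Finite Rᵐᵒᵖ Y] [Module k Y] [IsScalarTower k Rᵐᵒᵖ Y] :
    ∃ (m : ℕ) (s : Fin m → (Fin (F.n 0) → Y)), ∀ y : Fin (F.n 0) → Y,
      ∃ (c : Fin m → k) (u : Fin (F.n 1) → Y), y = (∑ j, c j • s j) + ract u (F.D 0) := by
  obtain ⟨M, π, hπ⟩ := Module.Finite.exists_fin' Rᵐᵒᵖ Y
  obtain ⟨p, t, ht⟩ := free_zero hV F M
  refine ⟨p, fun j l => π (t j l), fun y => ?_⟩
  choose r hr using fun l => hπ (y l)
  obtain ⟨c, u, hcu⟩ := ht r
  refine ⟨c, fun l => π (u l), ?_⟩
  rw [ract_map]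
  funext l
  rw [← hr l, hcu]
  simp only [Pi.add_apply, map_add, Finset.sum_apply, Pi.smul_apply, map_sum]
  congr 1
  refine Finset.sum_congr rfl fun j _ => ?_
  exact (π.restrictScalars k).map_smul (c j) (t j l)

theorem tor_step {V : Type u} [AddCommGroup V] [Module R V] (F : FRes R V) (i : ℕ)
    (Y : Type u) [AddCommGroup Y] [Module Rᵐᵒᵖ Y] [Module k Y] [IsScalarTower k Rᵐᵒᵖ Y] {M : ℕ}
    (π : (Fin M → Rᵐᵒᵖ) →ₗ[Rᵐᵒᵖ] Y) (hπ : Function.Surjective π)
    {q : ℕ} (s : Fin q → (Fin (F.n i) → LinearMap.ker π))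
    (h : ∀ r : Fin (F.n (i + 1)) → (Fin M → Rᵐᵒᵖ),
      ∀ y : Fin (F.n i) → LinearMap.ker π, (∀ l, (y l : Fin M → Rᵐᵒᵖ) = ract r (F.D i) l) →
      ∃ (c : Fin q → k) (u : Fin (F.n (i + 1)) → LinearMap.ker π),
        y = (∑ j, c j • s j) + ract u (F.D i)) :
    ∃ (m : ℕ) (s : Fin m → (Fin (F.n (i + 1)) → Y)), (∀ j, ract (s j) (F.D i) = 0) ∧
      ∀ y : Fin (F.n (i + 1)) → Y, ract y (F.D i) = 0 →
      ∃ (c : Fin m → k) (u : Fin (F.n (i + 2)) → Y),
        y = (∑ j, c j • s j) + ract u (F.D (i + 1)) := by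
  obtain ⟨πk, hπk⟩ : ∃ πk : (Fin M → Rᵐᵒᵖ) →ₗ[k] Y, πk = π.restrictScalars k := ⟨_, rfl⟩
  obtain ⟨P, hP⟩ : ∃ P : (Fin (F.n (i + 1)) → (Fin M → Rᵐᵒᵖ)) →ₗ[k] (Fin (F.n (i + 1)) → Y),
      P = πk.compLeft (Fin (F.n (i + 1))) := ⟨_, rfl⟩
  have hPa : ∀ r l, P r l = π (r l) := by
    intro r l
    rw [hP, hπk]
    rfl
  obtain ⟨p, t, ht, hgen⟩ := fg_rel (k := k)
    (LinearMap.ker ((ractL (k := k) Y (F.D i)) ∘ₗ P)) (LinearMap.ker P)
    (ractL (k := k) (Fin M → Rᵐᵒᵖ) (F.D i)) (fun j l => (s j l : Fin M → Rᵐᵒᵖ)) (by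
      intro r hr
      rw [LinearMap.mem_ker, LinearMap.comp_apply, ractL_apply] at hr
      have hmem : ∀ l, ract r (F.D i) l ∈ LinearMap.ker π := by
        intro l
        rw [LinearMap.mem_ker]
        have h1 := congrFun hr l
        have h2 : P r = fun l => π (r l) := funext (hPa r)
        rw [h2, ract_map] at h1
        exact h1
      obtain ⟨c, u, hcu⟩ := h r (fun l => ⟨ract r (F.D i) l, hmem l⟩) (fun l => rfl)
      refine ⟨c, fun l => (u l : Fin M → Rᵐᵒᵖ), ?_, ?_⟩
      · rw [LinearMap.mem_ker]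
        funext l
        rw [hPa]
        exact (u l).2
      · rw [ractL_apply, ractL_apply]
        have h3 : ract (fun l => (u l : Fin M → Rᵐᵒᵖ)) (F.D i) =
            fun l => ((ract u (F.D i) l : LinearMap.ker π) : Fin M → Rᵐᵒᵖ) :=
          ract_map (LinearMap.ker π).subtype (F.D i) u
        rw [h3]
        funext l
        have h4 := congrArg (fun z : LinearMap.ker π => (z : Fin M → Rᵐᵒᵖ)) (congrFun hcu l)
        simp only [Pi.add_apply, Finset.sum_apply, Pi.smul_apply, Submodule.coe_add] at h4 ⊢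
        rw [h4]
        congr 1
        rw [Submodule.coe_sum]
        rfl)
  refine ⟨p, fun j => P (t j), ?_, ?_⟩
  · intro j
    have := ht j
    rw [LinearMap.mem_ker, LinearMap.comp_apply, ractL_apply] at this
    exact this
  · intro y hy
    choose r hr using fun l => hπ (y l)
    have hPr : P r = y := funext fun l => by rw [hPa, hr]
    obtain ⟨a, b, hb, hab⟩ := hgen r (by
      rw [LinearMap.mem_ker, LinearMap.comp_apply, ractL_apply, hPr, hy])
    rw [ractL_apply] at hab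
    obtain ⟨u, hu⟩ := free_exact F i M _ hab
    refine ⟨a, fun l => π (u l), ?_⟩
    have h5 : P (r - (∑ j, a j • t j) - b) = fun l => π (ract u (F.D (i + 1)) l) := by
      rw [hu]
      exact funext (hPa _)
    rw [map_sub, map_sub, hPr, map_sum, LinearMap.mem_ker.mp hb, sub_zero] at h5
    rw [ract_map]
    rw [← h5]
    simp only [map_smul]
    abel

theorem tor_fd_succ [IsNoetherianRing Rᵐᵒᵖ] {V : Type u} [AddCommGroup V] [Module R V]
    (hV : FinDim k R V) (F : FRes R V) (i : ℕ) (Y : Type u) [AddCommGroup Y] [Module Rᵐᵒᵖ Y]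
    [Module.Finite Rᵐᵒᵖ Y] [Module k Y] [IsScalarTower k Rᵐᵒᵖ Y] :
    ∃ (m : ℕ) (s : Fin m → (Fin (F.n (i + 1)) → Y)), (∀ j, ract (s j) (F.D i) = 0) ∧
      ∀ y : Fin (F.n (i + 1)) → Y, ract y (F.D i) = 0 →
      ∃ (c : Fin m → k) (u : Fin (F.n (i + 2)) → Y),
        y = (∑ j, c j • s j) + ract u (F.D (i + 1)) := by
  induction i generalizing Y with
  | zero =>
    obtain ⟨M, π, hπ⟩ := Module.Finite.exists_fin' Rᵐᵒᵖ Y
    obtain ⟨q, s, hs⟩ := tor_fd_zero hV F (LinearMap.ker π)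
    exact tor_step F 0 Y π hπ s fun r y _ => hs y
  | succ i ih =>
    obtain ⟨M, π, hπ⟩ := Module.Finite.exists_fin' Rᵐᵒᵖ Y
    obtain ⟨q, s, _, hs⟩ := ih (LinearMap.ker π)
    refine tor_step F (i + 1) Y π hπ s fun r y hry => hs y ?_
    funext l
    apply Subtype.ext
    have h3 : (fun l => ((ract y (F.D i) l : LinearMap.ker π) : Fin M → Rᵐᵒᵖ)) =
        ract (fun l => (y l : Fin M → Rᵐᵒᵖ)) (F.D i) :=
      (ract_map (LinearMap.ker π).subtype (F.D i) y).symm
    have h4 : (fun l => (y l : Fin M → Rᵐᵒᵖ)) = ract r (F.D (i + 1)) := funext hry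
    rw [h4, ract_ract, F.mul_eq_zero] at h3
    have h5 : ((ract y (F.D i) l : LinearMap.ker π) : Fin M → Rᵐᵒᵖ) = _ := congrFun h3 l
    rw [h5]
    simp only [ract, Matrix.zero_apply, MulOpposite.op_zero, zero_smul, Finset.sum_const_zero]
    rfl

end BGN
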