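import Pool.Agent.BGN.Nml
import Pool.Agent.BGN.Cls
import Pool.Agent.BGN.TorF
import Pool.Agent.BGN.LemA

/-!
# BGN LemK: `Ext^i(V, W) → Ext^i(V, W')` is zero if `ι(W) = z W'`

`V` finite dimensional, `P` a prime ideal of infinite codimension.  There is a normal element `z`
modulo `P`, depending only on `V` and `i`, such that for all `R`-modules `W, W'` killed by `P`, `W'`
`z`-torsion free, and every injective homomorphism `ι : W → W'` with image `z W'` the induced map on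
`Ext^i(V, -)` is zero.

PROOF.  Choose a resolution `F` of `V` (`FRes.exists`, `FinDim.finite`).  Let `A = R ⧸ P`
(a ring: `hP.twoSided`), `D̄_i = (F.D i).map mk`, `Z = {z̄ | Nrm P z}`.  `Z` is closed under products
(`Nrm.mul`), regular (`left_reg`, `right_reg`), normal.  Row homology of `D̄` over `A`: this is the
homology of `Y^{n i}` for the right module `Y = A` (a `Module Rᵐᵒᵖ A` by
`Module.compHom`/right multiplication by classes), finite dimensional by `tor_fd_zero`,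
`tor_fd_succ`; it is a left `R`-module (left multiplication; kernels and images of
`v ↦ v ᵥ* D̄_i` are left submodules of `A^{n i}`) killed by `P`, so it is killed by some `z` with
`Nrm P z` (`exists_kill`).  This gives hypotheses `k0`, `k1` of `lemA`.  `lemA` gives
`z, τ, T, S` over `A`.  Apply `τ⁻¹` to the matrix identity (`τ z = z`, as `z z = τ(z) z`):
`z = T' τ⁻¹(D̄_i) + D̄_{i-1} S'`, and `D̄_i z = z τ⁻¹(D̄_i)`.  Choose lifts to `R` of
`T', S', D' := τ⁻¹(D̄_i)`.  Let `x ∈ Ext^i(V, W)`, `x = cls w`, `act D_i w = 0`.  Choose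
`w' ∈ W'^{n i}` with `ι(w_l) = z w'_l`.  `z act(D') w' = act(D_i)(z w') = ι(act D_i w) = 0`, so
`act D' w' = 0` (`z`-torsion free).  Hence `ι w = z w' = act T' (act D' w') + act D_{i-1} (act S' w')
= act D_{i-1} (act S' w')` and `x.comp ι = cls (ι w) = 0` (`cls_comp`, `cls_succ_iff`; for `i = 0`
`ι w = 0`, `cls_zero_iff`).  (`W'` is killed by `P`, so congruences modulo `P` of matrices are
harmless.)
-/

namespace BGN

open CategoryTheory Abelian

universe u

variable {k : Type u} [Field k] {R : Type u} [Ring R] [Algebra k R]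

/-! ### finite dimensional homology is killed by a normal element -/

private theorem lk_kill (h : NormalSep k R) {P : Ideal R} (hP : IsPrime2 P)
    (hinf : ¬ FinCodim k P) {M : Type u} [AddCommGroup M] [Module R M] [Module k M]
    [IsScalarTower k R M] (hPM : ∀ p ∈ P, ∀ x : M, p • x = 0) (N B : Submodule R M) (m : ℕ)
    (s : Fin m → M) (hs : ∀ j, s j ∈ N)
    (hspan : ∀ y ∈ N, ∃ c : Fin m → k, ∃ b ∈ B, y = (∑ j, c j • s j) + b) :
    ∃ z, Nrm P z ∧ ∀ y ∈ N, z • y ∈ B := by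
  obtain ⟨N', hN'⟩ : ∃ N' : Submodule R (M ⧸ B), N' = N.map B.mkQ := ⟨_, rfl⟩
  have hmem : ∀ y ∈ N, B.mkQ y ∈ N' := fun y hy => by
    rw [hN']
    exact Submodule.mem_map_of_mem hy
  have hfin : Module.Finite k N' := by
    let f : (Fin m → k) →ₗ[k] N' :=
      Fintype.linearCombination k (fun j => (⟨B.mkQ (s j), hmem _ (hs j)⟩ : N'))
    refine Module.Finite.of_surjective f ?_
    rintro ⟨q, hq⟩
    rw [hN', Submodule.mem_map] at hq
    obtain ⟨y, hy, rfl⟩ := hq
    obtain ⟨c, b, hb, hyb⟩ := hspan y hy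
    refine ⟨c, Subtype.ext ?_⟩
    have h1 : (f c : M ⧸ B) = ∑ j, c j • B.mkQ (s j) := by
      simp only [f, Fintype.linearCombination_apply]
      rw [Submodule.coe_sum]
      exact Finset.sum_congr rfl fun j _ => rfl
    rw [h1]
    have h2 : B.mkQ (∑ j, c j • s j) = ∑ j, c j • B.mkQ (s j) := by
      rw [map_sum]
      exact Finset.sum_congr rfl fun j _ => rfl
    have h3 : B.mkQ b = 0 := by
      rw [Submodule.mkQ_apply, Submodule.Quotient.mk_eq_zero]
      exact hb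
    change _ = B.mkQ y
    rw [hyb, map_add, h3, add_zero, h2]
  have hfd : FinDim k R N' := finDim_iff.2 hfin
  obtain ⟨z, hz, hz2⟩ := exists_kill h hP hinf hfd (by
    rintro p hp ⟨q, hq⟩
    apply Subtype.ext
    obtain ⟨y, rfl⟩ := Submodule.mkQ_surjective B q
    change p • B.mkQ y = 0
    rw [← map_smul, hPM p hp, map_zero])
  refine ⟨z, hz, fun y hy => ?_⟩
  have h1 := congrArg Subtype.val (hz2 ⟨B.mkQ y, hmem y hy⟩)
  change z • B.mkQ y = 0 at h1
  rw [← map_smul, Submodule.mkQ_apply, Submodule.Quotient.mk_eq_zero] at h1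
  exact h1

/-! ### the quotient ring as a bimodule -/

section quot

variable (P : Ideal R) [P.IsTwoSided]

private theorem lk_smul (r : R) (a : R ⧸ P) : r • a = Ideal.Quotient.mk P r * a := by
  obtain ⟨s, rfl⟩ := Ideal.Quotient.mk_surjective a
  rfl

@[reducible] private noncomputable def lk_mod : Module Rᵐᵒᵖ (R ⧸ P) :=
  Module.compHom (R ⧸ P) (RingHom.op (Ideal.Quotient.mk P))

private theorem lk_op_smul (r : R) (a : R ⧸ P) :
    (letI := lk_mod P; (MulOpposite.op r • a)) = a * Ideal.Quotient.mk P r := rfl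

private theorem lk_ract {m n : ℕ} (D : Matrix (Fin m) (Fin n) R) (y : Fin m → R ⧸ P) :
    (letI := lk_mod P; ract y D) = Matrix.vecMul y (D.map (Ideal.Quotient.mk P)) := by
  funext l
  unfold ract
  simp only [Matrix.vecMul, dotProduct, Matrix.map_apply]
  exact Finset.sum_congr rfl fun j _ => lk_op_smul P _ _

private noncomputable def lk_lin {m n : ℕ} (D : Matrix (Fin m) (Fin n) (R ⧸ P)) :
    (Fin m → R ⧸ P) →ₗ[R] (Fin n → R ⧸ P) where
  toFun := fun u => Matrix.vecMul u D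
  map_add' := fun u v => Matrix.add_vecMul D u v
  map_smul' := fun r u => by
    funext l
    simp only [Matrix.vecMul, dotProduct, Pi.smul_apply, lk_smul, RingHom.id_apply,
      Finset.mul_sum, mul_assoc]

private theorem lk_lin_apply {m n : ℕ} (D : Matrix (Fin m) (Fin n) (R ⧸ P))
    (u : Fin m → R ⧸ P) : lk_lin P D u = Matrix.vecMul u D := rfl

private theorem lk_finite : (letI := lk_mod P; Module.Finite Rᵐᵒᵖ (R ⧸ P)) := by
  letI := lk_mod P
  refine ⟨⟨{1}, ?_⟩⟩
  rw [eq_top_iff]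
  intro a _
  obtain ⟨r, rfl⟩ := Ideal.Quotient.mk_surjective a
  rw [Finset.coe_singleton, Submodule.mem_span_singleton]
  refine ⟨MulOpposite.op r, ?_⟩
  rw [lk_op_smul, one_mul]

private theorem lk_tower : (letI := lk_mod P; IsScalarTower k Rᵐᵒᵖ (R ⧸ P)) := by
  letI := lk_mod P
  refine ⟨fun c x a => ?_⟩
  obtain ⟨r, rfl⟩ := MulOpposite.op_surjective x
  obtain ⟨s, rfl⟩ := Ideal.Quotient.mk_surjective a
  rw [← MulOpposite.op_smul, lk_op_smul, lk_op_smul, ← map_mul, ← map_mul]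
  change Ideal.Quotient.mk P (s * c • r) = Ideal.Quotient.mk P (c • (s * r))
  rw [mul_smul_comm]

private theorem lk_killed {n : ℕ} (p : R) (hp : p ∈ P) (x : Fin n → R ⧸ P) : p • x = 0 := by
  funext l
  rw [Pi.smul_apply, lk_smul, Ideal.Quotient.eq_zero_iff_mem.2 hp, zero_mul]
  rfl

end quot

private theorem lk_hom0 [IsNoetherianRing Rᵐᵒᵖ] (h : NormalSep k R) {P : Ideal R}
    [P.IsTwoSided] (hP : IsPrime2 P) (hinf : ¬ FinCodim k P) {V : Type u} [AddCommGroup V]
    [Module R V] (hV : FinDim k R V) (F : FRes R V) :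
    ∃ z, Nrm P z ∧ ∀ v : Fin (F.n 0) → R ⧸ P, ∃ u : Fin (F.n 1) → R ⧸ P,
      (fun l => Ideal.Quotient.mk P z * v l) =
        Matrix.vecMul u ((F.D 0).map (Ideal.Quotient.mk P)) := by
  letI i1 := lk_mod P
  haveI i2 := lk_finite P
  haveI i3 : IsScalarTower k Rᵐᵒᵖ (R ⧸ P) := lk_tower P
  obtain ⟨m, s, hs⟩ := tor_fd_zero hV F (R ⧸ P)
  obtain ⟨z, hz, hz2⟩ := lk_kill h hP hinf (M := Fin (F.n 0) → R ⧸ P)
    (fun p hp x => lk_killed P p hp x) ⊤
    (LinearMap.range (lk_lin P ((F.D 0).map (Ideal.Quotient.mk P)))) m s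
    (fun _ => Submodule.mem_top) (fun y _ => by
      obtain ⟨c, u, hu⟩ := hs y
      refine ⟨c, ract u (F.D 0), ?_, hu⟩
      rw [LinearMap.mem_range]
      exact ⟨u, (lk_ract P (F.D 0) u).symm⟩)
  refine ⟨z, hz, fun v => ?_⟩
  obtain ⟨u, hu⟩ := hz2 v Submodule.mem_top
  refine ⟨u, ?_⟩
  rw [← lk_lin_apply, hu]
  funext l
  rw [Pi.smul_apply, lk_smul]

private theorem lk_hom1 [IsNoetherianRing Rᵐᵒᵖ] (h : NormalSep k R) {P : Ideal R}
    [P.IsTwoSided] (hP : IsPrime2 P) (hinf : ¬ FinCodim k P) {V : Type u} [AddCommGroup V]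
    [Module R V] (hV : FinDim k R V) (F : FRes R V) (i : ℕ) :
    ∃ z, Nrm P z ∧ ∀ v : Fin (F.n (i + 1)) → R ⧸ P,
      Matrix.vecMul v ((F.D i).map (Ideal.Quotient.mk P)) = 0 →
      ∃ u : Fin (F.n (i + 2)) → R ⧸ P, (fun l => Ideal.Quotient.mk P z * v l) =
        Matrix.vecMul u ((F.D (i + 1)).map (Ideal.Quotient.mk P)) := by
  letI i1 := lk_mod P
  haveI i2 := lk_finite P
  haveI i3 : IsScalarTower k Rᵐᵒᵖ (R ⧸ P) := lk_tower P
  obtain ⟨m, s, hs0, hs⟩ := tor_fd_succ hV F i (R ⧸ P)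
  obtain ⟨z, hz, hz2⟩ := lk_kill h hP hinf (M := Fin (F.n (i + 1)) → R ⧸ P)
    (fun p hp x => lk_killed P p hp x)
    (LinearMap.ker (lk_lin P ((F.D i).map (Ideal.Quotient.mk P))))
    (LinearMap.range (lk_lin P ((F.D (i + 1)).map (Ideal.Quotient.mk P)))) m s
    (fun j => by
      rw [LinearMap.mem_ker, lk_lin_apply, ← lk_ract]
      exact hs0 j) (fun y hy => by
      rw [LinearMap.mem_ker, lk_lin_apply, ← lk_ract] at hy
      obtain ⟨c, u, hu⟩ := hs y hy
      refine ⟨c, ract u (F.D (i + 1)), ?_, hu⟩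
      rw [LinearMap.mem_range]
      exact ⟨u, (lk_ract P (F.D (i + 1)) u).symm⟩)
  refine ⟨z, hz, fun v hv => ?_⟩
  obtain ⟨u, hu⟩ := hz2 v (by
    rw [LinearMap.mem_ker, lk_lin_apply]
    exact hv)
  refine ⟨u, ?_⟩
  rw [← lk_lin_apply, hu]
  funext l
  rw [Pi.smul_apply, lk_smul]

/-! ### matrices modulo `P` -/

section matr

variable {P : Ideal R} {W' : Type u} [AddCommGroup W'] [Module R W'] {m n : ℕ}

private theorem lk_act_diag (z : R) (w : Fin n → W') :
    act (Matrix.diagonal fun _ => z) w = fun l => z • w l := by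
  funext l
  unfold act
  rw [Finset.sum_eq_single l]
  · rw [Matrix.diagonal_apply_eq]
  · intro j _ hj
    rw [Matrix.diagonal_apply_ne _ (Ne.symm hj), zero_smul]
  · intro hl
    exact absurd (Finset.mem_univ l) hl

private theorem lk_add_act (M M' : Matrix (Fin m) (Fin n) R) (w : Fin n → W') :
    act (M + M') w = act M w + act M' w := by
  funext j
  unfold act
  rw [Pi.add_apply, ← Finset.sum_add_distrib]
  exact Finset.sum_congr rfl fun l _ => by rw [Matrix.add_apply, add_smul]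

private theorem lk_congr [P.IsTwoSided] (hW : ∀ p ∈ P, ∀ w : W', p • w = 0)
    (M M' : Matrix (Fin m) (Fin n) R)
    (h : M.map (Ideal.Quotient.mk P) = M'.map (Ideal.Quotient.mk P)) (w : Fin n → W') :
    act M w = act M' w := by
  funext j
  unfold act
  refine Finset.sum_congr rfl fun l _ => ?_
  have h1 : Ideal.Quotient.mk P (M j l) = Ideal.Quotient.mk P (M' j l) :=
    congrFun (congrFun h j) l
  have h2 : M j l - M' j l ∈ P := Ideal.Quotient.eq.1 h1
  have h3 := hW _ h2 (w l)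
  rw [sub_smul, sub_eq_zero] at h3
  exact h3

private theorem lk_lift [P.IsTwoSided] (M : Matrix (Fin m) (Fin n) (R ⧸ P)) :
    ∃ M' : Matrix (Fin m) (Fin n) R, M'.map (Ideal.Quotient.mk P) = M := by
  choose f hf using fun (a : R ⧸ P) => Ideal.Quotient.mk_surjective a
  refine ⟨M.map f, ?_⟩
  ext j l
  rw [Matrix.map_apply, Matrix.map_apply, hf]

end matr

theorem lemK [IsNoetherianRing R] [IsNoetherianRing Rᵐᵒᵖ] (h : NormalSep k R) {P : Ideal R}
    (hP : IsPrime2 P) (hinf : ¬ FinCodim k P) (V : ModuleCat.{u} R) (hV : FinDim k R V) (i : ℕ) :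
    ∃ z, Nrm P z ∧ ∀ (W W' : ModuleCat.{u} R) (ι : W ⟶ W'),
      (∀ p ∈ P, ∀ w : W, p • w = 0) → (∀ p ∈ P, ∀ w : W', p • w = 0) →
      (∀ w : W', z • w = 0 → w = 0) → Function.Injective ι → (∀ w : W, ∃ w' : W', ι w = z • w') →
      ∀ x : Ext V W i, x.comp (Ext.mk₀ ι) (add_zero i) = 0 := by
  haveI htw : P.IsTwoSided := hP.twoSided
  haveI : Module.Finite R V := hV.finite
  obtain ⟨F⟩ := FRes.exists (R := R) (V := V)
  obtain ⟨π, hπ⟩ : ∃ π : R →+* R ⧸ P, π = Ideal.Quotient.mk P := ⟨_, rfl⟩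
  have hπs : Function.Surjective π := by
    rw [hπ]
    exact Ideal.Quotient.mk_surjective
  have hπ0 : ∀ r, π r = 0 ↔ r ∈ P := fun r => by
    rw [hπ]
    exact Ideal.Quotient.eq_zero_iff_mem
  let Z : Set (R ⧸ P) := {a | ∃ z, Nrm P z ∧ π z = a}
  have hmul : ∀ x ∈ Z, ∀ y ∈ Z, x * y ∈ Z := by
    rintro _ ⟨x, hx, rfl⟩ _ ⟨y, hy, rfl⟩
    exact ⟨x * y, Nrm.mul hP hx hy, map_mul π x y⟩
  have h1 : ∀ z ∈ Z, ∀ a, z * a = 0 → a = 0 := by
    rintro _ ⟨z, hz, rfl⟩ a ha
    obtain ⟨r, rfl⟩ := hπs a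
    rw [← map_mul, hπ0] at ha
    exact (hπ0 r).2 (left_reg hP hz ha)
  have h2 : ∀ z ∈ Z, ∀ a, a * z = 0 → a = 0 := by
    rintro _ ⟨z, hz, rfl⟩ a ha
    obtain ⟨r, rfl⟩ := hπs a
    rw [← map_mul, hπ0] at ha
    exact (hπ0 r).2 (right_reg hP hz ha)
  have n1 : ∀ z ∈ Z, ∀ a, ∃ b, z * a = b * z := by
    rintro _ ⟨z, hz, rfl⟩ a
    obtain ⟨r, rfl⟩ := hπs a
    obtain ⟨s, hs⟩ := hz.2.1 r
    refine ⟨π s, ?_⟩
    rw [← hπ0, map_sub, sub_eq_zero, map_mul, map_mul] at hs
    exact hs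
  have n2 : ∀ z ∈ Z, ∀ a, ∃ b, a * z = z * b := by
    rintro _ ⟨z, hz, rfl⟩ a
    obtain ⟨r, rfl⟩ := hπs a
    obtain ⟨s, hs⟩ := hz.2.2 r
    refine ⟨π s, ?_⟩
    rw [← hπ0, map_sub, sub_eq_zero, map_mul, map_mul] at hs
    exact hs
  have hD : ∀ i, (F.D (i + 1)).map π * (F.D i).map π = 0 := by
    intro i
    rw [← Matrix.map_mul, F.mul_eq_zero i]
    ext a b
    rw [Matrix.map_apply, Matrix.zero_apply, map_zero, Matrix.zero_apply]
  obtain ⟨hA0, hA1⟩ := lemA Z hmul h1 h2 n1 n2 F.n (fun i => (F.D i).map π) hD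
    (by
      obtain ⟨z, hz, hz2⟩ := lk_hom0 h hP hinf hV F
      rw [← hπ] at hz2
      exact ⟨π z, ⟨z, hz, rfl⟩, hz2⟩)
    (by
      intro i
      obtain ⟨z, hz, hz2⟩ := lk_hom1 h hP hinf hV F i
      rw [← hπ] at hz2
      exact ⟨π z, ⟨z, hz, rfl⟩, hz2⟩)
  -- the two facts used: `τ⁻¹ z = z`, `D z = z τ⁻¹(D)`
  have key : ∀ z0, Nrm P z0 → ∀ τ : (R ⧸ P) ≃+* (R ⧸ P), (∀ a, π z0 * a = τ a * π z0) →
      τ.symm (π z0) = π z0 ∧ ∀ a, a * π z0 = π z0 * τ.symm a := by
    intro z0 hz0 τ hτ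
    constructor
    · have e1 : τ (π z0) = π z0 := by
        have e2 : (τ (π z0) - π z0) * π z0 = 0 := by
          rw [sub_mul, ← hτ (π z0), sub_self]
        exact sub_eq_zero.1 (h2 _ ⟨z0, hz0, rfl⟩ _ e2)
      rw [RingEquiv.symm_apply_eq, e1]
    · intro a
      rw [hτ (τ.symm a), RingEquiv.apply_symm_apply]
  have lift : ∀ (m n : ℕ) (M : Matrix (Fin m) (Fin n) (R ⧸ P)),
      ∃ M' : Matrix (Fin m) (Fin n) R, M'.map π = M := by
    intro m n M
    rw [hπ]
    exact lk_lift M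
  have congr' : ∀ (W' : ModuleCat.{u} R), (∀ p ∈ P, ∀ w : W', p • w = 0) → ∀ (m n : ℕ)
      (M M' : Matrix (Fin m) (Fin n) R), M.map π = M'.map π → ∀ w : Fin n → W',
      act M w = act M' w := by
    intro W' hW m n M M' hM w
    rw [hπ] at hM
    exact lk_congr hW M M' hM w
  -- `act D' w' = 0`
  have main : ∀ z0, Nrm P z0 → ∀ τ : (R ⧸ P) ≃+* (R ⧸ P), (∀ a, π z0 * a = τ a * π z0) →
      ∀ (m n : ℕ) (D D' : Matrix (Fin m) (Fin n) R), D'.map π = (D.map π).map τ.symm →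
      ∀ (W W' : ModuleCat.{u} R) (ι : W ⟶ W'), (∀ p ∈ P, ∀ w : W', p • w = 0) →
      (∀ w : W', z0 • w = 0 → w = 0) → ∀ (w : Fin n → W) (w' : Fin n → W'),
      (∀ l, ι (w l) = z0 • w' l) → act D w = 0 → act D' w' = 0 := by
    intro z0 hz0 τ hτ m n D D' hDD W W' ι hW' htf w w' hw hDw
    obtain ⟨-, k2⟩ := key z0 hz0 τ hτ
    have e1 : act (Matrix.diagonal fun _ => z0) (act D' w') =
        act D (act (Matrix.diagonal fun _ => z0) w') := by
      rw [act_act, act_act]
      refine congr' W' hW' _ _ _ _ ?_ w'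
      rw [Matrix.map_mul, Matrix.map_mul, hDD]
      ext a b
      have e2 : ∀ n : ℕ, (Matrix.diagonal fun _ : Fin n => z0).map π =
          Matrix.diagonal fun _ : Fin n => π z0 := fun n => by
        rw [Matrix.diagonal_map (map_zero π)]
      rw [e2, e2, Matrix.diagonal_mul, Matrix.mul_diagonal, Matrix.map_apply, Matrix.map_apply,
        k2]
    rw [lk_act_diag, lk_act_diag] at e1
    have e3 : (fun l => z0 • w' l) = fun l => ι.hom (w l) := by
      funext l
      exact (hw l).symm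
    rw [e3, act_map, hDw] at e1
    funext j
    apply htf
    have e4 := congrFun e1 j
    simp only [Pi.zero_apply, map_zero] at e4
    exact e4
  cases i with
  | zero =>
    obtain ⟨_, ⟨z0, hz0, rfl⟩, τ, T, hτ, hT⟩ := hA0
    refine ⟨z0, hz0, ?_⟩
    intro W W' ι hW hW' htf hinj hsurj x
    obtain ⟨w, hw, rfl⟩ := F.cls_surj W 0 x
    rw [F.cls_comp ι 0 w hw]
    choose w' hw' using fun l => hsurj (w l)
    obtain ⟨D', hD'⟩ := lift _ _ (((F.D 0).map π).map τ.symm)
    obtain ⟨T', hT'⟩ := lift _ _ (T.map τ.symm)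
    have e1 := main z0 hz0 τ hτ _ _ (F.D 0) D' hD' W W' ι hW' htf w w' hw' hw
    obtain ⟨k1, -⟩ := key z0 hz0 τ hτ
    have e2 : (fun l => ι (w l)) = 0 := by
      have e3 : (fun l => z0 • w' l) = act T' (act D' w') := by
        rw [← lk_act_diag, act_act]
        refine congr' W' hW' _ _ _ _ ?_ w'
        rw [Matrix.map_mul, hT', hD', Matrix.diagonal_map (map_zero π)]
        have e5 := congrArg (fun M => M.map τ.symm) hT
        rw [Matrix.diagonal_map (map_zero τ.symm), Matrix.map_mul] at e5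
        rw [← e5]
        congr 1
        funext l
        exact k1.symm
      have e4 : (fun l => ι (w l)) = fun l => z0 • w' l := funext hw'
      rw [e4, e3, e1, act_zero]
    rw [e2]
    exact (F.cls_zero_iff W' 0 (act_zero _)).2 rfl
  | succ i =>
    obtain ⟨_, ⟨z0, hz0, rfl⟩, τ, T, S, hτ, hT⟩ := hA1 i
    refine ⟨z0, hz0, ?_⟩
    intro W W' ι hW hW' htf hinj hsurj x
    obtain ⟨w, hw, rfl⟩ := F.cls_surj W (i + 1) x
    rw [F.cls_comp ι (i + 1) w hw]
    choose w' hw' using fun l => hsurj (w l)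
    obtain ⟨D', hD'⟩ := lift _ _ (((F.D (i + 1)).map π).map τ.symm)
    obtain ⟨T', hT'⟩ := lift _ _ (T.map τ.symm)
    obtain ⟨S', hS'⟩ := lift _ _ (S.map τ.symm)
    have e1 := main z0 hz0 τ hτ _ _ (F.D (i + 1)) D' hD' W W' ι hW' htf w w' hw' hw
    obtain ⟨k1, -⟩ := key z0 hz0 τ hτ
    have hc : act (F.D (i + 1)) (fun l => ι (w l)) = 0 := by
      have e6 : (fun l => ι (w l)) = fun l => ι.hom (w l) := rfl
      rw [e6, act_map, hw]
      funext j
      simp only [Pi.zero_apply, map_zero]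
    rw [F.cls_succ_iff W' i _ hc]
    refine ⟨act S' w', ?_⟩
    have e3 : (fun l => z0 • w' l) = act T' (act D' w') + act (F.D i) (act S' w') := by
      rw [← lk_act_diag, act_act, act_act, ← lk_add_act]
      refine congr' W' hW' _ _ _ _ ?_ w'
      rw [Matrix.map_add _ (map_add π), Matrix.map_mul, Matrix.map_mul, hT', hD', hS',
        Matrix.diagonal_map (map_zero π)]
      have e5 := congrArg (fun M => M.map τ.symm) hT
      rw [Matrix.diagonal_map (map_zero τ.symm), Matrix.map_add _ (map_add τ.symm),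
        Matrix.map_mul, Matrix.map_mul] at e5
      have e7 : (((F.D i).map π).map τ).map τ.symm = (F.D i).map π := by
        ext a b
        simp only [Matrix.map_apply, RingEquiv.symm_apply_apply]
      rw [e7] at e5
      rw [← e5]
      congr 1
      funext l
      exact k1.symm
    have e4 : (fun l => ι (w l)) = fun l => z0 • w' l := funext hw'
    rw [e4, e3, e1, act_zero, zero_add]

end BGN
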