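import Pool.Agent.BGN.Nml

/-!
# BGN Lf: essential extensions of finite dimensional modules are finite dimensional

PROOF of `lf`.  Noetherian induction on two-sided ideals `I` of `R` (ACC: `R` is left noetherian,
`WellFoundedGT (Ideal R)`): claim `C(I)`: every finitely generated `R`-module `N` killed by `I`
with a finite dimensional essential submodule `X` is finite dimensional.  Assume `C(I')` for all
two-sided `I' > I`.  If `I = ⊤` then `N = 0`.

Case 1: `I ≠ ⊤` is not `IsPrime2`: there are `a, b ∉ I` with `a r b ∈ I` for all `r`; put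
`I₁ = I + RaR`, `I₂ = I + RbR` (two-sided, `> I`), `x y ∈ I` for `x ∈ I₁, y ∈ I₂`.
`N₁ := {n | I₁ n = 0}` is a submodule, killed by `I₁`, `X ∩ N₁` is essential in it, so it is finite
dimensional by `C(I₁)`.  `I₂ N ⊆ N₁`.  Let `J = ann(N₁)`, of finite codimension
(`FinDim.annihilator`).  The `R`-module `I₂ ⧸ J I₂` (`I₂` as left module, it is finitely generated;
`J I₂` = submodule generated by the products) is finitely generated and killed by `J`, so finite
dimensional (`FinDim.of_finCodim`).  Right multiplication by `r ∈ R` maps `I₂` to `I₂` and `J I₂`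
to itself, so it induces a `k`-linear endomorphism of the finite dimensional space `I₂ ⧸ J I₂`, and
`J' := {r | I₂ r ⊆ J I₂}` is a two-sided ideal of finite codimension (kernel of an algebra map
`R → End_k(I₂ ⧸ J I₂)ᵐᵒᵖ`).  `I₂ J' N ⊆ J I₂ N ⊆ J N₁ = 0`.  `N' := J' N` (submodule spanned by
`j n`) is killed by `I₂`, finitely generated (noetherian) and `X ∩ N'` is essential in it, so finite
dimensional by `C(I₂)`.  `N ⧸ N'` is killed by `J'`, so finite dimensional.  Hence `N` is
(`FinDim.of_ext`).

Case 2: `I = P` is prime.  If `FinCodim k P` then `N` is finite dimensional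
(`FinDim.of_finCodim`).  Otherwise `exists_kill` gives `z`, `Nrm P z`, `z X = 0`.  The submodules
`N_j = {n | z^j n = 0}` (submodules since `z^j r n = s z^j n` by normality and `P N = 0`)
increase, so `N_j = N_{2j}` for some `j ≥ 1`.  `z^j N := {z^j n}` is a submodule (normality:
`r z^j n = z^j s n`), and `z^j N ∩ N_j = 0`; since `X ⊆ N_1 ⊆ N_j` and `X` is essential,
`z^j N = 0`.  So `N` is killed by the two-sided ideal `P + R z^j` (`> P`, as `z^j ∉ P`); apply
`C(P + R z^j)`.

`lf_quot`: choose `N₀` maximal among submodules with `N₀ ⊓ U = ⊥` (Noetherian).  The image of `U`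
in `N ⧸ N₀` is finite dimensional and essential.
-/

namespace BGN

open CategoryTheory Abelian

universe u

variable {k : Type u} [Field k] {R : Type u} [Ring R] [Algebra k R]

private theorem lf_ess {N : Type u} [AddCommGroup N] [Module R N] {X : Submodule R N}
    (hess : ∀ Y : Submodule R N, Y ⊓ X = ⊥ → Y = ⊥) (N₁ : Submodule R N) (Y : Submodule R N₁)
    (h : Y ⊓ X.comap N₁.subtype = ⊥) : Y = ⊥ := by
  have h1 : Y.map N₁.subtype ⊓ X = ⊥ := by
    rw [eq_bot_iff]
    rintro _ ⟨⟨y, hy, rfl⟩, hx⟩
    have h2 : y ∈ Y ⊓ X.comap N₁.subtype := ⟨hy, hx⟩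
    rw [h, Submodule.mem_bot] at h2
    rw [h2, map_zero]
    exact Submodule.zero_mem _
  have h2 := hess _ h1
  rw [eq_bot_iff]
  intro y hy
  have h3 : N₁.subtype y ∈ Y.map N₁.subtype := ⟨y, hy, rfl⟩
  rw [h2, Submodule.mem_bot] at h3
  rw [Submodule.mem_bot]
  exact N₁.injective_subtype (by rw [h3, map_zero])

private theorem lf_fin {N : Type u} [AddCommGroup N] [Module R N] {X : Submodule R N}
    (hX : FinDim k R X) (N₁ : Submodule R N) : FinDim k R (X.comap N₁.subtype) := by
  let f : X.comap N₁.subtype →ₗ[R] X :=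
    { toFun := fun n => ⟨N₁.subtype n.1, n.2⟩
      map_add' := fun _ _ => rfl
      map_smul' := fun _ _ => rfl }
  refine hX.of_injective f fun a b hab => ?_
  have h1 : N₁.subtype a.1 = N₁.subtype b.1 := congrArg (fun z : X => (z : N)) hab
  exact Subtype.ext (N₁.injective_subtype h1)

/-- The right multipliers of `I₂` into `K`. -/
private def mulr (I₂ K : Ideal R) [I₂.IsTwoSided] [K.IsTwoSided] : Ideal R where
  carrier := {r | ∀ x ∈ I₂, x * r ∈ K}
  zero_mem' := fun x _ => by
    rw [mul_zero]
    exact K.zero_mem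
  add_mem' := fun ha hb x hx => by
    rw [mul_add]
    exact K.add_mem (ha x hx) (hb x hx)
  smul_mem' := fun c r hr x hx => by
    rw [smul_eq_mul, ← mul_assoc]
    exact hr _ (Ideal.IsTwoSided.mul_mem_of_left c hx)

private theorem mem_mulr {I₂ K : Ideal R} [I₂.IsTwoSided] [K.IsTwoSided] {r : R} :
    r ∈ mulr I₂ K ↔ ∀ x ∈ I₂, x * r ∈ K := Iff.rfl

private instance mulr_two (I₂ K : Ideal R) [I₂.IsTwoSided] [K.IsTwoSided] :
    (mulr I₂ K).IsTwoSided := ⟨fun b hr x hx => by
  rw [← mul_assoc]
  exact Ideal.IsTwoSided.mul_mem_of_left b (hr x hx)⟩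

private theorem mulr_fin [IsNoetherianRing R] (I₂ J : Ideal R) [I₂.IsTwoSided] [J.IsTwoSided]
    (hJ : FinCodim k J) : FinCodim k (mulr I₂ (J * I₂)) := by
  let M : Submodule R (R ⧸ (J * I₂)) := Submodule.map (Submodule.mkQ (J * I₂)) I₂
  have hMJ : ∀ a ∈ J, ∀ m : M, a • m = 0 := by
    rintro a ha ⟨_, x, hx, rfl⟩
    refine Subtype.ext ?_
    change a • (J * I₂).mkQ x = 0
    rw [← map_smul, Submodule.mkQ_apply, Submodule.Quotient.mk_eq_zero]
    exact Ideal.mul_mem_mul ha hx
  have hM : FinDim k R M := FinDim.of_finCodim J hJ hMJ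
  obtain ⟨s, hs⟩ := (isNoetherianRing_iff_ideal_fg R).1 inferInstance I₂
  have hfin : Module.Finite k M := finDim_iff.1 hM
  have hsI : ∀ c ∈ s, c ∈ I₂ := fun c hc => by
    rw [← hs]
    exact Ideal.subset_span hc
  let f : R →ₗ[k] (s → M) :=
    { toFun := fun r c => ⟨(J * I₂).mkQ (c.1 * r), c.1 * r,
        Ideal.IsTwoSided.mul_mem_of_left r (hsI c.1 c.2), rfl⟩
      map_add' := fun a b => by
        funext c
        refine Subtype.ext ?_
        change (J * I₂).mkQ (c.1 * (a + b)) = (J * I₂).mkQ (c.1 * a) + (J * I₂).mkQ (c.1 * b)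
        rw [mul_add, map_add]
      map_smul' := fun a b => by
        funext c
        refine Subtype.ext ?_
        change (J * I₂).mkQ (c.1 * (a • b)) = a • (J * I₂).mkQ (c.1 * b)
        rw [mul_smul_comm]
        rfl }
  have hker : ∀ r, f r = 0 → r ∈ mulr I₂ (J * I₂) := by
    intro r hr x hx
    rw [← hs] at hx
    refine Submodule.span_induction (p := fun x _ => x * r ∈ J * I₂) ?_ ?_ ?_ ?_ hx
    · intro c hc
      have h1 := congrArg (fun z : M => (z : R ⧸ (J * I₂))) (congrFun hr ⟨c, hc⟩)
      change (J * I₂).mkQ (c * r) = 0 at h1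
      rwa [Submodule.mkQ_apply, Submodule.Quotient.mk_eq_zero] at h1
    · rw [zero_mul]
      exact Submodule.zero_mem _
    · intro x y _ _ hx hy
      rw [add_mul]
      exact Submodule.add_mem _ hx hy
    · intro a x _ hx
      rw [smul_eq_mul, mul_assoc]
      exact Submodule.smul_mem _ a hx
  have hle : LinearMap.ker f ≤ ((mulr I₂ (J * I₂)).restrictScalars k : Submodule k R) :=
    fun r hr => hker r (LinearMap.mem_ker.1 hr)
  have h1 : Module.Finite k (R ⧸ LinearMap.ker f) :=
    Module.Finite.equiv f.quotKerEquivRange.symm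
  let g : (R ⧸ LinearMap.ker f) →ₗ[k] (R ⧸ mulr I₂ (J * I₂)) :=
    (LinearMap.ker f).liftQ ((mulr I₂ (J * I₂)).mkQ.restrictScalars k) fun r hr => by
      rw [LinearMap.mem_ker, LinearMap.restrictScalars_apply, Submodule.mkQ_apply,
        Submodule.Quotient.mk_eq_zero]
      exact hle hr
  refine Module.Finite.of_surjective g fun y => ?_
  obtain ⟨r, rfl⟩ := Submodule.Quotient.mk_surjective _ y
  exact ⟨Submodule.Quotient.mk r, rfl⟩

private theorem lf_aux [IsNoetherianRing R] (h : NormalSep k R) (I : Ideal R) :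
    ∀ (N : Type u) [AddCommGroup N] [Module R N] [Module.Finite R N],
    Module.annihilator R N = I → ∀ (X : Submodule R N), FinDim k R X →
    (∀ Y : Submodule R N, Y ⊓ X = ⊥ → Y = ⊥) → FinDim k R N := by
  induction I using IsNoetherian.induction with
  | hgt I ih =>
  intro N _ _ _ hann X hX hess
  have hNoeth : IsNoetherian R N := inferInstance
  have hann' : ∀ r, r ∈ I ↔ ∀ n : N, r • n = 0 := fun r => by
    rw [← hann, Module.mem_annihilator]
  have hItwo : Ideal.IsTwoSided I := by
    rw [← hann]
    infer_instance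
  by_cases hprime : IsPrime2 I
  · -- the prime case
    by_cases hfc : FinCodim k I
    · exact FinDim.of_finCodim I hfc fun a ha m => (hann' a).1 ha m
    · exfalso
      obtain ⟨z, hz, hzX⟩ := exists_kill h hprime hfc hX fun p hp v =>
        Subtype.ext ((hann' p).1 hp v.1)
      have hzj : ∀ j : ℕ, Nrm I (z ^ j) := fun j => hz.pow hprime j
      let Nj : ℕ → Submodule R N := fun j =>
        { carrier := {n | z ^ j • n = 0}
          zero_mem' := smul_zero _
          add_mem' := fun {a b} ha hb => by
            change z ^ j • (a + b) = 0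
            rw [smul_add, ha, hb, add_zero]
          smul_mem' := fun r n hn => by
            change z ^ j • (r • n) = 0
            obtain ⟨s, hs⟩ := (hzj j).2.1 r
            have h1 := (hann' _).1 hs n
            rw [sub_smul, sub_eq_zero] at h1
            rw [← mul_smul, h1, mul_smul, hn, smul_zero] }
      have hmono : Monotone Nj := by
        refine monotone_nat_of_le_succ fun j n hn => ?_
        change z ^ (j + 1) • n = 0
        rw [pow_succ', mul_smul, hn, smul_zero]
      obtain ⟨m, hm⟩ := monotone_stabilizes_iff_noetherian.2 hNoeth ⟨Nj, hmono⟩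
      let j := m + 1
      have hj : Nj (j + j) = Nj j := by
        have e1 : Nj m = Nj j := hm j (Nat.le_succ m)
        have e2 : Nj m = Nj (j + j) := hm (j + j) (by omega)
        rw [← e1, ← e2]
      let ZN : Submodule R N :=
        { carrier := {y | ∃ n, y = z ^ j • n}
          zero_mem' := ⟨0, (smul_zero _).symm⟩
          add_mem' := by
            rintro _ _ ⟨a, rfl⟩ ⟨b, rfl⟩
            exact ⟨a + b, (smul_add _ _ _).symm⟩
          smul_mem' := by
            rintro r _ ⟨n, rfl⟩
            obtain ⟨s, hs⟩ := (hzj j).2.2 r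
            have h1 := (hann' _).1 hs n
            rw [sub_smul, sub_eq_zero, mul_smul, mul_smul] at h1
            exact ⟨s • n, h1⟩ }
      have hZX : ZN ⊓ X = ⊥ := by
        rw [eq_bot_iff]
        rintro _ ⟨⟨n, rfl⟩, hx⟩
        have h1 : z ^ j • n ∈ Nj j := by
          refine hmono (Nat.succ_le_succ (Nat.zero_le m) : 1 ≤ j) ?_
          change z ^ 1 • (z ^ j • n) = 0
          rw [pow_one]
          exact congrArg (fun w : X => (w : N)) (hzX ⟨z ^ j • n, hx⟩)
        have h2 : n ∈ Nj (j + j) := by
          change z ^ (j + j) • n = 0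
          rw [pow_add, mul_smul]
          exact h1
        rw [hj] at h2
        exact h2
      have hZ := hess ZN hZX
      refine (hzj j).1 ((hann' _).2 fun n => ?_)
      have h3 : z ^ j • n ∈ ZN := ⟨n, rfl⟩
      rwa [hZ, Submodule.mem_bot] at h3
  · by_cases htop : I = ⊤
    · refine ⟨∅, fun v => ⟨fun _ => 0, ?_⟩⟩
      have h1 : (1 : R) ∈ I := by
        rw [htop]
        trivial
      have h2 := (hann' 1).1 h1 v
      rw [one_smul] at h2
      rw [h2, Finset.sum_empty]
    · obtain ⟨a, b, hab, ha, hb⟩ : ∃ a b : R, (∀ r, a * r * b ∈ I) ∧ a ∉ I ∧ b ∉ I := by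
        by_contra hcon
        refine hprime ⟨hItwo, htop, fun a b hab => ?_⟩
        by_contra h2
        rw [not_or] at h2
        exact hcon ⟨a, b, hab, h2.1, h2.2⟩
      let N₁ : Submodule R N :=
        { carrier := {n | ∀ r : R, (a * r) • n = 0}
          zero_mem' := fun r => smul_zero _
          add_mem' := fun {x y} hx hy r => by
            rw [smul_add, hx r, hy r, add_zero]
          smul_mem' := fun c n hn r => by
            rw [← mul_smul, mul_assoc]
            exact hn _ }
      -- `N₁` is finite dimensional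
      have hJgt : Module.annihilator R N₁ > I := by
        refine lt_of_le_of_ne (fun r hr => ?_) fun heq => ha ?_
        · rw [Module.mem_annihilator]
          exact fun n => Subtype.ext ((hann' r).1 hr n.1)
        · rw [heq, Module.mem_annihilator]
          intro n
          refine Subtype.ext ?_
          have h1 := n.2 1
          rwa [mul_one] at h1
      have hN₁ : FinDim k R N₁ := ih _ hJgt N₁ rfl (X.comap N₁.subtype) (lf_fin hX N₁)
        (lf_ess hess N₁)
      -- the ideals
      let J : Ideal R := Module.annihilator R N₁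
      let I₂ : Ideal R := Module.annihilator R (N ⧸ N₁)
      have hI₂ : ∀ x, x ∈ I₂ ↔ ∀ n : N, x • n ∈ N₁ := by
        intro x
        change x ∈ Module.annihilator R (N ⧸ N₁) ↔ _
        rw [Module.mem_annihilator]
        constructor
        · intro hx n
          have h1 := hx (Submodule.Quotient.mk n)
          rwa [← Submodule.Quotient.mk_smul, Submodule.Quotient.mk_eq_zero] at h1
        · intro hx y
          obtain ⟨n, rfl⟩ := Submodule.Quotient.mk_surjective _ y
          rw [← Submodule.Quotient.mk_smul, Submodule.Quotient.mk_eq_zero]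
          exact hx n
      have hbI₂ : b ∈ I₂ := by
        rw [hI₂]
        intro n r
        rw [← mul_smul]
        exact (hann' _).1 (hab r) n
      have hII₂ : I ≤ I₂ := fun r hr => by
        rw [hI₂]
        intro n
        rw [(hann' r).1 hr n]
        exact Submodule.zero_mem _
      have hJfin : FinCodim k J := hN₁.annihilator
      have hJ'fin : FinCodim k (mulr I₂ (J * I₂)) := mulr_fin I₂ J hJfin
      have hJI : ∀ x ∈ J * I₂, ∀ n : N, x • n = 0 := by
        intro x hx n
        refine Submodule.smul_induction_on (p := fun x => x • n = 0) hx ?_ ?_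
        · intro j hj y hy
          have h1 := Module.mem_annihilator.1 hj ⟨y • n, (hI₂ y).1 hy n⟩
          have h2 := congrArg (fun w : N₁ => (w : N)) h1
          change j • (y • n) = 0 at h2
          rw [smul_eq_mul, mul_smul]
          exact h2
        · intro x y hx hy
          rw [add_smul, hx, hy, add_zero]
      -- `N' = J' N`
      let N' : Submodule R N := Submodule.span R {y | ∃ j ∈ mulr I₂ (J * I₂), ∃ n : N, y = j • n}
      have hN'ann : ∀ x ∈ I₂, ∀ y ∈ N', x • y = 0 := by
        intro x hx y hy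
        have key : ∀ y ∈ N', ∀ x ∈ I₂, x • y = 0 := by
          intro y hy
          refine Submodule.span_induction (p := fun y _ => ∀ x ∈ I₂, x • y = 0) ?_ ?_ ?_ ?_ hy
          · rintro _ ⟨j, hj, n, rfl⟩ x hx
            rw [← mul_smul]
            exact hJI _ (hj x hx) n
          · intro x _
            exact smul_zero _
          · intro u v _ _ hu hv x hx
            rw [smul_add, hu x hx, hv x hx, add_zero]
          · intro c u _ hu x hx
            rw [← mul_smul]
            exact hu _ (Ideal.IsTwoSided.mul_mem_of_left c hx)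
        exact key y hy x hx
      have hN'gt : Module.annihilator R N' > I := by
        have hle : I₂ ≤ Module.annihilator R N' := fun x hx => by
          rw [Module.mem_annihilator]
          exact fun n => Subtype.ext (hN'ann x hx n.1 n.2)
        refine lt_of_le_of_ne (hII₂.trans hle) fun heq => hb ?_
        rw [heq]
        exact hle hbI₂
      have hN' : FinDim k R N' := ih _ hN'gt N' rfl (X.comap N'.subtype) (lf_fin hX N')
        (lf_ess hess N')
      refine FinDim.of_ext N' hN' (FinDim.of_finCodim (mulr I₂ (J * I₂)) hJ'fin ?_)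
      intro j hj y
      obtain ⟨n, rfl⟩ := Submodule.Quotient.mk_surjective _ y
      rw [← Submodule.Quotient.mk_smul, Submodule.Quotient.mk_eq_zero]
      exact Submodule.subset_span ⟨j, hj, n, rfl⟩

theorem lf [IsNoetherianRing R] (h : NormalSep k R) {N : Type u} [AddCommGroup N] [Module R N]
    [Module.Finite R N] (X : Submodule R N) (hX : FinDim k R X)
    (hess : ∀ Y : Submodule R N, Y ⊓ X = ⊥ → Y = ⊥) : FinDim k R N :=
  lf_aux h _ N rfl X hX hess

theorem lf_quot [IsNoetherianRing R] (h : NormalSep k R) {N : Type u} [AddCommGroup N]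
    [Module R N] [Module.Finite R N] (U : Submodule R N) (hU : FinDim k R U) :
    ∃ N₀ : Submodule R N, N₀ ⊓ U = ⊥ ∧ FinDim k R (N ⧸ N₀) := by
  have hNoeth : IsNoetherian R N := inferInstance
  obtain ⟨N₀, h0, hmax⟩ := set_has_maximal_iff_noetherian.2 hNoeth
    {N₀ : Submodule R N | N₀ ⊓ U = ⊥} ⟨⊥, bot_inf_eq U⟩
  refine ⟨N₀, h0, ?_⟩
  let f : U →ₗ[R] (U.map N₀.mkQ) := N₀.mkQ.submoduleMap U
  have hf : Function.Surjective f := N₀.mkQ.submoduleMap_surjective U
  refine lf h (U.map N₀.mkQ) (hU.of_surjective f hf) fun Y hY => ?_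
  have h1 : Y.comap N₀.mkQ ⊓ U = ⊥ := by
    rw [eq_bot_iff]
    rintro x ⟨hx, hxU⟩
    have h2 : N₀.mkQ x ∈ Y ⊓ U.map N₀.mkQ := ⟨hx, x, hxU, rfl⟩
    rw [hY, Submodule.mem_bot, Submodule.mkQ_apply, Submodule.Quotient.mk_eq_zero] at h2
    rw [← h0]
    exact ⟨h2, hxU⟩
  have h2 : N₀ ≤ Y.comap N₀.mkQ := fun x hx => by
    rw [Submodule.mem_comap, Submodule.mkQ_apply, (Submodule.Quotient.mk_eq_zero N₀).2 hx]
    exact Y.zero_mem
  have h3 : Y.comap N₀.mkQ = N₀ := by
    by_contra h4
    exact hmax _ h1 (lt_of_le_of_ne h2 (Ne.symm h4))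
  rw [eq_bot_iff]
  intro y hy
  obtain ⟨n, rfl⟩ := Submodule.Quotient.mk_surjective _ y
  have h5 : n ∈ Y.comap N₀.mkQ := hy
  rw [h3] at h5
  rw [Submodule.mem_bot, Submodule.Quotient.mk_eq_zero]
  exact h5

end BGN
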