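import Pool.Agent.BGN.Defs

/-!
# BGN OpC: the Hopf algebra `H^{op,cop}`

The opposite algebra `Hᵐᵒᵖ` with the opposite comultiplication `op a ↦ ∑ op a₂ ⊗ op a₁` and the
antipode `op a ↦ op (S a)` is a Hopf algebra.  (Mathlib has a coalgebra instance on `Hᵐᵒᵖ` with the
comultiplication `∑ op a₁ ⊗ op a₂`; `ocComul` is that one followed by the flip.)

PROOFS.  Elements: `x = op a`, `ℛ k a` a representation of `Δ a`.
* `coassoc`: `∑ op a₃ ⊗ (op a₂ ⊗ op a₁)` on both sides (`Coalgebra.coassoc`).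
* multiplicativity: `op a * op b = op (b a)`, `Δ(b a) = ∑ b₁ a₁ ⊗ b₂ a₂`.
* antipode: `∑ op (S a₂) * op a₁ = op (∑ a₁ S(a₂)) = ε(a)`.
-/

namespace BGN

open CategoryTheory Abelian Coalgebra HopfAlgebra MulOpposite TensorProduct

universe u

variable (k : Type u) [Field k] (H : Type u) [Ring H] [HopfAlgebra k H]

/-- `op a ↦ ∑ op a₂ ⊗ op a₁`. -/
noncomputable def ocComul : Hᵐᵒᵖ →ₗ[k] Hᵐᵒᵖ ⊗[k] Hᵐᵒᵖ :=
  (TensorProduct.map (opLinearEquiv k).toLinearMap (opLinearEquiv k).toLinearMap) ∘ₗ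
    (TensorProduct.comm k H H).toLinearMap ∘ₗ comul ∘ₗ (opLinearEquiv k).symm.toLinearMap

/-- `op a ↦ ε a`. -/
noncomputable def ocCounit : Hᵐᵒᵖ →ₗ[k] k := counit ∘ₗ (opLinearEquiv k).symm.toLinearMap

/-- `op a ↦ op (S a)`. -/
noncomputable def ocAntipode : Hᵐᵒᵖ →ₗ[k] Hᵐᵒᵖ :=
  (opLinearEquiv k).toLinearMap ∘ₗ antipode k ∘ₗ (opLinearEquiv k).symm.toLinearMap

theorem ocComul_repr (a : H) {ι : Type*} (r : Coalgebra.Repr k a ι) :
    ocComul k H (op a) = ∑ i ∈ r.index, op (r.right i) ⊗ₜ[k] op (r.left i) := by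
  simp [ocComul, ← r.eq, map_sum]

/-- `x ⊗ (y ⊗ z) ↦ op z ⊗ (op y ⊗ op x)`. -/
noncomputable def ocRev : H ⊗[k] (H ⊗[k] H) →ₗ[k] Hᵐᵒᵖ ⊗[k] (Hᵐᵒᵖ ⊗[k] Hᵐᵒᵖ) :=
  (TensorProduct.assoc k Hᵐᵒᵖ Hᵐᵒᵖ Hᵐᵒᵖ).toLinearMap ∘ₗ
    (TensorProduct.map ((TensorProduct.map (opLinearEquiv k).toLinearMap
      (opLinearEquiv k).toLinearMap) ∘ₗ (TensorProduct.comm k H H).toLinearMap)
      (opLinearEquiv k).toLinearMap) ∘ₗ (TensorProduct.comm k H (H ⊗[k] H)).toLinearMap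

theorem ocRev_tmul (x y z : H) :
    ocRev k H (x ⊗ₜ[k] (y ⊗ₜ[k] z)) = op z ⊗ₜ[k] (op y ⊗ₜ[k] op x) := by
  simp [ocRev]

theorem oc_coassoc : TensorProduct.assoc k Hᵐᵒᵖ Hᵐᵒᵖ Hᵐᵒᵖ ∘ₗ (ocComul k H).rTensor Hᵐᵒᵖ ∘ₗ ocComul k H =
    (ocComul k H).lTensor Hᵐᵒᵖ ∘ₗ ocComul k H := by
  refine LinearMap.ext fun x => ?_
  obtain ⟨a, rfl⟩ := op_surjective x
  have h := congrArg (ocRev k H) (sum_tmul_tmul_eq (R := k) (ℛ k a)
    (fun i => ℛ k ((ℛ k a).left i)) (fun i => ℛ k ((ℛ k a).right i)))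
  simp only [map_sum, ocRev_tmul] at h
  simp only [LinearMap.comp_apply, ocComul_repr k H a (ℛ k a), map_sum, LinearMap.rTensor_tmul,
    LinearMap.lTensor_tmul]
  rw [show (∑ i ∈ (ℛ k a).index, op ((ℛ k a).right i) ⊗ₜ[k]
      (ocComul k H) (op ((ℛ k a).left i))) = _ from
      Finset.sum_congr rfl fun i _ => by
        rw [ocComul_repr k H _ (ℛ k ((ℛ k a).left i)), TensorProduct.tmul_sum]]
  rw [h]
  refine Finset.sum_congr rfl fun i _ => ?_
  rw [ocComul_repr k H _ (ℛ k ((ℛ k a).right i)), TensorProduct.sum_tmul, map_sum]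
  simp

theorem oc_rTensor : (ocCounit k H).rTensor Hᵐᵒᵖ ∘ₗ ocComul k H = TensorProduct.mk k _ _ 1 := by
  refine LinearMap.ext fun x => ?_
  obtain ⟨a, rfl⟩ := op_surjective x
  have h := congrArg (TensorProduct.comm k Hᵐᵒᵖ k)
    (sum_map_tmul_counit_eq (R := k) (opLinearEquiv k : H ≃ₗ[k] Hᵐᵒᵖ) a (repr := ℛ k a))
  simp only [map_sum, TensorProduct.comm_tmul] at h
  simp only [LinearMap.comp_apply, ocComul_repr k H a (ℛ k a), map_sum, LinearMap.rTensor_tmul]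
  exact h

theorem oc_lTensor :
    (ocCounit k H).lTensor Hᵐᵒᵖ ∘ₗ ocComul k H = (TensorProduct.mk k _ _).flip 1 := by
  refine LinearMap.ext fun x => ?_
  obtain ⟨a, rfl⟩ := op_surjective x
  have h := congrArg (TensorProduct.comm k k Hᵐᵒᵖ)
    (sum_counit_tmul_map_eq (R := k) (opLinearEquiv k : H ≃ₗ[k] Hᵐᵒᵖ) a (repr := ℛ k a))
  simp only [map_sum, TensorProduct.comm_tmul] at h
  simp only [LinearMap.comp_apply, ocComul_repr k H a (ℛ k a), map_sum, LinearMap.lTensor_tmul]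
  exact h

theorem oc_counit_one : ocCounit k H 1 = 1 := by
  show counit (R := k) (1 : H) = 1
  exact Bialgebra.counit_one

theorem oc_counit_mul (a b : Hᵐᵒᵖ) : ocCounit k H (a * b) = ocCounit k H a * ocCounit k H b := by
  obtain ⟨a, rfl⟩ := op_surjective a
  obtain ⟨b, rfl⟩ := op_surjective b
  show counit (R := k) (b * a) = counit (R := k) a * counit (R := k) b
  rw [Bialgebra.counit_mul, mul_comm]

theorem oc_comul_one : ocComul k H 1 = 1 := by
  show (TensorProduct.map (opLinearEquiv k).toLinearMap (opLinearEquiv k).toLinearMap)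
    (TensorProduct.comm k H H (comul (1 : H))) = 1
  rw [Bialgebra.comul_one, Algebra.TensorProduct.one_def]
  rfl

theorem oc_comul_mul (a b : Hᵐᵒᵖ) : ocComul k H (a * b) = ocComul k H a * ocComul k H b := by
  obtain ⟨a, rfl⟩ := op_surjective a
  obtain ⟨b, rfl⟩ := op_surjective b
  have key : ∀ x y : H ⊗[k] H,
      (TensorProduct.map (opLinearEquiv k).toLinearMap (opLinearEquiv k).toLinearMap :
        H ⊗[k] H →ₗ[k] Hᵐᵒᵖ ⊗[k] Hᵐᵒᵖ) (TensorProduct.comm k H H (y * x)) =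
      (TensorProduct.map (opLinearEquiv k).toLinearMap (opLinearEquiv k).toLinearMap :
        H ⊗[k] H →ₗ[k] Hᵐᵒᵖ ⊗[k] Hᵐᵒᵖ) (TensorProduct.comm k H H x) *
      (TensorProduct.map (opLinearEquiv k).toLinearMap (opLinearEquiv k).toLinearMap :
        H ⊗[k] H →ₗ[k] Hᵐᵒᵖ ⊗[k] Hᵐᵒᵖ) (TensorProduct.comm k H H y) := by
    intro x y
    induction x using TensorProduct.induction_on with
    | zero => simp
    | add x₁ x₂ h₁ h₂ => simp only [mul_add, map_add, h₁, h₂, add_mul]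
    | tmul p q =>
      induction y using TensorProduct.induction_on with
      | zero => simp
      | add y₁ y₂ h₁ h₂ => simp only [add_mul, map_add, h₁, h₂, mul_add]
      | tmul r s => simp
  show (TensorProduct.map (opLinearEquiv k).toLinearMap (opLinearEquiv k).toLinearMap)
    (TensorProduct.comm k H H (comul (b * a))) = _
  rw [Bialgebra.comul_mul]
  exact key _ _

theorem oc_antipode_r : LinearMap.mul' k Hᵐᵒᵖ ∘ₗ (ocAntipode k H).rTensor Hᵐᵒᵖ ∘ₗ ocComul k H =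
    (Algebra.linearMap k Hᵐᵒᵖ) ∘ₗ ocCounit k H := by
  refine LinearMap.ext fun x => ?_
  obtain ⟨a, rfl⟩ := op_surjective x
  simp only [LinearMap.comp_apply, ocComul_repr k H a (ℛ k a), map_sum, LinearMap.rTensor_tmul]
  have h := congrArg op (sum_mul_antipode_eq_algebraMap_counit (R := k) (ℛ k a))
  rw [← opAddEquiv_apply, map_sum] at h
  exact h

theorem oc_antipode_l : LinearMap.mul' k Hᵐᵒᵖ ∘ₗ (ocAntipode k H).lTensor Hᵐᵒᵖ ∘ₗ ocComul k H =
    (Algebra.linearMap k Hᵐᵒᵖ) ∘ₗ ocCounit k H := by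
  refine LinearMap.ext fun x => ?_
  obtain ⟨a, rfl⟩ := op_surjective x
  simp only [LinearMap.comp_apply, ocComul_repr k H a (ℛ k a), map_sum, LinearMap.lTensor_tmul]
  have h := congrArg op (sum_antipode_mul_eq_algebraMap_counit (R := k) (ℛ k a))
  rw [← opAddEquiv_apply, map_sum] at h
  exact h

/-- The coalgebra `H^{cop}` on `Hᵐᵒᵖ`. -/
@[reducible] noncomputable def ocCoalgebra : Coalgebra k Hᵐᵒᵖ where
  comul := ocComul k H
  counit := ocCounit k H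
  coassoc := oc_coassoc k H
  rTensor_counit_comp_comul := oc_rTensor k H
  lTensor_counit_comp_comul := oc_lTensor k H

/-- The bialgebra `H^{op,cop}`. -/
@[reducible] noncomputable def ocBialgebra : Bialgebra k Hᵐᵒᵖ :=
  @Bialgebra.mk' k Hᵐᵒᵖ _ _ _ (ocCoalgebra k H) (oc_counit_one k H)
    (fun {a b} => oc_counit_mul k H a b) (oc_comul_one k H) (fun {a b} => oc_comul_mul k H a b)

/-- The Hopf algebra `H^{op,cop}`. -/
@[reducible] noncomputable def opCop : HopfAlgebra k Hᵐᵒᵖ :=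
  { ocBialgebra k H with
    antipode := ocAntipode k H
    mul_antipode_rTensor_comul := oc_antipode_r k H
    mul_antipode_lTensor_comul := oc_antipode_l k H }

example : (opCop k H).toAlgebra = (inferInstance : Algebra k Hᵐᵒᵖ) := rfl

/-- The trivial module of `H^{op,cop}` is the one of `Defs.lean`. -/
theorem counitOp_eq : counitOp k H =
    ((@Bialgebra.counitAlgHom k Hᵐᵒᵖ _ _ (opCop k H).toBialgebra : Hᵐᵒᵖ →ₐ[k] k) : Hᵐᵒᵖ →+* k) := by
  rfl

end BGN
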