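import Pool.Agent.BGN.Pair
import Pool.Agent.BGN.Bound
import Pool.Agent.BGN.HopD
import Pool.Agent.BGN.HopE
import Pool.Agent.BGN.OpC

/-!
# BGN Main: noetherian Hopf algebras with normal separation are AS-Gorenstein

`e k A i = dim Ext^i(k, A)` (left modules).

PROOFS.
* `e_bound`: `n` from `bound` with `ε = Bialgebra.counitAlgHom k A`; `ext_triv_zero`; the injective
  dimension: `injDim_of_triv`.
* `two_sided` (`A`, `A'` anti-isomorphic Hopf algebras, in both directions): let `n, n'` be the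
  numbers of `e_bound`.  `e k A' ≢ 0`: otherwise `pair` with `b = n`, `a = n + 1` gives
  `n + 1 ≤ n`.  Likewise `e k A ≢ 0` (pair for `(A', A)`).  Let `a, b` be the minimal and
  maximal `i` with `e k A i ≠ 0`, `a', b'` the same for `A'`.  `pair` for `(A, A')` with
  `(a', b)`: `a' ≤ b`, and `a' < b` is impossible because `e k A b * e k A' a' ≠ 0`; so
  `a' = b` and `e k A b * e k A' b = 1`.  Same for `(A', A)`: `a = b'`.  Since `a ≤ b` and
  `a' ≤ b'`: `b = a' ≤ b' = a ≤ b`.  So all are equal to `d`, `e k A d = e k A' d = 1` and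
  all other values are `0`.
* `leftAS`: the injective dimension is `≤ d` by `injDim_of_triv` and not `≤ d - 1` because
  `Ext^d(k, A) ≠ 0`; `Ext^i(k, A)` is finite dimensional (`ext_finite`), so finrank `0` means zero.
* `main`: `A = H`, `A' = Hᵐᵒᵖ` with the Hopf algebra structure `opCop k H`; `σ = opLinearEquiv`;
  `counitOp_eq`.  `IsNoetherianRing Hᵐᵒᵖᵐᵒᵖ` from `H` (`RingEquiv.opOp`,
  `isNoetherianRing_of_ringEquiv`), `NormalSep.op`.
-/

namespace BGN

open CategoryTheory Abelian MulOpposite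

universe u

section

variable {k : Type u} [Field k] {A A' : Type u} [Ring A] [Ring A']
  [HopfAlgebra k A] [HopfAlgebra k A']

theorem e_bound [IsNoetherianRing A] [IsNoetherianRing Aᵐᵒᵖ] (hA : NormalSep k A) :
    ∃ n : ℕ, (∀ i, n < i → ∀ x : Ext (trv k A) (ModuleCat.of A A) i, x = 0) ∧
      HasInjectiveDimensionLE (ModuleCat.of A A) n := by
  obtain ⟨n, hn⟩ := bound hA (Bialgebra.counitAlgHom k A)
  have h0 : ∀ i, n < i → ∀ x : Ext (trv k A) (ModuleCat.of A A) i, x = 0 :=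
    fun i hi x => ext_triv_zero hA i (hn i hi) x
  exact ⟨n, h0, injDim_of_triv hA n h0⟩

/-- first and last nonzero value -/
private theorem mn_ends (e : ℕ → ℕ) (n : ℕ) (z : ∀ i, n < i → e i = 0) (hne : ∃ i, e i ≠ 0) :
    ∃ a b : ℕ, (e a ≠ 0 ∧ ∀ p, p < a → e p = 0) ∧ (e b ≠ 0 ∧ ∀ j, b < j → e j = 0) ∧ a ≤ b := by
  classical
  have hle : ∀ i, e i ≠ 0 → i ≤ n := fun i hi => by
    by_contra hn
    exact hi (z i (not_le.1 hn))
  obtain ⟨i0, hi0⟩ := hne
  have hex : ∃ i, e i ≠ 0 := ⟨i0, hi0⟩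
  have h1 : ∀ p, p < Nat.find hex → e p = 0 := fun p hp => by
    have := Nat.find_min hex hp
    exact not_not.1 this
  have h2 : e (Nat.find hex) ≠ 0 := Nat.find_spec hex
  have h3 : e (Nat.findGreatest (fun i => e i ≠ 0) n) ≠ 0 :=
    Nat.findGreatest_spec (P := fun i => e i ≠ 0) (hle i0 hi0) hi0
  have h4 : ∀ j, Nat.findGreatest (fun i => e i ≠ 0) n < j → e j = 0 := fun j hj => by
    by_contra hc
    exact Nat.findGreatest_is_greatest hj (hle j hc) hc
  refine ⟨_, _, ⟨h2, h1⟩, ⟨h3, h4⟩, ?_⟩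
  by_contra hlt
  exact h3 (h1 _ (not_le.1 hlt))

private theorem mn_count (e e' : ℕ → ℕ) (n n' : ℕ) (z : ∀ i, n < i → e i = 0)
    (z' : ∀ i, n' < i → e' i = 0)
    (P : ∀ a b, (∀ j, b < j → e j = 0) → (∀ p, p < a → e' p = 0) →
      a ≤ b ∧ (a < b → e b * e' a = 0) ∧ (a = b → e b * e' b = 1))
    (P' : ∀ a b, (∀ j, b < j → e' j = 0) → (∀ p, p < a → e p = 0) →
      a ≤ b ∧ (a < b → e' b * e a = 0) ∧ (a = b → e' b * e b = 1)) :
    ∃ d, (∀ i, e i = if i = d then 1 else 0) ∧ ∀ i, e' i = if i = d then 1 else 0 := by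
  have hne' : ∃ i, e' i ≠ 0 := by
    by_contra hc
    push Not at hc
    have := (P (n + 1) n z (fun p _ => hc p)).1
    omega
  have hne : ∃ i, e i ≠ 0 := by
    by_contra hc
    push Not at hc
    have := (P' (n' + 1) n' z' (fun p _ => hc p)).1
    omega
  obtain ⟨a, b, ⟨ha1, ha2⟩, ⟨hb1, hb2⟩, hab⟩ := mn_ends e n z hne
  obtain ⟨a', b', ⟨ha1', ha2'⟩, ⟨hb1', hb2'⟩, hab'⟩ := mn_ends e' n' z' hne'
  obtain ⟨q1, q2, q3⟩ := P a' b hb2 ha2'
  obtain ⟨r1, r2, r3⟩ := P' a b' hb2' ha2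
  have k1 : a' = b := by
    refine le_antisymm q1 (not_lt.1 fun h => ?_)
    rcases Nat.mul_eq_zero.1 (q2 h) with h0 | h0
    · exact hb1 h0
    · exact ha1' h0
  have k2 : a = b' := by
    refine le_antisymm r1 (not_lt.1 fun h => ?_)
    rcases Nat.mul_eq_zero.1 (r2 h) with h0 | h0
    · exact hb1' h0
    · exact ha1 h0
  have e1 : a = b := by omega
  have e2 : a' = a := by omega
  have e3 : b' = a := by omega
  have hprod := q3 k1
  have v1 : e b = 1 := Nat.eq_one_of_mul_eq_one_right hprod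
  have v2 : e' b = 1 := Nat.eq_one_of_mul_eq_one_left hprod
  refine ⟨b, fun i => ?_, fun i => ?_⟩
  · by_cases hi : i = b
    · rw [if_pos hi, hi, v1]
    · rw [if_neg hi]
      rcases lt_or_gt_of_ne hi with h | h
      · exact ha2 i (by omega)
      · exact hb2 i h
  · by_cases hi : i = b
    · rw [if_pos hi, hi, v2]
    · rw [if_neg hi]
      rcases lt_or_gt_of_ne hi with h | h
      · exact ha2' i (by omega)
      · exact hb2' i (by omega)

theorem two_sided [IsNoetherianRing A] [IsNoetherianRing Aᵐᵒᵖ] (hA : NormalSep k A)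
    [IsNoetherianRing A'] [IsNoetherianRing A'ᵐᵒᵖ] (hA' : NormalSep k A')
    (σ : A ≃ₗ[k] A') (hσ : ∀ a b, σ (a * b) = σ b * σ a) :
    ∃ d : ℕ, (∀ i, Module.finrank k (Ext (trv k A) (ModuleCat.of A A) i) = if i = d then 1 else 0) ∧
      (∀ i, Module.finrank k (Ext (trv k A') (ModuleCat.of A' A') i) = if i = d then 1 else 0) := by
  obtain ⟨n, hn, hinj⟩ := e_bound hA
  obtain ⟨n', hn', hinj'⟩ := e_bound hA'
  have hσ' : ∀ a b, σ.symm (a * b) = σ.symm b * σ.symm a := by
    intro a b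
    apply σ.injective
    rw [hσ, σ.apply_symm_apply, σ.apply_symm_apply, σ.apply_symm_apply]
  have z : ∀ i, n < i → Module.finrank k (Ext (trv k A) (ModuleCat.of A A) i) = 0 := by
    intro i hi
    have : Subsingleton (Ext (trv k A) (ModuleCat.of A A) i) :=
      ⟨fun x y => (hn i hi x).trans (hn i hi y).symm⟩
    exact Module.finrank_zero_of_subsingleton
  have z' : ∀ i, n' < i → Module.finrank k (Ext (trv k A') (ModuleCat.of A' A') i) = 0 := by
    intro i hi
    have : Subsingleton (Ext (trv k A') (ModuleCat.of A' A') i) :=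
      ⟨fun x y => (hn' i hi x).trans (hn' i hi y).symm⟩
    exact Module.finrank_zero_of_subsingleton
  exact mn_count (fun i => Module.finrank k (Ext (trv k A) (ModuleCat.of A A) i))
    (fun i => Module.finrank k (Ext (trv k A') (ModuleCat.of A' A') i)) n n' z z'
    (pair hA hA' σ hσ n' hinj') (pair hA' hA σ.symm hσ' n hinj)

theorem leftAS [IsNoetherianRing A] [IsNoetherianRing Aᵐᵒᵖ] (hA : NormalSep k A) (d : ℕ)
    (hd : ∀ i, Module.finrank k (Ext (trv k A) (ModuleCat.of A A) i) = if i = d then 1 else 0) :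
    LeftAS k A ((Bialgebra.counitAlgHom k A : A →ₐ[k] k) : A →+* k) d := by
  have hsub : ∀ i : ℕ, i ≠ d → Subsingleton (Ext (trv k A) (ModuleCat.of A A) i) := by
    intro i hi
    have hfin : Module.Finite k (Ext (trv k A) (ModuleCat.of A A) i) :=
      ext_finite hA (trv k A) (finDim_trivMod (Bialgebra.counitAlgHom k A)) (ModuleCat.of A A) i
    have h0 := hd i
    rw [if_neg hi] at h0
    exact Module.finrank_zero_iff.1 h0
  have h1 : Module.finrank k (Ext (trv k A) (ModuleCat.of A A) d) = 1 := by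
    rw [hd d, if_pos rfl]
  refine ⟨le_antisymm ?_ ?_, hsub, h1⟩
  · rw [injectiveDimension_le_iff]
    refine injDim_of_triv hA d fun i hi x => ?_
    have := hsub i (ne_of_gt hi)
    exact Subsingleton.elim x 0
  · rw [injectiveDimension_ge_iff]
    intro hlt
    have hs : Subsingleton (Ext (trv k A) (ModuleCat.of A A) d) :=
      HasInjectiveDimensionLT.subsingleton (ModuleCat.of A A) d d le_rfl (trv k A)
    rw [Module.finrank_zero_of_subsingleton] at h1
    exact zero_ne_one h1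

end

theorem main (k : Type u) [Field k] (H : Type u) [Ring H] [HopfAlgebra k H]
    [IsNoetherianRing H] [IsNoetherianRing Hᵐᵒᵖ] (h : NormalSep k H) : ASGorenstein k H := by
  have : IsNoetherianRing Hᵐᵒᵖᵐᵒᵖ :=
    isNoetherianRing_of_ringEquiv H (RingEquiv.opOp H)
  have hop : NormalSep k Hᵐᵒᵖ := h.op
  obtain ⟨d, h1, h2⟩ := @two_sided k _ H Hᵐᵒᵖ _ _ _ (opCop k H) _ _ h _ _ hop
    (opLinearEquiv k) (fun a b => rfl)
  refine ⟨d, leftAS h d h1, ?_⟩
  rw [counitOp_eq]
  exact @leftAS k _ Hᵐᵒᵖ _ (opCop k H) _ _ hop d h2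

end BGN
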