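import Pool.Agent.BGN.Fd

/-!
# BGN Nml: normal elements modulo a prime ideal

PROOFS.
* `left_reg`: `z a ∈ P`.  For every `r`: `z r = s z + p` with `p ∈ P`, so
  `z r a = s (z a) + p a ∈ P`; prime: `z ∈ P` or `a ∈ P`.
* `right_reg`: `a z ∈ P`; `r z = z s + p`, `a r z = (a z) s + a p ∈ P` (two-sided); prime:
  `a ∈ P` or `z ∈ P`.
* `Nrm.mul`: `z₁ z₂ ∉ P` by `left_reg`; normality: `z₁ z₂ r = z₁ (s z₂ + p) = z₁ s z₂ + z₁ p`,
  `z₁ s = s' z₁ + p'`, so `z₁ z₂ r = s' z₁ z₂ + (p' z₂ + z₁ p)`; other side the same.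
* `exists_kill`: strong induction on `finrank k V`.  `V = 0`: `z = 1`.  `V ≠ 0`: choose a minimal
  nonzero `R`-submodule `X` (finite dimensional, so a nonzero submodule of minimal dimension).
  `M := ann X` is `IsPrime2`: it is two-sided; if `a r b X = 0` for all `r` and `b X ≠ 0` then
  `R b X = X` by minimality (`R b X` = submodule spanned by `b x`, nonzero), so
  `a X = 0`.  `FinCodim k M` by `FinDim.annihilator`, `P ≤ M`.  By `NormalSep` there is
  `z₁ ∈ M`, `Nrm P z₁`.  By induction (for `V ⧸ X`) there is `z₂` with `Nrm P z₂` and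
  `z₂ V ⊆ X`.  Take `z₁ * z₂`.
* `exists_kill_mul`: finitely many modules: a product of the elements (`z₁ z₂` kills what `z₂`
  kills; `z₁ z₂ v = s z₁ v + p v` shows it kills what `z₁` kills, if `P` kills the module).
* `NormalSep.op`: a two-sided ideal `P'` of `Rᵐᵒᵖ` gives the two-sided ideal
  `{r | op r ∈ P'}` of `R`; all conditions correspond.  The quotients are `k`-linearly isomorphic.
-/

namespace BGN

open CategoryTheory Abelian

universe u

variable {k : Type u} [Field k] {R : Type u} [Ring R] [Algebra k R] {P : Ideal R}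

theorem left_reg (hP : IsPrime2 P) {z : R} (hz : Nrm P z) {a : R} (h : z * a ∈ P) : a ∈ P := by
  have _ := hP.twoSided
  have key : ∀ r : R, z * r * a ∈ P := by
    intro r
    obtain ⟨s, hs⟩ := hz.2.1 r
    have h2 : z * r * a = s * (z * a) + (z * r - s * z) * a := by noncomm_ring
    rw [h2]
    exact P.add_mem (P.mul_mem_left s h) (P.mul_mem_right a hs)
  rcases hP.mem_or_mem z a key with h1 | h1
  · exact absurd h1 hz.1
  · exact h1

theorem right_reg (hP : IsPrime2 P) {z : R} (hz : Nrm P z) {a : R} (h : a * z ∈ P) : a ∈ P := by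
  have _ := hP.twoSided
  have key : ∀ r : R, a * r * z ∈ P := by
    intro r
    obtain ⟨s, hs⟩ := hz.2.2 r
    have h2 : a * r * z = (a * z) * s + a * (r * z - z * s) := by noncomm_ring
    rw [h2]
    exact P.add_mem (P.mul_mem_right s h) (P.mul_mem_left a hs)
  rcases hP.mem_or_mem a z key with h1 | h1
  · exact h1
  · exact absurd h1 hz.1

theorem Nrm.one (hP : IsPrime2 P) : Nrm P (1 : R) := by
  refine ⟨fun h => hP.ne_top ((Ideal.eq_top_iff_one P).2 h), fun r => ⟨r, ?_⟩, fun r => ⟨r, ?_⟩⟩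
  · rw [one_mul, mul_one, sub_self]
    exact P.zero_mem
  · rw [one_mul, mul_one, sub_self]
    exact P.zero_mem

theorem Nrm.mul (hP : IsPrime2 P) {z₁ z₂ : R} (h₁ : Nrm P z₁) (h₂ : Nrm P z₂) :
    Nrm P (z₁ * z₂) := by
  have _ := hP.twoSided
  refine ⟨fun h => h₂.1 (left_reg hP h₁ h), fun r => ?_, fun r => ?_⟩
  · obtain ⟨s, hs⟩ := h₂.2.1 r
    obtain ⟨t, ht⟩ := h₁.2.1 s
    refine ⟨t, ?_⟩
    have h2 : z₁ * z₂ * r - t * (z₁ * z₂) = z₁ * (z₂ * r - s * z₂) + (z₁ * s - t * z₁) * z₂ := by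
      noncomm_ring
    rw [h2]
    exact P.add_mem (P.mul_mem_left _ hs) (P.mul_mem_right _ ht)
  · obtain ⟨s, hs⟩ := h₁.2.2 r
    obtain ⟨t, ht⟩ := h₂.2.2 s
    refine ⟨t, ?_⟩
    have h2 : r * (z₁ * z₂) - z₁ * z₂ * t = (r * z₁ - z₁ * s) * z₂ + z₁ * (s * z₂ - z₂ * t) := by
      noncomm_ring
    rw [h2]
    exact P.add_mem (P.mul_mem_right _ hs) (P.mul_mem_left _ ht)

theorem Nrm.pow (hP : IsPrime2 P) {z : R} (h : Nrm P z) (m : ℕ) : Nrm P (z ^ m) := by
  induction m with
  | zero =>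
    rw [pow_zero]
    exact Nrm.one hP
  | succ m ih =>
    rw [pow_succ]
    exact Nrm.mul hP ih h

private theorem kill_simple (h : NormalSep k R) (hP : IsPrime2 P) (hinf : ¬ FinCodim k P)
    {V : Type u} [AddCommGroup V] [Module R V] [IsSimpleModule R V] (hV : FinDim k R V)
    (hPV : ∀ p ∈ P, ∀ v : V, p • v = 0) : ∃ z, Nrm P z ∧ ∀ v : V, z • v = 0 := by
  have hM : IsPrime2 (Module.annihilator R V) := by
    refine ⟨inferInstance, ?_, ?_⟩
    · intro h1
      have _ := IsSimpleModule.nontrivial R V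
      obtain ⟨v, hv⟩ := exists_ne (0 : V)
      have h2 : (1 : R) ∈ Module.annihilator R V := (Ideal.eq_top_iff_one _).1 h1
      apply hv
      have h3 := Module.mem_annihilator.1 h2 v
      rwa [one_smul] at h3
    · intro a b hab
      by_cases hb : b ∈ Module.annihilator R V
      · exact Or.inr hb
      · left
        rw [Module.mem_annihilator] at hb
        push Not at hb
        obtain ⟨v, hv⟩ := hb
        rw [Module.mem_annihilator]
        intro w
        obtain ⟨r, hr⟩ := IsSimpleModule.toSpanSingleton_surjective R hv w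
        have h1 := Module.mem_annihilator.1 (hab r) v
        rw [LinearMap.toSpanSingleton_apply] at hr
        rw [← hr, ← mul_smul, ← mul_smul]
        exact h1
  obtain ⟨z, hz1, hz2, hz3⟩ := h P _ hP hM (fun p hp => Module.mem_annihilator.2 (hPV p hp)) hinf
    (FinDim.annihilator hV)
  exact ⟨z, ⟨hz2, hz3⟩, Module.mem_annihilator.1 hz1⟩

private theorem kill_len (h : NormalSep k R) (hP : IsPrime2 P) (hinf : ¬ FinCodim k P)
    (V : Type u) [AddCommGroup V] [Module R V] (hl : IsFiniteLength R V) :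
    FinDim k R V → (∀ p ∈ P, ∀ v : V, p • v = 0) → ∃ z, Nrm P z ∧ ∀ v : V, z • v = 0 := by
  induction hl with
  | of_subsingleton =>
    intro _ _
    exact ⟨1, Nrm.one hP, fun v => Subsingleton.elim _ _⟩
  | @of_simple_quotient M _ _ N _ hN ih =>
    intro hV hPV
    obtain ⟨z₂, h2, h3⟩ := ih (hV.of_injective N.subtype N.injective_subtype) (by
      intro p hp v
      apply Subtype.ext
      exact hPV p hp v)
    obtain ⟨z₁, h4, h5⟩ := kill_simple h hP hinf (hV.of_surjective N.mkQ N.mkQ_surjective) (by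
      intro p hp v
      obtain ⟨w, rfl⟩ := N.mkQ_surjective v
      rw [← map_smul, hPV p hp w, map_zero])
    refine ⟨z₂ * z₁, Nrm.mul hP h2 h4, fun v => ?_⟩
    have h6 : z₁ • v ∈ N := by
      have h7 := h5 (N.mkQ v)
      rw [← map_smul] at h7
      exact (Submodule.Quotient.mk_eq_zero N).1 h7
    rw [mul_smul]
    exact congrArg Subtype.val (h3 ⟨z₁ • v, h6⟩)

theorem exists_kill (h : NormalSep k R) (hP : IsPrime2 P) (hinf : ¬ FinCodim k P)
    {V : Type u} [AddCommGroup V] [Module R V] (hV : FinDim k R V)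
    (hPV : ∀ p ∈ P, ∀ v : V, p • v = 0) : ∃ z, Nrm P z ∧ ∀ v : V, z • v = 0 := by
  refine kill_len h hP hinf V ?_ hV hPV
  let _ : Module k V := Module.compHom V (algebraMap k R)
  have _ : IsScalarTower k R V := IsScalarTower.of_algebraMap_smul fun c v => rfl
  have _ : Module.Finite k V := finDim_iff.1 hV
  rw [isFiniteLength_iff_isNoetherian_isArtinian]
  exact ⟨isNoetherian_of_tower k inferInstance, isArtinian_of_tower k inferInstance⟩

/-- The ideal of `R` given by a two-sided ideal of the opposite ring. -/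
private def unopI (Q : Ideal Rᵐᵒᵖ) (hQ : Q.IsTwoSided) : Ideal R where
  carrier := {r | MulOpposite.op r ∈ Q}
  zero_mem' := Q.zero_mem
  add_mem' := fun ha hb => Q.add_mem ha hb
  smul_mem' := fun c x hx => by
    have _ := hQ
    exact Q.mul_mem_right (MulOpposite.op c) hx

private theorem unop_prime {Q : Ideal Rᵐᵒᵖ} (hQ : IsPrime2 Q) : IsPrime2 (unopI Q hQ.twoSided) := by
  refine ⟨⟨fun {a} b ha => ?_⟩, fun h => ?_, fun a b hab => ?_⟩
  · exact Q.mul_mem_left (MulOpposite.op b) ha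
  · apply hQ.ne_top
    rw [Ideal.eq_top_iff_one] at h ⊢
    exact h
  · have h1 := hQ.mem_or_mem (MulOpposite.op b) (MulOpposite.op a) (fun r => by
      have h2 := hab r.unop
      have h3 : MulOpposite.op b * r * MulOpposite.op a = MulOpposite.op (a * r.unop * b) := by
        rw [MulOpposite.op_mul, MulOpposite.op_mul, MulOpposite.op_unop, mul_assoc]
      rw [h3]
      exact h2)
    exact h1.symm

private theorem unop_fin {Q : Ideal Rᵐᵒᵖ} (hQ : Q.IsTwoSided) :
    FinCodim k (unopI Q hQ) ↔ FinCodim k Q := by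
  have e1 : (R ⧸ (unopI Q hQ).restrictScalars k) ≃ₗ[k] R ⧸ unopI Q hQ :=
    Submodule.Quotient.restrictScalarsEquiv k _
  have e2 : (Rᵐᵒᵖ ⧸ Q.restrictScalars k) ≃ₗ[k] Rᵐᵒᵖ ⧸ Q :=
    Submodule.Quotient.restrictScalarsEquiv k _
  have e3 : (R ⧸ (unopI Q hQ).restrictScalars k) ≃ₗ[k] Rᵐᵒᵖ ⧸ Q.restrictScalars k := by
    refine Submodule.Quotient.equiv _ _ (MulOpposite.opLinearEquiv k) ?_
    ext x
    constructor
    · rintro ⟨y, hy, rfl⟩
      exact hy
    · intro hx
      exact ⟨x.unop, hx, rfl⟩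
  constructor
  · intro h
    have _ : Module.Finite k (R ⧸ unopI Q hQ) := h
    exact Module.Finite.equiv (e1.symm.trans (e3.trans e2))
  · intro h
    have _ : Module.Finite k (Rᵐᵒᵖ ⧸ Q) := h
    exact Module.Finite.equiv (e2.symm.trans (e3.symm.trans e1))

theorem NormalSep.op (h : NormalSep k R) : NormalSep k Rᵐᵒᵖ := by
  intro P M hP hM hPM hinf hfin
  obtain ⟨z, hz1, hz2, hz3, hz4⟩ := h _ _ (unop_prime hP) (unop_prime hM)
    (fun x hx => hPM hx) (fun h1 => hinf ((unop_fin hP.twoSided).1 h1))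
    ((unop_fin hM.twoSided).2 hfin)
  refine ⟨MulOpposite.op z, hz1, hz2, fun r => ?_, fun r => ?_⟩
  · obtain ⟨s, hs⟩ := hz4 r.unop
    exact ⟨MulOpposite.op s, hs⟩
  · obtain ⟨s, hs⟩ := hz3 r.unop
    exact ⟨MulOpposite.op s, hs⟩

end BGN
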