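import Pool.Agent.BGN.CorB
import Pool.Agent.BGN.CorC
import Pool.Agent.BGN.HopI

/-!
# BGN Pair: the corner argument for a Hopf algebra `A` and an anti-isomorphic Hopf algebra `A'`

`σ : A ≃ₗ[k] A'` satisfies `σ (a b) = σ b σ a` (so `σ 1 = 1`, `σ (c) = c` for `c ∈ k`).  The Hopf
structures are not related.

PROOF of `exists_cx`.  `F` a resolution of the trivial `A`-module (`FRes.exists`).
`C j = A'^{n j}` (rows, `ModuleCat.of A' (Fin (n j) → A')`), `d j v = v ᵥ* D'_j`,
`D'_j = (F.D j)ᵀ.map σ`.  `D'_j D'_{j+1} = ((D_{j+1} D_j)ᵀ).map σ = 0` (`FRes.mul_eq_zero`).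
`C j` is free, so `Ext^{i+1}(C j, -) = 0`.
* `E j`: `v = σ ∘ w`, `v ᵥ* D'_j = σ ∘ (act D_j w)`, so `w ↦ σ ∘ w` identifies `F.cyc k j` with
  `Z j` and `F.bdy k j` with `B j`; with `FRes.extEquiv` one gets
  `fdim k A' (E j) = finrank Ext^j(k, A)`; `E j` is finite dimensional since `Ext^j(k, A)` is
  (`ext_finite`).
* homomorphisms `C j → A'` are `v ↦ ∑ v_l u_l` with columns `u`; composition with `d j` is
  `u ↦ act D'_j u` and with `u = σ ∘ r`: `act D'_j (σ ∘ r) = σ ∘ (r ᵥ* D_j)`.  So exactness of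
  `Hom(C (j+1), A')` is `F.exact j`, and `q : (C 0 ⟶ A') → k`, `q(u) = F.aug r` is
  surjective with kernel the image of `Hom(C 1, A')` (`F.exact0`).

PROOF of `pair`.  Take `K, q` from `exists_cx`.  `Subsingleton (K.E j)` iff `Ext^j(k, A) = 0`
(`fdim_pos_iff`).  `Ext^p_{A'}(K.E j, A') = 0` for `p < a` by `ext_fd_zero`.  `hN` for `A'`:
`HasInjectiveDimensionLE`.
(1) `corner_lt`: if `b < a` then `k` is a subsingleton, absurd.
(2) if `a < b`: `corner_gt`: `Ext^a(K.E b, A') = 0`, so
`fdim(K.E b) * finrank Ext^a(k, A') = 0` (`finrank_ext` for `A'`).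
(3) `a = b`: `corner_eq`: `finrank Ext^b(K.E b, A') = 1 = fdim(K.E b) * finrank Ext^b(k, A')`.
-/

namespace BGN

open CategoryTheory Abelian

universe u

variable {k : Type u} [Field k] {A A' : Type u} [Ring A] [Ring A']
  [HopfAlgebra k A] [HopfAlgebra k A']

section aux

variable (F : FRes A (trv k A)) (σ : A ≃ₗ[k] A')

/-- the transposed matrices over the opposite algebra -/
private noncomputable def Dt (j : ℕ) : Matrix (Fin (F.n j)) (Fin (F.n (j + 1))) A' :=
  fun l m => σ (F.D j m l)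

variable {σ}

private theorem dt_row (hσ : ∀ a b, σ (a * b) = σ b * σ a) (j : ℕ) (w : Fin (F.n j) → A) :
    Matrix.vecMul (fun l => σ (w l)) (Dt F σ j) = fun m => σ (act (F.D j) w m) := by
  funext m
  simp only [Matrix.vecMul, dotProduct, Dt, act, map_sum, smul_eq_mul, hσ]

private theorem dt_col (hσ : ∀ a b, σ (a * b) = σ b * σ a) (j : ℕ) (u : Fin (F.n (j + 1)) → A) :
    act (Dt F σ j) (fun m => σ (u m)) = fun l => σ (Matrix.vecMul u (F.D j) l) := by
  funext l
  simp only [Matrix.vecMul, dotProduct, Dt, act, map_sum, smul_eq_mul, hσ]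

private theorem surj_row {n : ℕ} (σ : A ≃ₗ[k] A') (v : Fin n → A') :
    ∃ w : Fin n → A, (fun l => σ (w l)) = v :=
  ⟨fun l => σ.symm (v l), by funext l; simp⟩

private theorem inj_row {n : ℕ} {w w' : Fin n → A}
    (h : (fun l => σ (w l)) = fun l => σ (w' l)) : w = w' := by
  funext l
  exact σ.injective (congrFun h l)

private theorem dt_dt (hσ : ∀ a b, σ (a * b) = σ b * σ a) (j : ℕ) (v : Fin (F.n j) → A') :
    Matrix.vecMul (Matrix.vecMul v (Dt F σ j)) (Dt F σ (j + 1)) = 0 := by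
  obtain ⟨w, rfl⟩ := surj_row σ v
  rw [dt_row F hσ, dt_row F hσ (j + 1) (act (F.D j) w), act_act, F.mul_eq_zero]
  funext m
  simp [act]

/-- the complex of rows -/
private noncomputable def KX (hσ : ∀ a b, σ (a * b) = σ b * σ a) : CX A' where
  C j := ModuleCat.of A' (Fin (F.n j) → A')
  d j := ModuleCat.ofHom (dl (Dt F σ j))
  dd j := ModuleCat.hom_ext (LinearMap.ext fun v => dt_dt F hσ j v)

private theorem kx_d (hσ : ∀ a b, σ (a * b) = σ b * σ a) (j : ℕ) :
    (KX F hσ).d j = ModuleCat.ofHom (dl (Dt F σ j)) := rfl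

/-- a homomorphism given by a column -/
private noncomputable def cl (hσ : ∀ a b, σ (a * b) = σ b * σ a) (j : ℕ) (u : Fin (F.n j) → A) :
    (KX F hσ).C j ⟶ ModuleCat.of A' A' :=
  ModuleCat.ofHom (BGN.lc (R := A') (W := A') fun l => σ (u l))

private theorem cl_surj (hσ : ∀ a b, σ (a * b) = σ b * σ a) (j : ℕ)
    (f : (KX F hσ).C j ⟶ ModuleCat.of A' A') : ∃ u, cl F hσ j u = f := by
  obtain ⟨u, hu⟩ := surj_row σ
    (fun l => f.hom ((Pi.single l (1 : A') : Fin (F.n j) → A')) : Fin (F.n j) → A')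
  refine ⟨u, ?_⟩
  have h1 : BGN.lc (R := A') (W := A') (fun l => σ (u l)) = f.hom := by
    rw [hu]
    exact lc_eq (W := A') f.hom
  unfold cl
  rw [h1]
  rfl

private theorem cl_inj (hσ : ∀ a b, σ (a * b) = σ b * σ a) (j : ℕ) {u u' : Fin (F.n j) → A}
    (h : cl F hσ j u = cl F hσ j u') : u = u' := by
  apply inj_row (σ := σ)
  funext l
  have h1 : (cl F hσ j u).hom (Pi.single l (1 : A') : Fin (F.n j) → A') =
      (cl F hσ j u').hom (Pi.single l (1 : A') : Fin (F.n j) → A') := by rw [h]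
  have h2 : ∀ u : Fin (F.n j) → A,
      (cl F hσ j u).hom (Pi.single l (1 : A') : Fin (F.n j) → A') = σ (u l) := fun u =>
    lc_single (W := A') (fun l => σ (u l)) l
  rw [h2, h2] at h1
  exact h1

private theorem d_cl (hσ : ∀ a b, σ (a * b) = σ b * σ a) (j : ℕ) (u : Fin (F.n (j + 1)) → A) :
    (KX F hσ).d j ≫ cl F hσ (j + 1) u = cl F hσ j (Matrix.vecMul u (F.D j)) := by
  have h1 : (BGN.lc (R := A') (W := A') fun l => σ (u l)).comp (dl (Dt F σ j)) =
      BGN.lc (R := A') (W := A') fun l => σ (Matrix.vecMul u (F.D j) l) := by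
    rw [lc_dl, dt_col F hσ]
  have h2 : (KX F hσ).d j ≫ cl F hσ (j + 1) u =
      ModuleCat.ofHom ((BGN.lc (R := A') (W := A') fun l => σ (u l)).comp (dl (Dt F σ j))) := rfl
  rw [h2, h1]
  rfl

/-- the column of a homomorphism -/
private noncomputable def co (hσ : ∀ a b, σ (a * b) = σ b * σ a) (j : ℕ)
    (f : (KX F hσ).C j ⟶ ModuleCat.of A' A') : Fin (F.n j) → A :=
  fun l => σ.symm (f.hom (Pi.single l (1 : A') : Fin (F.n j) → A'))

private theorem co_cl (hσ : ∀ a b, σ (a * b) = σ b * σ a) (j : ℕ) (u : Fin (F.n j) → A) :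
    co F hσ j (cl F hσ j u) = u := by
  funext l
  unfold co
  have h2 : (cl F hσ j u).hom (Pi.single l (1 : A') : Fin (F.n j) → A') = σ (u l) :=
    lc_single (W := A') (fun l => σ (u l)) l
  rw [h2, LinearEquiv.symm_apply_apply]

private theorem cl_co (hσ : ∀ a b, σ (a * b) = σ b * σ a) (j : ℕ)
    (f : (KX F hσ).C j ⟶ ModuleCat.of A' A') : cl F hσ j (co F hσ j f) = f := by
  obtain ⟨u, rfl⟩ := cl_surj F hσ j f
  rw [co_cl]

/-- the map `q` -/
private noncomputable def qq (hσ : ∀ a b, σ (a * b) = σ b * σ a) :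
    ((KX F hσ).C 0 ⟶ ModuleCat.of A' A') →ₗ[k] k where
  toFun f := (F.aug (co F hσ 0 f) : k)
  map_add' f g := by
    have h1 : co F hσ 0 (f + g) = co F hσ 0 f + co F hσ 0 g := by
      funext l
      unfold co
      have h2 : (f + g).hom (Pi.single l (1 : A') : Fin (F.n 0) → A') =
          f.hom (Pi.single l (1 : A') : Fin (F.n 0) → A') +
          g.hom (Pi.single l (1 : A') : Fin (F.n 0) → A') := rfl
      rw [h2, map_add]
      rfl
    rw [h1]
    exact map_add F.aug _ _
  map_smul' c f := by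
    have h1 : co F hσ 0 (c • f) = algebraMap k A c • co F hσ 0 f := by
      funext l
      have h3 : co F hσ 0 (c • f) l =
          σ.symm (c • (f.hom (Pi.single l (1 : A') : Fin (F.n 0) → A') : A')) := rfl
      rw [h3, map_smul, Pi.smul_apply, smul_eq_mul, ← Algebra.smul_def]
      rfl
    rw [h1]
    have h4 : F.aug (algebraMap k A c • co F hσ 0 f) =
        algebraMap k A c • F.aug (co F hσ 0 f) := map_smul F.aug _ _
    rw [h4]
    have h5 : ∀ y : k, (Bialgebra.counitAlgHom k A) (algebraMap k A c) * y = c * y := by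
      intro y
      rw [AlgHom.commutes]
      rfl
    exact h5 _

private theorem fd_aux {R : Type u} [Ring R] [Algebra k R] {X : Type u} [AddCommGroup X]
    [Module k X] (N : Submodule k X) {V : Type u} [AddCommGroup V] [Module R V] (φ : X →+ V)
    (hsm : ∀ (c : k) x, φ (c • x) = algebraMap k R c • φ x) (hs : Function.Surjective φ)
    (hk : ∀ x, φ x = 0 ↔ x ∈ N) (hfin : Module.Finite k (X ⧸ N)) :
    FinDim k R V ∧ fdim k R V = Module.finrank k (X ⧸ N) := by
  let _ : Module k V := Module.compHom V (algebraMap k R)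
  have _ : IsScalarTower k R V := ⟨fun c r v => by
    rw [Algebra.smul_def, mul_smul]
    rfl⟩
  let L : X →ₗ[k] V := { φ with map_smul' := fun c x => hsm c x }
  have hL : Function.Surjective L := hs
  have hker : LinearMap.ker L = N := by
    ext x
    rw [LinearMap.mem_ker]
    exact hk x
  let e : (X ⧸ N) ≃ₗ[k] V :=
    (Submodule.quotEquivOfEq _ _ hker.symm).trans (L.quotKerEquivOfSurjective hL)
  constructor
  · rw [finDim_iff]
    exact Module.Finite.equiv e
  · rw [fdim_eq, e.finrank_eq]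

private theorem e_fd (hσ : ∀ a b, σ (a * b) = σ b * σ a) (j : ℕ)
    (hfin : Module.Finite k (Ext (trv k A) (ModuleCat.of A A) j)) :
    FinDim k A' ((KX F hσ).E j) ∧
      fdim k A' ((KX F hσ).E j) = Module.finrank k (Ext (trv k A) (ModuleCat.of A A) j) := by
  obtain ⟨e⟩ := F.extEquiv (k := k) j
  have hz : ∀ w : F.cyc k j, (fun l => σ (w.1 l) : Fin (F.n j) → A') ∈ (KX F hσ).Z j := by
    intro w
    have h1 : act (F.D j) w.1 = 0 := w.2
    have h2 : Matrix.vecMul (fun l => σ (w.1 l)) (Dt F σ j) = 0 := by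
      rw [dt_row F hσ, h1]
      funext m
      simp
    exact h2
  let φ : F.cyc k j →+ (KX F hσ).E j :=
    { toFun := fun w => (Submodule.Quotient.mk ⟨(fun l => σ (w.1 l) : Fin (F.n j) → A'), hz w⟩ :
        (KX F hσ).Z j ⧸ ((KX F hσ).B j).submoduleOf ((KX F hσ).Z j))
      map_zero' := by
        refine (Submodule.Quotient.mk_eq_zero _).2 ?_
        have h1 : (⟨(fun l => σ ((0 : F.cyc k j).1 l) : Fin (F.n j) → A'), hz 0⟩ :
            (KX F hσ).Z j) = 0 := by
          apply Subtype.ext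
          funext l
          exact map_zero σ
        rw [h1]
        exact Submodule.zero_mem _
      map_add' := fun a b => by
        have h1 : (⟨(fun l => σ ((a + b).1 l) : Fin (F.n j) → A'), hz (a + b)⟩ :
            (KX F hσ).Z j) = ⟨(fun l => σ (a.1 l) : Fin (F.n j) → A'), hz a⟩ +
              ⟨(fun l => σ (b.1 l) : Fin (F.n j) → A'), hz b⟩ := by
          apply Subtype.ext
          funext l
          exact map_add σ (a.1 l) (b.1 l)
        rw [h1]
        rfl }
  have hφ : ∀ w : F.cyc k j, φ w =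
      (Submodule.Quotient.mk ⟨(fun l => σ (w.1 l) : Fin (F.n j) → A'), hz w⟩ :
        (KX F hσ).Z j ⧸ ((KX F hσ).B j).submoduleOf ((KX F hσ).Z j)) := fun w => rfl
  have hb : ∀ w : Fin (F.n j) → A, (fun l => σ (w l) : Fin (F.n j) → A') ∈ (KX F hσ).B j ↔
      w ∈ F.bdy k j := by
    intro w
    rcases j with _ | j
    · constructor
      · intro h
        have h1 : (fun l => σ (w l) : Fin (F.n 0) → A') = 0 := h
        have h2 : w = 0 := by
          funext l
          have h3 := congrFun h1 l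
          exact σ.injective (by rw [h3]; exact (map_zero σ).symm)
        rw [h2]
        exact Submodule.zero_mem _
      · intro h
        have h1 : w = 0 := h
        have h2 : (fun l => σ (w l) : Fin (F.n 0) → A') = 0 := by
          rw [h1]
          funext l
          exact map_zero σ
        exact h2
    · constructor
      · rintro ⟨v, hv⟩
        obtain ⟨x, rfl⟩ := surj_row σ (v : Fin (F.n j) → A')
        have h1 : Matrix.vecMul (fun l => σ (x l)) (Dt F σ j) =
            (fun l => σ (w l) : Fin (F.n (j + 1)) → A') := hv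
        rw [dt_row F hσ] at h1
        exact ⟨x, inj_row (σ := σ) h1⟩
      · rintro ⟨x, hx⟩
        refine ⟨(fun l => σ (x l) : Fin (F.n j) → A'), ?_⟩
        have h1 : Matrix.vecMul (fun l => σ (x l)) (Dt F σ j) =
            (fun l => σ (w l) : Fin (F.n (j + 1)) → A') := by
          rw [dt_row F hσ, hx]
        exact h1
  have hmain := fd_aux (R := A') ((F.bdy k j).submoduleOf (F.cyc k j)) φ ?_ ?_ ?_
    (Module.Finite.equiv e.symm)
  · rw [e.finrank_eq] at hmain
    exact hmain
  · intro c x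
    rw [hφ, hφ]
    have h1 : (⟨(fun l => σ ((c • x).1 l) : Fin (F.n j) → A'), hz (c • x)⟩ :
        (KX F hσ).Z j) = algebraMap k A' c •
          ⟨(fun l => σ (x.1 l) : Fin (F.n j) → A'), hz x⟩ := by
      apply Subtype.ext
      funext l
      have h2 : σ ((c • x).1 l) = c • σ (x.1 l) := map_smul σ c (x.1 l)
      have h3 : c • σ (x.1 l) = algebraMap k A' c * σ (x.1 l) := Algebra.smul_def _ _
      exact h2.trans h3
    rw [h1]
    rfl
  · intro y
    obtain ⟨⟨z, hz'⟩, rfl⟩ := Submodule.Quotient.mk_surjective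
      (((KX F hσ).B j).submoduleOf ((KX F hσ).Z j)) y
    obtain ⟨w, rfl⟩ := surj_row σ (z : Fin (F.n j) → A')
    have h1 : Matrix.vecMul (fun l => σ (w l)) (Dt F σ j) = 0 := hz'
    rw [dt_row F hσ] at h1
    have h2 : act (F.D j) w = 0 := by
      funext m
      have h3 : σ (act (F.D j) w m) = 0 := congrFun h1 m
      exact σ.injective (h3.trans (map_zero σ).symm)
    exact ⟨⟨w, h2⟩, rfl⟩
  · intro x
    rw [hφ]
    constructor
    · intro h
      have h1 := (Submodule.Quotient.mk_eq_zero _).1 h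
      exact (hb x.1).1 h1
    · intro h
      refine (Submodule.Quotient.mk_eq_zero _).2 ?_
      exact (hb x.1).2 h

end aux

theorem exists_cx [IsNoetherianRing A] [IsNoetherianRing Aᵐᵒᵖ] (hA : NormalSep k A)
    (σ : A ≃ₗ[k] A') (hσ : ∀ a b, σ (a * b) = σ b * σ a) :
    ∃ (K : CX A') (q : (K.C 0 ⟶ ModuleCat.of A' A') →ₗ[k] k),
      (∀ j i, ∀ x : Ext (K.C j) (ModuleCat.of A' A') (i + 1), x = 0) ∧
      Function.Surjective q ∧
      (∀ f, q f = 0 ↔ ∃ g : K.C 1 ⟶ ModuleCat.of A' A', K.d 0 ≫ g = f) ∧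
      (∀ j (f : K.C (j + 1) ⟶ ModuleCat.of A' A'), K.d j ≫ f = 0 →
        ∃ g : K.C (j + 2) ⟶ ModuleCat.of A' A', K.d (j + 1) ≫ g = f) ∧
      (∀ j, FinDim k A' (K.E j)) ∧
      (∀ j, fdim k A' (K.E j) = Module.finrank k (Ext (trv k A) (ModuleCat.of A A) j)) := by
  have hfd : FinDim k A (trv k A) := finDim_trivMod (Bialgebra.counitAlgHom k A)
  have : Module.Finite A (trv k A) := hfd.finite
  obtain ⟨F⟩ := FRes.exists (R := A) (V := trv k A)
  have hE := fun j => e_fd F hσ j (ext_finite hA (trv k A) hfd (ModuleCat.of A A) j)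
  refine ⟨KX F hσ, qq F hσ, ?_, ?_, ?_, ?_, fun j => (hE j).1, fun j => (hE j).2⟩
  · intro j i x
    have : Projective ((KX F hσ).C j) := by
      have h1 : Module.Projective A' (Fin (F.n j) → A') := inferInstance
      exact (IsProjective.iff_projective (R := A') (Fin (F.n j) → A')).1 h1
    exact Ext.eq_zero_of_projective x
  · intro c
    obtain ⟨v, hv⟩ := F.surj (c : trv k A)
    refine ⟨cl F hσ 0 v, ?_⟩
    change (F.aug (co F hσ 0 (cl F hσ 0 v)) : k) = c
    rw [co_cl]
    exact hv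
  · intro f
    have h1 : qq F hσ f = 0 ↔ F.aug (co F hσ 0 f) = 0 := Iff.rfl
    rw [h1, F.exact0]
    constructor
    · rintro ⟨u, hu⟩
      refine ⟨cl F hσ 1 u, ?_⟩
      rw [d_cl F hσ 0 u, hu, cl_co]
    · rintro ⟨g, hg⟩
      obtain ⟨u, rfl⟩ := cl_surj F hσ 1 g
      refine ⟨u, ?_⟩
      rw [d_cl F hσ 0 u] at hg
      rw [← hg, co_cl]
  · intro j f hf
    obtain ⟨r, rfl⟩ := cl_surj F hσ (j + 1) f
    rw [d_cl F hσ j r] at hf
    have h0 : cl F hσ j (0 : Fin (F.n j) → A) = 0 := by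
      ext v
      change ∑ l, (v : Fin (F.n j) → A') l • σ ((0 : Fin (F.n j) → A) l) = (0 : A')
      simp
    have h1 : Matrix.vecMul r (F.D j) = 0 := by
      apply cl_inj F hσ j
      rw [hf, h0]
    obtain ⟨u, hu⟩ := (F.exact j r).1 h1
    refine ⟨cl F hσ (j + 2) u, ?_⟩
    rw [d_cl F hσ (j + 1) u, hu]

theorem pair [IsNoetherianRing A] [IsNoetherianRing Aᵐᵒᵖ] (hA : NormalSep k A)
    [IsNoetherianRing A'] [IsNoetherianRing A'ᵐᵒᵖ] (hA' : NormalSep k A')
    (σ : A ≃ₗ[k] A') (hσ : ∀ a b, σ (a * b) = σ b * σ a)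
    (N : ℕ) (hN : HasInjectiveDimensionLE (ModuleCat.of A' A') N) (a b : ℕ)
    (hb : ∀ j, b < j → Module.finrank k (Ext (trv k A) (ModuleCat.of A A) j) = 0)
    (ha : ∀ p, p < a → Module.finrank k (Ext (trv k A') (ModuleCat.of A' A') p) = 0) :
    a ≤ b ∧
    (a < b → Module.finrank k (Ext (trv k A) (ModuleCat.of A A) b) *
      Module.finrank k (Ext (trv k A') (ModuleCat.of A' A') a) = 0) ∧
    (a = b → Module.finrank k (Ext (trv k A) (ModuleCat.of A A) b) *
      Module.finrank k (Ext (trv k A') (ModuleCat.of A' A') b) = 1) := by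
  obtain ⟨K, q, hC, hq, hq', hex, hfd, hdim⟩ := exists_cx hA σ hσ
  have hNE : ∀ i, N < i → ∀ (M : ModuleCat.{u} A') (x : Ext M (ModuleCat.of A' A') i), x = 0 := by
    intro i hi M x
    exact Ext.eq_zero_of_hasInjectiveDimensionLT x (N + 1) (by omega)
  have hEs : ∀ j, b < j → Subsingleton (K.E j) := by
    intro j hj
    have h1 := hdim j
    rw [hb j hj] at h1
    rw [← not_nontrivial_iff_subsingleton]
    intro h2
    have h3 := (fdim_pos_iff (hfd j)).2 h2
    omega
  have hG : ∀ j p, p < a → ∀ x : Ext (K.E j) (ModuleCat.of A' A') p, x = 0 := by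
    intro j p hp x
    refine ext_fd_zero p ?_ (K.E j) (hfd j) x
    have hfin : Module.Finite k (Ext (trv k A') (ModuleCat.of A' A') p) :=
      ext_finite hA' (trv k A') (finDim_trivMod (Bialgebra.counitAlgHom k A'))
        (ModuleCat.of A' A') p
    have h1 : Subsingleton (Ext (trv k A') (ModuleCat.of A' A') p) :=
      Module.finrank_zero_iff.1 (ha p hp)
    intro y
    exact Subsingleton.elim _ _
  refine ⟨?_, ?_, ?_⟩
  · by_contra hcon
    have h1 : Subsingleton k :=
      K.corner_lt hC q hq hq' N hNE a b hEs hG (by omega)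
    exact not_subsingleton k h1
  · intro hab
    have h1 : ∀ x : Ext (K.E b) (ModuleCat.of A' A') a, x = 0 := fun x =>
      K.corner_gt k hC hex N hNE a b hEs hG hab x
    have h2 := finrank_ext hA' (K.E b) (hfd b) a
    have h3 : Subsingleton (Ext (K.E b) (ModuleCat.of A' A') a) :=
      ⟨fun x y => by rw [h1 x, h1 y]⟩
    have h4 : Module.finrank k (Ext (K.E b) (ModuleCat.of A' A') a) = 0 :=
      Module.finrank_zero_of_subsingleton
    rw [h4, hdim b] at h2
    exact h2.symm
  · intro hab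
    subst hab
    obtain ⟨e⟩ := K.corner_eq hC q hq hq' N hNE a hEs hG
    have h2 := finrank_ext hA' (K.E a) (hfd a) a
    rw [e.finrank_eq, Module.finrank_self, hdim a] at h2
    exact h2.symm

end BGN
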