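import Pool.Agent.BGN.Fd

/-!
# BGN Res: resolutions by finitely generated free modules, written with matrices

`act D w` is the product of a matrix over `R` with a column vector in a left `R`-module;
`ract y D` is the product of a row vector in a right `R`-module (a module over `Rᵐᵒᵖ`) with a matrix.
All lemmas of this file are routine sum manipulations.
-/

namespace BGN

open CategoryTheory Abelian

universe u

section

variable {R : Type u} [Ring R] {W : Type u} [AddCommGroup W] [Module R W]
  {W' : Type u} [AddCommGroup W'] [Module R W']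
  {Y : Type u} [AddCommGroup Y] [Module Rᵐᵒᵖ Y] {Y' : Type u} [AddCommGroup Y'] [Module Rᵐᵒᵖ Y']
  {m n p : ℕ}

/-- matrix times column vector with entries in a left module. -/
def act (D : Matrix (Fin m) (Fin n) R) (w : Fin n → W) : Fin m → W := fun j => ∑ l, D j l • w l

/-- row vector with entries in a right module times matrix. -/
def ract (y : Fin m → Y) (D : Matrix (Fin m) (Fin n) R) : Fin n → Y :=
  fun l => ∑ j, MulOpposite.op (D j l) • y j

theorem act_add (D : Matrix (Fin m) (Fin n) R) (w w' : Fin n → W) :
    act D (w + w') = act D w + act D w' := by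
  funext j
  simp only [act, Pi.add_apply, smul_add, Finset.sum_add_distrib]

theorem act_sub (D : Matrix (Fin m) (Fin n) R) (w w' : Fin n → W) :
    act D (w - w') = act D w - act D w' := by
  funext j
  simp only [act, Pi.sub_apply, smul_sub, Finset.sum_sub_distrib]

theorem act_zero (D : Matrix (Fin m) (Fin n) R) : act D (0 : Fin n → W) = 0 := by
  funext j
  simp only [act, Pi.zero_apply, smul_zero, Finset.sum_const_zero]

theorem act_act (D : Matrix (Fin m) (Fin n) R) (D' : Matrix (Fin n) (Fin p) R) (w : Fin p → W) :
    act D (act D' w) = act (D * D') w := by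
  funext j
  simp only [act, Matrix.mul_apply, Finset.smul_sum, Finset.sum_smul, smul_smul]
  rw [Finset.sum_comm]

theorem act_map (f : W →ₗ[R] W') (D : Matrix (Fin m) (Fin n) R) (w : Fin n → W) :
    act D (fun l => f (w l)) = fun j => f (act D w j) := by
  funext j
  simp only [act, map_sum, map_smul]

theorem ract_add (D : Matrix (Fin m) (Fin n) R) (y y' : Fin m → Y) :
    ract (y + y') D = ract y D + ract y' D := by
  funext j
  simp only [ract, Pi.add_apply, smul_add, Finset.sum_add_distrib]

theorem ract_sub (D : Matrix (Fin m) (Fin n) R) (y y' : Fin m → Y) :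
    ract (y - y') D = ract y D - ract y' D := by
  funext j
  simp only [ract, Pi.sub_apply, smul_sub, Finset.sum_sub_distrib]

theorem ract_zero (D : Matrix (Fin m) (Fin n) R) : ract (0 : Fin m → Y) D = 0 := by
  funext j
  simp only [ract, Pi.zero_apply, smul_zero, Finset.sum_const_zero]

theorem ract_ract (D : Matrix (Fin m) (Fin n) R) (D' : Matrix (Fin n) (Fin p) R) (y : Fin m → Y) :
    ract (ract y D) D' = ract y (D * D') := by
  funext l
  simp only [ract, Matrix.mul_apply, Finset.smul_sum, smul_smul]
  have h : ∀ x : Fin m, MulOpposite.op (∑ j, D x j * D' j l) • y x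
      = ∑ j, (MulOpposite.op (D' j l) * MulOpposite.op (D x j)) • y x := by
    intro x
    have h2 : MulOpposite.op (∑ j, D x j * D' j l)
        = ∑ j, MulOpposite.op (D' j l) * MulOpposite.op (D x j) := by
      simp
    rw [h2, Finset.sum_smul]
  simp only [h]
  rw [Finset.sum_comm]

theorem ract_map (f : Y →ₗ[Rᵐᵒᵖ] Y') (D : Matrix (Fin m) (Fin n) R) (y : Fin m → Y) :
    ract (fun j => f (y j)) D = fun l => f (ract y D l) := by
  funext l
  simp only [ract, map_sum, map_smul]

end

/-- A resolution of `V` by finitely generated free left modules `R^{n i}` (row vectors), with maps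
`v ↦ v ᵥ* D i`. -/
structure FRes (R : Type u) [Ring R] (V : Type u) [AddCommGroup V] [Module R V] where
  n : ℕ → ℕ
  D : ∀ i, Matrix (Fin (n (i + 1))) (Fin (n i)) R
  aug : (Fin (n 0) → R) →ₗ[R] V
  surj : Function.Surjective aug
  exact0 : ∀ v : Fin (n 0) → R, aug v = 0 ↔ ∃ u : Fin (n 1) → R, Matrix.vecMul u (D 0) = v
  exact : ∀ (i : ℕ) (v : Fin (n (i + 1)) → R),
    Matrix.vecMul v (D i) = 0 ↔ ∃ u : Fin (n (i + 2)) → R, Matrix.vecMul u (D (i + 1)) = v

variable {R : Type u} [Ring R] {V : Type u} [AddCommGroup V] [Module R V]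

/-- `D (i+1) * D i = 0`: apply `exact` to the rows of `D (i+1)`. -/
theorem FRes.mul_eq_zero (F : FRes R V) (i : ℕ) : F.D (i + 1) * F.D i = 0 := by
  ext a b
  have h := (F.exact i (fun c => F.D (i + 1) a c)).mpr ⟨Pi.single a 1, ?_⟩
  · have h1 := congrFun h b
    rw [Matrix.mul_apply]
    simpa [Matrix.vecMul, dotProduct] using h1
  · rw [Matrix.single_one_vecMul]
    rfl

/-- Existence: recursion.  Step: given a surjection `R^{n i} → Ω_i ⊆ R^{n (i-1)}` (image of the
previous matrix), its kernel is a submodule of `R^{n i}`, finitely generated as `R` is left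
noetherian; the rows of `D i` are generators of it.  Formally build by `Nat.rec` the sequence of
pairs (finitely generated submodule `K i` of `Fin (n i) → R`), `K 0 = ker aug`,
`D i` = rows generating `K i`, `K (i+1) = ker (v ↦ v ᵥ* D i)`. -/
theorem FRes.exists [IsNoetherianRing R] [Module.Finite R V] : Nonempty (FRes R V) := by
  classical
  obtain ⟨n0, aug, haug⟩ := Module.Finite.exists_fin' R V
  have step : ∀ (n : ℕ) (K : Submodule R (Fin n → R)),
      ∃ (m : ℕ) (D : Matrix (Fin m) (Fin n) R),
        ∀ v, v ∈ K ↔ ∃ u : Fin m → R, Matrix.vecMul u D = v := by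
    intro n K
    obtain ⟨m, f, hf⟩ := Module.Finite.exists_fin' R K
    refine ⟨m, Matrix.of fun a b => (f (Pi.single a 1) : Fin n → R) b, fun v => ?_⟩
    have key : ∀ u : Fin m → R, Matrix.vecMul u (Matrix.of fun a b =>
        (f (Pi.single a 1) : Fin n → R) b) = (f u : Fin n → R) := by
      intro u
      have h1 : u = ∑ a, u a • (Pi.single a (1 : R) : Fin m → R) := by
        funext b
        simp [Finset.sum_apply, Pi.single_apply]
      conv_rhs => rw [h1]
      rw [map_sum]
      funext b
      simp [Matrix.vecMul, dotProduct, Finset.sum_apply]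
    constructor
    · intro hv
      obtain ⟨u, hu⟩ := hf ⟨v, hv⟩
      exact ⟨u, by rw [key, hu]⟩
    · rintro ⟨u, hu⟩
      rw [← hu, key]
      exact (f u).2
  choose m D hD using step
  let kr : ∀ n k : ℕ, Matrix (Fin k) (Fin n) R → Submodule R (Fin k → R) := fun n k M =>
    { carrier := {v | Matrix.vecMul v M = 0}
      add_mem' := by
        intro a b ha hb
        change Matrix.vecMul (a + b) M = 0
        have ha' : Matrix.vecMul a M = 0 := ha
        have hb' : Matrix.vecMul b M = 0 := hb
        rw [Matrix.add_vecMul, ha', hb', add_zero]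
      zero_mem' := by simp
      smul_mem' := by
        intro c x hx
        change Matrix.vecMul (c • x) M = 0
        have hx' : Matrix.vecMul x M = 0 := hx
        rw [Matrix.smul_vecMul, hx', smul_zero] }
  let st : ℕ → Σ n : ℕ, Submodule R (Fin n → R) := fun i =>
    Nat.rec ⟨n0, LinearMap.ker aug⟩ (fun _ p => ⟨m p.1 p.2, kr p.1 (m p.1 p.2) (D p.1 p.2)⟩) i
  refine ⟨{ n := fun i => (st i).1
            D := fun i => D (st i).1 (st i).2
            aug := aug
            surj := haug
            exact0 := ?_
            exact := ?_ }⟩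
  · intro v
    exact hD n0 (LinearMap.ker aug) v
  · intro i v
    exact hD (st (i + 1)).1 (st (i + 1)).2 v

end BGN
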